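import Pool.Agent.Helper514.Cheb.Extract2

set_option autoImplicit false

open MeasureTheory Set Filter Topology

namespace Pool.Agent.Helper514.Cheb

lemma RTP.even_repr {p D : ℕ} {G : ℝ → ℝ} (h : RTP p D G) (he : ∀ t, G (-t) = G t) :
    ∃ c w : ℕ → ℝ, (∀ j ∈ Finset.range (2 * D + 1), 0 ≤ w j ∧ w j ≤ D / p) ∧
      ∀ t, G t = ∑ j ∈ Finset.range (2 * D + 1), c j * Real.cos (w j * t) := by
  obtain ⟨F, hF, hFG⟩ := h
  obtain ⟨Q, hQ, hQF⟩ := hF.eq_form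
  have h1 : ∀ t : ℝ, (G t : ℂ) = ∑ j ∈ Finset.range (2 * D + 1), Q.coeff j * Complex.exp (((((j:ℝ) - D) / p * t : ℝ) : ℂ) * Complex.I) := by
    intro t
    rw [← hFG, hQF, Polynomial.eval_eq_sum_range' (n := 2 * D + 1) (by omega), Finset.mul_sum]
    refine Finset.sum_congr rfl fun j _ => ?_
    rw [← Complex.exp_nat_mul, mul_left_comm, ← Complex.exp_add]
    congr 2
    push_cast
    ring
  have h2 : ∀ t : ℝ, G t = ∑ j ∈ Finset.range (2 * D + 1), ((Q.coeff j).re * Real.cos (((j:ℝ) - D) / p * t) -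
      (Q.coeff j).im * Real.sin (((j:ℝ) - D) / p * t)) := by
    intro t
    have h3 := congrArg Complex.re (h1 t)
    rw [Complex.ofReal_re, Complex.re_sum] at h3
    rw [h3]
    refine Finset.sum_congr rfl fun j _ => ?_
    rw [Complex.mul_re, Complex.exp_ofReal_mul_I_re, Complex.exp_ofReal_mul_I_im]
  refine ⟨fun j => (Q.coeff j).re, fun j => |((j:ℝ) - D) / p|, ?_, ?_⟩
  · intro j hj
    refine ⟨abs_nonneg _, ?_⟩
    show |((j:ℝ) - D) / p| ≤ _
    rw [abs_div, abs_of_nonneg (by positivity : (0:ℝ) ≤ p)]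
    gcongr
    rw [Finset.mem_range] at hj
    have h4 : (j:ℝ) ≤ 2 * D := by
      have : j ≤ 2 * D := by omega
      exact_mod_cast this
    rw [abs_le]; constructor
    · have : (0:ℝ) ≤ j := by positivity
      linarith
    · linarith
  · intro t
    have h4 : G t = (G t + G (-t)) / 2 := by rw [he]; ring
    have h5 : ∀ j : ℕ, Real.cos (|((j:ℝ) - D) / p| * t) = Real.cos (((j:ℝ) - D) / p * t) := by
      intro j
      rcases abs_choice (((j:ℝ) - D) / p) with h | h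
      · rw [h]
      · rw [h, neg_mul, Real.cos_neg]
    rw [h4, h2 t, h2 (-t), ← Finset.sum_add_distrib, Finset.sum_div]
    refine Finset.sum_congr rfl fun j _ => ?_
    show _ = (Q.coeff j).re * Real.cos (|((j:ℝ) - D) / p| * t)
    rw [h5, mul_neg, Real.cos_neg, Real.sin_neg]
    ring

structure Lim (σ κ' C : ℝ) (v T : ℕ → ℝ) : Prop where
  hκ : 0 < κ'
  hC : 0 < C
  hv : ∀ i, v i = 0 ∨ v i = 1
  hT : ∀ i, 0 ≤ T i
  cnt : ∀ i : ℕ, v i * ((i:ℝ) + 1) ≤ C * (1 + T i) ^ 4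
  ex : ∀ ω ε : ℝ, 0 ≤ ω → 0 < ε → ω + 8 * ε ≤ σ →
    ∑' i, v i * (Real.cos (ω * T i) * chi ε (T i)) = κ' * ∫ t in Ioi (0:ℝ), Real.cos (ω * t) * chi ε t * t

theorem Lim_scale {κμ C ρ : ℝ} {v τ : ℕ → ℝ} (hκ : 0 < κμ) (hC : 0 < C) (hρ : 1 ≤ ρ)
    (hv : ∀ i, v i = 0 ∨ v i = 1) (hτ : ∀ i, 0 ≤ τ i) (hcnt : ∀ i : ℕ, v i * ((i:ℝ) + 1) ≤ C * (1 + τ i) ^ 4)
    (hex : ∀ ω ε : ℝ, 0 ≤ ω → 0 < ε → ω + 8 * ε ≤ 1 →
        ∑' i, v i * (Real.cos (ω * τ i) * chi ε (τ i)) = κμ * ∫ t in Ioi (0:ℝ), Real.cos (ω * t) * chi ε t * t) :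
    Lim ρ (ρ ^ 2 * κμ) (C * ρ ^ 4) v (fun i => τ i / ρ) := by
  have hρ0 : 0 < ρ := by linarith
  refine ⟨by positivity, by positivity, hv, fun i => div_nonneg (hτ i) hρ0.le, ?_, ?_⟩
  · intro i
    refine (hcnt i).trans ?_
    rw [mul_assoc, ← mul_pow]
    have h1 : 1 + τ i ≤ ρ * (1 + τ i / ρ) := by
      have : ρ * (1 + τ i / ρ) = ρ + τ i := by field_simp
      rw [this]; linarith
    have h2 := hτ i
    gcongr
  · intro ω ε hω hε h
    have h1 := hex (ω / ρ) (ε / ρ) (by positivity) (by positivity) (by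
      rw [← mul_div_assoc, ← add_div, div_le_one hρ0]; exact h)
    have e1 : ∀ i, v i * (Real.cos (ω / ρ * τ i) * chi (ε / ρ) (τ i)) =
        v i * (Real.cos (ω * (τ i / ρ)) * chi ε (τ i / ρ)) := by
      intro i
      unfold chi
      rw [show ω / ρ * τ i = ω * (τ i / ρ) by ring, show ε / ρ * τ i = ε * (τ i / ρ) by ring]
    rw [tsum_congr e1] at h1
    show ∑' i, v i * (Real.cos (ω * (τ i / ρ)) * chi ε (τ i / ρ)) = _
    rw [h1]
    have h2 := integral_comp_mul_left_Ioi (fun t : ℝ => Real.cos (ω / ρ * t) * chi (ε / ρ) t * t) 0 hρ0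
    rw [mul_zero] at h2
    have h3 : (fun x : ℝ => (fun t : ℝ => Real.cos (ω / ρ * t) * chi (ε / ρ) t * t) (ρ * x)) =
        fun x => ρ * (Real.cos (ω * x) * chi ε x * x) := by
      funext x
      show Real.cos (ω / ρ * (ρ * x)) * chi (ε / ρ) (ρ * x) * (ρ * x) = _
      unfold chi
      rw [show ω / ρ * (ρ * x) = ω * x by field_simp, show ε / ρ * (ρ * x) = ε * x by field_simp]
      ring
    rw [h3, integral_const_mul] at h2
    rw [smul_eq_mul] at h2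
    have h4 : ∫ t in Ioi (0:ℝ), Real.cos (ω / ρ * t) * chi (ε / ρ) t * t =
        ρ ^ 2 * ∫ x in Ioi (0:ℝ), Real.cos (ω * x) * chi ε x * x := by
      have : ∫ t in Ioi (0:ℝ), Real.cos (ω / ρ * t) * chi (ε / ρ) t * t =
        ρ * (ρ⁻¹ * ∫ t in Ioi (0:ℝ), Real.cos (ω / ρ * t) * chi (ε / ρ) t * t) := by field_simp
      rw [this, ← h2]; ring
    rw [h4]; ring

end Pool.Agent.Helper514.Cheb
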