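import Pool.Agent.Helper514.Cheb.Base1

set_option autoImplicit false

open MeasureTheory Set Filter Topology

namespace Pool.Agent.Helper514.Cheb

namespace Lim

variable {σ κ' C : ℝ} {v T : ℕ → ℝ}

lemma v_nonneg (h : Lim σ κ' C v T) (i : ℕ) : 0 ≤ v i := by
  rcases h.hv i with h | h <;> rw [h] <;> norm_num

lemma v_le (h : Lim σ κ' C v T) (i : ℕ) : v i ≤ 1 := by
  rcases h.hv i with h | h <;> rw [h] <;> norm_num

/-- bound on the weights -/
lemma a_bound (h : Lim σ κ' C v T) {ε : ℝ} (hε : 0 < ε) (i : ℕ) :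
    v i * chi ε (T i) ≤ (1 + 1 / ε) ^ 8 * C ^ 2 * (1 / ((i:ℝ) + 1) ^ 2) := by
  have hT := h.hT i
  have h1 := chi_decay hε hT
  have h2 := h.cnt i
  have hC := h.hC
  rcases h.hv i with hv | hv
  · rw [hv, zero_mul]; positivity
  · rw [hv, one_mul] at h2 ⊢
    rw [mul_one_div, le_div_iff₀ (by positivity)]
    have h3 : ((i:ℝ) + 1) ^ 2 ≤ (C * (1 + T i) ^ 4) ^ 2 := by gcongr
    have h4 := chi_nonneg ε (T i)
    calc chi ε (T i) * ((i:ℝ) + 1) ^ 2 ≤ chi ε (T i) * (C * (1 + T i) ^ 4) ^ 2 := by gcongr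
      _ = (chi ε (T i) * (1 + T i) ^ 8) * C ^ 2 := by ring
      _ ≤ _ := by gcongr

lemma summ0 : Summable (fun i : ℕ => 1 / ((i:ℝ) + 1) ^ 2) := by
  have h2 := (summable_nat_add_iff (f := fun n : ℕ => 1 / (n:ℝ) ^ 2) 1).mpr
    (Real.summable_one_div_nat_pow.mpr (by norm_num))
  refine h2.congr fun i => ?_
  push_cast; rfl

lemma summ (h : Lim σ κ' C v T) {ε : ℝ} (hε : 0 < ε) {g : ℕ → ℝ} {B : ℝ} (hB : ∀ i, |g i| ≤ B) :
    Summable (fun i => v i * chi ε (T i) * g i) := by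
  have hB0 : 0 ≤ B := (abs_nonneg _).trans (hB 0)
  refine Summable.of_norm_bounded (g := fun i : ℕ => ((1 + 1 / ε) ^ 8 * C ^ 2 * B) * (1 / ((i:ℝ) + 1) ^ 2)) (summ0.mul_left _) ?_
  intro i
  have h1 := h.a_bound hε i
  have h2 : 0 ≤ v i * chi ε (T i) := mul_nonneg (h.v_nonneg i) (chi_nonneg _ _)
  rw [Real.norm_eq_abs, abs_mul, abs_of_nonneg h2]
  calc v i * chi ε (T i) * |g i| ≤ ((1 + 1 / ε) ^ 8 * C ^ 2 * (1 / ((i:ℝ) + 1) ^ 2)) * B := by
        gcongr; exact hB i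
    _ = _ := by ring

/-- total exactness for band-limited functions -/
lemma exG (h : Lim σ κ' C v T) {ε : ℝ} (hε : 0 < ε) {p D : ℕ} {G : ℝ → ℝ} (hG : RTP p D G)
    (he : ∀ t, G (-t) = G t) (hD : (D:ℝ) / p + 8 * ε ≤ σ) :
    ∑' i, v i * chi ε (T i) * G (T i) = κ' * ∫ t in Ioi (0:ℝ), G t * (chi ε t * t) := by
  obtain ⟨c, w, hw, hGr⟩ := hG.even_repr he
  have h1 : ∀ i, v i * chi ε (T i) * G (T i) =
      ∑ j ∈ Finset.range (2 * D + 1), c j * (v i * chi ε (T i) * Real.cos (w j * T i)) := by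
    intro i
    rw [hGr, Finset.mul_sum]
    refine Finset.sum_congr rfl fun j _ => ?_
    ring
  rw [tsum_congr h1, Summable.tsum_finsetSum (fun j _ =>
    (h.summ hε (g := fun i => Real.cos (w j * T i)) (B := 1) (fun i => Real.abs_cos_le_one _)).mul_left (c j))]
  have h2 : ∀ j ∈ Finset.range (2 * D + 1), ∑' i, c j * (v i * chi ε (T i) * Real.cos (w j * T i)) =
      c j * (κ' * ∫ t in Ioi (0:ℝ), Real.cos (w j * t) * (chi ε t * t)) := by
    intro j hj
    rw [tsum_mul_left]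
    congr 1
    have h3 := h.ex (w j) ε (hw j hj).1 hε (by linarith [(hw j hj).2])
    have h4 : ∀ i, v i * chi ε (T i) * Real.cos (w j * T i) = v i * (Real.cos (w j * T i) * chi ε (T i)) := by
      intro i; ring
    rw [tsum_congr h4, h3]
    congr 2
    funext t; ring
  rw [Finset.sum_congr rfl h2]
  have h5 : (fun t => G t * (chi ε t * t)) = fun t => ∑ j ∈ Finset.range (2 * D + 1), c j * (Real.cos (w j * t) * (chi ε t * t)) := by
    funext t; rw [hGr, Finset.sum_mul]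
    refine Finset.sum_congr rfl fun j _ => ?_
    ring
  rw [h5, integral_finsetSum]
  · rw [Finset.mul_sum]
    refine Finset.sum_congr rfl fun j _ => ?_
    rw [integral_const_mul]; ring
  · intro j _
    exact (chi_int' hε (g := fun t => Real.cos (w j * t)) (by fun_prop) (B := 1) (fun t => Real.abs_cos_le_one _)).const_mul (c j)

end Lim

/-- atomic tail -/
noncomputable def tA (ε : ℝ) (v T : ℕ → ℝ) (r : ℝ) : ℝ := ∑' i, v i * chi ε (T i) * (if r < T i then (1:ℝ) else 0)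
noncomputable def tB (κ' ε r : ℝ) : ℝ := κ' * ∫ t in Ioi r, chi ε t * t
noncomputable def tl (κ' ε : ℝ) (v T : ℕ → ℝ) (r : ℝ) : ℝ := tA ε v T r + tB κ' ε r
noncomputable def Aa (ε : ℝ) (v T : ℕ → ℝ) (r : ℝ) : ℝ := ∑' i, v i * chi ε (T i) * (if T i ≤ r then (1:ℝ) else 0)
noncomputable def Bb (κ' ε r : ℝ) : ℝ := κ' * ∫ t in (0:ℝ)..r, chi ε t * t
noncomputable def La (κ' ε : ℝ) (v T : ℕ → ℝ) (r : ℝ) : ℝ := Aa ε v T r - Bb κ' ε r

namespace Lim

variable {σ κ' C : ℝ} {v T : ℕ → ℝ}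

lemma ind_abs (q : Prop) [Decidable q] : |(if q then (1:ℝ) else 0)| ≤ 1 := by
  split_ifs <;> norm_num

lemma a_nonneg (h : Lim σ κ' C v T) (ε : ℝ) (i : ℕ) : 0 ≤ v i * chi ε (T i) :=
  mul_nonneg (h.v_nonneg i) (chi_nonneg _ _)

lemma tA_nonneg (h : Lim σ κ' C v T) (ε r : ℝ) : 0 ≤ tA ε v T r :=
  tsum_nonneg fun i => mul_nonneg (h.a_nonneg ε i) (by split_ifs <;> norm_num)

lemma tB_nonneg (h : Lim σ κ' C v T) (ε : ℝ) {r : ℝ} (hr : 0 ≤ r) : 0 ≤ tB κ' ε r := by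
  unfold tB
  apply mul_nonneg h.hκ.le
  apply setIntegral_nonneg measurableSet_Ioi
  intro t ht
  have : r < t := ht
  exact mul_nonneg (chi_nonneg _ _) (by linarith)

lemma tA_anti (h : Lim σ κ' C v T) {ε : ℝ} (hε : 0 < ε) {r s : ℝ} (hrs : r ≤ s) : tA ε v T s ≤ tA ε v T r := by
  unfold tA
  apply Summable.tsum_le_tsum
  · intro i
    apply mul_le_mul_of_nonneg_left _ (h.a_nonneg ε i)
    split_ifs with h1 h2
    · exact le_rfl
    · exact absurd (lt_of_le_of_lt hrs h1) h2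
    · norm_num
    · exact le_rfl
  · exact h.summ hε (B := 1) (fun i => ind_abs _)
  · exact h.summ hε (B := 1) (fun i => ind_abs _)

lemma tB_anti (h : Lim σ κ' C v T) {ε : ℝ} (hε : 0 < ε) {r s : ℝ} (hr : 0 ≤ r) (hrs : r ≤ s) : tB κ' ε s ≤ tB κ' ε r := by
  unfold tB
  apply mul_le_mul_of_nonneg_left _ h.hκ.le
  apply setIntegral_mono_set
  · exact (chi_int hε).mono_set (Ioi_subset_Ioi hr)
  · filter_upwards [ae_restrict_mem measurableSet_Ioi] with t ht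
    have : r < t := ht
    exact mul_nonneg (chi_nonneg _ _) (by linarith)
  · exact (Ioi_subset_Ioi hrs).eventuallyLE

lemma tl_anti (h : Lim σ κ' C v T) {ε : ℝ} (hε : 0 < ε) {r s : ℝ} (hr : 0 ≤ r) (hrs : r ≤ s) :
    tl κ' ε v T s ≤ tl κ' ε v T r := add_le_add (h.tA_anti hε hrs) (h.tB_anti hε hr hrs)

lemma tl_nonneg (h : Lim σ κ' C v T) (ε : ℝ) {r : ℝ} (hr : 0 ≤ r) : 0 ≤ tl κ' ε v T r :=
  add_nonneg (h.tA_nonneg ε r) (h.tB_nonneg ε hr)

lemma Bb_add {ε : ℝ} (hε : 0 < ε) {r : ℝ} (hr : 0 ≤ r) : Bb κ' ε r + tB κ' ε r = κ' * ∫ t in Ioi (0:ℝ), chi ε t * t := by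
  unfold Bb tB
  rw [← mul_add]
  congr 1
  exact intervalIntegral.integral_interval_add_Ioi (chi_int hε) ((chi_int hε).mono_set (Ioi_subset_Ioi hr))

lemma tl_tendsto (h : Lim σ κ' C v T) {ε : ℝ} (hε : 0 < ε) : Tendsto (tl κ' ε v T) atTop (𝓝 0) := by
  have h1 : Tendsto (fun r => tA ε v T r) atTop (𝓝 (∑' i : ℕ, v i * chi ε (T i) * 0)) := by
    unfold tA
    apply tendsto_tsum_of_dominated_convergence (summ0.mul_left ((1 + 1 / ε) ^ 8 * C ^ 2))
    · intro i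
      apply Tendsto.const_mul
      apply tendsto_const_nhds.congr'
      filter_upwards [eventually_ge_atTop (T i)] with r hr
      rw [if_neg (not_lt.mpr hr)]
    · refine Eventually.of_forall fun r i => ?_
      rw [Real.norm_eq_abs, abs_mul, abs_of_nonneg (h.a_nonneg ε i)]
      calc v i * chi ε (T i) * |if r < T i then (1:ℝ) else 0| ≤ v i * chi ε (T i) * 1 := by
            apply mul_le_mul_of_nonneg_left (ind_abs _) (h.a_nonneg ε i)
        _ ≤ _ := by rw [mul_one]; exact h.a_bound hε i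
  have h2 : Tendsto (fun r => tB κ' ε r) atTop (𝓝 0) := by
    have h3 := (intervalIntegral_tendsto_integral_Ioi (0:ℝ) (chi_int hε) tendsto_id).const_mul κ'
    have h4 : Tendsto (fun r : ℝ => κ' * (∫ t in Ioi (0:ℝ), chi ε t * t) - κ' * ∫ t in (0:ℝ)..(id r), chi ε t * t) atTop
        (𝓝 (κ' * (∫ t in Ioi (0:ℝ), chi ε t * t) - κ' * (∫ t in Ioi (0:ℝ), chi ε t * t))) := tendsto_const_nhds.sub h3
    rw [sub_self] at h4
    refine h4.congr' ?_
    filter_upwards [eventually_ge_atTop (0:ℝ)] with r hr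
    have := Bb_add (κ' := κ') hε hr
    unfold Bb at this
    simp only [id]
    linarith
  simp only [mul_zero, tsum_zero] at h1
  have := h1.add h2
  rw [add_zero] at this
  exact this

lemma Aa_add (h : Lim σ κ' C v T) {ε : ℝ} (hε : 0 < ε) (r : ℝ) : Aa ε v T r + tA ε v T r = ∑' i, v i * chi ε (T i) := by
  unfold Aa tA
  rw [← Summable.tsum_add (h.summ hε (B := 1) (fun i => ind_abs _)) (h.summ hε (B := 1) (fun i => ind_abs _))]
  apply tsum_congr
  intro i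
  by_cases h1 : T i ≤ r
  · rw [if_pos h1, if_neg (not_lt.mpr h1)]; ring
  · rw [if_neg h1, if_pos (not_le.mp h1)]; ring

lemma total (h : Lim σ κ' C v T) {ε : ℝ} (hε : 0 < ε) (hσ : 8 * ε ≤ σ) :
    ∑' i, v i * chi ε (T i) = κ' * ∫ t in Ioi (0:ℝ), chi ε t * t := by
  have := h.ex 0 ε le_rfl hε (by linarith)
  simpa using this

lemma La_eq (h : Lim σ κ' C v T) {ε : ℝ} (hε : 0 < ε) (hσ : 8 * ε ≤ σ) {r : ℝ} (hr : 0 ≤ r) :
    La κ' ε v T r = tB κ' ε r - tA ε v T r := by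
  unfold La
  have h1 := h.Aa_add hε r
  have h2 := Bb_add (κ' := κ') hε hr
  rw [h.total hε hσ] at h1
  linarith

lemma La_abs (h : Lim σ κ' C v T) {ε : ℝ} (hε : 0 < ε) (hσ : 8 * ε ≤ σ) {r : ℝ} (hr : 0 ≤ r) :
    |La κ' ε v T r| ≤ tl κ' ε v T r := by
  rw [h.La_eq hε hσ hr]
  have h1 := h.tA_nonneg ε r
  have h2 := h.tB_nonneg ε hr
  unfold tl
  rw [abs_le]; constructor <;> linarith

lemma Aa_mono (h : Lim σ κ' C v T) {ε : ℝ} (hε : 0 < ε) : Monotone (Aa ε v T) := by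
  intro r s hrs
  have h1 := h.Aa_add hε r
  have h2 := h.Aa_add hε s
  have h3 := h.tA_anti hε hrs
  linarith

lemma Bb_cont (κ' ε : ℝ) : Continuous (Bb κ' ε) := by
  unfold Bb
  apply Continuous.mul continuous_const
  exact intervalIntegral.continuous_primitive (fun a b => ((chi_cont ε).mul continuous_id).intervalIntegrable a b) 0

lemma La_int (h : Lim σ κ' C v T) {ε : ℝ} (hε : 0 < ε) (a b : ℝ) : IntervalIntegrable (La κ' ε v T) volume a b := by
  unfold La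
  exact ((h.Aa_mono hε).intervalIntegrable).sub ((Bb_cont κ' ε).intervalIntegrable a b)

end Lim

end Pool.Agent.Helper514.Cheb
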