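import Pool.Agent.Helper514.Cheb.Base2

set_option autoImplicit false

open MeasureTheory Set Filter Topology

namespace Pool.Agent.Helper514.Cheb

lemma fold_pt {p D : ℕ} (hp : 0 < p) {G : ℝ → ℝ} (hG : RTP p D G) (he : ∀ t, G (-t) = G t) (t : ℝ) :
    ∃ t' : ℝ, 0 ≤ t' ∧ t' ≤ Real.pi * p ∧ G t = G t' := by
  obtain ⟨k, hk⟩ := exists_rep hp 0 t
  rw [sub_zero] at hk
  refine ⟨|t - k * (2 * Real.pi * p)|, abs_nonneg _, hk, ?_⟩
  rw [← per_int (hG.per hp) k t]
  rcases abs_choice (t - k * (2 * Real.pi * p)) with h | h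
  · rw [h]
  · rw [h, he]

lemma osc_bound {p D : ℕ} (hp : 0 < p) {G : ℝ → ℝ} (hG : RTP p D G) (he : ∀ t, G (-t) = G t) (t : ℝ) :
    |G (Real.pi * p) - G t| ≤ ∫ s in (0:ℝ)..(Real.pi * p), |deriv G s| := by
  obtain ⟨t', h0, h1, h2⟩ := fold_pt hp hG he t
  rw [h2]
  have hdc : Continuous (deriv G) := hG.deriv.continuous
  have h3 : ∫ s in t'..(Real.pi * p), deriv G s = G (Real.pi * p) - G t' :=
    intervalIntegral.integral_eq_sub_of_hasDerivAt (fun s _ => (hG.differentiable s).hasDerivAt) (hdc.intervalIntegrable _ _)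
  rw [← h3]
  calc |∫ s in t'..(Real.pi * p), deriv G s| ≤ ∫ s in t'..(Real.pi * p), |deriv G s| :=
        intervalIntegral.abs_integral_le_integral_abs h1
    _ ≤ _ := by
        apply intervalIntegral.integral_mono_interval h0 h1 le_rfl
        · exact Eventually.of_forall fun s => abs_nonneg _
        · exact hdc.abs.intervalIntegrable _ _

namespace Lim

variable {σ κ' C : ℝ} {v T : ℕ → ℝ}

lemma trunc (h : Lim σ κ' C v T) {R : ℝ} (hR : 0 ≤ R) : ∃ K : ℕ, ∀ i, K ≤ i → v i = 0 ∨ R < T i := by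
  refine ⟨⌈C * (1 + R) ^ 4⌉₊, fun i hi => ?_⟩
  rcases h.hv i with hv | hv
  · left; exact hv
  · right
    by_contra hcon
    push Not at hcon
    have h1 := h.cnt i
    rw [hv, one_mul] at h1
    have h2 : C * (1 + R) ^ 4 ≤ ((⌈C * (1 + R) ^ 4⌉₊ : ℕ) : ℝ) := Nat.le_ceil _
    have h3 : ((⌈C * (1 + R) ^ 4⌉₊ : ℕ) : ℝ) ≤ i := by exact_mod_cast hi
    have h4 : C * (1 + T i) ^ 4 ≤ C * (1 + R) ^ 4 := by
      have := h.hC
      have := h.hT i
      gcongr
    linarith

lemma Aa_trunc {ε : ℝ} {K : ℕ} {R : ℝ} (hK : ∀ i, K ≤ i → v i = 0 ∨ R < T i) {r : ℝ} (hr : r ≤ R) :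
    Aa ε v T r = ∑ i ∈ Finset.range K, v i * chi ε (T i) * (if T i ≤ r then (1:ℝ) else 0) := by
  unfold Aa
  apply tsum_eq_sum
  intro i hi
  rw [Finset.mem_range, not_lt] at hi
  rcases hK i hi with h | h
  · rw [h]; ring
  · rw [if_neg (not_le.mpr (lt_of_le_of_lt hr h)), mul_zero]

lemma int_Aa (h : Lim σ κ' C v T) (ε : ℝ) {G : ℝ → ℝ} (hGd : ∀ t, HasDerivAt G (deriv G t) t)
    (hdc : Continuous (deriv G)) {L : ℝ} (hL : 0 ≤ L) :
    IntervalIntegrable (fun t => deriv G t * Aa ε v T t) volume 0 L ∧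
    ∫ t in (0:ℝ)..L, deriv G t * Aa ε v T t =
      ∑' i, v i * chi ε (T i) * (if T i ≤ L then G L - G (T i) else 0) := by
  obtain ⟨K, hK⟩ := h.trunc hL
  have e1 : EqOn (fun t => deriv G t * Aa ε v T t)
      (fun t => ∑ i ∈ Finset.range K, v i * chi ε (T i) * (deriv G t * (if T i ≤ t then (1:ℝ) else 0))) (uIcc 0 L) := by
    intro t ht
    rw [uIcc_of_le hL] at ht
    show deriv G t * Aa ε v T t = _
    rw [Aa_trunc hK ht.2, Finset.mul_sum]
    refine Finset.sum_congr rfl fun i _ => ?_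
    ring
  have hii : ∀ i, IntervalIntegrable (fun t => deriv G t * (if T i ≤ t then (1:ℝ) else 0)) volume 0 L ∧
      ∫ t in (0:ℝ)..L, deriv G t * (if T i ≤ t then (1:ℝ) else 0) = if T i ≤ L then G L - G (T i) else 0 := by
    intro i
    by_cases hi : T i ≤ L
    · obtain ⟨h1, h2⟩ := ind_int (T i) L (h.hT i) hi hdc
      refine ⟨h1, ?_⟩
      rw [h2, if_pos hi]
      exact intervalIntegral.integral_eq_sub_of_hasDerivAt (fun t _ => hGd t) (hdc.intervalIntegrable _ _)
    · have e2 : EqOn (fun t => deriv G t * (if T i ≤ t then (1:ℝ) else 0)) (fun _ => (0:ℝ)) (uIcc 0 L) := by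
        intro t ht
        rw [uIcc_of_le hL] at ht
        have : ¬ T i ≤ t := fun hc => hi (hc.trans ht.2)
        simp [this]
      constructor
      · apply IntervalIntegrable.congr (f := fun _ => (0:ℝ)) (fun t ht => (e2 (uIoc_subset_uIcc ht)).symm)
        simp
      · rw [intervalIntegral.integral_congr e2, if_neg hi]; simp
  have hint : ∀ i ∈ Finset.range K, IntervalIntegrable
      (fun t => v i * chi ε (T i) * (deriv G t * (if T i ≤ t then (1:ℝ) else 0))) volume 0 L :=
    fun i _ => (hii i).1.const_mul _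
  constructor
  · have := IntervalIntegrable.sum (Finset.range K) hint
    refine this.congr fun t ht => ?_
    refine Eq.trans ?_ (e1 (uIoc_subset_uIcc ht)).symm
    simp
  · rw [intervalIntegral.integral_congr e1, intervalIntegral.integral_finsetSum hint]
    rw [tsum_eq_sum (s := Finset.range K)]
    · refine Finset.sum_congr rfl fun i _ => ?_
      rw [intervalIntegral.integral_const_mul, (hii i).2]
    · intro i hi
      rw [Finset.mem_range, not_lt] at hi
      rcases hK i hi with h | h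
      · rw [h]; ring
      · rw [if_neg (not_le.mpr h), mul_zero]

lemma Bb_deriv (κ' ε r : ℝ) : HasDerivAt (Bb κ' ε) (κ' * (chi ε r * r)) r := by
  unfold Bb
  apply HasDerivAt.const_mul
  have hc : Continuous fun t : ℝ => chi ε t * t := (chi_cont ε).mul continuous_id
  exact (hc.integral_hasStrictDerivAt 0 r).hasDerivAt

lemma int_Bb (κ' ε : ℝ) {G : ℝ → ℝ} (hGd : ∀ t, HasDerivAt G (deriv G t) t)
    (hdc : Continuous (deriv G)) (L : ℝ) :
    ∫ t in (0:ℝ)..L, deriv G t * Bb κ' ε t = κ' * ∫ t in (0:ℝ)..L, (G L - G t) * (chi ε t * t) := by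
  have hc : Continuous fun t : ℝ => chi ε t * t := (chi_cont ε).mul continuous_id
  have hGc : Continuous G := continuous_iff_continuousAt.mpr fun t => (hGd t).continuousAt
  have h1 := intervalIntegral.integral_mul_deriv_eq_deriv_mul (a := 0) (b := L) (u := Bb κ' ε) (v := fun t => G t - G L)
    (u' := fun t => κ' * (chi ε t * t)) (v' := deriv G) (fun t _ => Bb_deriv κ' ε t) (fun t _ => (hGd t).sub_const _)
    ((hc.const_mul κ').intervalIntegrable _ _) (hdc.intervalIntegrable _ _)
  have h2 : Bb κ' ε 0 = 0 := by unfold Bb; simp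
  rw [h2, sub_self, mul_zero, zero_mul, sub_zero, zero_sub] at h1
  have h3 : ∫ t in (0:ℝ)..L, deriv G t * Bb κ' ε t = ∫ t in (0:ℝ)..L, Bb κ' ε t * deriv G t := by
    congr 1; funext t; ring
  rw [h3, h1, ← intervalIntegral.integral_neg, ← intervalIntegral.integral_const_mul]
  congr 1; funext t; ring

theorem La_band (h : Lim σ κ' C v T) {ε : ℝ} (hε : 0 < ε) {p D : ℕ} (hp : 0 < p) {G : ℝ → ℝ} (hG : RTP p D G)
    (he : ∀ t, G (-t) = G t) (hD : (D:ℝ) / p + 8 * ε ≤ σ) :
    |∫ t in (0:ℝ)..(Real.pi * p), deriv G t * La κ' ε v T t| ≤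
      tl κ' ε v T (Real.pi * p) * ∫ t in (0:ℝ)..(Real.pi * p), |deriv G t| := by
  have hpr : (0:ℝ) < p := by exact_mod_cast hp
  have hσ : 8 * ε ≤ σ := by
    have : 0 ≤ (D:ℝ) / p := by positivity
    linarith
  obtain ⟨L, hLdef⟩ : ∃ y : ℝ, y = Real.pi * p := ⟨_, rfl⟩
  obtain ⟨V, hV⟩ : ∃ V : ℝ, V = ∫ t in (0:ℝ)..(Real.pi * p), |deriv G t| := ⟨_, rfl⟩
  have hosc : ∀ t, |G L - G t| ≤ V := by
    intro t; rw [hV, hLdef]; exact osc_bound hp hG he t
  have hV0 : 0 ≤ V := (abs_nonneg _).trans (hosc 0)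
  rw [← hV, ← hLdef]
  have hL : 0 ≤ L := by rw [hLdef]; positivity
  have hGd : ∀ t, HasDerivAt G (deriv G t) t := fun t => (hG.differentiable t).hasDerivAt
  have hdc : Continuous (deriv G) := hG.deriv.continuous
  have hGc : Continuous G := hG.continuous
  obtain ⟨iA, eA⟩ := h.int_Aa ε hGd hdc hL
  have eB := int_Bb κ' ε hGd hdc L
  have iB : IntervalIntegrable (fun t => deriv G t * Bb κ' ε t) volume 0 L := (hdc.mul (Bb_cont κ' ε)).intervalIntegrable _ _
  have e0 : ∫ t in (0:ℝ)..L, deriv G t * La κ' ε v T t =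
      (∫ t in (0:ℝ)..L, deriv G t * Aa ε v T t) - ∫ t in (0:ℝ)..L, deriv G t * Bb κ' ε t := by
    rw [← intervalIntegral.integral_sub iA iB]
    congr 1; funext t; unfold La; ring
  -- total identity for M = G L - G
  have hGb : ∀ t, |G t| ≤ |G L| + V := by
    intro t
    have h1 := hosc t
    have h2 : G t = G L - (G L - G t) := by ring
    rw [h2]
    exact (abs_sub _ _).trans (by linarith)
  have hs1 : Summable (fun i => v i * chi ε (T i)) := by
    have := h.summ hε (g := fun _ => 1) (B := 1) (fun _ => by simp)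
    simpa using this
  have hs2 := h.summ hε (g := fun i => G (T i)) (fun i => hGb _)
  have hi1 := chi_int hε
  have hi2 := chi_int' hε hGc hGb
  have htot : ∑' i, v i * chi ε (T i) * (G L - G (T i)) = κ' * ∫ t in Ioi (0:ℝ), (G L - G t) * (chi ε t * t) := by
    have h1 := h.exG hε hG he hD
    have h2 := h.total hε hσ
    have h3 : ∀ i, v i * chi ε (T i) * (G L - G (T i)) = G L * (v i * chi ε (T i)) - v i * chi ε (T i) * G (T i) := by
      intro i; ring
    rw [tsum_congr h3, Summable.tsum_sub (hs1.mul_left _) hs2, tsum_mul_left, h1, h2]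
    have h4 : (fun t => (G L - G t) * (chi ε t * t)) = fun t => G L * (chi ε t * t) - G t * (chi ε t * t) := by
      funext t; ring
    rw [h4, integral_sub (hi1.const_mul _) hi2, integral_const_mul]
    ring
  have hMc : Continuous fun t => G L - G t := continuous_const.sub hGc
  have hi3 := chi_int' hε hMc (B := V) hosc
  have hsplit : κ' * ∫ t in Ioi (0:ℝ), (G L - G t) * (chi ε t * t) =
      κ' * (∫ t in (0:ℝ)..L, (G L - G t) * (chi ε t * t)) + κ' * ∫ t in Ioi L, (G L - G t) * (chi ε t * t) := by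
    rw [← mul_add]; congr 1
    exact (intervalIntegral.integral_interval_add_Ioi hi3 (hi3.mono_set (Ioi_subset_Ioi hL))).symm
  have hsA : Summable (fun i => v i * chi ε (T i) * (if T i ≤ L then G L - G (T i) else 0)) := by
    apply h.summ hε (B := V)
    intro i
    split_ifs
    · exact hosc _
    · simpa using hV0
  have hsA' : Summable (fun i => v i * chi ε (T i) * (if L < T i then G L - G (T i) else 0)) := by
    apply h.summ hε (B := V)
    intro i
    split_ifs
    · exact hosc _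
    · simpa using hV0
  have hsplitA : ∑' i, v i * chi ε (T i) * (G L - G (T i)) =
      (∑' i, v i * chi ε (T i) * (if T i ≤ L then G L - G (T i) else 0)) +
        ∑' i, v i * chi ε (T i) * (if L < T i then G L - G (T i) else 0) := by
    rw [← Summable.tsum_add hsA hsA']
    apply tsum_congr
    intro i
    by_cases h1 : T i ≤ L
    · rw [if_pos h1, if_neg (not_lt.mpr h1)]; ring
    · rw [if_neg h1, if_pos (not_le.mp h1)]; ring
  have e1 : ∫ t in (0:ℝ)..L, deriv G t * La κ' ε v T t =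
      κ' * (∫ t in Ioi L, (G L - G t) * (chi ε t * t)) -
        ∑' i, v i * chi ε (T i) * (if L < T i then G L - G (T i) else 0) := by
    rw [e0, eA, eB]
    linarith
  have b1 : |∑' i, v i * chi ε (T i) * (if L < T i then G L - G (T i) else 0)| ≤ tA ε v T L * V := by
    unfold tA
    rw [← tsum_mul_right, ← Real.norm_eq_abs]
    apply tsum_of_norm_bounded (g := fun i => v i * chi ε (T i) * (if L < T i then (1:ℝ) else 0) * V)
    · exact ((h.summ hε (B := 1) (fun i => ind_abs _)).mul_right V).hasSum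
    · intro i
      rw [Real.norm_eq_abs, abs_mul, abs_of_nonneg (h.a_nonneg ε i), mul_assoc (v i * chi ε (T i))]
      apply mul_le_mul_of_nonneg_left _ (h.a_nonneg ε i)
      split_ifs
      · rw [one_mul]; exact hosc _
      · simp
  have b2 : |κ' * (∫ t in Ioi L, (G L - G t) * (chi ε t * t))| ≤ tB κ' ε L * V := by
    unfold tB
    rw [abs_mul, abs_of_pos h.hκ, mul_assoc]
    apply mul_le_mul_of_nonneg_left _ h.hκ.le
    rw [← integral_mul_const, ← Real.norm_eq_abs]
    apply norm_integral_le_of_norm_le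
    · exact (hi1.mono_set (Ioi_subset_Ioi hL)).mul_const V
    · filter_upwards [ae_restrict_mem measurableSet_Ioi] with t ht
      have ht' : L < t := ht
      have h1 : 0 ≤ chi ε t * t := mul_nonneg (chi_nonneg _ _) (by linarith)
      rw [Real.norm_eq_abs, abs_mul, abs_of_nonneg h1, mul_comm]
      exact mul_le_mul_of_nonneg_left (hosc t) h1
  rw [e1]
  unfold tl
  calc _ ≤ |κ' * (∫ t in Ioi L, (G L - G t) * (chi ε t * t))| +
        |∑' i, v i * chi ε (T i) * (if L < T i then G L - G (T i) else 0)| := abs_sub _ _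
    _ ≤ _ := by linarith

end Lim

end Pool.Agent.Helper514.Cheb
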