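import Pool.Agent.Helper514.Cheb.MM

set_option autoImplicit false

open Filter Topology MeasureTheory Metric

namespace Pool.Agent.Helper514.Cheb

variable {p : ℕ}

noncomputable def F0 (p : ℕ) (a : EuclideanSpace ℝ (Fin p)) (t : ℝ) : ℝ := ∑ k : Fin p, a k * ph p k t
noncomputable def F1 (p : ℕ) (a : EuclideanSpace ℝ (Fin p)) (t : ℝ) : ℝ := ∑ k : Fin p, a k * deriv (ph p k) t
noncomputable def F2 (p : ℕ) (a : EuclideanSpace ℝ (Fin p)) (t : ℝ) : ℝ := ∑ k : Fin p, a k * deriv (deriv (ph p k)) t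
noncomputable def F3 (p : ℕ) (a : EuclideanSpace ℝ (Fin p)) (t : ℝ) : ℝ :=
  ∑ k : Fin p, a k * deriv (deriv (deriv (ph p k))) t

lemma ph_rtp' (k : Fin p) : RTP p p (ph p k) := ph_rtp p k k.2

lemma F0_deriv (a : EuclideanSpace ℝ (Fin p)) (t : ℝ) : HasDerivAt (F0 p a) (F1 p a t) t := by
  have : HasDerivAt (fun t => ∑ k : Fin p, a k * ph p k t) (∑ k : Fin p, a k * deriv (ph p k) t) t :=
    HasDerivAt.fun_sum fun k _ => (((ph_rtp' k).differentiable t).hasDerivAt).const_mul _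
  exact this

lemma F1_deriv (a : EuclideanSpace ℝ (Fin p)) (t : ℝ) : HasDerivAt (F1 p a) (F2 p a t) t := by
  have : HasDerivAt (fun t => ∑ k : Fin p, a k * deriv (ph p k) t) (∑ k : Fin p, a k * deriv (deriv (ph p k)) t) t :=
    HasDerivAt.fun_sum fun k _ => (((ph_rtp' k).deriv.differentiable t).hasDerivAt).const_mul _
  exact this

lemma F2_deriv (a : EuclideanSpace ℝ (Fin p)) (t : ℝ) : HasDerivAt (F2 p a) (F3 p a t) t := by
  have : HasDerivAt (fun t => ∑ k : Fin p, a k * deriv (deriv (ph p k)) t)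
      (∑ k : Fin p, a k * deriv (deriv (deriv (ph p k))) t) t :=
    HasDerivAt.fun_sum fun k _ => (((ph_rtp' k).deriv.deriv.differentiable t).hasDerivAt).const_mul _
  exact this

lemma proj_cont (k : Fin p) : Continuous fun a : EuclideanSpace ℝ (Fin p) => a k :=
  (EuclideanSpace.proj k : EuclideanSpace ℝ (Fin p) →L[ℝ] ℝ).continuous

lemma F0_cont : Continuous fun q : EuclideanSpace ℝ (Fin p) × ℝ => F0 p q.1 q.2 := by
  unfold F0
  exact continuous_finsetSum _ fun k _ => ((proj_cont k).comp continuous_fst).mul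
    ((ph_rtp' k).continuous.comp continuous_snd)

lemma F1_cont : Continuous fun q : EuclideanSpace ℝ (Fin p) × ℝ => F1 p q.1 q.2 := by
  unfold F1
  exact continuous_finsetSum _ fun k _ => ((proj_cont k).comp continuous_fst).mul
    ((ph_rtp' k).deriv.continuous.comp continuous_snd)

lemma F2_cont : Continuous fun q : EuclideanSpace ℝ (Fin p) × ℝ => F2 p q.1 q.2 := by
  unfold F2
  exact continuous_finsetSum _ fun k _ => ((proj_cont k).comp continuous_fst).mul
    ((ph_rtp' k).deriv.deriv.continuous.comp continuous_snd)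

lemma F0_rtp (a : EuclideanSpace ℝ (Fin p)) : RTP p p (F0 p a) :=
  RTP.sum _ _ fun k _ => (ph_rtp' k).const_mul _

lemma F0_even (a : EuclideanSpace ℝ (Fin p)) (t : ℝ) : F0 p a (-t) = F0 p a t := by
  unfold F0
  refine Finset.sum_congr rfl fun k _ => by rw [ph_even]

lemma F0_int (hp : 0 < p) (a : EuclideanSpace ℝ (Fin p)) :
    ∫ t in (-(Real.pi * p))..(Real.pi * p), F0 p a t * ww p t = 0 := by
  unfold F0
  simp only [Finset.sum_mul]
  rw [intervalIntegral.integral_finsetSum (by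
    intro k _
    apply Continuous.intervalIntegrable
    exact (continuous_const.mul (ph_rtp' k).continuous).mul (ww_continuous p))]
  apply Finset.sum_eq_zero
  intro k _
  simp only [mul_assoc]
  rw [intervalIntegral.integral_const_mul, int_ph p hp, mul_zero]

noncomputable def Sx (p : ℕ) (b b' : ℝ) (a : EuclideanSpace ℝ (Fin p)) : ℝ :=
  sSup ((fun t => |F1 p a t| + |F2 p a t|) '' Set.Icc (b - 2) (b' + 2))

noncomputable def mx (p : ℕ) (h b b' : ℝ) (a : EuclideanSpace ℝ (Fin p)) : ℝ :=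
  sInf ((fun t => F2 p a t) '' Set.Icc (b - h) (b' + h))

noncomputable def Den (p : ℕ) (b b' : ℝ) (a : EuclideanSpace ℝ (Fin p)) : ℝ := Sx p b b' a + max 0 (1 - ‖a‖)

lemma Sx_cont (b b' : ℝ) : Continuous (Sx p b b') := by
  have h1 : Continuous (Function.uncurry fun (a : EuclideanSpace ℝ (Fin p)) (t : ℝ) => |F1 p a t| + |F2 p a t|) := by
    have h1 := (F1_cont (p := p)).abs.add (F2_cont (p := p)).abs
    exact h1
  exact (isCompact_Icc (a := b - 2) (b := b' + 2)).continuous_sSup h1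

lemma mx_cont (h b b' : ℝ) : Continuous (mx p h b b') := by
  have h1 : Continuous (Function.uncurry fun (a : EuclideanSpace ℝ (Fin p)) (t : ℝ) => F2 p a t) := F2_cont
  exact (isCompact_Icc (a := b - h) (b := b' + h)).continuous_sInf h1

lemma Den_cont (b b' : ℝ) : Continuous (Den p b b') := by
  unfold Den
  exact (Sx_cont b b').add (continuous_const.max (continuous_const.sub continuous_norm))

lemma Sx_bdd (b b' : ℝ) (a : EuclideanSpace ℝ (Fin p)) :
    BddAbove ((fun t => |F1 p a t| + |F2 p a t|) '' Set.Icc (b - 2) (b' + 2)) := by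
  apply isCompact_Icc.bddAbove_image
  apply Continuous.continuousOn
  have c1 : Continuous fun t => F1 p a t := (F1_cont (p := p)).comp (Continuous.prodMk_right a)
  have c2 : Continuous fun t => F2 p a t := (F2_cont (p := p)).comp (Continuous.prodMk_right a)
  exact c1.abs.add c2.abs

lemma mx_bdd (h b b' : ℝ) (a : EuclideanSpace ℝ (Fin p)) :
    BddBelow ((fun t => F2 p a t) '' Set.Icc (b - h) (b' + h)) := by
  apply isCompact_Icc.bddBelow_image
  apply Continuous.continuousOn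
  exact (F2_cont (p := p)).comp (Continuous.prodMk_right a)

lemma Sx_ge (b b' : ℝ) (a : EuclideanSpace ℝ (Fin p)) (t : ℝ) (h1 : b - 2 ≤ t) (h2 : t ≤ b' + 2) :
    |F1 p a t| + |F2 p a t| ≤ Sx p b b' a :=
  le_csSup (Sx_bdd b b' a) ⟨t, ⟨h1, h2⟩, rfl⟩

lemma Sx_le (b b' : ℝ) (hb : b ≤ b') (a : EuclideanSpace ℝ (Fin p)) (S₀ : ℝ)
    (h : ∀ t, b - 2 ≤ t → t ≤ b' + 2 → |F1 p a t| + |F2 p a t| ≤ S₀) : Sx p b b' a ≤ S₀ := by
  apply csSup_le
  · exact (Set.nonempty_Icc.2 (by linarith)).image _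
  · rintro _ ⟨t, ht, rfl⟩
    exact h t ht.1 ht.2

lemma mx_le (h b b' : ℝ) (a : EuclideanSpace ℝ (Fin p)) (t : ℝ) (h1 : b - h ≤ t) (h2 : t ≤ b' + h) :
    mx p h b b' a ≤ F2 p a t :=
  csInf_le (mx_bdd h b b' a) ⟨t, ⟨h1, h2⟩, rfl⟩

lemma mx_ge (h b b' : ℝ) (hb : b ≤ b') (hh : 0 ≤ h) (a : EuclideanSpace ℝ (Fin p)) (m₀ : ℝ)
    (hm : ∀ t, b - h ≤ t → t ≤ b' + h → m₀ ≤ F2 p a t) : m₀ ≤ mx p h b b' a := by
  apply le_csInf
  · exact (Set.nonempty_Icc.2 (by linarith)).image _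
  · rintro _ ⟨t, ht, rfl⟩
    exact hm t ht.1 ht.2

lemma nondeg' (hp : 0 < p) (a : EuclideanSpace ℝ (Fin p)) (ha : a ≠ 0) (c : ℝ) : ∃ t, |t - c| ≤ 1 ∧ F1 p a t ≠ 0 := by
  obtain ⟨t, h1, h2⟩ := nondeg p hp (fun k => a k) (by
    intro h
    apply ha
    ext k
    exact congrFun h k) c
  refine ⟨t, h1, ?_⟩
  have := (F0_deriv a t).deriv
  rw [← this]; exact h2

lemma Sx_pos (hp : 0 < p) (b b' : ℝ) (hb : b ≤ b') (a : EuclideanSpace ℝ (Fin p)) (ha : a ≠ 0) : 0 < Sx p b b' a := by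
  obtain ⟨t, h1, h2⟩ := nondeg' hp a ha b
  have h3 := abs_le.1 h1
  have h4 := Sx_ge b b' a t (by linarith) (by linarith)
  have h5 := abs_pos.2 h2
  have h6 := abs_nonneg (F2 p a t)
  linarith

lemma Sx_nonneg (b b' : ℝ) (hb : b ≤ b') (a : EuclideanSpace ℝ (Fin p)) : 0 ≤ Sx p b b' a := by
  have h4 := Sx_ge b b' a b (by linarith) (by linarith)
  have := abs_nonneg (F1 p a b)
  have := abs_nonneg (F2 p a b)
  linarith

lemma Den_pos (hp : 0 < p) (b b' : ℝ) (hb : b ≤ b') (a : EuclideanSpace ℝ (Fin p)) : 0 < Den p b b' a := by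
  unfold Den
  by_cases ha : a = 0
  · rw [ha, norm_zero]
    have := Sx_nonneg b b' hb (0 : EuclideanSpace ℝ (Fin p))
    have h2 : max (0:ℝ) (1 - 0) = 1 := by norm_num
    rw [h2]; linarith
  · have := Sx_pos hp b b' hb a ha
    have := le_max_left 0 (1 - ‖a‖)
    linarith

lemma Den_sphere (b b' : ℝ) (a : EuclideanSpace ℝ (Fin p)) (ha : ‖a‖ = 1) : Den p b b' a = Sx p b b' a := by
  unfold Den; rw [ha]; simp

noncomputable def uu (p : ℕ) (h b b' : ℝ) (a : EuclideanSpace ℝ (Fin p)) : ℝ := h * max 0 (mx p h b b' a) / Den p b b' a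

lemma uu_cont (hp : 0 < p) (h b b' : ℝ) (hb : b ≤ b') : Continuous (uu p h b b') := by
  unfold uu
  apply Continuous.div
  · exact continuous_const.mul (continuous_const.max (mx_cont h b b'))
  · exact Den_cont b b'
  · exact fun a => (Den_pos hp b b' hb a).ne'

noncomputable def zL (p : ℕ) (h b b' : ℝ) (a : EuclideanSpace ℝ (Fin p)) : ℝ :=
  b - uu p h b b' a + F1 p a (b - uu p h b b' a) / Den p b b' a
noncomputable def zR (p : ℕ) (h b b' : ℝ) (a : EuclideanSpace ℝ (Fin p)) : ℝ :=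
  b' + uu p h b b' a + F1 p a (b' + uu p h b b' a) / Den p b b' a

lemma zL_cont (hp : 0 < p) (h b b' : ℝ) (hb : b ≤ b') : Continuous (zL p h b b') := by
  have hu := uu_cont hp h b b' hb
  have h1 : Continuous fun a => F1 p a (b - uu p h b b' a) :=
    (F1_cont (p := p)).comp (continuous_id.prodMk (continuous_const.sub hu))
  exact (continuous_const.sub hu).add (h1.div (Den_cont b b') fun a => (Den_pos hp b b' hb a).ne')

lemma zR_cont (hp : 0 < p) (h b b' : ℝ) (hb : b ≤ b') : Continuous (zR p h b b') := by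
  have hu := uu_cont hp h b b' hb
  have h1 : Continuous fun a => F1 p a (b' + uu p h b b' a) :=
    (F1_cont (p := p)).comp (continuous_id.prodMk (continuous_const.add hu))
  exact (continuous_const.add hu).add (h1.div (Den_cont b b') fun a => (Den_pos hp b b' hb a).ne')

theorem MM (δ κ₀ : ℝ) (hδ0 : 0 < δ) (hδ1 : δ ≤ 1) (hκ₀ : 0 < κ₀) :
    ∃ Y : ℝ, 0 < Y ∧ ∃ η : ℝ, 0 < η ∧ η ≤ 1 ∧ ∃ p₀ : ℕ, ∀ p : ℕ, p₀ ≤ p →
      ∀ (M : ℕ) (κ : ℝ) (x : ℕ → ℝ), PConf p M δ Y η κ x → κ₀ ≤ κ →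
      ∃ z : ℕ → ℝ, ∀ k : ℕ, 1 ≤ k → k ≤ p → ∑ i ∈ Finset.range (2 * M), Real.cos (z i / p) ^ k = 2 * M * mu k := by
  obtain ⟨h, hh0, hh1, Y, hY, η, hη0, hη1, p₀, hDom⟩ := Dom δ κ₀ hδ0 hδ1 hκ₀
  refine ⟨Y, hY, η, hη0, hη1, p₀, ?_⟩
  intro p hp M κ x hP hκ
  have hp0 := hP.hp
  have hpr : (0 : ℝ) < p := by exact_mod_cast hp0
  have hmono : ∀ m, x (2 * m) ≤ x (2 * m + 1) := fun m => hP.mono (by omega)
  set Φ : EuclideanSpace ℝ (Fin p) → EuclideanSpace ℝ (Fin p) := fun a =>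
    WithLp.toLp 2 (fun k : Fin p => ∑ m ∈ Finset.range M,
      (ph p k (zL p h (x (2 * m)) (x (2 * m + 1)) a) + ph p k (zR p h (x (2 * m)) (x (2 * m + 1)) a))) with hΦ
  have hΦc : Continuous Φ := by
    apply (PiLp.continuous_toLp 2 _).comp
    apply continuous_pi
    intro k
    apply continuous_finsetSum
    intro m _
    exact ((ph_rtp' k).continuous.comp (zL_cont hp0 h _ _ (hmono m))).add
      ((ph_rtp' k).continuous.comp (zR_cont hp0 h _ _ (hmono m)))
  have hΦpos : ∀ a, ‖a‖ = 1 → 0 < inner ℝ a (Φ a) := by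
    intro a ha
    have ha0 : a ≠ 0 := by
      intro h0; rw [h0, norm_zero] at ha; norm_num at ha
    have e1 : inner ℝ a (Φ a) = ∑ m ∈ Finset.range M,
        (F0 p a (zL p h (x (2 * m)) (x (2 * m + 1)) a) + F0 p a (zR p h (x (2 * m)) (x (2 * m + 1)) a)) := by
      rw [PiLp.inner_apply]
      simp only [F0]
      simp only [← Finset.sum_add_distrib]
      rw [Finset.sum_comm]
      refine Finset.sum_congr rfl fun k _ => ?_
      show inner ℝ (a k) (Φ a k) = _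
      have e2 : Φ a k = ∑ m ∈ Finset.range M,
        (ph p k (zL p h (x (2 * m)) (x (2 * m + 1)) a) + ph p k (zR p h (x (2 * m)) (x (2 * m + 1)) a)) := rfl
      rw [e2]
      simp only [RCLike.inner_apply, conj_trivial]
      rw [Finset.sum_mul]
      refine Finset.sum_congr rfl fun m _ => by ring
    have hgain : ∀ m : ℕ, ∃ G, 0 ≤ G ∧ F0 p a (x (2 * m)) + F0 p a (x (2 * m + 1)) + G ≤
        F0 p a (zL p h (x (2 * m)) (x (2 * m + 1)) a) + F0 p a (zR p h (x (2 * m)) (x (2 * m + 1)) a) ∧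
        ∀ S₀ B₃ : ℝ, 0 < S₀ → 0 ≤ B₃ → (∀ t, x (2 * m) - 2 ≤ t → t ≤ x (2 * m + 1) + 2 →
          |F1 p a t| + |F2 p a t| ≤ S₀ ∧ |F3 p a t| ≤ B₃) →
        ∀ y, (y = x (2 * m) ∨ y = x (2 * m + 1)) →
          h ^ 2 * (max 0 (F2 p a y - B₃ * (x (2 * m + 1) - x (2 * m) + h))) ^ 3 ≤ S₀ ^ 2 * G ∧
          (max 0 (|F1 p a y| - h * S₀)) ^ 2 ≤ 2 * S₀ * G := by
      intro m
      have h1 := pair_gain (F0_deriv a) (F1_deriv a) (F2_deriv a) (hmono m) hh0 hh1
        (Sx_pos hp0 _ _ (hmono m) a ha0) (Sx_ge _ _ a) (Sx_le _ _ (hmono m) a)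
        (mx_le h _ _ a) (mx_ge h _ _ (hmono m) hh0.le a)
      have e2 : ∀ b b', zL p h b b' a = b - h * max 0 (mx p h b b' a) / Sx p b b' a +
          F1 p a (b - h * max 0 (mx p h b b' a) / Sx p b b' a) / Sx p b b' a := by
        intro b b'; rw [zL, uu, Den_sphere b b' a ha]
      have e3 : ∀ b b', zR p h b b' a = b' + h * max 0 (mx p h b b' a) / Sx p b b' a +
          F1 p a (b' + h * max 0 (mx p h b b' a) / Sx p b b' a) / Sx p b b' a := by
        intro b b'; rw [zR, uu, Den_sphere b b' a ha]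
      rw [e2, e3]
      exact h1
    choose G hG0 hG1 hG2 using hgain
    have d1 : deriv (F0 p a) = F1 p a := funext fun t => (F0_deriv a t).deriv
    have d2 : deriv (F1 p a) = F2 p a := funext fun t => (F1_deriv a t).deriv
    have d3 : deriv (F2 p a) = F3 p a := funext fun t => (F2_deriv a t).deriv
    have hGP : GainProp h (F0 p a) x M G := by
      intro m _ S₀ B₃ hS₀ hB₃ hb y hy
      rw [d1, d2, d3] at hb
      rw [d1, d2]
      exact hG2 m S₀ B₃ hS₀ hB₃ hb y hy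
    have hne : ∃ s, deriv (F0 p a) s ≠ 0 := by
      obtain ⟨t, -, ht⟩ := nondeg' hp0 a ha0 0
      exact ⟨t, by rw [d1]; exact ht⟩
    have hJ := hDom p hp M κ x hP hκ (F0 p a) (F0_rtp a) (F0_even a) hne G hG0 hGP
    have hPP := hP.P p (F0 p a) (F0_rtp a) (by nlinarith)
    rw [F0_int hp0 a, mul_zero, sub_zero] at hPP
    have e4 : ∑ i ∈ Finset.range (2 * M), (F0 p a (x i) + F0 p a (-x i)) = 2 * ∑ i ∈ Finset.range (2 * M), F0 p a (x i) := by
      rw [Finset.mul_sum]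
      refine Finset.sum_congr rfl fun i _ => ?_
      rw [F0_even]; ring
    rw [e4] at hPP
    have h5 := (abs_le.1 hPP).1
    rw [e1]
    have h6 : ∑ m ∈ Finset.range M, (F0 p a (x (2 * m)) + F0 p a (x (2 * m + 1)) + G m) ≤
        ∑ m ∈ Finset.range M,
        (F0 p a (zL p h (x (2 * m)) (x (2 * m + 1)) a) + F0 p a (zR p h (x (2 * m)) (x (2 * m + 1)) a)) :=
      Finset.sum_le_sum fun m _ => hG1 m
    rw [Finset.sum_add_distrib, ← sum_pairs (fun i => F0 p a (x i))] at h6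
    linarith
  obtain ⟨a, -, ha⟩ := zero_of_pos p Φ hΦc.continuousOn hΦpos
  refine ⟨fun i => if i % 2 = 0 then zL p h (x (2 * (i / 2))) (x (2 * (i / 2) + 1)) a else
    zR p h (x (2 * (i / 2))) (x (2 * (i / 2) + 1)) a, ?_⟩
  intro k hk1 hkp
  obtain ⟨j, rfl⟩ : ∃ j, k = j + 1 := ⟨k - 1, by omega⟩
  have h1 : Φ a ⟨j, by omega⟩ = 0 := by rw [ha]; rfl
  have h2 : ∑ m ∈ Finset.range M,
      (ph p j (zL p h (x (2 * m)) (x (2 * m + 1)) a) + ph p j (zR p h (x (2 * m)) (x (2 * m + 1)) a)) = 0 := h1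
  rw [sum_pairs]
  have h3 : ∀ m, (2 * m) % 2 = 0 := fun m => by omega
  have h4 : ∀ m, (2 * m + 1) % 2 = 1 := fun m => by omega
  have h5 : ∀ m, (2 * m) / 2 = m := fun m => by omega
  have h6 : ∀ m, (2 * m + 1) / 2 = m := fun m => by omega
  simp only [h3, h4, h5, h6, if_true, one_ne_zero, if_false]
  simp only [ph] at h2
  have h7 : ∑ m ∈ Finset.range M, (Real.cos (zL p h (x (2 * m)) (x (2 * m + 1)) a / p) ^ (j + 1) - mu (j + 1) +
      (Real.cos (zR p h (x (2 * m)) (x (2 * m + 1)) a / p) ^ (j + 1) - mu (j + 1))) =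
      ∑ m ∈ Finset.range M, (Real.cos (zL p h (x (2 * m)) (x (2 * m + 1)) a / p) ^ (j + 1) +
      Real.cos (zR p h (x (2 * m)) (x (2 * m + 1)) a / p) ^ (j + 1)) - 2 * M * mu (j + 1) := by
    have : ∀ m ∈ Finset.range M, (Real.cos (zL p h (x (2 * m)) (x (2 * m + 1)) a / p) ^ (j + 1) - mu (j + 1) +
      (Real.cos (zR p h (x (2 * m)) (x (2 * m + 1)) a / p) ^ (j + 1) - mu (j + 1))) =
      (Real.cos (zL p h (x (2 * m)) (x (2 * m + 1)) a / p) ^ (j + 1) +
      Real.cos (zR p h (x (2 * m)) (x (2 * m + 1)) a / p) ^ (j + 1)) - 2 * mu (j + 1) := fun m _ => by ring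
    rw [Finset.sum_congr rfl this, Finset.sum_sub_distrib, Finset.sum_const, Finset.card_range, nsmul_eq_mul]
    ring
  rw [h7] at h2
  linarith

end Pool.Agent.Helper514.Cheb
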