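import Pool.Agent.Helper514.Cheb.Poly
import Pool.Agent.Helper514.Cheb.MM2

set_option autoImplicit false

open MeasureTheory Set Filter

namespace Pool.Agent.Helper514.Cheb

lemma NS_of_z {p M : ℕ} (hM : 0 < M) {z : ℕ → ℝ}
    (hz : ∀ k : ℕ, 1 ≤ k → k ≤ p → ∑ i ∈ Finset.range (2 * M), Real.cos (z i / p) ^ k = 2 * M * mu k) : NS p (2 * M) := by
  apply NS_of_moments (by omega) (fun i => Real.cos (z i / p)) (fun i => Real.abs_cos_le_one _)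
  intro k h1 h2
  rw [hz k h1 h2]; push_cast; ring

lemma VV_mono {p : ℕ} (hp : 0 < p) {κ : ℝ} (hκ : 0 ≤ κ) {s t : ℝ} (hs : 0 ≤ s) (hst : s ≤ t) (ht : t ≤ Real.pi * p) :
    VV p κ s ≤ VV p κ t := by
  have hpr : (0:ℝ) < p := by exact_mod_cast hp
  unfold VV
  have h1 : Real.cos (t / p) ≤ Real.cos (s / p) := by
    apply Real.cos_le_cos_of_nonneg_of_le_pi (by positivity)
    · rw [div_le_iff₀ hpr]; exact ht
    · gcongr
  have h2 : 0 ≤ κ * (p:ℝ) ^ 2 := by positivity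
  nlinarith

lemma VV_range (p : ℕ) {κ : ℝ} (hκ : 0 ≤ κ) (t : ℝ) : 0 ≤ VV p κ t ∧ VV p κ t ≤ 2 * (κ * (p:ℝ) ^ 2) := by
  unfold VV
  have h1 := Real.cos_le_one (t / p)
  have h2 := Real.neg_one_le_cos (t / p)
  have h3 : 0 ≤ κ * (p:ℝ) ^ 2 := by positivity
  constructor <;> nlinarith

theorem upper : ∃ C : ℝ, 0 < C ∧ ∃ p₀ : ℕ, ∀ p : ℕ, p₀ ≤ p → ∃ N : ℕ, NS p N ∧ (N : ℝ) ≤ C * (p : ℝ) ^ 2 := by
  obtain ⟨Y, hY, η, hη0, hη1, p₀, H⟩ := MM 1 1 one_pos le_rfl one_pos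
  obtain ⟨K, hKdef⟩ : ∃ K : ℝ, K = max 1 (1 / (2 * η)) := ⟨_, rfl⟩
  have hK1 : 1 ≤ K := by rw [hKdef]; exact le_max_left _ _
  have hK2 : 1 / (2 * η) ≤ K := by rw [hKdef]; exact le_max_right _ _
  refine ⟨2 * (K + 1), by linarith, max p₀ 1, fun p hp => ?_⟩
  have hp0 : p₀ ≤ p := (le_max_left _ _).trans hp
  have hp1 : 0 < p := (le_max_right p₀ 1).trans hp
  have hpr : (1:ℝ) ≤ p := by exact_mod_cast hp1
  have hp2 : (1:ℝ) ≤ (p:ℝ) ^ 2 := by nlinarith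
  obtain ⟨M, hMdef⟩ : ∃ M : ℕ, M = ⌈K * (p:ℝ) ^ 2⌉₊ := ⟨_, rfl⟩
  have hM1 : K * (p:ℝ) ^ 2 ≤ M := by rw [hMdef]; exact Nat.le_ceil _
  have hM2 : (M:ℝ) ≤ K * (p:ℝ) ^ 2 + 1 := by rw [hMdef]; exact (Nat.ceil_lt_add_one (by positivity)).le
  have hM0 : (0:ℝ) < M := by
    have : 0 < K * (p:ℝ) ^ 2 := by positivity
    linarith
  obtain ⟨κ, hκdef⟩ : ∃ κ : ℝ, κ = M / (p:ℝ) ^ 2 := ⟨_, rfl⟩
  have hκp : κ * (p:ℝ) ^ 2 = M := by rw [hκdef]; field_simp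
  have hκK : K ≤ κ := by rw [hκdef, le_div_iff₀ (by positivity)]; exact hM1
  have hκ0 : 0 < κ := by linarith
  have hCf : ∀ t, Cf p κ (fun _ => 0) t = VV p κ t := by intro t; unfold Cf; simp
  have hconf : ∃ x : ℕ → ℝ, PConf p M 1 Y η κ x := by
    apply confOf p M 1 Y η κ 0 0 0 (fun _ => 0) hp1 hκp hκ0 hη0 hη1 one_pos le_rfl le_rfl le_rfl (by simp)
    · intro D G _ _ _; simp
    · intro s t hs hst ht
      rw [hCf, hCf, add_zero]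
      exact VV_mono hp1 hκ0.le hs hst ht
    · intro t _ _
      rw [hCf]
      have := VV_range p hκ0.le t
      rw [hκp] at this
      push_cast
      constructor <;> linarith [this.1, this.2]
    · norm_num
    · intro t _ _ _
      left
      have h1 : 1 / (2 * η) ≤ κ := hK2.trans hκK
      have h2 : η * (1 / (2 * η)) = 1 / 2 := by field_simp
      have h3 : η * (1 / (2 * η)) ≤ η * κ := by gcongr
      linarith
  obtain ⟨x, hx⟩ := hconf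
  obtain ⟨z, hz⟩ := H p hp0 M κ x hx (by linarith)
  refine ⟨2 * M, NS_of_z (by exact_mod_cast hM0) hz, ?_⟩
  push_cast
  nlinarith

end Pool.Agent.Helper514.Cheb
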