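import Pool.Agent.Helper514.Cheb.Base3
import Pool.Agent.Helper514.Cheb.Upper

set_option autoImplicit false

open MeasureTheory Set Filter Topology

namespace Pool.Agent.Helper514.Cheb

noncomputable def gg (p : ℕ) (κ κ' ε x : ℝ) : ℝ := κ * (p * Real.sin (x / p)) - κ' * (chi ε x * x)

lemma gg_cont (p : ℕ) (κ κ' ε : ℝ) : Continuous (gg p κ κ' ε) := by
  unfold gg
  have := chi_cont ε
  fun_prop

lemma gg_bounds {p : ℕ} (hp : 0 < p) {κ κ' ε x : ℝ} (hκ' : 0 < κ') (hκ : κ' ≤ κ) (hε : 4 ≤ ε * p) (hx : 0 ≤ x)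
    (hx2 : x ≤ Real.pi * p / 2) :
    0 ≤ gg p κ κ' ε x ∧ gg p κ κ' ε x ≤ (κ - κ') * x + κ' * (2 * (ε * x) ^ 2 * x) := by
  have hpr : (0:ℝ) < p := by exact_mod_cast hp
  have hε0 : 0 < ε := by
    by_contra hcon
    push Not at hcon
    nlinarith
  have hy : 0 ≤ x / p := by positivity
  have h1 : x * Real.sinc (x / p) = p * Real.sin (x / p) := by
    rw [← mul_sinc]; field_simp
  have h2 : chi ε x ≤ Real.sinc (x / p) := by
    unfold chi
    apply sinc_comp hy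
    · rw [div_le_iff₀ hpr]; linarith
    · rw [mul_div_assoc', div_le_iff₀ hpr]; nlinarith
  have h3 : x * chi ε x ≤ p * Real.sin (x / p) := by rw [← h1]; gcongr
  have h4 : p * Real.sin (x / p) ≤ x := by
    have := Real.sin_le hy
    calc p * Real.sin (x / p) ≤ p * (x / p) := by gcongr
      _ = x := by field_simp
  have h5 := chi_lower hε0.le hx
  have h6 := chi_nonneg ε x
  have h7 : 0 ≤ x * chi ε x := by positivity
  have hκ0 : 0 ≤ κ := by linarith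
  unfold gg
  constructor
  · have h8 : κ' * (chi ε x * x) ≤ κ * (p * Real.sin (x / p)) := by
      calc κ' * (chi ε x * x) = κ' * (x * chi ε x) := by ring
        _ ≤ κ * (p * Real.sin (x / p)) := by gcongr
    linarith
  · have h8 : κ * (p * Real.sin (x / p)) ≤ κ * x := by
      have : 0 ≤ κ := by linarith
      gcongr
    have h9 : (1 - 2 * (ε * x) ^ 2) * x ≤ chi ε x * x := by gcongr
    have h10 : κ' * ((1 - 2 * (ε * x) ^ 2) * x) ≤ κ' * (chi ε x * x) := by gcongr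
    nlinarith

lemma Wdiff {p : ℕ} (hp : 0 < p) (κ κ' ε s t : ℝ) :
    (VV p κ t - Bb κ' ε t) - (VV p κ s - Bb κ' ε s) = ∫ x in s..t, gg p κ κ' ε x := by
  have := intervalIntegral.integral_eq_sub_of_hasDerivAt (a := s) (b := t) (f := fun t => VV p κ t - Bb κ' ε t)
    (f' := gg p κ κ' ε) (fun x _ => (VV_deriv hp κ x).sub (Lim.Bb_deriv κ' ε x)) ((gg_cont p κ κ' ε).intervalIntegrable _ _)
  rw [this]

namespace Lim

variable {σ κ' C : ℝ} {v T : ℕ → ℝ}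

lemma Cf_symm {p : ℕ} (hp : 0 < p) (κ : ℝ) (Λ : ℝ → ℝ) (u : ℝ) :
    Cf p κ Λ (Real.pi * p - u) = 2 * (κ * (p:ℝ) ^ 2) - Cf p κ Λ u := by
  have hpr : (p:ℝ) ≠ 0 := by exact_mod_cast hp.ne'
  unfold Cf VV
  have h1 : (Real.pi * p - u) / p = Real.pi - u / p := by field_simp
  rw [h1, Real.cos_pi_sub, sub_sub_cancel]
  ring

lemma Cf_half (h : Lim σ κ' C v T) {ε : ℝ} (hσ : 8 * ε ≤ σ) {p : ℕ} (hp : 0 < p) {κ : ℝ} (hκ : κ' ≤ κ)
    (hεp : 4 ≤ ε * p) {s t : ℝ} (hs : 0 ≤ s) (hst : s ≤ t) (ht : t ≤ Real.pi * p / 2) :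
    Cf p κ (La κ' ε v T) s ≤ Cf p κ (La κ' ε v T) t + 2 * tl κ' ε v T (Real.pi * p / 2) := by
  have hpr : (0:ℝ) < p := by exact_mod_cast hp
  have hε0 : 0 < ε := by
    by_contra hcon
    push Not at hcon
    nlinarith
  have hpi := Real.pi_pos
  have hL2 : 0 ≤ Real.pi * p / 2 := by positivity
  have h1 := Wdiff hp κ κ' ε s t
  have h2 : 0 ≤ ∫ x in s..t, gg p κ κ' ε x := by
    apply intervalIntegral.integral_nonneg hst
    intro x hx
    exact (gg_bounds hp h.hκ hκ hεp (hs.trans hx.1) (hx.2.trans ht)).1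
  have h3 := h.Aa_mono hε0 hst
  have h4 := h.La_abs hε0 hσ (r := Real.pi * p - t) (by linarith)
  have h5 := h.La_abs hε0 hσ (r := Real.pi * p - s) (by linarith)
  have h6 := h.tl_anti hε0 hL2 (s := Real.pi * p - t) (by linarith)
  have h7 := h.tl_anti hε0 hL2 (s := Real.pi * p - s) (by linarith)
  have h8 := abs_le.mp (h4.trans h6)
  have h9 := abs_le.mp (h5.trans h7)
  have e1 : Cf p κ (La κ' ε v T) s = (VV p κ s - Bb κ' ε s) + Aa ε v T s - La κ' ε v T (Real.pi * p - s) := by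
    unfold Cf La; ring
  have e2 : Cf p κ (La κ' ε v T) t = (VV p κ t - Bb κ' ε t) + Aa ε v T t - La κ' ε v T (Real.pi * p - t) := by
    unfold Cf La; ring
  rw [e1, e2]
  linarith [h8.1, h8.2, h9.1, h9.2]

lemma Cf_mono (h : Lim σ κ' C v T) {ε : ℝ} (hσ : 8 * ε ≤ σ) {p : ℕ} (hp : 0 < p) {κ : ℝ} (hκ : κ' ≤ κ)
    (hεp : 4 ≤ ε * p) {s t : ℝ} (hs : 0 ≤ s) (hst : s ≤ t) (ht : t ≤ Real.pi * p) :
    Cf p κ (La κ' ε v T) s ≤ Cf p κ (La κ' ε v T) t + 4 * tl κ' ε v T (Real.pi * p / 2) := by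
  have hpr : (0:ℝ) < p := by exact_mod_cast hp
  have hpi := Real.pi_pos
  have hL2 : 0 ≤ Real.pi * p / 2 := by positivity
  have hlm := h.tl_nonneg ε hL2
  have hsym : ∀ a b : ℝ, Real.pi * p / 2 ≤ a → a ≤ b → b ≤ Real.pi * p →
      Cf p κ (La κ' ε v T) a ≤ Cf p κ (La κ' ε v T) b + 2 * tl κ' ε v T (Real.pi * p / 2) := by
    intro a b ha hab hb
    have h1 := h.Cf_half hσ hp hκ hεp (s := Real.pi * p - b) (t := Real.pi * p - a) (by linarith) (by linarith) (by linarith)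
    rw [Cf_symm hp, Cf_symm hp] at h1
    linarith
  rcases le_total t (Real.pi * p / 2) with h1 | h1
  · have := h.Cf_half hσ hp hκ hεp hs hst h1
    linarith
  · rcases le_total s (Real.pi * p / 2) with h2 | h2
    · have h3 := h.Cf_half hσ hp hκ hεp hs h2 le_rfl
      have h4 := hsym _ t le_rfl h1 ht
      linarith
    · have := hsym s t h2 hst ht
      linarith

lemma Cf_range (h : Lim σ κ' C v T) {ε : ℝ} (hσ : 8 * ε ≤ σ) {p : ℕ} (hp : 0 < p) {κ : ℝ} (hκ : κ' ≤ κ)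
    (hεp : 4 ≤ ε * p) {t : ℝ} (h0 : 0 ≤ t) (ht : t ≤ Real.pi * p) :
    -(5 * tl κ' ε v T (Real.pi * p / 2)) ≤ Cf p κ (La κ' ε v T) t ∧
      Cf p κ (La κ' ε v T) t ≤ 2 * (κ * (p:ℝ) ^ 2) + 5 * tl κ' ε v T (Real.pi * p / 2) := by
  have hpr : (0:ℝ) < p := by exact_mod_cast hp
  have hε0 : 0 < ε := by
    by_contra hcon
    push Not at hcon
    nlinarith
  have hpi := Real.pi_pos
  have hL2 : 0 ≤ Real.pi * p / 2 := by positivity
  have hlow : ∀ t : ℝ, 0 ≤ t → t ≤ Real.pi * p → -(5 * tl κ' ε v T (Real.pi * p / 2)) ≤ Cf p κ (La κ' ε v T) t := by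
    intro t h0 ht
    have h1 := h.Cf_mono hσ hp hκ hεp le_rfl h0 ht
    have h2 : Cf p κ (La κ' ε v T) 0 = Aa ε v T 0 - La κ' ε v T (Real.pi * p) := by
      unfold Cf
      have e1 : VV p κ 0 = 0 := by unfold VV; simp
      have e2 : La κ' ε v T 0 = Aa ε v T 0 := by unfold La Bb; simp
      rw [e1, e2, sub_zero]; ring
    have h3 : 0 ≤ Aa ε v T 0 := tsum_nonneg fun i => mul_nonneg (h.a_nonneg ε i) (by split_ifs <;> norm_num)
    have h4 := h.La_abs hε0 hσ (r := Real.pi * p) (by linarith)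
    have h5 := h.tl_anti hε0 hL2 (s := Real.pi * p) (by linarith)
    have h6 := abs_le.mp (h4.trans h5)
    linarith [h6.1, h6.2]
  refine ⟨hlow t h0 ht, ?_⟩
  have h1 := hlow (Real.pi * p - t) (by linarith) (by linarith)
  rw [Cf_symm hp] at h1
  linarith

lemma Cf_inner (h : Lim σ κ' C v T) {ε : ℝ} (hσ : 8 * ε ≤ σ) {p : ℕ} (hp : 0 < p) {κ : ℝ} (hκ : κ' ≤ κ)
    (hεp : 4 ≤ ε * p) {K : ℕ} {Y : ℝ} (hK : ∀ i, K ≤ i → v i = 0 ∨ Y < T i) (hY0 : 0 ≤ Y) (hY : Y ≤ Real.pi * p / 2)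
    {t : ℝ} (h0 : 0 ≤ t) (ht : t ≤ Y) :
    ∃ n : ℕ, n ≤ K ∧ |Cf p κ (La κ' ε v T) t - n| ≤
      (κ - κ') * Y ^ 2 + (2 * κ' * Y ^ 4 + 2 * K * Y ^ 2) * ε ^ 2 + tl κ' ε v T (Real.pi * p / 2) := by
  classical
  have hpr : (0:ℝ) < p := by exact_mod_cast hp
  have hε0 : 0 < ε := by
    by_contra hcon
    push Not at hcon
    nlinarith
  have hpi := Real.pi_pos
  have hκ'0 := h.hκ
  have hL2 : 0 ≤ Real.pi * p / 2 := by positivity
  obtain ⟨n, hn⟩ : ∃ n : ℕ, n = ∑ i ∈ Finset.range K, (if T i ≤ t ∧ v i = 1 then 1 else 0) := ⟨_, rfl⟩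
  refine ⟨n, ?_, ?_⟩
  · rw [hn]
    calc _ ≤ ∑ i ∈ Finset.range K, 1 := Finset.sum_le_sum fun i _ => by split_ifs <;> norm_num
      _ = K := by simp
  -- W part
  have h1 := Wdiff hp κ κ' ε 0 t
  have hV0 : VV p κ 0 = 0 := by unfold VV; simp
  have hB0 : Bb κ' ε 0 = 0 := by unfold Bb; simp
  rw [hV0, hB0, sub_zero, sub_zero] at h1
  have h2 : 0 ≤ ∫ x in (0:ℝ)..t, gg p κ κ' ε x := by
    apply intervalIntegral.integral_nonneg h0
    intro x hx
    exact (gg_bounds hp h.hκ hκ hεp hx.1 (hx.2.trans (ht.trans hY))).1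
  have h3 : ∫ x in (0:ℝ)..t, gg p κ κ' ε x ≤ (κ - κ') * Y ^ 2 + 2 * κ' * Y ^ 4 * ε ^ 2 := by
    have h4 : ∫ x in (0:ℝ)..t, gg p κ κ' ε x ≤ ∫ x in (0:ℝ)..t, ((κ - κ') * Y + κ' * (2 * (ε * Y) ^ 2 * Y)) := by
      apply intervalIntegral.integral_mono_on h0 ((gg_cont p κ κ' ε).intervalIntegrable _ _) (by simp)
      intro x hx
      have hxY : x ≤ Y := hx.2.trans ht
      have hx0 := hx.1
      refine (gg_bounds hp h.hκ hκ hεp hx.1 (hx.2.trans (ht.trans hY))).2.trans ?_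
      have : 0 ≤ κ - κ' := by linarith
      gcongr
    rw [intervalIntegral.integral_const, sub_zero, smul_eq_mul] at h4
    have h5 : 0 ≤ (κ - κ') * Y + κ' * (2 * (ε * Y) ^ 2 * Y) := by
      have : 0 ≤ κ - κ' := by linarith
      positivity
    calc _ ≤ t * ((κ - κ') * Y + κ' * (2 * (ε * Y) ^ 2 * Y)) := h4
      _ ≤ Y * ((κ - κ') * Y + κ' * (2 * (ε * Y) ^ 2 * Y)) := by gcongr
      _ = _ := by ring
  -- A part
  have hnr : (n:ℝ) = ∑ i ∈ Finset.range K, v i * (if T i ≤ t then (1:ℝ) else 0) := by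
    rw [hn]; push_cast
    refine Finset.sum_congr rfl fun i _ => ?_
    rcases h.hv i with hv | hv
    · rw [hv]; simp
    · rw [hv]; simp
  have hA := Aa_trunc (ε := ε) hK ht
  have h4 : (n:ℝ) - Aa ε v T t = ∑ i ∈ Finset.range K, v i * (if T i ≤ t then (1:ℝ) else 0) * (1 - chi ε (T i)) := by
    rw [hnr, hA, ← Finset.sum_sub_distrib]
    refine Finset.sum_congr rfl fun i _ => ?_
    ring
  have h5 : 0 ≤ (n:ℝ) - Aa ε v T t := by
    rw [h4]
    refine Finset.sum_nonneg fun i _ => ?_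
    have := chi_le_one ε (T i)
    have h6 := h.v_nonneg i
    have h7 : (0:ℝ) ≤ (if T i ≤ t then (1:ℝ) else 0) := by split_ifs <;> norm_num
    have h8 : 0 ≤ 1 - chi ε (T i) := by linarith
    positivity
  have h6 : (n:ℝ) - Aa ε v T t ≤ 2 * K * Y ^ 2 * ε ^ 2 := by
    rw [h4]
    calc _ ≤ ∑ i ∈ Finset.range K, 2 * (ε * Y) ^ 2 := by
          refine Finset.sum_le_sum fun i _ => ?_
          have hv0 := h.v_nonneg i
          have hv1 := h.v_le i
          have hT := h.hT i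
          split_ifs with hc
          · have h7 := chi_lower hε0.le hT
            have h8 := chi_le_one ε (T i)
            have h9 : (ε * T i) ^ 2 ≤ (ε * Y) ^ 2 := by
              have : T i ≤ Y := hc.trans ht
              gcongr
            have h10 : 0 ≤ 1 - chi ε (T i) := by linarith
            calc v i * 1 * (1 - chi ε (T i)) ≤ 1 * 1 * (1 - chi ε (T i)) := by gcongr
              _ ≤ _ := by linarith
          · simp only [mul_zero, zero_mul]; positivity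
      _ = 2 * K * Y ^ 2 * ε ^ 2 := by simp; ring
  -- tail
  have h7 := h.La_abs hε0 hσ (r := Real.pi * p - t) (by linarith)
  have h8 := h.tl_anti hε0 hL2 (s := Real.pi * p - t) (by linarith)
  have h9 := abs_le.mp (h7.trans h8)
  have h10 := h.tl_nonneg ε hL2
  have e1 : Cf p κ (La κ' ε v T) t = (VV p κ t - Bb κ' ε t) + Aa ε v T t - La κ' ε v T (Real.pi * p - t) := by
    unfold Cf La; ring
  have hpos : 0 ≤ (κ - κ') * Y ^ 2 := by
    have : 0 ≤ κ - κ' := by linarith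
    positivity
  have hpos2 : 0 ≤ 2 * κ' * Y ^ 4 * ε ^ 2 := by positivity
  have hpos3 : 0 ≤ 2 * K * Y ^ 2 * ε ^ 2 := by positivity
  rw [e1, h1]
  have hexp : (κ - κ') * Y ^ 2 + (2 * κ' * Y ^ 4 + 2 * K * Y ^ 2) * ε ^ 2 + tl κ' ε v T (Real.pi * p / 2) =
    ((κ - κ') * Y ^ 2 + 2 * κ' * Y ^ 4 * ε ^ 2) + 2 * K * Y ^ 2 * ε ^ 2 + tl κ' ε v T (Real.pi * p / 2) := by ring
  rw [hexp, abs_le]
  constructor <;> linarith [h9.1, h9.2]

end Lim

theorem base {δ κ' C : ℝ} {v T : ℕ → ℝ} (h : Lim (1 + 2 * δ) κ' C v T) (hδ0 : 0 < δ) (hδ1 : δ ≤ 1) {Y η : ℝ}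
    (hY : 0 < Y) (hη0 : 0 < η) (hη1 : η ≤ 1) :
    ∃ p₁ : ℕ, ∀ p : ℕ, p₁ ≤ p → ∃ (M : ℕ) (κ : ℝ) (x : ℕ → ℝ), M = ⌈κ' * (p:ℝ) ^ 2⌉₊ ∧ 0 < M ∧ κ' ≤ κ ∧
      PConf p M δ Y η κ x := by
  have hκ' := h.hκ
  obtain ⟨K, hK⟩ := h.trunc hY.le
  obtain ⟨c, hc⟩ : ∃ c : ℝ, c = min 1 (η * κ') / 40 := ⟨_, rfl⟩
  have hc0 : 0 < c := by rw [hc]; positivity
  have hc1 : c ≤ 1 / 40 := by rw [hc]; linarith [min_le_left 1 (η * κ')]
  have hc2 : c ≤ η * κ' / 40 := by rw [hc]; linarith [min_le_right 1 (η * κ')]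
  obtain ⟨B₀, hB₀⟩ : ∃ B : ℝ, B = 2 * κ' * Y ^ 4 + 2 * K * Y ^ 2 := ⟨_, rfl⟩
  have hB₀0 : 0 ≤ B₀ := by rw [hB₀]; positivity
  obtain ⟨ε, hεd⟩ : ∃ ε : ℝ, ε = min (δ / 8) (c / (B₀ + 1)) := ⟨_, rfl⟩
  have hε0 : 0 < ε := by rw [hεd]; positivity
  have hε1 : ε ≤ δ / 8 := by rw [hεd]; exact min_le_left _ _
  have hε2 : ε ≤ c / (B₀ + 1) := by rw [hεd]; exact min_le_right _ _
  have hε3 : B₀ * ε ^ 2 ≤ c := by
    have h1 : ε ^ 2 ≤ ε := by nlinarith
    have h2 : B₀ * ε ^ 2 ≤ (B₀ + 1) * ε := by nlinarith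
    have h3 : (B₀ + 1) * ε ≤ (B₀ + 1) * (c / (B₀ + 1)) := by gcongr
    have h4 : (B₀ + 1) * (c / (B₀ + 1)) = c := by field_simp
    linarith
  have hσ : 8 * ε ≤ 1 + 2 * δ := by linarith
  have hcast : Tendsto (fun p : ℕ => (p:ℝ)) atTop atTop := tendsto_natCast_atTop_atTop
  have htl : ∀ᶠ p : ℕ in atTop, tl κ' ε v T (Real.pi * p / 2) ≤ c := by
    have h1 : Tendsto (fun p : ℕ => Real.pi * (p:ℝ) / 2) atTop atTop :=
      (hcast.const_mul_atTop Real.pi_pos).atTop_div_const (by norm_num)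
    have h2 := (h.tl_tendsto hε0).comp h1
    have h3 := (tendsto_order.1 h2).2 c hc0
    filter_upwards [h3] with p hp using le_of_lt hp
  have hev : ∀ᶠ p : ℕ in atTop, ∃ (M : ℕ) (κ : ℝ) (x : ℕ → ℝ), M = ⌈κ' * (p:ℝ) ^ 2⌉₊ ∧ 0 < M ∧ κ' ≤ κ ∧
      PConf p M δ Y η κ x := by
    filter_upwards [htl, hcast.eventually_ge_atTop 1, hcast.eventually_ge_atTop (4 / ε),
      hcast.eventually_ge_atTop (K / (2 * κ')), hcast.eventually_ge_atTop Y, hcast.eventually_ge_atTop (Y ^ 2 / c)] with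
      p h1 h2 h3 h4 h5 h6
    have hp : 0 < p := by
      have : (0:ℝ) < p := by linarith
      exact_mod_cast this
    have hpr : (0:ℝ) < p := by linarith
    have hpp : (p:ℝ) ≤ (p:ℝ) ^ 2 := by nlinarith
    have hpi := Real.pi_gt_three
    have hεp : 4 ≤ ε * p := by rw [div_le_iff₀ hε0] at h3; linarith
    have hYp : Y ≤ Real.pi * p / 2 := by nlinarith
    obtain ⟨M, hM⟩ : ∃ M : ℕ, M = ⌈κ' * (p:ℝ) ^ 2⌉₊ := ⟨_, rfl⟩
    have hM1 : κ' * (p:ℝ) ^ 2 ≤ M := by rw [hM]; exact Nat.le_ceil _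
    have hM2 : (M:ℝ) ≤ κ' * (p:ℝ) ^ 2 + 1 := by rw [hM]; exact (Nat.ceil_lt_add_one (by positivity)).le
    have hM0 : (0:ℝ) < M := by
      have : 0 < κ' * (p:ℝ) ^ 2 := by positivity
      linarith
    obtain ⟨κ, hκdef⟩ : ∃ κ : ℝ, κ = M / (p:ℝ) ^ 2 := ⟨_, rfl⟩
    have hκp : κ * (p:ℝ) ^ 2 = M := by rw [hκdef]; field_simp
    have hκ1 : κ' ≤ κ := by rw [hκdef, le_div_iff₀ (by positivity)]; exact hM1
    have hκ2 : κ - κ' ≤ 1 / (p:ℝ) ^ 2 := by
      rw [le_div_iff₀ (by positivity), sub_mul, hκp]; linarith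
    have hκY : (κ - κ') * Y ^ 2 ≤ c := by
      have h7 : Y ^ 2 ≤ c * (p:ℝ) ^ 2 := by
        rw [div_le_iff₀ hc0] at h6
        nlinarith
      calc (κ - κ') * Y ^ 2 ≤ (1 / (p:ℝ) ^ 2) * (c * (p:ℝ) ^ 2) := by gcongr
        _ = c := by field_simp
    have hK2 : K ≤ 2 * M := by
      have h7 : (K:ℝ) ≤ 2 * κ' * p := by
        rw [div_le_iff₀ (by positivity)] at h4
        linarith
      have h8 : 2 * κ' * (p:ℝ) ≤ 2 * κ' * (p:ℝ) ^ 2 := by gcongr
      have h9 : (K:ℝ) ≤ 2 * M := by linarith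
      exact_mod_cast h9
    obtain ⟨lam, hlam⟩ : ∃ lam : ℝ, lam = tl κ' ε v T (Real.pi * p / 2) := ⟨_, rfl⟩
    have hlam0 : 0 ≤ lam := by rw [hlam]; exact h.tl_nonneg ε (by positivity)
    have hlam1 : lam ≤ c := by rw [hlam]; exact h1
    have hηκ : η * κ' ≤ η * κ := by gcongr
    have hconf : ∃ x : ℕ → ℝ, PConf p M δ Y η κ x := by
      apply confOf p M δ Y η κ (5 * lam) ((κ - κ') * Y ^ 2 + (2 * κ' * Y ^ 4 + 2 * K * Y ^ 2) * ε ^ 2 + lam) lam
        (La κ' ε v T) hp hκp (by linarith) hη0 hη1 hδ0 hδ1 (by linarith) hlam0 (h.La_int hε0 _ _)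
      · intro D G hG he hD
        have h7 : (D:ℝ) / p + 8 * ε ≤ 1 + 2 * δ := by
          have : (D:ℝ) / p ≤ 1 + δ := by rw [div_le_iff₀ hpr]; exact hD
          linarith
        refine (h.La_band hε0 hp hG he h7).trans ?_
        apply mul_le_mul_of_nonneg_right
        · rw [hlam]; exact h.tl_anti hε0 (by positivity) (by nlinarith)
        · exact intervalIntegral.integral_nonneg (by positivity) (fun t _ => abs_nonneg _)
      · intro s t hs hst ht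
        have h7 := h.Cf_mono hσ hp hκ1 hεp hs hst ht
        rw [← hlam] at h7
        linarith
      · intro t ht0 ht
        have h7 := h.Cf_range hσ hp hκ1 hεp ht0 ht
        rw [← hlam, hκp] at h7
        push_cast
        exact h7
      · linarith
      · intro t ht0 ht hed
        right
        refine ⟨?_, ?_, ?_⟩
        · unfold ed at hed
          rcases min_lt_iff.mp hed with h7 | h7
          · obtain ⟨n, hn, hn2⟩ := h.Cf_inner hσ hp hκ1 hεp hK hY.le hYp ht0 h7.le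
            exact ⟨n, hn.trans hK2, by rw [hlam]; exact hn2⟩
          · obtain ⟨n, hn, hn2⟩ := h.Cf_inner hσ hp hκ1 hεp hK hY.le hYp (t := Real.pi * p - t) (by linarith) h7.le
            refine ⟨2 * M - n, Nat.sub_le _ _, ?_⟩
            rw [Nat.cast_sub (hn.trans hK2), hlam]
            rw [Lim.Cf_symm hp, hκp] at hn2
            push_cast
            rw [abs_sub_comm] at hn2
            convert hn2 using 2
            ring
        · rw [← hB₀]; linarith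
        · rw [← hB₀]; linarith
    obtain ⟨x, hx⟩ := hconf
    exact ⟨M, κ, x, hM, by exact_mod_cast hM0, hκ1, hx⟩
  exact eventually_atTop.mp hev

end Pool.Agent.Helper514.Cheb
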