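import Pool.Agent.Helper514.Cheb.Good

set_option autoImplicit false

open Filter Topology MeasureTheory

namespace Pool.Agent.Helper514.Cheb

lemma int_inv_sq (a : ℝ) (ha : 0 ≤ a) : ∫ u in (-a)..a, 1 / (1 + |u|) ^ 2 ≤ 2 := by
  have hcont : Continuous fun u : ℝ => 1 / (1 + |u|) ^ 2 := by
    apply Continuous.div continuous_const (by fun_prop)
    intro u; have := abs_nonneg u; positivity
  have h1 : ∫ u in (0:ℝ)..a, 1 / (1 + |u|) ^ 2 ≤ 1 := by
    have h2 : ∫ u in (0:ℝ)..a, 1 / (1 + |u|) ^ 2 = ∫ u in (0:ℝ)..a, 1 / (1 + u) ^ 2 := by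
      refine intervalIntegral.integral_congr fun u hu => ?_
      rw [Set.uIcc_of_le ha] at hu
      show 1 / (1 + |u|) ^ 2 = 1 / (1 + u) ^ 2
      rw [abs_of_nonneg hu.1]
    rw [h2]
    have h3 : ∫ u in (0:ℝ)..a, 1 / (1 + u) ^ 2 = -(1 + a)⁻¹ - -(1 + 0)⁻¹ := by
      apply intervalIntegral.integral_eq_sub_of_hasDerivAt
      · intro u hu
        rw [Set.uIcc_of_le ha] at hu
        have h4 : (1 + u) ≠ 0 := by linarith [hu.1]
        have h5 : HasDerivAt (fun u : ℝ => 1 + u) 1 u := (hasDerivAt_id u).const_add 1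
        have h6 := (h5.inv h4).neg
        have e : (fun a : ℝ => -(1 + a)⁻¹) = -(fun u : ℝ => 1 + u)⁻¹ := by funext a; simp
        rw [e]
        convert h6 using 1
        ring
      · apply ContinuousOn.intervalIntegrable
        rw [Set.uIcc_of_le ha]
        apply ContinuousOn.div continuousOn_const (by fun_prop)
        intro u hu
        have : (1 + u) ≠ 0 := by linarith [hu.1]
        positivity
    rw [h3]
    have : 0 ≤ (1 + a)⁻¹ := by positivity
    norm_num; linarith
  have h2 : ∫ u in (-a)..0, 1 / (1 + |u|) ^ 2 = ∫ u in (0:ℝ)..a, 1 / (1 + |u|) ^ 2 := by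
    have h3 := intervalIntegral.integral_comp_neg (fun u : ℝ => 1 / (1 + |u|) ^ 2) (a := 0) (b := a)
    simp only [abs_neg, neg_zero] at h3
    exact h3.symm
  rw [← intervalIntegral.integral_add_adjacent_intervals (b := 0) (hcont.intervalIntegrable _ _)
    (hcont.intervalIntegrable _ _), h2]
  linarith

lemma int_bound {p : ℕ} {g : ℝ → ℝ} (hg : Function.Periodic g (2 * Real.pi * p)) (hc : Continuous g)
    (c A : ℝ) (hA : 0 ≤ A) (h : ∀ u, |u| ≤ Real.pi * p → g (c + u) ≤ A / (1 + |u|) ^ 2) :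
    ∫ t in (-(Real.pi * p))..(Real.pi * p), g t ≤ 2 * A := by
  have hP : 0 ≤ Real.pi * p := by positivity
  have h1 : ∫ t in (-(Real.pi * p))..(Real.pi * p), g t = ∫ t in (c - Real.pi * p)..(c + Real.pi * p), g t := by
    have := hg.intervalIntegral_add_eq (-(Real.pi * p)) (c - Real.pi * p)
    have e1 : -(Real.pi * p) + 2 * Real.pi * p = Real.pi * p := by ring
    have e2 : c - Real.pi * p + 2 * Real.pi * p = c + Real.pi * p := by ring
    rwa [e1, e2] at this
  have h2 : ∫ t in (c - Real.pi * p)..(c + Real.pi * p), g t = ∫ u in (-(Real.pi * p))..(Real.pi * p), g (c + u) := by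
    rw [intervalIntegral.integral_comp_add_left (fun t => g t) c]
    congr 1
  rw [h1, h2]
  calc ∫ u in (-(Real.pi * p))..(Real.pi * p), g (c + u)
      ≤ ∫ u in (-(Real.pi * p))..(Real.pi * p), A * (1 / (1 + |u|) ^ 2) := by
        apply intervalIntegral.integral_mono_on (by linarith)
        · exact (hc.comp (continuous_const.add continuous_id)).intervalIntegrable _ _
        · apply Continuous.intervalIntegrable
          apply continuous_const.mul
          apply Continuous.div continuous_const (by fun_prop)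
          intro u; have := abs_nonneg u; positivity
        · intro u hu
          rw [mul_one_div]
          exact h u (abs_le.2 ⟨hu.1, hu.2⟩)
    _ = A * ∫ u in (-(Real.pi * p))..(Real.pi * p), 1 / (1 + |u|) ^ 2 := by
        rw [intervalIntegral.integral_const_mul]
    _ ≤ A * 2 := by gcongr; exact int_inv_sq _ hP
    _ = 2 * A := by ring

/-- local Bernstein inequality with polynomial decay -/
lemma decay_deriv {p D : ℕ} (hp : 0 < p) {P : ℝ → ℝ} (hP : RTP p D P) (hD : (D : ℝ) ≤ 2 * p) (c A : ℝ) (hA : 0 ≤ A)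
    (k : ℕ) (hk : k ≤ 8)
    (h : ∀ u, |u| ≤ Real.pi * p → |P (c + u)| ≤ A / (1 + |u|) ^ k) (u : ℝ) (hu : |u| ≤ Real.pi * p) :
    |deriv P (c + u)| ≤ CB * Real.exp 2 * A / (1 + |u|) ^ k := by
  have hpr : (0 : ℝ) < p := by exact_mod_cast hp
  have hu0 := abs_nonneg u
  have h1 : ∀ s, |P s| ≤ (A / (1 + |u|) ^ k) * ((1 + |s - (c + u)|) ^ 8 * wt (1/100) 1 (s - (c + u))) := by
    intro s
    obtain ⟨v, hv0, hv1, hv2⟩ : ∃ v : ℝ, |v| ≤ Real.pi * p ∧ P s = P (c + v) ∧ (|u| - |v|) ≤ |s - (c + u)| := by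
      obtain ⟨j, hj⟩ := exists_rep hp c s
      refine ⟨s - j * (2 * Real.pi * p) - c, hj, ?_, ?_⟩
      · have := per_int (hP.per hp) j s
        rw [← this]; congr 1; ring
      · set v := s - j * (2 * Real.pi * p) - c with hv
        have hs : s - (c + u) = v + j * (2 * Real.pi * p) - u := by rw [hv]; ring
        rw [hs]
        have hb := abs_le.1 hj
        have hub := abs_le.1 hu
        rcases lt_trichotomy j 0 with h | h | h
        · have hk1 : (j : ℝ) ≤ -1 := by exact_mod_cast (by omega : j ≤ -1)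
          have h3 : v + j * (2 * Real.pi * p) - u ≤ v - 2 * Real.pi * p - u := by nlinarith
          have h4 := neg_abs_le (v + j * (2 * Real.pi * p) - u)
          have h5 : -|v + j * (2 * Real.pi * p) - u| ≤ v - 2 * Real.pi * p - u := h4.trans h3
          rcases abs_cases u with ⟨h6, _⟩ | ⟨h6, _⟩ <;> rcases abs_cases v with ⟨h7, _⟩ | ⟨h7, _⟩ <;>
            rw [h6, h7] <;> nlinarith
        · rw [h]; simp only [Int.cast_zero, zero_mul, add_zero]
          have := abs_sub_abs_le_abs_sub u v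
          rw [abs_sub_comm v u]; exact this
        · have hk1 : (1 : ℝ) ≤ j := by exact_mod_cast h
          have h3 : v + 2 * Real.pi * p - u ≤ v + j * (2 * Real.pi * p) - u := by nlinarith
          have h4 := le_abs_self (v + j * (2 * Real.pi * p) - u)
          rcases abs_cases u with ⟨h6, _⟩ | ⟨h6, _⟩ <;> rcases abs_cases v with ⟨h7, _⟩ | ⟨h7, _⟩ <;>
            rw [h6, h7] <;> nlinarith
    rw [hv1]
    refine (h v hv0).trans ?_
    have hv00 := abs_nonneg v
    have hs0 := abs_nonneg (s - (c + u))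
    have h2 : (1 + |u|) ≤ (1 + |v|) * (1 + |s - (c + u)|) := by nlinarith
    have h3 : (1 + |u|) ^ k ≤ (1 + |v|) ^ k * (1 + |s - (c + u)|) ^ 8 := by
      calc (1 + |u|) ^ k ≤ ((1 + |v|) * (1 + |s - (c + u)|)) ^ k := by gcongr
        _ = (1 + |v|) ^ k * (1 + |s - (c + u)|) ^ k := by rw [mul_pow]
        _ ≤ _ := by
            gcongr
            · linarith
    have h4 : 1 ≤ wt (1/100) 1 (s - (c + u)) := one_le_wt (by norm_num) le_rfl
    have h5 : A / (1 + |v|) ^ k ≤ A / (1 + |u|) ^ k * (1 + |s - (c + u)|) ^ 8 := by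
      rw [div_mul_eq_mul_div, div_le_div_iff₀ (by positivity) (by positivity)]
      calc A * (1 + |u|) ^ k ≤ A * ((1 + |v|) ^ k * (1 + |s - (c + u)|) ^ 8) := by gcongr
        _ = _ := by ring
    refine h5.trans ?_
    rw [← mul_assoc]
    have h6 : 0 ≤ A / (1 + |u|) ^ k * (1 + |s - (c + u)|) ^ 8 := by positivity
    nlinarith
  have h2 := WB hp hP (E := 1) (ε := 1/100) (u := c + u) (A := A / (1 + |u|) ^ k) le_rfl le_rfl (by positivity) h1
  refine h2.trans ?_
  have h3 : Real.exp (D / p) ≤ Real.exp 2 := by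
    rw [Real.exp_le_exp, div_le_iff₀ hpr]; exact hD
  have hCB := one_le_CB
  calc CB * (A / (1 + |u|) ^ k) * Real.exp (D / p) ≤ CB * (A / (1 + |u|) ^ k) * Real.exp 2 := by gcongr
    _ = _ := by ring

noncomputable def CB2 : ℝ := CB * Real.exp 2

lemma one_le_CB2 : 1 ≤ CB2 := by
  unfold CB2
  have h1 := one_le_CB
  have h2 : (1:ℝ) ≤ Real.exp 2 := Real.one_le_exp (by norm_num)
  nlinarith

noncomputable def Db (p : ℕ) (κ Y η : ℝ) (t : ℝ) : ℝ := if ed p t < Y then η * κ else 1

structure PConf (p M : ℕ) (δ Y η κ : ℝ) (x : ℕ → ℝ) : Prop where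
  hp : 0 < p
  hκ : κ * (p : ℝ) ^ 2 = M
  hκ0 : 0 < κ
  hη0 : 0 < η
  hη1 : η ≤ 1
  hδ0 : 0 < δ
  hδ1 : δ ≤ 1
  mono : Monotone x
  mem : ∀ i, 0 ≤ x i ∧ x i ≤ Real.pi * p
  P : ∀ (D : ℕ) (H : ℝ → ℝ), RTP p D H → (D : ℝ) ≤ (1 + δ) * p →
    |∑ i ∈ Finset.range (2 * M), (H (x i) + H (-x i)) -
      κ * ∫ t in (-(Real.pi * p))..(Real.pi * p), H t * ww p t| ≤
      ∫ t in (-(Real.pi * p))..(Real.pi * p), |deriv H t| * Db p κ Y η |t|

lemma Db_bound {p : ℕ} {κ Y η t : ℝ} (hκ : 0 ≤ κ) (hη : 0 ≤ η) (hη1 : η ≤ 1) :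
    0 ≤ Db p κ Y η t ∧ Db p κ Y η t ≤ 1 + κ := by
  unfold Db
  split_ifs
  · exact ⟨by positivity, by nlinarith⟩
  · exact ⟨zero_le_one, by linarith⟩

lemma Db_int {p : ℕ} {κ Y η : ℝ} (hκ : 0 ≤ κ) (hη : 0 ≤ η) (hη1 : η ≤ 1) {g : ℝ → ℝ} (hg : Continuous g) (a b : ℝ) :
    IntervalIntegrable (fun t => g t * Db p κ Y η |t|) volume a b := by
  have hm : Measurable fun t : ℝ => Db p κ Y η |t| := by
    unfold Db
    have hc : Continuous fun t : ℝ => ed p |t| := by unfold ed; fun_prop
    exact Measurable.ite (measurableSet_lt hc.measurable measurable_const) measurable_const measurable_const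
  have h1 : IntervalIntegrable (fun t : ℝ => Db p κ Y η |t|) volume a b := by
    rw [intervalIntegrable_iff]
    apply Measure.integrableOn_of_bounded (M := 1 + κ)
    · simp
    · exact hm.aestronglyMeasurable
    · refine Eventually.of_forall fun t => ?_
      have := Db_bound (p := p) (Y := Y) (t := |t|) hκ hη hη1
      rw [Real.norm_of_nonneg this.1]; exact this.2
  have h2 := h1.mul_continuousOn (g := g) hg.continuousOn
  exact h2.congr_ae (Eventually.of_forall fun t => mul_comm _ _)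

lemma ww_lip (p : ℕ) (s t : ℝ) : |ww p s - ww p t| ≤ |s - t| := by
  unfold ww
  rcases Nat.eq_zero_or_pos p with h | h
  · simp [h]
  have hpr : (0 : ℝ) < p := by exact_mod_cast h
  rw [← mul_sub, abs_mul, abs_of_pos hpr]
  have h1 := abs_abs_sub_abs_le_abs_sub (Real.sin (s / p)) (Real.sin (t / p))
  have h2 := Real.abs_sin_sub_sin_le (s / p) (t / p)
  have h3 : |s / p - t / p| = |s - t| / p := by rw [← sub_div, abs_div, abs_of_pos hpr]
  rw [h3] at h2
  calc (p : ℝ) * |(|Real.sin (s / p)|) - (|Real.sin (t / p)|)| ≤ p * (|s - t| / p) := by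
        gcongr; exact h1.trans h2
    _ = |s - t| := by field_simp

lemma ww_nonneg (p : ℕ) (t : ℝ) : 0 ≤ ww p t := by unfold ww; positivity

lemma ww_continuous (p : ℕ) : Continuous (ww p) := by unfold ww; fun_prop

lemma ww_periodic {p : ℕ} (hp : 0 < p) : Function.Periodic (ww p) (2 * Real.pi * p) := by
  intro t
  unfold ww
  have hpr : (0 : ℝ) < p := by exact_mod_cast hp
  have : (t + 2 * Real.pi * p) / p = t / p + 2 * Real.pi := by field_simp
  rw [this, Real.sin_add_two_pi]

lemma ww_le_ed {p : ℕ} (hp : 0 < p) {t : ℝ} (h0 : 0 ≤ t) (h1 : t ≤ Real.pi * p) : ww p t ≤ ed p t := by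
  have hpr : (0 : ℝ) < p := by exact_mod_cast hp
  apply le_min
  · have := ww_lip p t 0
    have h2 : ww p 0 = 0 := by unfold ww; simp
    rw [h2, sub_zero, sub_zero, abs_of_nonneg h0, abs_of_nonneg (ww_nonneg p t)] at this
    exact this
  · have := ww_lip p t (Real.pi * p)
    have h2 : ww p (Real.pi * p) = 0 := by
      unfold ww
      rw [mul_div_assoc, div_self hpr.ne', mul_one, Real.sin_pi]; simp
    rw [h2, sub_zero, abs_of_nonneg (ww_nonneg p t), abs_of_nonpos (by linarith)] at this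
    linarith

lemma ed_le_ww {p : ℕ} (hp : 0 < p) {t : ℝ} (h0 : 0 ≤ t) (h1 : t ≤ Real.pi * p) :
    2 / Real.pi * ed p t ≤ ww p t := by
  have hpr : (0 : ℝ) < p := by exact_mod_cast hp
  have hpi := Real.pi_pos
  unfold ww
  have hs : 0 ≤ Real.sin (t / p) := by
    apply Real.sin_nonneg_of_nonneg_of_le_pi (by positivity)
    rw [div_le_iff₀ hpr]; exact h1
  rw [abs_of_nonneg hs]
  rcases le_total t (Real.pi * p - t) with h | h
  · rw [ed, min_eq_left h]
    have h2 := Real.mul_le_sin (x := t / p) (by positivity) (by rw [div_le_iff₀ hpr]; linarith)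
    calc 2 / Real.pi * t = p * (2 / Real.pi * (t / p)) := by field_simp
      _ ≤ _ := by gcongr
  · rw [ed, min_eq_right h]
    have h2 := Real.mul_le_sin (x := Real.pi - t / p) (by
      rw [sub_nonneg, div_le_iff₀ hpr]; exact h1) (by
      have : Real.pi / 2 ≤ t / p := by rw [le_div_iff₀ hpr]; linarith
      linarith)
    rw [Real.sin_pi_sub] at h2
    calc 2 / Real.pi * (Real.pi * p - t) = p * (2 / Real.pi * (Real.pi - t / p)) := by field_simp
      _ ≤ _ := by gcongr

variable {p M : ℕ} {δ Y η κ : ℝ} {x : ℕ → ℝ}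

lemma PConf.err_le (h : PConf p M δ Y η κ x) {H : ℝ → ℝ} {D : ℕ} (hH : RTP p D H) (c A : ℝ) (hA : 0 ≤ A)
    (hb : ∀ u, |u| ≤ Real.pi * p → |deriv H (c + u)| ≤ A / (1 + |u|) ^ 2) :
    ∫ t in (-(Real.pi * p))..(Real.pi * p), |deriv H t| * Db p κ Y η |t| ≤ 2 * A * (1 + κ) := by
  have hP : 0 ≤ Real.pi * (p : ℝ) := by positivity
  have hκ := h.hκ0
  calc ∫ t in (-(Real.pi * p))..(Real.pi * p), |deriv H t| * Db p κ Y η |t|
      ≤ ∫ t in (-(Real.pi * p))..(Real.pi * p), |deriv H t| * (1 + κ) := by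
        apply intervalIntegral.integral_mono_on (by linarith)
        · exact Db_int h.hκ0.le h.hη0.le h.hη1 hH.deriv.continuous.abs _ _
        · exact (hH.deriv.continuous.abs.mul continuous_const).intervalIntegrable _ _
        · intro t _
          have := Db_bound (p := p) (Y := Y) (t := |t|) h.hκ0.le h.hη0.le h.hη1
          gcongr
          exact this.2
    _ = (∫ t in (-(Real.pi * p))..(Real.pi * p), |deriv H t|) * (1 + κ) := by
        rw [intervalIntegral.integral_mul_const]
    _ ≤ (2 * A) * (1 + κ) := by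
        gcongr
        apply int_bound (c := c) (A := A) _ hH.deriv.continuous.abs hA hb
        intro t
        simp only
        rw [hH.deriv.periodic h.hp]

lemma PConf.sum_bound (h : PConf p M δ Y η κ x) {Q : ℝ → ℝ} {D : ℕ} (hQ : RTP p D Q) (hD : (D : ℝ) ≤ (1 + δ) * p)
    (c A : ℝ) (hA : 0 ≤ A) (hb : ∀ u, |u| ≤ Real.pi * p → |Q (c + u)| ≤ A / (1 + |u|) ^ 3) :
    |∑ i ∈ Finset.range (2 * M), (Q (x i) + Q (-x i)) -
      κ * ∫ t in (-(Real.pi * p))..(Real.pi * p), Q t * ww p t| ≤ 2 * (CB2 * A) * (1 + κ) ∧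
    κ * ∫ t in (-(Real.pi * p))..(Real.pi * p), Q t * ww p t ≤ κ * (2 * (A * (ww p c + 1))) := by
  have hp := h.hp
  have hpr : (0 : ℝ) < p := by exact_mod_cast hp
  have hCB := one_le_CB2
  constructor
  · refine (h.P D Q hQ hD).trans ?_
    apply h.err_le hQ c (CB2 * A) (by positivity)
    intro u hu
    have h2 := decay_deriv hp hQ (by nlinarith [h.hδ1]) c A hA 3 (by norm_num) hb u hu
    refine h2.trans ?_
    have := abs_nonneg u
    have h3 : (1 + |u|) ^ 2 ≤ (1 + |u|) ^ 3 := pow_le_pow_right₀ (by linarith) (by norm_num)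
    rw [show CB * Real.exp 2 * A = CB2 * A by rw [CB2]]
    gcongr
  · apply mul_le_mul_of_nonneg_left _ h.hκ0.le
    apply int_bound (c := c)
    · intro t
      simp only
      rw [hQ.periodic hp, ww_periodic hp]
    · exact hQ.continuous.mul (ww_continuous p)
    · have := ww_nonneg p c; positivity
    · intro u hu
      have h1 := ww_lip p (c + u) c
      rw [add_sub_cancel_left] at h1
      have h2 : ww p (c + u) ≤ ww p c + |u| := by
        have := (abs_le.1 h1).2; linarith
      have h3 := ww_nonneg p (c + u)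
      have h4 := ww_nonneg p c
      have h5 := abs_nonneg u
      calc Q (c + u) * ww p (c + u) ≤ (A / (1 + |u|) ^ 3) * (ww p c + |u|) := by
            have := (le_abs_self _).trans (hb u hu)
            gcongr
        _ ≤ (A / (1 + |u|) ^ 3) * ((ww p c + 1) * (1 + |u|)) := by
            gcongr; nlinarith
        _ = _ := by field_simp

lemma PConf.ibp (h : PConf p M δ Y η κ x) {P : ℝ → ℝ} {D : ℕ} (hP : RTP p D P) (hD : (D : ℝ) ≤ (1 + δ) * p)
    (c A : ℝ) (hA : 0 ≤ A) (hb : ∀ u, |u| ≤ Real.pi * p → |P (c + u)| ≤ A / (1 + |u|) ^ 2) :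
    |∑ i ∈ Finset.range (2 * M), (deriv P (x i) + deriv P (-x i))| ≤ 4 * (CB2 ^ 2 * A) * (1 + κ) := by
  have hp := h.hp
  have hpr : (0 : ℝ) < p := by exact_mod_cast hp
  have hpi := Real.pi_pos
  have hCB := one_le_CB2
  have hD2 : (D : ℝ) ≤ 2 * p := by nlinarith [h.hδ1]
  have h1 := h.P D (deriv P) hP.deriv hD
  have h2 : ∫ t in (-(Real.pi * p))..(Real.pi * p), |deriv (deriv P) t| * Db p κ Y η |t| ≤ 2 * (CB2 ^ 2 * A) * (1 + κ) := by
    apply h.err_le hP.deriv c _ (by positivity)
    intro u hu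
    have h3 := fun v hv => decay_deriv hp hP hD2 c A hA 2 (by norm_num) hb v hv
    have h4 := decay_deriv hp hP.deriv hD2 c (CB * Real.exp 2 * A) (by rw [show CB * Real.exp 2 = CB2 from rfl]; positivity) 2 (by norm_num) h3 u hu
    refine h4.trans (le_of_eq ?_)
    rw [CB2]; ring
  have h3 : |∫ t in (-(Real.pi * p))..(Real.pi * p), deriv P t * ww p t| ≤ 2 * A := by
    have hd : ∀ t, HasDerivAt P (deriv P t) t := fun t => (hP.differentiable t).hasDerivAt
    have hs : ∀ t : ℝ, HasDerivAt (fun t : ℝ => p * Real.sin (t / p)) (Real.cos (t / p)) t := by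
      intro t
      have e1 : HasDerivAt (fun t : ℝ => t / p) (1 / p) t := (hasDerivAt_id t).div_const _
      have e2 := (e1.sin).const_mul (p : ℝ)
      have e3 : (p : ℝ) * (Real.cos (t / p) * (1 / p)) = Real.cos (t / p) := by field_simp
      rw [e3] at e2; exact e2
    have hcP := hP.continuous
    have hcP' := hP.deriv.continuous
    have hcos : Continuous fun t : ℝ => Real.cos (t / p) := by fun_prop
    have hsin0 : Real.sin (Real.pi * p / p) = 0 := by
      rw [mul_div_assoc, div_self hpr.ne', mul_one, Real.sin_pi]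
    have hA1 : ∫ t in (0:ℝ)..(Real.pi * p), deriv P t * ww p t = - ∫ t in (0:ℝ)..(Real.pi * p), P t * Real.cos (t / p) := by
      have e1 : ∫ t in (0:ℝ)..(Real.pi * p), deriv P t * ww p t =
          ∫ t in (0:ℝ)..(Real.pi * p), deriv P t * (p * Real.sin (t / p)) := by
        refine intervalIntegral.integral_congr fun t ht => ?_
        rw [Set.uIcc_of_le (by positivity)] at ht
        have hs : 0 ≤ Real.sin (t / p) := by
          apply Real.sin_nonneg_of_nonneg_of_le_pi (div_nonneg ht.1 hpr.le)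
          rw [div_le_iff₀ hpr]; exact ht.2
        show deriv P t * ww p t = deriv P t * (p * Real.sin (t / p))
        rw [ww, abs_of_nonneg hs]
      have e2 := intervalIntegral.integral_mul_deriv_eq_deriv_mul (a := 0) (b := Real.pi * p)
        (fun t _ => hs t) (fun t _ => hd t) (hcos.intervalIntegrable _ _) (hcP'.intervalIntegrable _ _)
      rw [e1]
      have e3 : ∫ t in (0:ℝ)..(Real.pi * p), deriv P t * (p * Real.sin (t / p)) =
          ∫ t in (0:ℝ)..(Real.pi * p), (p * Real.sin (t / p)) * deriv P t := by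
        congr 1; funext t; ring
      rw [e3, e2, hsin0]
      simp only [mul_zero, zero_mul, zero_div, Real.sin_zero, sub_zero, zero_sub]
      congr 2; funext t; ring
    have hA2 : ∫ t in (-(Real.pi * p))..0, deriv P t * ww p t = ∫ t in (-(Real.pi * p))..0, P t * Real.cos (t / p) := by
      have e1 : ∫ t in (-(Real.pi * p))..0, deriv P t * ww p t =
          - ∫ t in (-(Real.pi * p))..0, deriv P t * (p * Real.sin (t / p)) := by
        rw [← intervalIntegral.integral_neg]
        refine intervalIntegral.integral_congr fun t ht => ?_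
        rw [Set.uIcc_of_le (by linarith [mul_pos hpi hpr])] at ht
        have hs : Real.sin (t / p) ≤ 0 := by
          apply Real.sin_nonpos_of_nonpos_of_neg_pi_le (div_nonpos_of_nonpos_of_nonneg ht.2 hpr.le)
          rw [le_div_iff₀ hpr]; linarith [ht.1]
        show deriv P t * ww p t = -(deriv P t * (p * Real.sin (t / p)))
        rw [ww, abs_of_nonpos hs]; ring
      have e2 := intervalIntegral.integral_mul_deriv_eq_deriv_mul (a := -(Real.pi * p)) (b := 0)
        (fun t _ => hs t) (fun t _ => hd t) (hcos.intervalIntegrable _ _) (hcP'.intervalIntegrable _ _)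
      rw [e1]
      have e3 : ∫ t in (-(Real.pi * p))..0, deriv P t * (p * Real.sin (t / p)) =
          ∫ t in (-(Real.pi * p))..0, (p * Real.sin (t / p)) * deriv P t := by
        congr 1; funext t; ring
      rw [e3, e2, neg_div, Real.sin_neg, hsin0]
      simp only [mul_zero, zero_mul, zero_div, Real.sin_zero, sub_zero, zero_sub, neg_zero, neg_neg]
      congr 1; funext t; ring
    have hcw : Continuous fun t => deriv P t * ww p t := hcP'.mul (ww_continuous p)
    rw [← intervalIntegral.integral_add_adjacent_intervals (b := 0) (hcw.intervalIntegrable _ _)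
      (hcw.intervalIntegrable _ _), hA1, hA2]
    have hb1 : ∀ a b : ℝ, a ≤ b → |∫ t in a..b, P t * Real.cos (t / p)| ≤ ∫ t in a..b, |P t| := by
      intro a b hab
      refine (intervalIntegral.abs_integral_le_integral_abs hab).trans ?_
      apply intervalIntegral.integral_mono_on hab
      · exact ((hcP.mul hcos).abs).intervalIntegrable _ _
      · exact hcP.abs.intervalIntegrable _ _
      · intro t _
        rw [abs_mul]
        have := Real.abs_cos_le_one (t / p)
        nlinarith [abs_nonneg (P t)]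
    have hb2 := hb1 0 (Real.pi * p) (by positivity)
    have hb3 := hb1 (-(Real.pi * p)) 0 (by linarith [mul_pos hpi hpr])
    have hb4 : (∫ t in (-(Real.pi * p))..0, |P t|) + ∫ t in (0:ℝ)..(Real.pi * p), |P t| =
        ∫ t in (-(Real.pi * p))..(Real.pi * p), |P t| :=
      intervalIntegral.integral_add_adjacent_intervals (hcP.abs.intervalIntegrable _ _) (hcP.abs.intervalIntegrable _ _)
    have hb5 : ∫ t in (-(Real.pi * p))..(Real.pi * p), |P t| ≤ 2 * A := by
      apply int_bound (c := c) (A := A) _ hcP.abs hA hb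
      intro t
      simp only
      rw [hP.periodic hp]
    have hb6 := abs_le.1 hb2
    have hb7 := abs_le.1 hb3
    rw [abs_le]; constructor <;> linarith [hb6.1, hb6.2, hb7.1, hb7.2]
  have h4 : |κ * ∫ t in (-(Real.pi * p))..(Real.pi * p), deriv P t * ww p t| ≤ κ * (2 * A) := by
    rw [abs_mul, abs_of_pos h.hκ0]
    exact mul_le_mul_of_nonneg_left h3 h.hκ0.le
  have h5 := abs_le.1 (h1.trans h2)
  have h6 := abs_le.1 h4
  have hκ := h.hκ0
  have h7 : κ * (2 * A) ≤ 2 * (CB2 ^ 2 * A) * (1 + κ) := by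
    have h8 : 1 ≤ CB2 ^ 2 := one_le_pow₀ hCB
    have h9 : A ≤ CB2 ^ 2 * A := by nlinarith
    nlinarith
  rw [abs_le]; constructor <;> linarith [h5.1, h5.2, h6.1, h6.2]

end Pool.Agent.Helper514.Cheb
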