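import Pool.Agent.Helper514.Cheb.Conf

set_option autoImplicit false

open MeasureTheory Set Filter

namespace Pool.Agent.Helper514.Cheb

noncomputable def VV (p : ℕ) (κ t : ℝ) : ℝ := κ * (p : ℝ) ^ 2 * (1 - Real.cos (t / p))

noncomputable def Cf (p : ℕ) (κ : ℝ) (Λ : ℝ → ℝ) (t : ℝ) : ℝ := VV p κ t + Λ t - Λ (Real.pi * p - t)

noncomputable def xs (L : ℝ) (C : ℝ → ℝ) (m : ℕ) : ℝ := sInf ({t : ℝ | 0 ≤ t ∧ t ≤ L ∧ (m : ℝ) + 1 / 2 ≤ C t} ∪ {L})

lemma xs_mem {L : ℝ} (hL : 0 ≤ L) (C : ℝ → ℝ) (m : ℕ) : 0 ≤ xs L C m ∧ xs L C m ≤ L := by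
  constructor
  · apply le_csInf ⟨L, Or.inr rfl⟩
    rintro b (hb | hb)
    · exact hb.1
    · rw [mem_singleton_iff] at hb; rw [hb]; exact hL
  · apply csInf_le
    · refine ⟨0, ?_⟩
      rintro b (hb | hb)
      · exact hb.1
      · rw [mem_singleton_iff] at hb; rw [hb]; exact hL
    · exact Or.inr rfl

lemma xs_mono {L : ℝ} (hL : 0 ≤ L) (C : ℝ → ℝ) : Monotone (xs L C) := by
  intro m n hmn
  apply csInf_le_csInf
  · refine ⟨0, ?_⟩
    rintro b (hb | hb)
    · exact hb.1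
    · rw [mem_singleton_iff] at hb; rw [hb]; exact hL
  · exact ⟨L, Or.inr rfl⟩
  · rintro b (hb | hb)
    · left
      refine ⟨hb.1, hb.2.1, le_trans ?_ hb.2.2⟩
      have : (m : ℝ) ≤ n := by exact_mod_cast hmn
      linarith
    · right; exact hb

/-- the counting function -/
noncomputable def C0 (x : ℕ → ℝ) (N : ℕ) (t : ℝ) : ℝ := ∑ m ∈ Finset.range N, (if x m ≤ t then (1:ℝ) else 0)

lemma C0_eq {x : ℕ → ℝ} (hx : Monotone x) (N : ℕ) (t : ℝ) : ∃ n : ℕ, n ≤ N ∧ C0 x N t = n ∧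
    (∀ m < n, x m ≤ t) ∧ (n < N → t < x n) := by
  classical
  induction N with
  | zero => exact ⟨0, le_rfl, by simp [C0], by simp, by simp⟩
  | succ N ih =>
    obtain ⟨n, hn, h1, h2, h3⟩ := ih
    have e : C0 x (N + 1) t = C0 x N t + (if x N ≤ t then (1:ℝ) else 0) := by
      unfold C0; rw [Finset.sum_range_succ]
    by_cases hN : x N ≤ t
    · have hnN : n = N := by
        by_contra hne
        have hlt : n < N := lt_of_le_of_ne hn hne
        have h4 := h3 hlt
        have h5 := hx hlt.le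
        linarith
      refine ⟨N + 1, le_rfl, ?_, ?_, fun h => absurd h (lt_irrefl _)⟩
      · rw [e, h1, if_pos hN, hnN]; push_cast; ring
      · intro m hm
        exact (hx (by omega)).trans hN
    · refine ⟨n, hn.trans (Nat.le_succ N), ?_, h2, ?_⟩
      · rw [e, h1, if_neg hN]; ring
      · intro _
        rcases Nat.lt_or_ge n N with h | h
        · exact h3 h
        · have : n = N := le_antisymm hn h
          rw [this]; exact lt_of_not_ge hN

/-- the key comparison -/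
lemma C0_close {L : ℝ} (hL : 0 ≤ L) {C : ℝ → ℝ} {N : ℕ} {η₁ : ℝ} (hη₁ : 0 ≤ η₁)
    (hmono : ∀ s t : ℝ, 0 ≤ s → s ≤ t → t ≤ L → C s ≤ C t + η₁)
    (hrange : ∀ t : ℝ, 0 ≤ t → t ≤ L → -η₁ ≤ C t ∧ C t ≤ N + η₁)
    {t : ℝ} (ht0 : 0 ≤ t) (ht1 : t ≤ L) (hne : ∀ m < N, t ≠ xs L C m) :
    |C0 (xs L C) N t - C t| ≤ 1 / 2 + η₁ ∧
    ∀ (n' : ℕ) (η₂ : ℝ), n' ≤ N → |C t - n'| ≤ η₂ → η₁ + η₂ < 1 / 2 → |C0 (xs L C) N t - C t| ≤ η₂ := by
  obtain ⟨n, hn, h1, h2, h3⟩ := C0_eq (xs_mono hL C) N t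
  have hlo : ∀ m < N, xs L C m ≤ t → (m : ℝ) + 1 / 2 ≤ C t + η₁ := by
    intro m hm hmt
    have hlt : xs L C m < t := lt_of_le_of_ne hmt (Ne.symm (hne m hm))
    obtain ⟨s, hs, hst⟩ := exists_lt_of_csInf_lt (⟨L, Or.inr rfl⟩) hlt
    rcases hs with hs | hs
    · exact hs.2.2.trans (hmono s t hs.1 hst.le ht1)
    · rw [mem_singleton_iff] at hs
      linarith
  have hhi : ∀ m, t < xs L C m → C t < (m : ℝ) + 1 / 2 := by
    intro m hm
    by_contra hcon
    push Not at hcon
    have : xs L C m ≤ t := by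
      apply csInf_le
      · refine ⟨0, ?_⟩
        rintro b (hb | hb)
        · exact hb.1
        · rw [mem_singleton_iff] at hb; rw [hb]; exact hL
      · left; exact ⟨ht0, ht1, hcon⟩
    linarith
  have hr := hrange t ht0 ht1
  have hA : (n : ℝ) ≤ C t + 1 / 2 + η₁ := by
    rcases Nat.eq_zero_or_pos n with h | h
    · rw [h]; push_cast; linarith
    · have h4 := hlo (n - 1) (by omega) (h2 (n - 1) (by omega))
      have h5 : ((n - 1 : ℕ) : ℝ) = n - 1 := by
        rw [Nat.cast_sub h]; simp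
      rw [h5] at h4
      linarith
  have hB : C t ≤ n + 1 / 2 + η₁ := by
    rcases Nat.lt_or_ge n N with h | h
    · have := hhi n (h3 h)
      linarith
    · have : n = N := le_antisymm hn h
      rw [this]; linarith
  constructor
  · rw [h1, abs_le]; constructor <;> linarith
  · intro n' η₂ hn' hc hs
    have hc' := abs_le.mp hc
    have : n = n' := by
      rcases lt_trichotomy n n' with h | h | h
      · have h4 := hhi n (h3 (lt_of_lt_of_le h hn'))
        have h5 : (n : ℝ) + 1 ≤ n' := by exact_mod_cast h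
        linarith
      · exact h
      · have h4 := hlo n' (by omega) (h2 n' h)
        linarith
    rw [h1, this, abs_sub_comm]; exact hc

lemma C0_meas (x : ℕ → ℝ) (N : ℕ) : Measurable (C0 x N) := by
  unfold C0
  refine Finset.measurable_sum _ fun m _ => ?_
  exact Measurable.ite measurableSet_Ici measurable_const measurable_const

lemma C0_nonneg (x : ℕ → ℝ) (N : ℕ) (t : ℝ) : 0 ≤ C0 x N t := by
  unfold C0
  exact Finset.sum_nonneg fun m _ => by split_ifs <;> norm_num

lemma C0_le (x : ℕ → ℝ) (N : ℕ) (t : ℝ) : C0 x N t ≤ N := by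
  unfold C0
  calc _ ≤ ∑ m ∈ Finset.range N, (1:ℝ) := Finset.sum_le_sum fun m _ => by split_ifs <;> norm_num
    _ = N := by simp

lemma ind_int (a L : ℝ) (h0 : 0 ≤ a) (h1 : a ≤ L) {g : ℝ → ℝ} (hg : Continuous g) :
    IntervalIntegrable (fun t => g t * (if a ≤ t then (1:ℝ) else 0)) volume 0 L ∧
    ∫ t in (0:ℝ)..L, g t * (if a ≤ t then (1:ℝ) else 0) = ∫ t in a..L, g t := by
  have hI1 : IntervalIntegrable (fun t => g t * (if a ≤ t then (1:ℝ) else 0)) volume 0 a := by
    apply IntervalIntegrable.congr_uIoo (f := fun _ => (0:ℝ)) (by simp)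
    intro t ht
    rw [uIoo_of_le h0] at ht
    have : ¬ a ≤ t := not_le.mpr ht.2
    simp [this]
  have hI2 : IntervalIntegrable (fun t => g t * (if a ≤ t then (1:ℝ) else 0)) volume a L := by
    apply (hg.intervalIntegrable a L).congr_uIoo
    intro t ht
    rw [uIoo_of_le h1] at ht
    simp [ht.1.le]
  refine ⟨hI1.trans hI2, ?_⟩
  rw [← intervalIntegral.integral_add_adjacent_intervals hI1 hI2]
  have e1 : ∫ t in (0:ℝ)..a, g t * (if a ≤ t then (1:ℝ) else 0) = ∫ t in (0:ℝ)..a, (0:ℝ) := by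
    apply intervalIntegral.integral_congr_ae
    filter_upwards [Measure.ae_ne volume a] with t hne ht
    rw [uIoc_of_le h0] at ht
    have : ¬ a ≤ t := not_le.mpr (lt_of_le_of_ne ht.2 hne)
    simp [this]
  have e2 : ∫ t in a..L, g t * (if a ≤ t then (1:ℝ) else 0) = ∫ t in a..L, g t := by
    apply intervalIntegral.integral_congr
    intro t ht
    rw [uIcc_of_le h1] at ht
    simp [ht.1]
  rw [e1, e2]; simp

lemma sumG {G G' : ℝ → ℝ} (hG : ∀ t, HasDerivAt G (G' t) t) (hG' : Continuous G') {L : ℝ} {x : ℕ → ℝ}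
    (hx : ∀ m, 0 ≤ x m ∧ x m ≤ L) (N : ℕ) :
    IntervalIntegrable (fun t => G' t * C0 x N t) volume 0 L ∧
    ∑ m ∈ Finset.range N, G (x m) = N * G L - ∫ t in (0:ℝ)..L, G' t * C0 x N t := by
  have h1 : ∀ m, ∫ t in (x m)..L, G' t = G L - G (x m) := fun m =>
    intervalIntegral.integral_eq_sub_of_hasDerivAt (fun t _ => hG t) (hG'.intervalIntegrable _ _)
  have e : (fun t => G' t * C0 x N t) =
      fun t => ∑ m ∈ Finset.range N, G' t * (if x m ≤ t then (1:ℝ) else 0) := by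
    funext t; unfold C0; rw [Finset.mul_sum]
  have hint : ∀ m ∈ Finset.range N, IntervalIntegrable (fun t => G' t * (if x m ≤ t then (1:ℝ) else 0)) volume 0 L :=
    fun m _ => (ind_int (x m) L (hx m).1 (hx m).2 hG').1
  constructor
  · rw [e]
    have := IntervalIntegrable.sum (Finset.range N) hint
    refine this.congr fun t _ => ?_
    simp
  · rw [e, intervalIntegral.integral_finsetSum hint]
    have : ∑ m ∈ Finset.range N, ∫ t in (0:ℝ)..L, G' t * (if x m ≤ t then (1:ℝ) else 0) =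
        ∑ m ∈ Finset.range N, (G L - G (x m)) :=
      Finset.sum_congr rfl fun m _ => by
        rw [(ind_int (x m) L (hx m).1 (hx m).2 hG').2, h1]
    rw [this, Finset.sum_sub_distrib]
    simp

lemma VV_deriv {p : ℕ} (hp : 0 < p) (κ t : ℝ) :
    HasDerivAt (VV p κ) (κ * (p * Real.sin (t / p))) t := by
  have hpr : (p : ℝ) ≠ 0 := by exact_mod_cast hp.ne'
  unfold VV
  have h1 : HasDerivAt (fun t : ℝ => t / p) (1 / (p : ℝ)) t := (hasDerivAt_id t).div_const _
  have h2 := h1.cos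
  have h3 := (h2.const_sub 1).const_mul (κ * (p : ℝ) ^ 2)
  have e : κ * (p * Real.sin (t / p)) = κ * (p : ℝ) ^ 2 * -(-Real.sin (t / p) * (1 / (p:ℝ))) := by
    field_simp
  rw [e]; exact h3

lemma ww_eq {p : ℕ} (hp : 0 < p) {t : ℝ} (h0 : 0 ≤ t) (h1 : t ≤ Real.pi * p) : ww p t = p * Real.sin (t / p) := by
  have hpr : (0:ℝ) < p := by exact_mod_cast hp
  unfold ww
  rw [abs_of_nonneg]
  apply Real.sin_nonneg_of_nonneg_of_le_pi (by positivity)
  rw [div_le_iff₀ hpr]; exact h1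

lemma VV_ibp {p : ℕ} (hp : 0 < p) (κ : ℝ) {G G' : ℝ → ℝ} (hG : ∀ t, HasDerivAt G (G' t) t) (hG' : Continuous G') :
    κ * ∫ t in (0:ℝ)..(Real.pi * p), G t * ww p t =
      2 * (κ * (p : ℝ) ^ 2) * G (Real.pi * p) - ∫ t in (0:ℝ)..(Real.pi * p), G' t * VV p κ t := by
  have hpr : (0:ℝ) < p := by exact_mod_cast hp
  have hL : 0 ≤ Real.pi * p := by positivity
  have hGc : Continuous G := continuous_iff_continuousAt.mpr fun t => (hG t).continuousAt
  have h1 : κ * ∫ t in (0:ℝ)..(Real.pi * p), G t * ww p t =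
      ∫ t in (0:ℝ)..(Real.pi * p), G t * (κ * (p * Real.sin (t / p))) := by
    rw [← intervalIntegral.integral_const_mul]
    apply intervalIntegral.integral_congr
    intro t ht
    rw [uIcc_of_le hL] at ht
    show κ * (G t * ww p t) = _
    rw [ww_eq hp ht.1 ht.2]; ring
  rw [h1, intervalIntegral.integral_mul_deriv_eq_deriv_mul (u := G) (v := VV p κ) (u' := G')
    (fun t _ => hG t) (fun t _ => VV_deriv hp κ t) (hG'.intervalIntegrable _ _)
    ((by fun_prop : Continuous fun t : ℝ => κ * (p * Real.sin (t / p))).intervalIntegrable _ _)]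
  have e1 : VV p κ (Real.pi * p) = 2 * (κ * (p : ℝ) ^ 2) := by
    unfold VV
    have : Real.pi * p / p = Real.pi := by field_simp
    rw [this, Real.cos_pi]; ring
  have e2 : VV p κ 0 = 0 := by unfold VV; simp
  rw [e1, e2]; ring

lemma fold_int {f : ℝ → ℝ} {L : ℝ} (h1 : IntervalIntegrable f volume (-L) 0) (h2 : IntervalIntegrable f volume 0 L) :
    ∫ t in (-L)..L, f t = ∫ t in (0:ℝ)..L, (f t + f (-t)) := by
  have h3 : IntervalIntegrable (fun t => f (-t)) volume 0 L := by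
    have := h1.comp_sub_left 0
    simpa using this.symm
  rw [← intervalIntegral.integral_add_adjacent_intervals h1 h2, intervalIntegral.integral_add h2 h3,
    intervalIntegral.integral_comp_neg]
  simp [add_comm]

theorem confOf (p M : ℕ) (δ Y η κ η₁ η₂ η₃ : ℝ) (Λ : ℝ → ℝ) (hp : 0 < p) (hκ : κ * (p : ℝ) ^ 2 = M)
    (hκ0 : 0 < κ) (hη0 : 0 < η) (hη1 : η ≤ 1) (hδ0 : 0 < δ) (hδ1 : δ ≤ 1) (hη₁ : 0 ≤ η₁) (hη₃ : 0 ≤ η₃)
    (hΛi : IntervalIntegrable Λ volume 0 (Real.pi * p))
    (hΛb : ∀ (D : ℕ) (G : ℝ → ℝ), RTP p D G → (∀ t, G (-t) = G t) → (D : ℝ) ≤ (1 + δ) * p →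
      |∫ t in (0:ℝ)..(Real.pi * p), deriv G t * Λ t| ≤ η₃ * ∫ t in (0:ℝ)..(Real.pi * p), |deriv G t|)
    (hmono : ∀ s t : ℝ, 0 ≤ s → s ≤ t → t ≤ Real.pi * p → Cf p κ Λ s ≤ Cf p κ Λ t + η₁)
    (hrange : ∀ t : ℝ, 0 ≤ t → t ≤ Real.pi * p → -η₁ ≤ Cf p κ Λ t ∧ Cf p κ Λ t ≤ (2 * M : ℕ) + η₁)
    (h12 : 1 / 2 + η₁ + 2 * η₃ ≤ 1)
    (hin : ∀ t : ℝ, 0 ≤ t → t ≤ Real.pi * p → ed p t < Y → (1 / 2 + η₁ + 2 * η₃ ≤ η * κ) ∨
      ((∃ n : ℕ, n ≤ 2 * M ∧ |Cf p κ Λ t - n| ≤ η₂) ∧ η₁ + η₂ < 1 / 2 ∧ η₂ + 2 * η₃ ≤ η * κ)) :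
    ∃ x : ℕ → ℝ, PConf p M δ Y η κ x := by
  have hpr : (0:ℝ) < p := by exact_mod_cast hp
  have hL : 0 ≤ Real.pi * p := by positivity
  obtain ⟨L, hLdef⟩ : ∃ y : ℝ, y = Real.pi * p := ⟨_, rfl⟩
  obtain ⟨C, hCdef⟩ : ∃ y : ℝ → ℝ, y = Cf p κ Λ := ⟨_, rfl⟩
  rw [← hLdef] at hL hΛi hΛb hmono hrange hin
  rw [← hCdef] at hmono hrange hin
  refine ⟨xs L C, ⟨hp, hκ, hκ0, hη0, hη1, hδ0, hδ1, xs_mono hL C, fun i => ?_, ?_⟩⟩
  · rw [← hLdef]; exact xs_mem hL C i
  intro D H hH hD
  rw [← hLdef]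
  have hHc := hH.continuous
  have hdc : Continuous (deriv H) := hH.deriv.continuous
  -- the even function
  obtain ⟨G, hGdef⟩ : ∃ G : ℝ → ℝ, G = fun t => H t + H (-t) := ⟨_, rfl⟩
  have hG : RTP p D G := by rw [hGdef]; exact hH.add hH.reflect
  have hGe : ∀ t, G (-t) = G t := by intro t; rw [hGdef]; simp [add_comm]
  have hGd : ∀ t, HasDerivAt G (deriv G t) t := fun t => (hG.differentiable t).hasDerivAt
  have hGdc : Continuous (deriv G) := hG.deriv.continuous
  have hGd' : ∀ t, deriv G t = deriv H t - deriv H (-t) := by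
    intro t
    have h1 : HasDerivAt H (deriv H t) t := (hH.differentiable t).hasDerivAt
    have h2 : HasDerivAt (fun t => H (-t)) (-deriv H (-t)) t := by
      have := (hH.differentiable (-t)).hasDerivAt.comp t (hasDerivAt_neg t)
      rw [mul_neg_one] at this
      exact this
    have h3 := h1.add h2
    have : HasDerivAt G (deriv H t + -deriv H (-t)) t := by rw [hGdef]; exact h3
    rw [this.deriv]; ring
  have hwc : Continuous (ww p) := ww_continuous p
  -- step 1
  have e1 : ∑ i ∈ Finset.range (2 * M), (H (xs L C i) + H (-xs L C i)) =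
      (2 * M : ℕ) * G L - ∫ t in (0:ℝ)..L, deriv G t * C0 (xs L C) (2 * M) t := by
    rw [← (sumG hGd hGdc (xs_mem hL C) (2 * M)).2, hGdef]
  have e2 : κ * ∫ t in (-L)..L, H t * ww p t = 2 * (κ * (p : ℝ) ^ 2) * G L - ∫ t in (0:ℝ)..L, deriv G t * VV p κ t := by
    have hi1 : IntervalIntegrable (fun t => H t * ww p t) volume (-(Real.pi * p)) 0 := (hHc.mul hwc).intervalIntegrable _ _
    have hi2 : IntervalIntegrable (fun t => H t * ww p t) volume 0 (Real.pi * p) := (hHc.mul hwc).intervalIntegrable _ _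
    rw [hLdef, ← VV_ibp hp κ hGd hGdc, fold_int hi1 hi2]
    congr 1
    apply intervalIntegral.integral_congr
    intro t _
    show H t * ww p t + H (-t) * ww p (-t) = G t * ww p t
    have : ww p (-t) = ww p t := by unfold ww; rw [neg_div, Real.sin_neg, abs_neg]
    rw [this, hGdef]; ring
  have hVc : Continuous (VV p κ) := by unfold VV; fun_prop
  have i0 : IntervalIntegrable (fun t => deriv G t * C0 (xs L C) (2 * M) t) volume 0 L := (sumG hGd hGdc (xs_mem hL C) (2 * M)).1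
  have i1 : IntervalIntegrable (fun t => deriv G t * VV p κ t) volume 0 L := (hGdc.mul hVc).intervalIntegrable _ _
  have i2 : IntervalIntegrable (fun t => deriv G t * Λ t) volume 0 L := hΛi.continuousOn_mul hGdc.continuousOn
  have hΛi' : IntervalIntegrable (fun t => Λ (L - t)) volume 0 L := by
    have := hΛi.comp_sub_left L
    simpa using this.symm
  have i3 : IntervalIntegrable (fun t => deriv G t * Λ (L - t)) volume 0 L := hΛi'.continuousOn_mul hGdc.continuousOn
  have i4 : IntervalIntegrable (fun t => deriv G t * (C0 (xs L C) (2 * M) t - C t)) volume 0 L := by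
    have := (((i0.sub i1).sub i2).add i3)
    refine this.congr fun t _ => ?_
    rw [hCdef]; unfold Cf; rw [← hLdef]
    ring
  have e3 : ∑ i ∈ Finset.range (2 * M), (H (xs L C i) + H (-xs L C i)) - κ * ∫ t in (-L)..L, H t * ww p t =
      -(∫ t in (0:ℝ)..L, deriv G t * (C0 (xs L C) (2 * M) t - C t)) - (∫ t in (0:ℝ)..L, deriv G t * Λ t) +
        ∫ t in (0:ℝ)..L, deriv G t * Λ (L - t) := by
    rw [e1, e2, hκ]
    have h5 : ∫ t in (0:ℝ)..L, deriv G t * (C0 (xs L C) (2 * M) t - C t) =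
        (∫ t in (0:ℝ)..L, deriv G t * C0 (xs L C) (2 * M) t) - (∫ t in (0:ℝ)..L, deriv G t * VV p κ t) -
          (∫ t in (0:ℝ)..L, deriv G t * Λ t) + ∫ t in (0:ℝ)..L, deriv G t * Λ (L - t) := by
      rw [← intervalIntegral.integral_sub i0 i1, ← intervalIntegral.integral_sub (i0.sub i1) i2,
        ← intervalIntegral.integral_add ((i0.sub i1).sub i2) i3]
      apply intervalIntegral.integral_congr
      intro t _
      rw [hCdef]; unfold Cf; rw [← hLdef]
      ring
    rw [h5]; push_cast; ring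
  -- the reflected term
  have e4 : |∫ t in (0:ℝ)..L, deriv G t * Λ (L - t)| ≤ η₃ * ∫ t in (0:ℝ)..L, |deriv G t| := by
    obtain ⟨R, hRdef⟩ : ∃ R : ℝ → ℝ, R = fun s => G (L - s) := ⟨_, rfl⟩
    have hR : RTP p D R := by
      have h1 := hG.reflect.shift (-L)
      have : R = fun t => G (-(t + -L)) := by
        rw [hRdef]; funext t; congr 1; ring
      rw [this]; exact h1
    have hRe : ∀ t, R (-t) = R t := by
      intro t
      rw [hRdef]
      show G (L - -t) = G (L - t)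
      rw [← hGe (L - t)]
      have := hG.periodic hp (-(L - t))
      rw [← this]
      congr 1
      rw [hLdef]; ring
    have hRd : ∀ t, deriv R t = -deriv G (L - t) := by
      intro t
      have : HasDerivAt R (-deriv G (L - t)) t := by
        rw [hRdef]
        have h1 := (hG.differentiable (L - t)).hasDerivAt.comp t ((hasDerivAt_id t).const_sub L)
        rw [mul_neg_one] at h1
        exact h1
      exact this.deriv
    have h1 := hΛb D R hR hRe hD
    have h2 : ∫ t in (0:ℝ)..L, deriv R t * Λ t = -∫ t in (0:ℝ)..L, deriv G t * Λ (L - t) := by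
      have h3 := intervalIntegral.integral_comp_sub_left (a := 0) (b := L) (fun t => deriv G t * Λ (L - t)) L
      simp only [sub_self, sub_zero, sub_sub_cancel] at h3
      rw [← h3, ← intervalIntegral.integral_neg]
      apply intervalIntegral.integral_congr
      intro t _
      show deriv R t * Λ t = -(deriv G (L - t) * Λ t)
      rw [hRd]; ring
    have h4 : ∫ t in (0:ℝ)..L, |deriv R t| = ∫ t in (0:ℝ)..L, |deriv G t| := by
      have h3 := intervalIntegral.integral_comp_sub_left (a := 0) (b := L) (fun t => |deriv G t|) L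
      simp only [sub_self, sub_zero] at h3
      rw [← h3]
      apply intervalIntegral.integral_congr
      intro t _
      show |deriv R t| = |deriv G (L - t)|
      rw [hRd, abs_neg]
    rw [h2, h4, abs_neg] at h1
    exact h1
  have e5 : |∫ t in (0:ℝ)..L, deriv G t * Λ t| ≤ η₃ * ∫ t in (0:ℝ)..L, |deriv G t| := hΛb D G hG hGe hD
  have e6 : |∫ t in (0:ℝ)..L, deriv G t * (C0 (xs L C) (2 * M) t - C t)| ≤
      ∫ t in (0:ℝ)..L, |deriv G t * (C0 (xs L C) (2 * M) t - C t)| :=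
    intervalIntegral.abs_integral_le_integral_abs hL
  -- pointwise comparison
  have hDbi : IntervalIntegrable (fun t => |deriv G t| * Db p κ Y η |t|) volume 0 L := Db_int hκ0.le hη0.le hη1 hGdc.abs 0 L
  have e7 : (∫ t in (0:ℝ)..L, |deriv G t * (C0 (xs L C) (2 * M) t - C t)|) + 2 * (η₃ * ∫ t in (0:ℝ)..L, |deriv G t|) ≤
      ∫ t in (0:ℝ)..L, |deriv G t| * Db p κ Y η |t| := by
    rw [← mul_assoc, ← intervalIntegral.integral_const_mul, ← intervalIntegral.integral_add i4.abs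
      ((hGdc.abs.intervalIntegrable 0 L).const_mul _)]
    apply intervalIntegral.integral_mono_ae_restrict hL
    · exact i4.abs.add ((hGdc.abs.intervalIntegrable 0 L).const_mul _)
    · exact hDbi
    · have hfin : (Set.Finite {t : ℝ | ∃ m < 2 * M, t = xs L C m}) := by
        have : {t : ℝ | ∃ m < 2 * M, t = xs L C m} = xs L C '' (Set.Iio (2 * M)) := by
          ext t; simp only [Set.mem_ofPred_eq, mem_image, mem_Iio]
          constructor
          · rintro ⟨m, h1, h2⟩; exact ⟨m, h1, h2.symm⟩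
          · rintro ⟨m, h1, h2⟩; exact ⟨m, h1, h2.symm⟩
        rw [this]; exact (Set.finite_Iio _).image _
      have hae : ∀ᵐ t ∂(volume.restrict (Set.Icc 0 L)), t ∉ {t : ℝ | ∃ m < 2 * M, t = xs L C m} :=
        ae_restrict_of_ae (hfin.countable.ae_notMem volume)
      filter_upwards [hae, ae_restrict_mem measurableSet_Icc] with t hne ht
      have hne' : ∀ m < 2 * M, t ≠ xs L C m := by
        intro m hm h; exact hne ⟨m, hm, h⟩
      have hmain := C0_close hL hη₁ hmono hrange ht.1 ht.2 hne'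
      show |deriv G t * (C0 (xs L C) (2 * M) t - C t)| + 2 * η₃ * |deriv G t| ≤ |deriv G t| * Db p κ Y η |t|
      rw [abs_mul, abs_of_nonneg ht.1]
      have hg0 := abs_nonneg (deriv G t)
      have hkey : |C0 (xs L C) (2 * M) t - C t| + 2 * η₃ ≤ Db p κ Y η t := by
        unfold Db
        split_ifs with hY
        · rcases hin t ht.1 ht.2 hY with h | ⟨⟨n, hn, hcn⟩, h2, h3⟩
          · linarith [hmain.1]
          · linarith [hmain.2 n η₂ hn hcn h2]
        · linarith [hmain.1]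
      nlinarith
  have e8 : ∫ t in (0:ℝ)..L, |deriv G t| * Db p κ Y η |t| ≤ ∫ t in (-L)..L, |deriv H t| * Db p κ Y η |t| := by
    have hi1 := Db_int (p := p) (Y := Y) hκ0.le hη0.le hη1 hdc.abs (-L) 0
    have hi2 := Db_int (p := p) (Y := Y) hκ0.le hη0.le hη1 hdc.abs 0 L
    rw [fold_int hi1 hi2]
    apply intervalIntegral.integral_mono_on hL hDbi
    · have h3 : IntervalIntegrable (fun t => |deriv H (-t)| * Db p κ Y η |t|) volume 0 L :=
        Db_int hκ0.le hη0.le hη1 (hdc.comp continuous_neg).abs 0 L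
      refine (hi2.add h3).congr fun t _ => ?_
      simp
    · intro t _
      rw [abs_neg, hGd', ← add_mul]
      exact mul_le_mul_of_nonneg_right (abs_sub _ _) (Db_bound hκ0.le hη0.le hη1).1
  rw [e3]
  calc _ ≤ |∫ t in (0:ℝ)..L, deriv G t * (C0 (xs L C) (2 * M) t - C t)| + |∫ t in (0:ℝ)..L, deriv G t * Λ t| +
        |∫ t in (0:ℝ)..L, deriv G t * Λ (L - t)| := by
        have a1 := neg_abs_le (∫ t in (0:ℝ)..L, deriv G t * (C0 (xs L C) (2 * M) t - C t))
        have a2 := le_abs_self (∫ t in (0:ℝ)..L, deriv G t * (C0 (xs L C) (2 * M) t - C t))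
        have a3 := neg_abs_le (∫ t in (0:ℝ)..L, deriv G t * Λ t)
        have a4 := le_abs_self (∫ t in (0:ℝ)..L, deriv G t * Λ t)
        have a5 := neg_abs_le (∫ t in (0:ℝ)..L, deriv G t * Λ (L - t))
        have a6 := le_abs_self (∫ t in (0:ℝ)..L, deriv G t * Λ (L - t))
        rw [abs_le]; constructor <;> linarith
    _ ≤ _ := by linarith

end Pool.Agent.Helper514.Cheb
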