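import Pool.Agent.Helper514.Cheb.Conf

set_option autoImplicit false

open Filter Topology MeasureTheory

namespace Pool.Agent.Helper514.Cheb

lemma Dir_decay' {p k : ℕ} (hp : 0 < p) {b : ℝ} (hb : 0 < b) (hk : b * p ≤ 2 * (k : ℝ) + 1) {u : ℝ}
    (hu : |u| ≤ Real.pi * p) : |Dir p k u| * (1 + |u|) ≤ 1 + Real.pi / b := by
  have hpr : (0 : ℝ) < p := by exact_mod_cast hp
  have h2 := Dir_decay p k hp u hu
  have h3 := Dir_abs_le p k u
  have h4 : |Dir p k u| * ((b * p) * |u|) ≤ Real.pi * p := by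
    refine le_trans ?_ h2
    gcongr
  have h5 : |Dir p k u| * |u| ≤ Real.pi / b := by
    rw [le_div_iff₀ hb]
    have : (|Dir p k u| * |u| * b) * p ≤ Real.pi * p := by nlinarith
    exact le_of_mul_le_mul_right this hpr
  linarith

variable {p M : ℕ} {δ Y η κ : ℝ} {x : ℕ → ℝ}

lemma count1 (h : PConf p M δ Y η κ x) (k : ℕ) (hk1 : (1/4 : ℝ) * p ≤ 2 * (k : ℝ) + 1) (hk2 : 4 * k ≤ p) (c : ℝ) :
    ∑ i ∈ Finset.range (2 * M), (Dir p k (x i - c) ^ 4 + Dir p k (-x i - c) ^ 4) ≤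
      4 * CB2 * (1 + Real.pi / (1/4)) ^ 4 * (κ * (ww p c + 1) + 1) := by
  have hpr : (0 : ℝ) < p := by exact_mod_cast h.hp
  have hQ : RTP p (4 * k) (fun t => Dir p k (t + (-c)) ^ 4) := ((Dir_rtp p k).shift (-c)).pow 4
  set A := (1 + Real.pi / (1/4)) ^ 4 with hA
  have hA0 : 0 ≤ A := by have := Real.pi_pos; positivity
  have h1 := h.sum_bound hQ (by
    have : ((4 * k : ℕ) : ℝ) ≤ p := by exact_mod_cast hk2
    nlinarith [h.hδ0]) c A hA0 (by
      intro u hu
      have e : c + u + -c = u := by ring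
      simp only [e]
      have h2 := Dir_decay' h.hp (by norm_num : (0:ℝ) < 1/4) hk1 hu
      have h3 := abs_nonneg u
      rw [abs_pow, le_div_iff₀ (by positivity)]
      calc |Dir p k u| ^ 4 * (1 + |u|) ^ 3 ≤ |Dir p k u| ^ 4 * (1 + |u|) ^ 4 := by
            gcongr
            · linarith
            · norm_num
        _ = (|Dir p k u| * (1 + |u|)) ^ 4 := by ring
        _ ≤ _ := by rw [hA]; gcongr)
  have h2 := (abs_le.1 h1.1).2
  have h3 := h1.2
  have hCB := one_le_CB2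
  have hκ := h.hκ0
  have hw := ww_nonneg p c
  simp only [← sub_eq_add_neg] at h2 h3
  have h4 : κ * (2 * (A * (ww p c + 1))) ≤ 2 * (CB2 * A) * (κ * (ww p c + 1)) := by
    have : 0 ≤ A * (κ * (ww p c + 1)) := by positivity
    nlinarith
  have h5 : 2 * (CB2 * A) * (1 + κ) ≤ 2 * (CB2 * A) * (1 + κ * (ww p c + 1)) := by
    have : 0 ≤ κ * ww p c := by positivity
    gcongr; linarith
  have h6 : 0 ≤ CB2 * A := by positivity
  linarith

noncomputable def CC : ℝ := 4 * CB2 * (1 + Real.pi / (1/4)) ^ 4 * (2 * (1 + 4 * Real.pi) ^ 4) * (2 + 4 * Real.pi)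

lemma CC_pos : 0 < CC := by
  unfold CC
  have := Real.pi_pos
  have := one_le_CB2
  positivity

theorem PConf.count (h : PConf p M δ Y η κ x) (hp4 : 4 ≤ p) (c : ℝ) :
    ∑ i ∈ Finset.range (2 * M), 1 / (1 + |x i - c|) ^ 4 ≤ CC * (κ * (ww p c + 1) + 1) := by
  have hpr : (0 : ℝ) < p := by exact_mod_cast h.hp
  have hpi := Real.pi_pos
  set k := p / 4 with hk
  have hk2 : 4 * k ≤ p := by omega
  have hk3 : p < 4 * k + 4 := by omega
  have hk1' : 1 ≤ k := by omega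
  have hk1 : (1/4 : ℝ) * p ≤ 2 * (k : ℝ) + 1 := by
    have h3 : (p : ℝ) ≤ 4 * k + 4 := by exact_mod_cast hk3.le
    have h4 : (1 : ℝ) ≤ k := by exact_mod_cast hk1'
    linarith
  have hk4 : 2 * (k : ℝ) + 1 ≤ p := by
    have h3 : 2 * k + 1 ≤ p := by omega
    exact_mod_cast h3
  set s := Real.pi * p / (2 * k + 1) with hs
  have hs0 : 0 ≤ s := by positivity
  have hs4 : s ≤ 4 * Real.pi := by
    rw [hs, div_le_iff₀ (by positivity)]; nlinarith
  have hlow : ∀ t : ℝ, 1 / (1 + |t|) ^ 4 ≤ 2 * (1 + 4 * Real.pi) ^ 4 * (Dir p k t ^ 4 + Dir p k (t - s) ^ 4) := by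
    intro t
    set φ := (2 * (k : ℝ) + 1) * (t / p / 2) with hφ
    have ht := abs_nonneg t
    have hgen : ∀ v : ℝ, |Real.sin ((2 * (k : ℝ) + 1) * (v / p / 2))| ≤ |Dir p k v| * |v| := by
      intro v
      rw [← Dir_sin, abs_mul, abs_mul, abs_of_pos (by positivity : (0:ℝ) < 2 * k + 1)]
      have h1 : |Real.sin (v / p / 2)| ≤ |v| / p / 2 := by
        refine (Real.abs_sin_le_abs).trans (le_of_eq ?_)
        rw [abs_div, abs_div, abs_of_pos hpr]; norm_num
      calc (2 * (k : ℝ) + 1) * |Dir p k v| * |Real.sin (v / p / 2)| ≤ p * |Dir p k v| * (|v| / p / 2) := by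
            gcongr
        _ = |Dir p k v| * |v| / 2 := by field_simp
        _ ≤ |Dir p k v| * |v| := by
            have : 0 ≤ |Dir p k v| * |v| := by positivity
            linarith
    have h1 : |Real.sin φ| ≤ |Dir p k t| * (1 + |t|) := (hgen t).trans (by gcongr; linarith)
    have h2 : |Real.cos φ| ≤ |Dir p k (t - s)| * ((1 + |t|) * (1 + 4 * Real.pi)) := by
      have e : (2 * (k : ℝ) + 1) * ((t - s) / p / 2) = φ - Real.pi / 2 := by
        rw [hφ, hs]; field_simp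
      have h3 := hgen (t - s)
      rw [e, Real.sin_sub_pi_div_two, abs_neg] at h3
      refine h3.trans ?_
      have h4 : |t - s| ≤ |t| + s := by
        have := abs_sub t s; rwa [abs_of_nonneg hs0] at this
      gcongr
      nlinarith
    have h3 : Real.sin φ ^ 4 + Real.cos φ ^ 4 ≥ 1 / 2 := by
      have := Real.sin_sq_add_cos_sq φ
      nlinarith [sq_nonneg (Real.sin φ ^ 2 - Real.cos φ ^ 2)]
    have h4 : Real.sin φ ^ 4 ≤ (|Dir p k t| * (1 + |t|)) ^ 4 := by
      have e : Real.sin φ ^ 4 = |Real.sin φ| ^ 4 := by rw [← abs_pow, abs_of_nonneg (by positivity)]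
      rw [e]; gcongr
    have h5 : Real.cos φ ^ 4 ≤ (|Dir p k (t - s)| * ((1 + |t|) * (1 + 4 * Real.pi))) ^ 4 := by
      have e : Real.cos φ ^ 4 = |Real.cos φ| ^ 4 := by rw [← abs_pow, abs_of_nonneg (by positivity)]
      rw [e]; gcongr
    have e1 : ∀ v, |Dir p k v| ^ 4 = Dir p k v ^ 4 := fun v => by rw [← abs_pow, abs_of_nonneg (by positivity)]
    rw [mul_pow, e1] at h4 h5
    rw [div_le_iff₀ (by positivity)]
    have h6 : (1 : ℝ) ≤ (1 + 4 * Real.pi) ^ 4 := one_le_pow₀ (by linarith)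
    have h7 : 0 ≤ Dir p k t ^ 4 * (1 + |t|) ^ 4 := by positivity
    have h8 : Dir p k t ^ 4 * (1 + |t|) ^ 4 ≤ (1 + 4 * Real.pi) ^ 4 * (Dir p k t ^ 4 * (1 + |t|) ^ 4) := by
      nlinarith
    rw [mul_pow] at h5
    nlinarith
  have hc1 := count1 h k hk1 hk2 c
  have hc2 := count1 h k hk1 hk2 (c + s)
  have hw : ww p (c + s) ≤ ww p c + 4 * Real.pi := by
    have := ww_lip p (c + s) c
    rw [add_sub_cancel_left, abs_of_nonneg hs0] at this
    have := (abs_le.1 this).2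
    linarith
  have hw0 := ww_nonneg p c
  have hκ := h.hκ0
  have hCB := one_le_CB2
  set C1 := 4 * CB2 * (1 + Real.pi / (1/4)) ^ 4 with hC1
  have hC10 : 0 < C1 := by positivity
  set C2 := 2 * (1 + 4 * Real.pi) ^ 4 with hC2
  have hC20 : 0 < C2 := by positivity
  calc ∑ i ∈ Finset.range (2 * M), 1 / (1 + |x i - c|) ^ 4
      ≤ ∑ i ∈ Finset.range (2 * M), C2 * ((Dir p k (x i - c) ^ 4 + Dir p k (-x i - c) ^ 4) +
          (Dir p k (x i - (c + s)) ^ 4 + Dir p k (-x i - (c + s)) ^ 4)) := by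
        refine Finset.sum_le_sum fun i _ => (hlow (x i - c)).trans ?_
        have e : x i - c - s = x i - (c + s) := by ring
        rw [e]
        have h1 : 0 ≤ Dir p k (-x i - c) ^ 4 := by positivity
        have h2 : 0 ≤ Dir p k (-x i - (c + s)) ^ 4 := by positivity
        gcongr <;> linarith
    _ = C2 * ((∑ i ∈ Finset.range (2 * M), (Dir p k (x i - c) ^ 4 + Dir p k (-x i - c) ^ 4)) +
          ∑ i ∈ Finset.range (2 * M), (Dir p k (x i - (c + s)) ^ 4 + Dir p k (-x i - (c + s)) ^ 4)) := by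
        rw [← Finset.mul_sum, Finset.sum_add_distrib]
    _ ≤ C2 * (C1 * (κ * (ww p c + 1) + 1) + C1 * (κ * (ww p (c + s) + 1) + 1)) := by gcongr
    _ ≤ C2 * (C1 * (κ * (ww p c + 1) + 1) + C1 * ((1 + 4 * Real.pi) * (κ * (ww p c + 1) + 1))) := by
        gcongr
        have h1 : κ * (ww p (c + s) + 1) ≤ κ * (ww p c + 4 * Real.pi + 1) := by gcongr
        have h2 : 0 ≤ κ * ww p c * Real.pi := by positivity
        nlinarith
    _ = CC * (κ * (ww p c + 1) + 1) := by rw [CC, ← hC1, ← hC2]; ring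

/-- value at reflected nodes -/
lemma neg_node_bound (hp : 0 < p) {P : ℝ → ℝ} {D : ℕ} (hP : RTP p D P) {T A : ℝ} (hT0 : 0 ≤ T) (hT1 : T ≤ Real.pi * p)
    (hE : 0 < ed p T) (hA : 0 ≤ A) (hb : ∀ u, |u| ≤ Real.pi * p → |P (T + u)| ≤ A / (1 + |u|) ^ 5) {y : ℝ}
    (hy0 : 0 ≤ y) (hy1 : y ≤ Real.pi * p) :
    |P (-y)| ≤ A / ed p T * (1 / (1 + |y - 0|) ^ 4 + 1 / (1 + |y - Real.pi * p|) ^ 4) := by
  have hpr : (0 : ℝ) < p := by exact_mod_cast hp
  have hE1 : ed p T ≤ T := min_le_left _ _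
  have hE2 : ed p T ≤ Real.pi * p - T := min_le_right _ _
  have hgen : ∀ a v : ℝ, 0 ≤ a → a + ed p T ≤ v → A / (1 + v) ^ 5 ≤ A / ed p T * (1 / (1 + a) ^ 4) := by
    intro a v ha hv
    have hv0 : 0 < 1 + v := by linarith
    rw [div_mul_div_comm, mul_one, div_le_div_iff₀ (by positivity) (by positivity)]
    have h1 : ed p T ≤ 1 + v := by linarith
    have h2 : (1 + a) ^ 4 ≤ (1 + v) ^ 4 := by gcongr; linarith
    calc A * (ed p T * (1 + a) ^ 4) ≤ A * ((1 + v) * (1 + v) ^ 4) := by gcongr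
      _ = _ := by ring
  have hn1 : 0 ≤ A / ed p T * (1 / (1 + |y - 0|) ^ 4) := by positivity
  have hn2 : 0 ≤ A / ed p T * (1 / (1 + |y - Real.pi * p|) ^ 4) := by positivity
  rw [mul_add]
  rcases le_total (y + T) (Real.pi * p) with h | h
  · have e1 : |-y - T| = y + T := by rw [abs_of_nonpos (by linarith)]; ring
    have h1 := hb (-y - T) (by rw [e1]; exact h)
    have e : T + (-y - T) = -y := by ring
    rw [e, e1] at h1
    have h2 := hgen y (y + T) hy0 (by linarith)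
    have e3 : |y - 0| = y := by rw [sub_zero, abs_of_nonneg hy0]
    rw [e3] at hn1 ⊢
    linarith
  · have e1 : |2 * Real.pi * p - y - T| = 2 * Real.pi * p - y - T := by rw [abs_of_nonneg (by linarith)]
    have h1 := hb (2 * Real.pi * p - y - T) (by rw [e1]; linarith)
    have e : T + (2 * Real.pi * p - y - T) = -y + 2 * Real.pi * p := by ring
    rw [e, hP.periodic hp, e1] at h1
    have h2 := hgen (Real.pi * p - y) (2 * Real.pi * p - y - T) (by linarith) (by linarith)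
    have e2 : |y - Real.pi * p| = Real.pi * p - y := by rw [abs_of_nonpos (by linarith)]; ring
    rw [e2] at hn2 ⊢
    linarith

lemma ww_zero (p : ℕ) : ww p 0 = 0 := by unfold ww; simp

lemma ww_pi (p : ℕ) (hp : 0 < p) : ww p (Real.pi * p) = 0 := by
  have hpr : (0 : ℝ) < p := by exact_mod_cast hp
  unfold ww
  rw [mul_div_assoc, div_self hpr.ne', mul_one, Real.sin_pi]; simp

lemma PConf.neg_sum (h : PConf p M δ Y η κ x) (hp4 : 4 ≤ p) {P : ℝ → ℝ} {D : ℕ} (hP : RTP p D P) {T A : ℝ}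
    (hT0 : 0 ≤ T) (hT1 : T ≤ Real.pi * p) (hE : 0 < ed p T) (hA : 0 ≤ A)
    (hb : ∀ u, |u| ≤ Real.pi * p → |P (T + u)| ≤ A / (1 + |u|) ^ 5) :
    ∑ i ∈ Finset.range (2 * M), |P (-x i)| ≤ A / ed p T * (2 * CC * (κ + 1)) := by
  have h1 := h.count hp4 0
  have h2 := h.count hp4 (Real.pi * p)
  rw [ww_zero] at h1
  rw [ww_pi p h.hp] at h2
  calc ∑ i ∈ Finset.range (2 * M), |P (-x i)|
      ≤ ∑ i ∈ Finset.range (2 * M), A / ed p T * (1 / (1 + |x i - 0|) ^ 4 + 1 / (1 + |x i - Real.pi * p|) ^ 4) :=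
        Finset.sum_le_sum fun i _ => neg_node_bound h.hp hP hT0 hT1 hE hA hb (h.mem i).1 (h.mem i).2
    _ = A / ed p T * (∑ i ∈ Finset.range (2 * M), 1 / (1 + |x i - 0|) ^ 4 +
        ∑ i ∈ Finset.range (2 * M), 1 / (1 + |x i - Real.pi * p|) ^ 4) := by
        rw [← Finset.mul_sum, Finset.sum_add_distrib]
    _ ≤ A / ed p T * (2 * CC * (κ + 1)) := by
        gcongr
        linarith

noncomputable def CI : ℝ := 4 * CB2 ^ 2 + 2 * CC * CB2

lemma CI_pos : 0 < CI := by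
  unfold CI
  have := one_le_CB2
  have := CC_pos
  positivity

/-- the identity: sum of the derivative over nodes is small -/
lemma PConf.ident (h : PConf p M δ Y η κ x) (hp4 : 4 ≤ p) {P : ℝ → ℝ} {D : ℕ} (hP : RTP p D P)
    (hD : (D : ℝ) ≤ (1 + δ) * p) {T A : ℝ}
    (hT0 : 0 ≤ T) (hT1 : T ≤ Real.pi * p) (hE : 1 ≤ ed p T) (hA : 0 ≤ A)
    (hb : ∀ u, |u| ≤ Real.pi * p → |P (T + u)| ≤ A / (1 + |u|) ^ 5) :
    |∑ i ∈ Finset.range (2 * M), deriv P (x i)| ≤ CI * A * (1 + κ) := by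
  have hpr : (0 : ℝ) < p := by exact_mod_cast h.hp
  have hCB := one_le_CB2
  have hCC := CC_pos
  have hκ := h.hκ0
  have h1 := h.ibp hP hD T A hA (fun u hu => by
    refine (hb u hu).trans ?_
    have := abs_nonneg u
    gcongr
    · linarith
    · norm_num)
  have h2 := h.neg_sum hp4 hP.deriv (T := T) (A := CB2 * A) hT0 hT1 (by linarith) (by positivity) (fun u hu => by
    exact decay_deriv h.hp hP (by nlinarith [h.hδ1]) T A hA 5 (by norm_num) hb u hu)
  have h3 : |∑ i ∈ Finset.range (2 * M), deriv P (-x i)| ≤ ∑ i ∈ Finset.range (2 * M), |deriv P (-x i)| :=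
    Finset.abs_sum_le_sum_abs _ _
  have h4 : CB2 * A / ed p T * (2 * CC * (κ + 1)) ≤ CB2 * A * (2 * CC * (κ + 1)) := by
    gcongr
    exact div_le_self (by positivity) hE
  rw [Finset.sum_add_distrib] at h1
  have h5 := abs_le.1 h1
  have h6 := abs_le.1 (h3.trans (h2.trans h4))
  rw [CI, abs_le]
  constructor <;> nlinarith [h5.1, h5.2, h6.1, h6.2]

end Pool.Agent.Helper514.Cheb
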