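import Pool.Agent.Helper514.Cheb.Good

set_option autoImplicit false

open Filter Topology

namespace Pool.Agent.Helper514.Cheb

lemma U1 {p : ℕ} (hp : 0 < p) {ε E₁ R : ℝ} (hε : 0 ≤ ε) (hE₁ : 0 ≤ E₁) (hR : E₁ ≤ R) (hRp : 2 * R ≤ Real.pi * p)
    {f : ℝ → ℝ} (hf : RTP p p f) (he : ∀ t, f (-t) = f t) {s₁ : ℝ} (hs0 : 0 ≤ s₁) (hs1 : s₁ ≤ E₁)
    (hmax : ∀ s, 0 ≤ s → s ≤ Real.pi * p → ed p s ≤ E₁ → |deriv f s| ≤ |deriv f s₁|)
    (H : ∀ T, 0 ≤ T → T ≤ Real.pi * p → E₁ ≤ ed p T → GoodAt p ε f T →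
      |deriv f T| * ((1 + R) ^ 2 * Real.exp (WW ε R)) < |deriv f s₁|) :
    (∀ t, 0 ≤ t → t ≤ R → |deriv f t| ≤ |deriv f s₁| * Real.exp (WW ε E₁) * Real.exp (-WW ε t)) ∧
    (∀ t, 0 ≤ t → t ≤ Real.pi * p → |deriv f t| ≤ |deriv f s₁| * Real.exp (WW ε E₁) * (1 + t) ^ 2) := by
  have hpr : (0 : ℝ) < p := by exact_mod_cast hp
  have hb0 := abs_nonneg (deriv f s₁)
  have hed : ∀ t, 0 ≤ t → t ≤ R → ed p t = t := fun t h0 h1 => min_eq_left (by linarith)
  have hkey : ∀ T₁, E₁ ≤ T₁ → T₁ ≤ R → ∃ T, 0 ≤ T ∧ T ≤ Real.pi * p ∧ |deriv f T| ≤ |deriv f s₁| ∧ ed p T ≤ E₁ ∧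
      ∀ s, 0 ≤ s → s ≤ Real.pi * p → |deriv f s| * om p ε T T₁ ≤ |deriv f T| * om p ε s T₁ := by
    intro T₁ h1 h2
    obtain ⟨T, hT0, hT1, hTg, hT⟩ := maximizer hp hε hf he T₁
    have hlt : ed p T < E₁ := by
      by_contra hcon
      push Not at hcon
      have h3 := H T hT0 hT1 hcon hTg
      have h4 := hT s₁ hs0 (by linarith)
      have h5 := one_le_om p ε T T₁
      have h6 : om p ε s₁ T₁ ≤ (1 + R) ^ 2 * Real.exp (WW ε R) := by
        unfold om
        rw [hed T₁ (by linarith) h2, hed s₁ hs0 (by linarith)]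
        have h7 : |s₁ - T₁| ≤ R := by rw [abs_le]; constructor <;> linarith
        have h8 : max 0 (WW ε T₁ - WW ε s₁) ≤ WW ε R := by
          have h9 := WW_mono hε (by linarith : 0 ≤ T₁) h2
          have h10 := WW_nonneg hε hs0
          have h11 := WW_nonneg hε (by linarith : 0 ≤ R)
          exact max_le h11 (by linarith)
        gcongr
      have h7 := abs_nonneg (deriv f T)
      nlinarith
    exact ⟨T, hT0, hT1, hmax T hT0 hT1 hlt.le, hlt.le, hT⟩
  have hW1 := WW_nonneg hε hE₁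
  have hA : ∀ t, 0 ≤ t → t ≤ R → |deriv f t| ≤ |deriv f s₁| * Real.exp (WW ε E₁) * Real.exp (-WW ε t) := by
    intro t h0 h1
    rcases le_total t E₁ with h | h
    · have h2 := hmax t h0 (by linarith) (by rw [hed t h0 h1]; exact h)
      have h3 := WW_mono hε h0 h
      have h4 : 1 ≤ Real.exp (WW ε E₁) * Real.exp (-WW ε t) := by
        rw [← Real.exp_add]; exact Real.one_le_exp (by linarith)
      rw [mul_assoc]
      nlinarith
    · obtain ⟨T, hT0, hT1, hTb, hTe, hT⟩ := hkey t h h1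
      have h2 := hT t h0 (by linarith)
      rw [om_self, mul_one] at h2
      have h3 : Real.exp (WW ε t - WW ε E₁) ≤ om p ε T t := by
        unfold om
        rw [hed t h0 h1]
        have h4 : WW ε t - WW ε E₁ ≤ max 0 (WW ε t - WW ε (ed p T)) := by
          have := WW_mono hε (ed_nonneg hT0 hT1) hTe
          exact le_trans (by linarith) (le_max_right _ _)
        have h5 : 1 ≤ (1 + |T - t|) ^ 2 := one_le_pow₀ (by linarith [abs_nonneg (T - t)])
        calc Real.exp (WW ε t - WW ε E₁) ≤ 1 * Real.exp (max 0 (WW ε t - WW ε (ed p T))) := by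
              rw [one_mul]; gcongr
          _ ≤ _ := by gcongr
      have h4 : |deriv f t| * Real.exp (WW ε t - WW ε E₁) ≤ |deriv f s₁| := by
        have := abs_nonneg (deriv f t)
        nlinarith
      have h5 : |deriv f s₁| * Real.exp (WW ε E₁) * Real.exp (-WW ε t) =
          |deriv f s₁| * Real.exp (-(WW ε t - WW ε E₁)) := by
        rw [mul_assoc, ← Real.exp_add]; congr 2; ring
      rw [h5, Real.exp_neg, ← div_eq_mul_inv, le_div_iff₀ (Real.exp_pos _)]
      exact h4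
  refine ⟨hA, ?_⟩
  intro t h0 h1
  rcases le_total t R with h | h
  · refine (hA t h0 h).trans ?_
    have h2 : Real.exp (-WW ε t) ≤ 1 := by
      rw [Real.exp_le_one_iff]; have := WW_nonneg hε h0; linarith
    have h3 : 1 ≤ (1 + t) ^ 2 := one_le_pow₀ (by linarith)
    have h4 : 0 ≤ |deriv f s₁| * Real.exp (WW ε E₁) := by positivity
    nlinarith
  · obtain ⟨T, hT0, hT1, hTb, hTe, hT⟩ := hkey R hR le_rfl
    have h2 := hT t h0 h1
    have h3 : Real.exp (WW ε R - WW ε E₁) ≤ om p ε T R := by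
      unfold om
      rw [hed R (by linarith) le_rfl]
      have h4 : WW ε R - WW ε E₁ ≤ max 0 (WW ε R - WW ε (ed p T)) := by
        have := WW_mono hε (ed_nonneg hT0 hT1) hTe
        exact le_trans (by linarith) (le_max_right _ _)
      have h5 : 1 ≤ (1 + |T - R|) ^ 2 := one_le_pow₀ (by linarith [abs_nonneg (T - R)])
      calc Real.exp (WW ε R - WW ε E₁) ≤ 1 * Real.exp (max 0 (WW ε R - WW ε (ed p T))) := by
            rw [one_mul]; gcongr
        _ ≤ _ := by gcongr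
    have h4 : om p ε t R ≤ (1 + t) ^ 2 * Real.exp (WW ε R) := by
      unfold om
      rw [hed R (by linarith) le_rfl]
      have h5 : |t - R| ≤ t := by rw [abs_of_nonneg (by linarith)]; linarith
      have h6 : max 0 (WW ε R - WW ε (ed p t)) ≤ WW ε R := by
        have h7 := WW_nonneg hε (ed_nonneg h0 h1)
        have h8 := WW_nonneg hε (by linarith : 0 ≤ R)
        exact max_le h8 (by linarith)
      gcongr
    have h5 : |deriv f t| * Real.exp (WW ε R - WW ε E₁) ≤ |deriv f s₁| * ((1 + t) ^ 2 * Real.exp (WW ε R)) := by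
      calc |deriv f t| * Real.exp (WW ε R - WW ε E₁) ≤ |deriv f t| * om p ε T R := by gcongr
        _ ≤ |deriv f T| * om p ε t R := h2
        _ ≤ |deriv f s₁| * ((1 + t) ^ 2 * Real.exp (WW ε R)) := by
            gcongr
            exact (om_pos _ _ _ _).le
    rw [Real.exp_sub, mul_div_assoc', div_le_iff₀ (Real.exp_pos _)] at h5
    have h6 := Real.exp_pos (WW ε R)
    have h7 : |deriv f t| * Real.exp (WW ε R) ≤
        (|deriv f s₁| * Real.exp (WW ε E₁) * (1 + t) ^ 2) * Real.exp (WW ε R) := by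
      calc _ ≤ _ := h5
        _ = _ := by ring
    exact le_of_mul_le_mul_right h7 h6

lemma abs_deriv_reflect {p : ℕ} (f : ℝ → ℝ) (t : ℝ) :
    |deriv (fun s => f (Real.pi * p - s)) t| = |deriv f (Real.pi * p - t)| := by
  rw [deriv_comp_const_sub, abs_neg]

lemma reflect_rtp {p : ℕ} {f : ℝ → ℝ} (hf : RTP p p f) : RTP p p (fun s => f (Real.pi * p - s)) := by
  have h := (hf.shift (Real.pi * p)).reflect
  have e : (fun s => f (Real.pi * p - s)) = fun t => (fun t => f (t + Real.pi * p)) (-t) := by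
    funext t; simp only; congr 1; ring
  rw [e]; exact h

lemma reflect_even {p : ℕ} (hp : 0 < p) {f : ℝ → ℝ} (hf : RTP p p f) (he : ∀ t, f (-t) = f t) (t : ℝ) :
    (fun s => f (Real.pi * p - s)) (-t) = (fun s => f (Real.pi * p - s)) t := by
  simp only
  have h1 := hf.periodic hp (-(Real.pi * p - t))
  rw [he] at h1
  rw [← h1]; congr 1; ring

lemma ed_reflect (p : ℕ) (t : ℝ) : ed p (Real.pi * p - t) = ed p t := by
  unfold ed
  rw [min_comm]; congr 1; ring

lemma goodAt_reflect {p : ℕ} {ε : ℝ} {f : ℝ → ℝ} {T : ℝ}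
    (h : GoodAt p ε (fun s => f (Real.pi * p - s)) T) : GoodAt p ε f (Real.pi * p - T) := by
  intro s
  have h1 := h (Real.pi * p - s)
  rw [abs_deriv_reflect, abs_deriv_reflect] at h1
  have e1 : Real.pi * p - (Real.pi * p - s) = s := by ring
  rw [e1] at h1
  rw [ed_reflect]
  have e2 : Real.pi * p - s - T = -(s - (Real.pi * p - T)) := by ring
  rw [e2, abs_neg, wt_neg] at h1
  exact h1

theorem Uth (ε E₁ : ℝ) (hε : 0 < ε) (hε1 : ε ≤ 1 / 100) (hE₁ : 1 ≤ E₁) :
    ∃ c₃ > 0, ∃ p₀ : ℕ, ∀ p : ℕ, p₀ ≤ p → ∀ f : ℝ → ℝ, RTP p p f → (∀ t, f (-t) = f t) →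
      ∃ T, 0 ≤ T ∧ T ≤ Real.pi * p ∧ E₁ ≤ ed p T ∧ GoodAt p ε f T ∧
        ∀ s, 0 ≤ s → s ≤ Real.pi * p → ed p s ≤ E₁ → c₃ * |deriv f s| ≤ |deriv f T| := by
  by_contra hcon
  push Not at hcon
  -- sequence
  have hseq : ∀ n : ℕ, ∃ (p : ℕ) (f : ℝ → ℝ) (s₁ : ℝ), 0 < p ∧ n ≤ p ∧ RTP p p f ∧ (∀ t, f (-t) = f t) ∧
      0 ≤ s₁ ∧ s₁ ≤ E₁ ∧ |deriv f s₁| = 1 ∧
      (∀ t : ℝ, 0 ≤ t → t ≤ n → |deriv f t| ≤ Real.exp (WW ε E₁) * Real.exp (-WW ε t)) ∧
      (∀ t : ℝ, 0 ≤ t → t ≤ Real.pi * p → |deriv f t| ≤ Real.exp (WW ε E₁) * (1 + t) ^ 2) := by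
    intro n
    set R : ℝ := n + E₁ with hR
    have hn0 : (0 : ℝ) ≤ n := by positivity
    set B : ℝ := (1 + R) ^ 2 * Real.exp (WW ε R) with hB
    have hB0 : 0 < B := by positivity
    obtain ⟨p, hp0, f, hf, he, hH⟩ := hcon (1 / B) (by positivity) (⌈R⌉₊ + n + 1)
    have hp : 0 < p := by omega
    have hpr : (0 : ℝ) < p := by exact_mod_cast hp
    have hP : 0 < Real.pi * p := by positivity
    have hRp : 2 * R ≤ Real.pi * p := by
      have h1 : R ≤ ⌈R⌉₊ := Nat.le_ceil _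
      have h2 : ((⌈R⌉₊ + n + 1 : ℕ) : ℝ) ≤ p := by exact_mod_cast hp0
      push_cast at h2
      have := Real.pi_gt_three
      nlinarith
    -- maximum over the inner set
    have hcomp : IsCompact (Set.Icc 0 (Real.pi * p) ∩ {s | ed p s ≤ E₁}) := by
      apply isCompact_Icc.inter_right
      have : Continuous (ed p) := by unfold ed; fun_prop
      exact isClosed_le this continuous_const
    obtain ⟨s₀, ⟨hs₀, hs₀e⟩, hs₀max⟩ := hcomp.exists_isMaxOn (f := fun s => |deriv f s|)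
      ⟨0, ⟨le_rfl, hP.le⟩, by
        show ed p 0 ≤ E₁
        unfold ed; exact (min_le_left _ _).trans (by linarith)⟩ hf.deriv.continuous.abs.continuousOn
    have hmax0 : ∀ s, 0 ≤ s → s ≤ Real.pi * p → ed p s ≤ E₁ → |deriv f s| ≤ |deriv f s₀| :=
      fun s h0 h1 h2 => hs₀max ⟨⟨h0, h1⟩, h2⟩
    have hH' : ∀ T, 0 ≤ T → T ≤ Real.pi * p → E₁ ≤ ed p T → GoodAt p ε f T →
        |deriv f T| * B < |deriv f s₀| := by
      intro T h0 h1 h2 h3
      obtain ⟨s, hs0, hs1, hs2, hs3⟩ := hH T h0 h1 h2 h3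
      have h4 := hmax0 s hs0 hs1 hs2
      have h5 : |deriv f T| < |deriv f s| / B := by
        rw [one_div, inv_mul_eq_div] at hs3; exact hs3
      rw [lt_div_iff₀ hB0] at h5
      linarith
    -- reduce to the left end
    obtain ⟨g, s₁, hg, hge, hs10, hs11, hgmax, hgH⟩ : ∃ (g : ℝ → ℝ) (s₁ : ℝ), RTP p p g ∧ (∀ t, g (-t) = g t) ∧
        0 ≤ s₁ ∧ s₁ ≤ E₁ ∧ (∀ s, 0 ≤ s → s ≤ Real.pi * p → ed p s ≤ E₁ → |deriv g s| ≤ |deriv g s₁|) ∧
        (∀ T, 0 ≤ T → T ≤ Real.pi * p → E₁ ≤ ed p T → GoodAt p ε g T → |deriv g T| * B < |deriv g s₁|) := by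
      rcases le_total s₀ (Real.pi * p - s₀) with h | h
      · refine ⟨f, s₀, hf, he, hs₀.1, ?_, hmax0, hH'⟩
        have : ed p s₀ = s₀ := min_eq_left h
        rw [Set.mem_ofPred_eq, this] at hs₀e
        exact hs₀e
      · refine ⟨fun s => f (Real.pi * p - s), Real.pi * p - s₀, reflect_rtp hf, reflect_even hp hf he,
          by linarith [hs₀.2], ?_, ?_, ?_⟩
        · have : ed p s₀ = Real.pi * p - s₀ := min_eq_right h
          rw [Set.mem_ofPred_eq, this] at hs₀e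
          exact hs₀e
        · intro s h0 h1 h2
          rw [abs_deriv_reflect, abs_deriv_reflect, sub_sub_cancel]
          exact hmax0 _ (by linarith) (by linarith) (by rw [ed_reflect]; exact h2)
        · intro T h0 h1 h2 h3
          rw [abs_deriv_reflect, abs_deriv_reflect, sub_sub_cancel]
          exact hH' _ (by linarith) (by linarith) (by rw [ed_reflect]; exact h2) (goodAt_reflect h3)
    obtain ⟨hU1, hU2⟩ := U1 hp hε.le (by linarith) (by linarith : E₁ ≤ R) hRp hg hge hs10 hs11 hgmax hgH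
    have hpos : 0 < |deriv g s₁| := by
      obtain ⟨T, hT0, hT1, hTg, hT⟩ := maximizer hp hε.le hg hge (Real.pi * p / 2)
      by_contra h0
      have h0' : |deriv g s₁| = 0 := le_antisymm (not_lt.1 h0) (abs_nonneg _)
      have hgood : GoodAt p ε g (Real.pi * p / 2) := by
        intro s
        obtain ⟨u, hu0, hu1, hu2, -, hu3⟩ := fold_exists hp s
        have h1 : |deriv g s| = |deriv g u| := hu3 (fun t => |deriv g t|)
          (fun t => by simp only; rw [hg.deriv.periodic hp]) (fun t => deriv_even_abs hge t)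
        have h2 := hU2 u hu0 hu1
        rw [h0', zero_mul, zero_mul] at h2
        rw [h1]
        refine h2.trans ?_
        have := (wt_pos ε (ed p (Real.pi * p / 2)) (s - Real.pi * p / 2)).le
        positivity
      have h1 := hgH (Real.pi * p / 2) (by positivity) (by linarith) (by
        unfold ed
        apply le_min <;> linarith) hgood
      rw [h0'] at h1
      have : 0 ≤ |deriv g (Real.pi * p / 2)| * B := by positivity
      linarith
    set m := |deriv g s₁| with hm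
    have hder : ∀ t, deriv (fun t => m⁻¹ * g t) t = m⁻¹ * deriv g t := fun t =>
      deriv_const_mul _ (hg.differentiable t)
    refine ⟨p, fun t => m⁻¹ * g t, s₁, hp, by omega, hg.const_mul _, fun t => by simp only [hge], hs10, hs11, ?_, ?_, ?_⟩
    · rw [hder, abs_mul, abs_of_pos (inv_pos.2 hpos), ← hm, inv_mul_cancel₀ hpos.ne']
    · intro t h0 h1
      rw [hder, abs_mul, abs_of_pos (inv_pos.2 hpos), inv_mul_le_iff₀ hpos]
      refine (hU1 t h0 (by linarith)).trans (le_of_eq (by ring))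
    · intro t h0 h1
      rw [hder, abs_mul, abs_of_pos (inv_pos.2 hpos), inv_mul_le_iff₀ hpos]
      refine (hU2 t h0 h1).trans (le_of_eq (by ring))
  choose p f s₁ hp hpn hf he hs0 hs1 hs1b hA hB using hseq
  set a : ℝ := 1 / (4 * E₁) with ha
  have ha0 : 0 < a := by positivity
  have ha1 : a ≤ 1 := by rw [ha, div_le_one (by positivity)]; linarith
  set C₀ := Real.exp (WW ε E₁) with hC₀
  have hbd : ∀ n, ∀ s, |deriv (f n) s| ≤ C₀ * (1 + |s|) ^ 2 ∧ (|s| ≤ n → |deriv (f n) s| ≤ C₀ * Real.exp (-WW ε |s|)) := by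
    intro n s
    constructor
    · obtain ⟨u, hu0, hu1, hu2, hu4, hu3⟩ := fold_exists (hp n) s
      have h1 : |deriv (f n) s| = |deriv (f n) u| := hu3 (fun t => |deriv (f n) t|)
        (fun t => by simp only; rw [(hf n).deriv.periodic (hp n)]) (fun t => deriv_even_abs (he n) t)
      rw [h1]
      refine (hB n u hu0 hu1).trans ?_
      gcongr
    · intro h
      have h1 : |deriv (f n) s| = |deriv (f n) (|s|)| := by
        rcases abs_choice s with h2 | h2
        · rw [h2]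
        · rw [h2]; exact (deriv_even_abs (he n) s).symm
      rw [h1]
      exact hA n _ (abs_nonneg s) h
  have haux := fun n => aux_fun (p n) (hp n) a a ha0 ha1 ha0 (f n) (hf n) 0 1 C₀ le_rfl (Real.exp_pos _).le (by
    intro s
    rw [sub_zero]
    refine ((hbd n s).1).trans ?_
    have h2 : (1 + |s|) ^ 2 ≤ (1 + |s|) ^ 8 :=
      pow_le_pow_right₀ (by linarith [abs_nonneg s]) (by norm_num)
    have h3 : 1 ≤ wt (a / 10) 1 s := one_le_wt (by positivity) le_rfl
    have h4 : 0 ≤ (1 + |s|) ^ 8 := by positivity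
    have h5 : (1 + |s|) ^ 2 ≤ (1 + |s|) ^ 8 * wt (a / 10) 1 s := by nlinarith
    gcongr)
  choose G K hGd hGb hGr hK01 hK0 hKq hGder using haux
  set M : ℝ := C₀ * (4 * (1 + Real.pi / a) ^ 8)
  obtain ⟨φ, hφ, g, hgd, hgb, hconv⟩ := NF (1 + 8 * a + 2 * a) M (by positivity) G hGd hGb
  have hdec : ∀ x : ℝ, ‖g x‖ ≤ C₀ * Real.exp (-(ε * |x| / LL |x|)) := by
    intro x
    have h1 := (hconv (fun _ => (x : ℂ)) x tendsto_const_nhds).1.norm
    refine le_of_tendsto h1 ?_
    have h2 := (tendsto_natCast_atTop_atTop (R := ℝ)).comp hφ.tendsto_atTop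
    filter_upwards [h2.eventually_ge_atTop (|x|)] with n hn
    simp only [Function.comp_apply] at hn
    rw [hGr, Complex.norm_real, Real.norm_eq_abs, abs_mul, add_zero, abs_of_nonneg (hK01 _ _).1]
    have h3 := (hbd (φ n) x).2 hn
    have h4 := (hK01 (φ n) x).2
    have h5 := abs_nonneg (deriv (f (φ n)) x)
    have h6 : |deriv (f (φ n)) x| * K (φ n) x ≤ |deriv (f (φ n)) x| := by nlinarith
    exact h6.trans h3
  have hzero := uniq (1 + 8 * a + 2 * a) M ε C₀ (by positivity) hε g hgd hgb hdec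
  obtain ⟨s0, hs00, ψ, hψ, hlim⟩ := (isCompact_Icc (a := (0:ℝ)) (b := E₁)).tendsto_subseq
    (x := fun n => s₁ (φ n)) (fun n => ⟨hs0 _, hs1 _⟩)
  have hlimC : Tendsto (fun n => ((s₁ (φ (ψ n)) : ℝ) : ℂ)) atTop (𝓝 (s0 : ℂ)) :=
    (Complex.continuous_ofReal.tendsto s0).comp hlim
  have hA' := subseq_tendsto (A := fun n => G (φ n)) (y := (s0 : ℂ)) (fun u hu => (hconv u _ hu).1) hψ hlimC
  have h1 : 1 / 2 ≤ ‖g s0‖ := by
    refine ge_of_tendsto hA'.norm (Eventually.of_forall fun n => ?_)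
    show 1 / 2 ≤ ‖G (φ (ψ n)) (s₁ (φ (ψ n)))‖
    rw [hGr, Complex.norm_real, Real.norm_eq_abs, abs_mul, add_zero, hs1b, one_mul, abs_of_nonneg (hK01 _ _).1]
    refine le_trans ?_ (hKq _ _)
    have h2 := hs0 (φ (ψ n))
    have h3 := hs1 (φ (ψ n))
    have h4 := one_le_LL (zero_le_one)
    have h5 : a ^ 2 / (2 * LL 1) + 4 * a ^ 2 ≤ 5 * a ^ 2 := by
      have : a ^ 2 / (2 * LL 1) ≤ a ^ 2 := div_le_self (by positivity) (by linarith)
      linarith
    have h6 : s₁ (φ (ψ n)) ^ 2 ≤ E₁ ^ 2 := by gcongr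
    have h7 : (a ^ 2 / (2 * LL 1) + 4 * a ^ 2) * s₁ (φ (ψ n)) ^ 2 ≤ 5 * a ^ 2 * E₁ ^ 2 := by gcongr
    have h8 : 5 * a ^ 2 * E₁ ^ 2 = 5 / 16 := by rw [ha]; field_simp; norm_num
    linarith
  rw [hzero s0, norm_zero] at h1
  norm_num at h1

end Pool.Agent.Helper514.Cheb
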