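import Pool.Agent.Helper514.Cheb.LG3
import Pool.Agent.Helper514.Cheb.Upart

set_option autoImplicit false

open Filter Topology MeasureTheory

namespace Pool.Agent.Helper514.Cheb

lemma WW_large (ε : ℝ) (hε : 0 < ε) (L : ℝ) : ∃ Y : ℝ, 3 ≤ Y ∧ L ≤ WW ε Y := by
  refine ⟨max 3 ((3 * |L| / ε) ^ 2), le_max_left _ _, ?_⟩
  set Y := max 3 ((3 * |L| / ε) ^ 2) with hY
  have hY3 : 3 ≤ Y := le_max_left _ _
  have hY2 : (3 * |L| / ε) ^ 2 ≤ Y := le_max_right _ _
  have h1 : 3 * |L| / ε ≤ Real.sqrt Y := by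
    apply Real.le_sqrt_of_sq_le hY2
  have h2 : LL Y ≤ 3 * Real.sqrt Y := by
    unfold LL
    have he := Real.exp_one_lt_d9
    have he0 := Real.exp_pos 1
    refine (log_le_two_sqrt (by linarith)).trans ?_
    have h3 : Real.sqrt (Real.exp 1 + Y) ≤ Real.sqrt (9 / 4 * Y) := Real.sqrt_le_sqrt (by linarith)
    rw [Real.sqrt_mul (by norm_num), show (9 / 4 : ℝ) = (3 / 2) ^ 2 by norm_num, Real.sqrt_sq (by norm_num)] at h3
    linarith
  have h3 := one_le_LL (by linarith : 0 ≤ Y)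
  have h4 : 0 < Real.sqrt Y := Real.sqrt_pos.2 (by linarith)
  unfold WW
  rw [le_div_iff₀ (by linarith)]
  have h5 : Y = Real.sqrt Y * Real.sqrt Y := (Real.mul_self_sqrt (by linarith)).symm
  have h6 : |L| ≤ ε * Real.sqrt Y / 3 := by
    rw [div_le_iff₀ hε] at h1; linarith
  calc L * LL Y ≤ |L| * LL Y := by gcongr; exact le_abs_self L
    _ ≤ (ε * Real.sqrt Y / 3) * (3 * Real.sqrt Y) := by gcongr
    _ = ε * (Real.sqrt Y * Real.sqrt Y) := by ring
    _ = ε * Y := by rw [← h5]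

lemma gainProp_scale {h b : ℝ} {f : ℝ → ℝ} {x : ℕ → ℝ} {M : ℕ} {G : ℕ → ℝ} {p D : ℕ} (hf : RTP p D f) (hb : 0 < b)
    (hG : GainProp h f x M G) : GainProp h (fun t => b⁻¹ * f t) x M (fun m => b⁻¹ * G m) := by
  have e1 : deriv (fun t => b⁻¹ * f t) = fun t => b⁻¹ * deriv f t := by
    funext t; exact deriv_const_mul _ (hf.differentiable t)
  have e2 : deriv (fun t => b⁻¹ * deriv f t) = fun t => b⁻¹ * deriv (deriv f) t := by
    funext t; exact deriv_const_mul _ (hf.deriv.differentiable t)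
  have e3 : deriv (fun t => b⁻¹ * deriv (deriv f) t) = fun t => b⁻¹ * deriv (deriv (deriv f)) t := by
    funext t; exact deriv_const_mul _ (hf.deriv.deriv.differentiable t)
  have hb' : 0 < b⁻¹ := inv_pos.2 hb
  intro m hm S₀ B₃ hS₀ hB₃ hbd y hy
  rw [e1, e2, e3] at hbd
  rw [e1, e2]
  have h1 := hG m hm (b * S₀) (b * B₃) (by positivity) (by positivity) (by
    intro t ht1 ht2
    have := hbd t ht1 ht2
    simp only [abs_mul, abs_of_pos hb'] at this
    constructor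
    · have h2 : b⁻¹ * (|deriv f t| + |deriv (deriv f) t|) ≤ S₀ := by linarith [this.1]
      rwa [inv_mul_le_iff₀ hb] at h2
    · have h2 := this.2
      rwa [inv_mul_le_iff₀ hb] at h2) y hy
  obtain ⟨h2, h3⟩ := h1
  simp only [abs_mul, abs_of_pos hb']
  constructor
  · have e4 : deriv (deriv f) y - b * B₃ * (x (2 * m + 1) - x (2 * m) + h) =
        b * (b⁻¹ * deriv (deriv f) y - B₃ * (x (2 * m + 1) - x (2 * m) + h)) := by
      field_simp
    rw [e4] at h2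
    have e5 : max 0 (b * (b⁻¹ * deriv (deriv f) y - B₃ * (x (2 * m + 1) - x (2 * m) + h))) =
        b * max 0 (b⁻¹ * deriv (deriv f) y - B₃ * (x (2 * m + 1) - x (2 * m) + h)) := by
      rw [mul_max_of_nonneg _ _ hb.le, mul_zero]
    rw [e5] at h2
    set v := max 0 (b⁻¹ * deriv (deriv f) y - B₃ * (x (2 * m + 1) - x (2 * m) + h))
    have h4 : b ^ 3 * (h ^ 2 * v ^ 3) ≤ b ^ 3 * (S₀ ^ 2 * (b⁻¹ * G m)) := by
      calc b ^ 3 * (h ^ 2 * v ^ 3) = h ^ 2 * (b * v) ^ 3 := by ring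
        _ ≤ (b * S₀) ^ 2 * G m := h2
        _ = _ := by field_simp
    exact le_of_mul_le_mul_left h4 (by positivity)
  · have e5 : max 0 (|deriv f y| - h * (b * S₀)) = b * max 0 (b⁻¹ * |deriv f y| - h * S₀) := by
      rw [mul_max_of_nonneg _ _ hb.le, mul_zero]
      congr 1; field_simp
    rw [e5] at h3
    set v := max 0 (b⁻¹ * |deriv f y| - h * S₀)
    have h4 : b ^ 2 * v ^ 2 ≤ b ^ 2 * (2 * S₀ * (b⁻¹ * G m)) := by
      calc b ^ 2 * v ^ 2 = (b * v) ^ 2 := by ring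
        _ ≤ 2 * (b * S₀) * G m := h3
        _ = _ := by field_simp
    exact le_of_mul_le_mul_left h4 (by positivity)

lemma goodAt_scale {p : ℕ} {ε : ℝ} {f : ℝ → ℝ} {T b : ℝ} {D : ℕ} (hf : RTP p D f) (hb : 0 < b) (hg : GoodAt p ε f T) :
    GoodAt p ε (fun t => b⁻¹ * f t) T := by
  intro s
  have e1 : ∀ t, deriv (fun t => b⁻¹ * f t) t = b⁻¹ * deriv f t := fun t =>
    deriv_const_mul _ (hf.differentiable t)
  have hb' : 0 < b⁻¹ := inv_pos.2 hb
  rw [e1, e1, abs_mul, abs_mul, abs_of_pos hb', mul_assoc]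
  exact mul_le_mul_of_nonneg_left (hg s) hb'.le

/-- integral of the bump -/
lemma int_bump (a y : ℝ) (ha : 0 ≤ a) : ∫ t in (-a)..a, 1 / (1 + |(|t|) - y|) ^ 2 ≤ 4 := by
  have hc : ∀ z : ℝ, Continuous fun t : ℝ => 1 / (1 + |t - z|) ^ 2 := by
    intro z
    apply Continuous.div continuous_const (by fun_prop)
    intro u; have := abs_nonneg (u - z); positivity
  have hc2 : Continuous fun t : ℝ => 1 / (1 + |(|t|) - y|) ^ 2 := by
    apply Continuous.div continuous_const (by fun_prop)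
    intro u; have := abs_nonneg (|u| - y); positivity
  have h1 : ∀ z : ℝ, ∫ t in (-a)..a, 1 / (1 + |t - z|) ^ 2 ≤ 2 := by
    intro z
    have e1 : ∫ t in (-a)..a, 1 / (1 + |t - z|) ^ 2 = ∫ u in (-a - z)..(a - z), 1 / (1 + |u|) ^ 2 :=
      intervalIntegral.integral_comp_sub_right (fun u => 1 / (1 + |u|) ^ 2) z
    rw [e1]
    refine le_trans ?_ (int_inv_sq (a + |z|) (by positivity))
    have h3 := le_abs_self z
    have h4 := neg_abs_le z
    apply intervalIntegral.integral_mono_interval (by linarith) (by linarith) (by linarith)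
    · exact Eventually.of_forall fun u => by
        have := abs_nonneg u
        simp only [Pi.zero_apply]; positivity
    · have := hc 0
      simp only [sub_zero] at this
      exact this.intervalIntegrable _ _
  calc ∫ t in (-a)..a, 1 / (1 + |(|t|) - y|) ^ 2 ≤ ∫ t in (-a)..a, (1 / (1 + |t - y|) ^ 2 + 1 / (1 + |t - (-y)|) ^ 2) := by
        apply intervalIntegral.integral_mono_on (by linarith)
        · exact hc2.intervalIntegrable _ _
        · exact ((hc y).add (hc (-y))).intervalIntegrable _ _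
        · intro t _
          have n1 : 0 ≤ 1 / (1 + |t - y|) ^ 2 := by have := abs_nonneg (t - y); positivity
          have n2 : 0 ≤ 1 / (1 + |t - (-y)|) ^ 2 := by have := abs_nonneg (t - (-y)); positivity
          rcases le_total 0 t with h | h
          · rw [abs_of_nonneg h]; linarith
          · rw [abs_of_nonpos h]
            have e : |-t - y| = |t - (-y)| := by
              rw [← abs_neg]; congr 1; ring
            rw [e]; linarith
    _ = (∫ t in (-a)..a, 1 / (1 + |t - y|) ^ 2) + ∫ t in (-a)..a, 1 / (1 + |t - (-y)|) ^ 2 :=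
        intervalIntegral.integral_add ((hc y).intervalIntegrable _ _) ((hc (-y)).intervalIntegrable _ _)
    _ ≤ 4 := by linarith [h1 y, h1 (-y)]

lemma ed_bump {p : ℕ} {s : ℝ} (h0 : 0 ≤ s) (h1 : s ≤ Real.pi * p) :
    1 / (1 + ed p s) ^ 2 ≤ 1 / (1 + |s - 0|) ^ 2 + 1 / (1 + |s - Real.pi * p|) ^ 2 := by
  have n1 : 0 ≤ 1 / (1 + |s - 0|) ^ 2 := by have := abs_nonneg (s - 0); positivity
  have n2 : 0 ≤ 1 / (1 + |s - Real.pi * p|) ^ 2 := by have := abs_nonneg (s - Real.pi * p); positivity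
  have e1 : |s - 0| = s := by rw [sub_zero, abs_of_nonneg h0]
  have e2 : |s - Real.pi * p| = Real.pi * p - s := by rw [abs_of_nonpos (by linarith)]; ring
  rw [e1] at n1 ⊢
  rw [e2] at n2 ⊢
  rcases min_choice s (Real.pi * p - s) with h | h
  · rw [ed, h]; linarith
  · rw [ed, h]; linarith

lemma dom_point {p M : ℕ} {ε R c κ E₁ β : ℝ} {x : ℕ → ℝ} {f : ℝ → ℝ} (hp0 : 0 < p) (hε0 : 0 < ε) (hR : 0 ≤ R)
    (hc : 0 < c) (hκ0 : 0 < κ) (hE₁1 : 1 ≤ E₁) (hβ0 : 0 ≤ β)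
    (hf : RTP p p f) (he : ∀ t, f (-t) = f t) {G : ℕ → ℝ} (hG0 : ∀ m, 0 ≤ G m)
    (hLG' : ∀ T, 0 ≤ T → T ≤ Real.pi * p → E₁ ≤ ed p T → GoodAt p ε f T →
      c * (κ * E₁) * |deriv f T| ≤ ∑ m ∈ (Finset.range M).filter (fun m => |x (2 * m) - T| ≤ R), G m)
    (hβin : ∀ s, 0 ≤ s → s ≤ Real.pi * p → ed p s ≤ E₁ → |deriv f s| ≤ β) (s : ℝ) (h0 : 0 ≤ s) (h1 : s ≤ Real.pi * p) :
    |deriv f s| ≤ (1 + R) ^ 2 / (c * (κ * E₁)) * ∑ m ∈ Finset.range M, G m * (1 / (1 + |s - x (2 * m)|) ^ 2) +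
      β * ((1 + E₁) ^ 2 * (1 / (1 + ed p s) ^ 2) * Real.exp (-max 0 (WW ε (ed p s) - WW ε E₁))) := by
  obtain ⟨c₁, hc₁⟩ : ∃ c₁ : ℝ, c₁ = (1 + R) ^ 2 / (c * (κ * E₁)) := ⟨_, rfl⟩
  have hc₁0 : 0 < c₁ := by rw [hc₁]; positivity
  rw [← hc₁]
  have hsum0 : 0 ≤ c₁ * ∑ m ∈ Finset.range M, G m * (1 / (1 + |s - x (2 * m)|) ^ 2) := by
    apply mul_nonneg hc₁0.le
    apply Finset.sum_nonneg
    intro m _
    have := hG0 m; have := abs_nonneg (s - x (2 * m))
    positivity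
  have heds := ed_nonneg h0 h1
  have hsec0 : 0 ≤ β * ((1 + E₁) ^ 2 * (1 / (1 + ed p s) ^ 2) * Real.exp (-max 0 (WW ε (ed p s) - WW ε E₁))) := by
    positivity
  obtain ⟨T, hT0, hT1, hTg, hT⟩ := maximizer hp0 hε0.le hf he s
  have h2 := hT s h0 h1
  rw [om_self, mul_one] at h2
  rcases le_or_gt E₁ (ed p T) with h3 | h3
  · have h4 := hLG' T hT0 hT1 h3 hTg
    have h5 := sq_le_om p ε T s
    have h6 : |deriv f s| * (1 + |T - s|) ^ 2 ≤ |deriv f T| := by
      refine le_trans ?_ h2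
      gcongr
    have h7 : |deriv f s| ≤ c₁ * ∑ m ∈ Finset.range M, G m * (1 / (1 + |s - x (2 * m)|) ^ 2) := by
      have h8 : (∑ m ∈ (Finset.range M).filter (fun m => |x (2 * m) - T| ≤ R), G m) ≤
          (1 + R) ^ 2 * (1 + |T - s|) ^ 2 * ∑ m ∈ Finset.range M, G m * (1 / (1 + |s - x (2 * m)|) ^ 2) := by
        rw [Finset.sum_filter, Finset.mul_sum]
        refine Finset.sum_le_sum fun m _ => ?_
        have hGm := hG0 m
        have ha := abs_nonneg (s - x (2 * m))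
        split_ifs with h9
        · have h10 : 1 + |s - x (2 * m)| ≤ (1 + R) * (1 + |T - s|) := by
            have := abs_sub_le s T (x (2 * m))
            rw [abs_sub_comm s T, abs_sub_comm T (x (2 * m))] at this
            nlinarith [abs_nonneg (T - s)]
          have h11 : (1 + |s - x (2 * m)|) ^ 2 ≤ (1 + R) ^ 2 * (1 + |T - s|) ^ 2 := by
            rw [← mul_pow]; gcongr
          have e : (1 + R) ^ 2 * (1 + |T - s|) ^ 2 * (G m * (1 / (1 + |s - x (2 * m)|) ^ 2)) =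
              G m * (((1 + R) ^ 2 * (1 + |T - s|) ^ 2) / (1 + |s - x (2 * m)|) ^ 2) := by ring
          rw [e]
          have h12 : 1 ≤ ((1 + R) ^ 2 * (1 + |T - s|) ^ 2) / (1 + |s - x (2 * m)|) ^ 2 := by
            rw [le_div_iff₀ (by positivity), one_mul]; exact h11
          nlinarith
        · have := abs_nonneg (T - s)
          positivity
      have h9 : 0 < (1 + |T - s|) ^ 2 := by have := abs_nonneg (T - s); positivity
      have h10 : |deriv f s| * (1 + |T - s|) ^ 2 ≤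
          (c₁ * ∑ m ∈ Finset.range M, G m * (1 / (1 + |s - x (2 * m)|) ^ 2)) * (1 + |T - s|) ^ 2 := by
        refine h6.trans ?_
        have h11 : |deriv f T| ≤ (1 / (c * (κ * E₁))) * ((1 + R) ^ 2 * (1 + |T - s|) ^ 2 *
            ∑ m ∈ Finset.range M, G m * (1 / (1 + |s - x (2 * m)|) ^ 2)) := by
          rw [one_div, ← div_eq_inv_mul, le_div_iff₀ (by positivity)]
          linarith
        refine h11.trans (le_of_eq ?_)
        rw [hc₁]; ring
      exact le_of_mul_le_mul_right h10 h9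
    linarith
  · have h4 := hβin T hT0 hT1 h3.le
    have h5 : |deriv f s| ≤ β * ((1 + E₁) ^ 2 * (1 / (1 + ed p s) ^ 2) *
        Real.exp (-max 0 (WW ε (ed p s) - WW ε E₁))) := by
      have h6 := ed_lip p s T
      rw [abs_sub_comm] at h6
      have hedT := ed_nonneg hT0 hT1
      have h7 : (1 + ed p s) ≤ (1 + E₁) * (1 + |T - s|) := by nlinarith [abs_nonneg (T - s)]
      have h8 : (1 + ed p s) ^ 2 * Real.exp (max 0 (WW ε (ed p s) - WW ε E₁)) ≤ (1 + E₁) ^ 2 * om p ε T s := by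
        unfold om
        have h9 : max 0 (WW ε (ed p s) - WW ε E₁) ≤ max 0 (WW ε (ed p s) - WW ε (ed p T)) := by
          apply max_le_max le_rfl
          have := WW_mono hε0.le hedT h3.le
          linarith
        have h10 : (1 + ed p s) ^ 2 ≤ (1 + E₁) ^ 2 * (1 + |T - s|) ^ 2 := by rw [← mul_pow]; gcongr
        rw [← mul_assoc]
        gcongr
      rw [Real.exp_neg]
      have hpos1 : 0 < (1 + ed p s) ^ 2 := by positivity
      have hpos2 := Real.exp_pos (max 0 (WW ε (ed p s) - WW ε E₁))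
      have h9 : |deriv f s| * ((1 + ed p s) ^ 2 * Real.exp (max 0 (WW ε (ed p s) - WW ε E₁))) ≤ β * (1 + E₁) ^ 2 := by
        calc |deriv f s| * ((1 + ed p s) ^ 2 * Real.exp (max 0 (WW ε (ed p s) - WW ε E₁)))
            ≤ |deriv f s| * ((1 + E₁) ^ 2 * om p ε T s) := by gcongr
          _ = (|deriv f s| * om p ε T s) * (1 + E₁) ^ 2 := by ring
          _ ≤ β * (1 + E₁) ^ 2 := by
              gcongr
              exact h2.trans h4
      have h10 : β * ((1 + E₁) ^ 2 * (1 / (1 + ed p s) ^ 2) * (Real.exp (max 0 (WW ε (ed p s) - WW ε E₁)))⁻¹) =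
          β * (1 + E₁) ^ 2 / ((1 + ed p s) ^ 2 * Real.exp (max 0 (WW ε (ed p s) - WW ε E₁))) := by
        field_simp
      rw [h10, le_div_iff₀ (by positivity)]
      exact h9
    linarith

lemma dom_int {p M : ℕ} {δ ε κ E₁ β κ₀ q c₁ Y η : ℝ} {x : ℕ → ℝ} {f : ℝ → ℝ} (hP : PConf p M δ Y η κ x)
    (hε0 : 0 < ε) (hκ₀ : 0 < κ₀) (hκ : κ₀ ≤ κ) (hβ0 : 0 ≤ β) (hE₁1 : 1 ≤ E₁) (hY3 : 3 ≤ Y) (hq0 : 0 < q) (hηq : η ≤ q / 2)
    (hc₁0 : 0 ≤ c₁) (heY : Real.exp (WW ε E₁ - WW ε Y) ≤ κ₀ * q / 2)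
    (hf : RTP p p f) (he : ∀ t, f (-t) = f t) {G : ℕ → ℝ} (hG0 : ∀ m, 0 ≤ G m)
    (hpoint : ∀ s, 0 ≤ s → s ≤ Real.pi * p → |deriv f s| ≤ c₁ * ∑ m ∈ Finset.range M, G m * (1 / (1 + |s - x (2 * m)|) ^ 2) +
      β * ((1 + E₁) ^ 2 * (1 / (1 + ed p s) ^ 2) * Real.exp (-max 0 (WW ε (ed p s) - WW ε E₁)))) :
    ∫ t in (-(Real.pi * p))..(Real.pi * p), |deriv f t| * Db p κ Y η |t| ≤
      c₁ * (1 + κ) * (4 * ∑ m ∈ Finset.range M, G m) + β * ((1 + E₁) ^ 2 * (κ * q)) * 8 := by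
  have hp0 := hP.hp
  have hpr : (0 : ℝ) < p := by exact_mod_cast hp0
  have hκ0 := hP.hκ0
  have hη0 := hP.hη0
  have hPi : 0 ≤ Real.pi * (p : ℝ) := by positivity
  obtain ⟨c₂, hc₂⟩ : ∃ c₂ : ℝ, c₂ = β * ((1 + E₁) ^ 2 * (κ * q)) := ⟨_, rfl⟩
  have hc₂0 : 0 ≤ c₂ := by rw [hc₂]; positivity
  rw [← hc₂]
  have hmain : ∀ t, t ∈ Set.Icc (-(Real.pi * p)) (Real.pi * p) → |deriv f t| * Db p κ Y η |t| ≤
      c₁ * (1 + κ) * ∑ m ∈ Finset.range M, G m * (1 / (1 + |(|t|) - x (2 * m)|) ^ 2) +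
      c₂ * (1 / (1 + |(|t|) - 0|) ^ 2 + 1 / (1 + |(|t|) - Real.pi * p|) ^ 2) := by
    intro t ht
    have ht' : |t| ≤ Real.pi * p := abs_le.2 ⟨ht.1, ht.2⟩
    have ht0 := abs_nonneg t
    have h1 : |deriv f t| = |deriv f (|t|)| := by
      rcases abs_choice t with h2 | h2
      · rw [h2]
      · rw [h2]; exact (deriv_even_abs he t).symm
    rw [h1]
    obtain ⟨s, hs⟩ : ∃ s, s = |t| := ⟨_, rfl⟩
    rw [← hs] at ht' ht0 ⊢
    have h2 := hpoint s ht0 ht'
    have heds := ed_nonneg ht0 ht'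
    have hXle := ed_bump ht0 ht'
    obtain ⟨Sm, hSm⟩ : ∃ Sm : ℝ, Sm = ∑ m ∈ Finset.range M, G m * (1 / (1 + |s - x (2 * m)|) ^ 2) := ⟨_, rfl⟩
    have hSm0 : 0 ≤ Sm := by
      rw [hSm]
      apply Finset.sum_nonneg
      intro m _
      have := hG0 m; have := abs_nonneg (s - x (2 * m))
      positivity
    rw [← hSm] at h2 ⊢
    have hDb := Db_bound (p := p) (Y := Y) (t := s) hκ0.le hη0.le hP.hη1
    obtain ⟨X, hX⟩ : ∃ X : ℝ, X = 1 / (1 + ed p s) ^ 2 := ⟨_, rfl⟩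
    have hX0 : 0 ≤ X := by rw [hX]; positivity
    rw [← hX] at h2 hXle
    have hexpDb : Real.exp (-max 0 (WW ε (ed p s) - WW ε E₁)) * Db p κ Y η s ≤ κ * q := by
      unfold Db
      split_ifs with h3
      · have h4 : Real.exp (-max 0 (WW ε (ed p s) - WW ε E₁)) ≤ 1 := by
          rw [Real.exp_le_one_iff]
          have := le_max_left 0 (WW ε (ed p s) - WW ε E₁)
          linarith
        calc Real.exp (-max 0 (WW ε (ed p s) - WW ε E₁)) * (η * κ) ≤ 1 * (q / 2 * κ) := by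
              gcongr
          _ ≤ κ * q := by
              have : 0 ≤ κ * q := by positivity
              linarith
      · push Not at h3
        have h4 : Real.exp (-max 0 (WW ε (ed p s) - WW ε E₁)) ≤ Real.exp (WW ε E₁ - WW ε Y) := by
          rw [Real.exp_le_exp]
          have h5 := le_max_right 0 (WW ε (ed p s) - WW ε E₁)
          have h6 := WW_mono hε0.le (by linarith : 0 ≤ Y) h3
          linarith
        rw [mul_one]
        refine h4.trans (heY.trans ?_)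
        have h5 : κ₀ * q ≤ κ * q := by gcongr
        have h6 : 0 ≤ κ * q := by positivity
        linarith
    calc |deriv f s| * Db p κ Y η s ≤ (c₁ * Sm + β * ((1 + E₁) ^ 2 * X *
          Real.exp (-max 0 (WW ε (ed p s) - WW ε E₁)))) * Db p κ Y η s := by
          exact mul_le_mul_of_nonneg_right h2 hDb.1
      _ = c₁ * Sm * Db p κ Y η s + β * ((1 + E₁) ^ 2 * X) *
          (Real.exp (-max 0 (WW ε (ed p s) - WW ε E₁)) * Db p κ Y η s) := by ring
      _ ≤ c₁ * Sm * (1 + κ) + β * ((1 + E₁) ^ 2 * X) * (κ * q) := by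
          apply add_le_add
          · exact mul_le_mul_of_nonneg_left hDb.2 (by positivity)
          · exact mul_le_mul_of_nonneg_left hexpDb (by positivity)
      _ = c₁ * (1 + κ) * Sm + c₂ * X := by rw [hc₂]; ring
      _ ≤ _ := by
          have := mul_le_mul_of_nonneg_left hXle hc₂0
          linarith
  have hcb : ∀ y : ℝ, Continuous fun t : ℝ => 1 / (1 + |(|t|) - y|) ^ 2 := by
    intro y
    apply Continuous.div continuous_const (by fun_prop)
    intro u; have := abs_nonneg (|u| - y); positivity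
  have hcs : Continuous fun t : ℝ => ∑ m ∈ Finset.range M, G m * (1 / (1 + |(|t|) - x (2 * m)|) ^ 2) :=
    continuous_finsetSum _ fun m _ => continuous_const.mul (hcb _)
  calc ∫ t in (-(Real.pi * p))..(Real.pi * p), |deriv f t| * Db p κ Y η |t|
      ≤ ∫ t in (-(Real.pi * p))..(Real.pi * p), (c₁ * (1 + κ) * ∑ m ∈ Finset.range M, G m * (1 / (1 + |(|t|) - x (2 * m)|) ^ 2) +
        c₂ * (1 / (1 + |(|t|) - 0|) ^ 2 + 1 / (1 + |(|t|) - Real.pi * p|) ^ 2)) := by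
        apply intervalIntegral.integral_mono_on (by linarith)
        · exact Db_int hκ0.le hη0.le hP.hη1 hf.deriv.continuous.abs _ _
        · exact ((continuous_const.mul hcs).add (continuous_const.mul ((hcb 0).add (hcb _)))).intervalIntegrable _ _
        · exact hmain
    _ = c₁ * (1 + κ) * (∫ t in (-(Real.pi * p))..(Real.pi * p), ∑ m ∈ Finset.range M, G m * (1 / (1 + |(|t|) - x (2 * m)|) ^ 2)) +
        c₂ * ((∫ t in (-(Real.pi * p))..(Real.pi * p), 1 / (1 + |(|t|) - 0|) ^ 2) +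
          ∫ t in (-(Real.pi * p))..(Real.pi * p), 1 / (1 + |(|t|) - Real.pi * p|) ^ 2) := by
        rw [intervalIntegral.integral_add (by exact (continuous_const.mul hcs).intervalIntegrable _ _)
          (by exact (continuous_const.mul ((hcb 0).add (hcb _))).intervalIntegrable _ _),
          intervalIntegral.integral_const_mul, intervalIntegral.integral_const_mul,
          intervalIntegral.integral_add (by exact (hcb 0).intervalIntegrable _ _) (by exact (hcb _).intervalIntegrable _ _)]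
    _ ≤ c₁ * (1 + κ) * (4 * ∑ m ∈ Finset.range M, G m) + c₂ * (4 + 4) := by
        have i1 := int_bump (Real.pi * p) 0 hPi
        have i2 := int_bump (Real.pi * p) (Real.pi * p) hPi
        have i3 : ∫ t in (-(Real.pi * p))..(Real.pi * p), ∑ m ∈ Finset.range M, G m * (1 / (1 + |(|t|) - x (2 * m)|) ^ 2) ≤
            4 * ∑ m ∈ Finset.range M, G m := by
          rw [intervalIntegral.integral_finsetSum (by
            intro m _
            exact (continuous_const.mul (hcb _)).intervalIntegrable _ _),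
            Finset.mul_sum]
          refine Finset.sum_le_sum fun m _ => ?_
          rw [intervalIntegral.integral_const_mul]
          have := int_bump (Real.pi * p) (x (2 * m)) hPi
          have hGm := hG0 m
          nlinarith
        have hk : 0 ≤ c₁ * (1 + κ) := by positivity
        exact add_le_add (mul_le_mul_of_nonneg_left i3 hk) (mul_le_mul_of_nonneg_left (add_le_add i1 i2) hc₂0)
    _ = _ := by ring

theorem Dom (δ κ₀ : ℝ) (hδ0 : 0 < δ) (hδ1 : δ ≤ 1) (hκ₀ : 0 < κ₀) :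
    ∃ h : ℝ, 0 < h ∧ h ≤ 1 ∧ ∃ Y : ℝ, 0 < Y ∧ ∃ η : ℝ, 0 < η ∧ η ≤ 1 ∧ ∃ p₀ : ℕ, ∀ p : ℕ, p₀ ≤ p →
      ∀ (M : ℕ) (κ : ℝ) (x : ℕ → ℝ), PConf p M δ Y η κ x → κ₀ ≤ κ → ∀ f : ℝ → ℝ, RTP p p f → (∀ t, f (-t) = f t) →
      (∃ s, deriv f s ≠ 0) → ∀ G : ℕ → ℝ, (∀ m, 0 ≤ G m) → GainProp h f x M G →
      ∫ t in (-(Real.pi * p))..(Real.pi * p), |deriv f t| * Db p κ Y η |t| < 2 * ∑ m ∈ Finset.range M, G m := by
  obtain ⟨h, hh0, hh1, c, hc, R, hR, E₀, hE₀, hLG⟩ := LG δ κ₀ hδ0 hδ1 hκ₀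
  have hε0 : 0 < δ / 400 := by positivity
  obtain ⟨E₁, hE₁⟩ : ∃ E₁ : ℝ, E₁ = E₀ + 8 * (1 + R) ^ 2 * (1 + 1 / κ₀) / c := ⟨_, rfl⟩
  have hE₁a : E₀ ≤ E₁ := by
    rw [hE₁]
    have : 0 ≤ 8 * (1 + R) ^ 2 * (1 + 1 / κ₀) / c := by positivity
    linarith
  have hE₁b : 8 * (1 + R) ^ 2 * (1 + 1 / κ₀) ≤ c * E₁ := by
    have : 8 * (1 + R) ^ 2 * (1 + 1 / κ₀) / c ≤ E₁ := by rw [hE₁]; linarith
    rw [div_le_iff₀ hc] at this; linarith
  have hE₁1 : 1 ≤ E₁ := by linarith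
  obtain ⟨c₃, hc₃, p₁, hU⟩ := Uth (δ / 400) E₁ hε0 (by linarith) hE₁1
  obtain ⟨q, hq⟩ : ∃ q : ℝ, q = c * E₁ * c₃ / (16 * (1 + E₁) ^ 2) := ⟨_, rfl⟩
  have hq0 : 0 < q := by rw [hq]; positivity
  have hqe : 16 * (1 + E₁) ^ 2 * q = c * E₁ * c₃ := by rw [hq]; field_simp
  obtain ⟨Y, hY3, hYW⟩ := WW_large (δ / 400) hε0 (WW (δ / 400) E₁ - Real.log (κ₀ * q / 2))
  have heY : Real.exp (WW (δ / 400) E₁ - WW (δ / 400) Y) ≤ κ₀ * q / 2 := by
    rw [← Real.le_log_iff_exp_le (by positivity)]; linarith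
  refine ⟨h, hh0, hh1, Y, by linarith, min 1 (q / 2), by positivity, min_le_left _ _, p₁, ?_⟩
  intro p hp M κ x hP hκ f hf he hne G hG0 hG
  obtain ⟨η, hη⟩ : ∃ η : ℝ, η = min 1 (q / 2) := ⟨_, rfl⟩
  have hηq : η ≤ q / 2 := by rw [hη]; exact min_le_right _ _
  rw [← hη] at hP ⊢
  have hp0 := hP.hp
  have hκ0 := hP.hκ0
  have hη0 := hP.hη0
  -- scaled LG
  have hLG' : ∀ T, 0 ≤ T → T ≤ Real.pi * p → E₁ ≤ ed p T → GoodAt p (δ / 400) f T →
      c * (κ * E₁) * |deriv f T| ≤ ∑ m ∈ (Finset.range M).filter (fun m => |x (2 * m) - T| ≤ R), G m := by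
    intro T h0 h1 h2 h3
    have hnn : 0 ≤ ∑ m ∈ (Finset.range M).filter (fun m => |x (2 * m) - T| ≤ R), G m :=
      Finset.sum_nonneg fun m _ => hG0 m
    rcases eq_or_lt_of_le (abs_nonneg (deriv f T)) with h4 | h4
    · rw [← h4, mul_zero]; exact hnn
    · have h5 := hLG p M Y η κ x hP hκ T h0 h1 (by linarith) (fun t => |deriv f T|⁻¹ * f t) (hf.const_mul _) (by
        rw [deriv_const_mul _ (hf.differentiable T), abs_mul, abs_inv, abs_abs, inv_mul_cancel₀ h4.ne'])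
        (goodAt_scale hf h4 h3) (fun m => |deriv f T|⁻¹ * G m) (fun m => by have := hG0 m; positivity)
        (gainProp_scale hf h4 hG)
      rw [← Finset.mul_sum, inv_mul_eq_div, le_div_iff₀ h4] at h5
      refine le_trans ?_ h5
      gcongr
  -- inner bound
  obtain ⟨T₁, hT₁0, hT₁1, hT₁e, hT₁g, hT₁b⟩ := hU p hp f hf he
  obtain ⟨β, hβ⟩ : ∃ β : ℝ, β = |deriv f T₁| / c₃ := ⟨_, rfl⟩
  have hβ0 : 0 ≤ β := by rw [hβ]; positivity
  have hβin : ∀ s, 0 ≤ s → s ≤ Real.pi * p → ed p s ≤ E₁ → |deriv f s| ≤ β := by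
    intro s h0 h1 h2
    have := hT₁b s h0 h1 h2
    rw [hβ, le_div_iff₀ hc₃]; linarith
  obtain ⟨Sg, hSg⟩ : ∃ Sg : ℝ, Sg = ∑ m ∈ Finset.range M, G m := ⟨_, rfl⟩
  have hSg0 : 0 ≤ Sg := by rw [hSg]; exact Finset.sum_nonneg fun m _ => hG0 m
  have hβS : c * (κ * E₁) * c₃ * β ≤ Sg := by
    have h1 := hLG' T₁ hT₁0 hT₁1 hT₁e hT₁g
    have h2 : c₃ * β = |deriv f T₁| := by rw [hβ]; field_simp
    have h3 : ∑ m ∈ (Finset.range M).filter (fun m => |x (2 * m) - T₁| ≤ R), G m ≤ Sg := by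
      rw [hSg]
      exact Finset.sum_le_sum_of_subset_of_nonneg (Finset.filter_subset _ _) fun m _ _ => hG0 m
    calc c * (κ * E₁) * c₃ * β = c * (κ * E₁) * (c₃ * β) := by ring
      _ ≤ Sg := by rw [h2]; exact h1.trans h3
  have hpoint := fun s h0 h1 => dom_point hp0 hε0 hR hc hκ0 hE₁1 hβ0 hf he hG0 hLG' hβin s h0 h1
  have hc₁0 : 0 ≤ (1 + R) ^ 2 / (c * (κ * E₁)) := by positivity
  have hJ := dom_int hP hε0 hκ₀ hκ hβ0 hE₁1 hY3 hq0 hηq hc₁0 heY hf he hG0 hpoint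
  -- positivity of the total gain
  have hSgpos : 0 < Sg := by
    rcases eq_or_lt_of_le hSg0 with h1 | h1
    · exfalso
      obtain ⟨s, hs⟩ := hne
      obtain ⟨u, hu0, hu1, -, -, hu3⟩ := fold_exists hp0 s
      have h2 : |deriv f s| = |deriv f u| := hu3 (fun t => |deriv f t|)
        (fun t => by simp only; rw [hf.deriv.periodic hp0]) (fun t => deriv_even_abs he t)
      have h3 := hpoint u hu0 hu1
      have h4 : ∀ m ∈ Finset.range M, G m = 0 := by
        have := (Finset.sum_eq_zero_iff_of_nonneg (fun m (_ : m ∈ Finset.range M) => hG0 m)).1 (by rw [← hSg]; exact h1.symm)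
        exact this
      have h5 : ∑ m ∈ Finset.range M, G m * (1 / (1 + |u - x (2 * m)|) ^ 2) = 0 :=
        Finset.sum_eq_zero fun m hm => by rw [h4 m hm, zero_mul]
      have h6 : β = 0 := by
        rw [← h1] at hβS
        have h7 : 0 < c * (κ * E₁) * c₃ := by positivity
        by_contra h8
        have h9 : 0 < β := lt_of_le_of_ne hβ0 (Ne.symm h8)
        have := mul_pos h7 h9
        linarith
      rw [h5, h6, mul_zero, zero_mul, add_zero, ← h2] at h3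
      exact hs (abs_eq_zero.1 (le_antisymm h3 (abs_nonneg _)))
    · exact h1
  rw [← hSg] at hJ ⊢
  have hA : (1 + R) ^ 2 / (c * (κ * E₁)) * (1 + κ) * (4 * Sg) ≤ 1 / 2 * Sg := by
    have h1 : (1 + κ) ≤ κ * (1 + 1 / κ₀) := by
      have : (1 : ℝ) ≤ κ * (1 / κ₀) := by
        rw [mul_one_div, le_div_iff₀ hκ₀]; linarith
      linarith
    have h2 : (1 + R) ^ 2 / (c * (κ * E₁)) * (1 + κ) * 4 ≤ 1 / 2 := by
      rw [div_mul_eq_mul_div, div_mul_eq_mul_div, div_le_iff₀ (by positivity)]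
      calc (1 + R) ^ 2 * (1 + κ) * 4 ≤ (1 + R) ^ 2 * (κ * (1 + 1 / κ₀)) * 4 := by gcongr
        _ = κ / 2 * (8 * (1 + R) ^ 2 * (1 + 1 / κ₀)) := by ring
        _ ≤ κ / 2 * (c * E₁) := by gcongr
        _ = _ := by ring
    calc _ = ((1 + R) ^ 2 / (c * (κ * E₁)) * (1 + κ) * 4) * Sg := by ring
      _ ≤ _ := by gcongr
  have hB : β * ((1 + E₁) ^ 2 * (κ * q)) * 8 ≤ 1 / 2 * Sg := by
    calc β * ((1 + E₁) ^ 2 * (κ * q)) * 8 = β * κ / 2 * (16 * (1 + E₁) ^ 2 * q) := by ring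
      _ = 1 / 2 * (c * (κ * E₁) * c₃ * β) := by rw [hqe]; ring
      _ ≤ _ := by gcongr
  linarith

end Pool.Agent.Helper514.Cheb
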