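import Mathlib

set_option autoImplicit false

open MeasureTheory Set Filter Topology

namespace Pool.Agent.Helper514.Cheb

noncomputable def chi (ε t : ℝ) : ℝ := Real.sinc (ε * t) ^ 8

lemma mul_sinc (x : ℝ) : x * Real.sinc x = Real.sin x := by
  by_cases h : x = 0
  · simp [h]
  · rw [Real.sinc_of_ne_zero h]; field_simp

lemma chi_nonneg (ε t : ℝ) : 0 ≤ chi ε t := by unfold chi; positivity

lemma chi_le_one (ε t : ℝ) : chi ε t ≤ 1 := by
  unfold chi
  have h := Real.abs_sinc_le_one (ε * t)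
  have h2 : Real.sinc (ε * t) ^ 8 = |Real.sinc (ε * t)| ^ 8 := by
    rw [← abs_pow]; exact (abs_of_nonneg (by positivity)).symm
  rw [h2]
  exact pow_le_one₀ (abs_nonneg _) h

lemma chi_zero (ε : ℝ) : chi ε 0 = 1 := by unfold chi; simp

lemma chi_neg (ε t : ℝ) : chi ε (-t) = chi ε t := by unfold chi; rw [mul_neg, Real.sinc_neg]

lemma chi_cont (ε : ℝ) : Continuous (chi ε) := by
  unfold chi
  have := Real.continuous_sinc
  fun_prop

lemma sinc_decay {ε t : ℝ} (hε : 0 < ε) (ht : 0 ≤ t) : |Real.sinc (ε * t)| * (1 + t) ≤ 1 + 1 / ε := by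
  have h1 := Real.abs_sinc_le_one (ε * t)
  have h2 : |Real.sinc (ε * t)| * (ε * t) ≤ 1 := by
    have h3 := mul_sinc (ε * t)
    have h4 : |ε * t * Real.sinc (ε * t)| ≤ 1 := by rw [h3]; exact Real.abs_sin_le_one _
    rw [abs_mul, abs_of_nonneg (by positivity : 0 ≤ ε * t)] at h4
    linarith
  have h3 : |Real.sinc (ε * t)| * t ≤ 1 / ε := by
    rw [le_div_iff₀ hε]; nlinarith
  nlinarith

lemma chi_decay {ε t : ℝ} (hε : 0 < ε) (ht : 0 ≤ t) : chi ε t * (1 + t) ^ 8 ≤ (1 + 1 / ε) ^ 8 := by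
  have h := sinc_decay hε ht
  have h2 : chi ε t = |Real.sinc (ε * t)| ^ 8 := by
    unfold chi; rw [← abs_pow]; exact (abs_of_nonneg (by positivity)).symm
  rw [h2, ← mul_pow]
  exact pow_le_pow_left₀ (by positivity) h 8

lemma sinc_lower {x : ℝ} (hx : 0 ≤ x) : 1 - x ^ 2 / 6 ≤ Real.sinc x := by
  rcases hx.eq_or_lt with h | h
  · rw [← h]; simp
  · rw [Real.sinc_of_ne_zero h.ne', le_div_iff₀ h]
    have := Real.sin_gt_sub_cube h
    nlinarith

lemma chi_lower {ε t : ℝ} (hε : 0 ≤ ε) (ht : 0 ≤ t) : 1 - 2 * (ε * t) ^ 2 ≤ chi ε t := by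
  obtain ⟨x, hx⟩ : ∃ x : ℝ, x = ε * t := ⟨_, rfl⟩
  have hx0 : 0 ≤ x := by rw [hx]; positivity
  unfold chi
  rw [← hx]
  rcases le_or_gt (x ^ 2) 1 with h | h
  · have h1 := sinc_lower hx0
    have h2 : (1 - x ^ 2 / 6) ^ 8 ≤ Real.sinc x ^ 8 := by
      apply pow_le_pow_left₀ (by linarith) h1
    have h3 := one_add_mul_le_pow (a := -(x ^ 2 / 6)) (by linarith) 8
    have h4 : (1 + -(x ^ 2 / 6)) = 1 - x ^ 2 / 6 := by ring
    rw [h4] at h3
    push_cast at h3
    nlinarith [sq_nonneg x]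
  · have : 0 ≤ Real.sinc x ^ 8 := by positivity
    nlinarith

lemma sinc_upper {x : ℝ} (hx : 0 ≤ x) (hx2 : x ≤ 2) : |Real.sinc x| ≤ 1 - x ^ 2 / 24 := by
  have hpi := Real.pi_gt_three
  have hpi2 : Real.pi ^ 2 ≤ 12 := by
    have h1 := Real.pi_lt_d2
    nlinarith
  have h1 : Real.sinc x = Real.cos (x / 2) * Real.sinc (x / 2) := by
    by_cases h : x = 0
    · simp [h]
    · have h2 : Real.sin x = 2 * Real.sin (x / 2) * Real.cos (x / 2) := by
        rw [← Real.sin_two_mul]; congr 1; ring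
      have h3 : x / 2 ≠ 0 := by positivity
      rw [Real.sinc_of_ne_zero h, Real.sinc_of_ne_zero h3, h2]
      field_simp
  have h2 := Real.abs_sinc_le_one (x / 2)
  have h3 : |x / 2| ≤ Real.pi := by rw [abs_of_nonneg (by linarith)]; linarith
  have h4 := Real.cos_le_one_sub_mul_cos_sq h3
  have h5 : 0 ≤ Real.cos (x / 2) := by
    apply Real.cos_nonneg_of_neg_pi_div_two_le_of_le <;> linarith
  rw [h1, abs_mul, abs_of_nonneg h5]
  have h6 : (1 / 24 : ℝ) * x ^ 2 ≤ 2 / Real.pi ^ 2 * (x / 2) ^ 2 := by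
    have : 2 / Real.pi ^ 2 * (x / 2) ^ 2 = (1 / (2 * Real.pi ^ 2)) * x ^ 2 := by field_simp
    rw [this]
    gcongr
    linarith
  calc Real.cos (x / 2) * |Real.sinc (x / 2)| ≤ Real.cos (x / 2) * 1 := by gcongr
    _ ≤ _ := by linarith

lemma sinc_comp {x y : ℝ} (hy : 0 ≤ y) (hy2 : y ≤ Real.pi / 2) (hxy : 4 * y ≤ x) : Real.sinc x ^ 8 ≤ Real.sinc y := by
  have h0 : Real.sinc x ^ 8 = |Real.sinc x| ^ 8 := by
    rw [← abs_pow]; exact (abs_of_nonneg (by positivity)).symm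
  have hpi := Real.pi_gt_three
  have hpi4 := Real.pi_le_four
  have habs := Real.abs_sinc_le_one x
  have hx : 0 ≤ x := by linarith
  rcases le_or_gt x 2 with h | h
  · have h1 := sinc_upper hx h
    have h2 := sinc_lower hy
    have h3 : |Real.sinc x| ^ 8 ≤ |Real.sinc x| := by
      calc |Real.sinc x| ^ 8 ≤ |Real.sinc x| ^ 1 := pow_le_pow_of_le_one (abs_nonneg _) habs (by norm_num)
        _ = _ := pow_one _
    rw [h0]
    nlinarith
  · have h1 : |Real.sinc x| ≤ 1 / 2 := by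
      rw [Real.sinc_of_ne_zero (by linarith), abs_div, abs_of_pos (by linarith : (0:ℝ) < x), div_le_iff₀ (by linarith)]
      have := Real.abs_sin_le_one x
      linarith
    have h2 : |Real.sinc x| ^ 8 ≤ (1 / 2) ^ 8 := pow_le_pow_left₀ (abs_nonneg _) h1 8
    have h3 : 2 / Real.pi ≤ Real.sinc y := by
      rcases hy.eq_or_lt with h | h
      · rw [← h, Real.sinc_zero, div_le_one (by linarith)]; linarith
      · rw [Real.sinc_of_ne_zero h.ne', le_div_iff₀ h]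
        exact Real.mul_le_sin hy hy2
    have h4 : (1 / 2 : ℝ) ≤ 2 / Real.pi := by
      rw [le_div_iff₀ (by linarith)]; linarith
    have h5 : ((1:ℝ) / 2) ^ 8 ≤ 1 / 2 := by norm_num
    rw [h0]; linarith

/-- the weight `χ(t) t` is integrable -/
lemma chi_dom {ε t : ℝ} (hε : 0 < ε) (ht : 0 ≤ t) : chi ε t * t ≤ (1 + 1 / ε) ^ 8 * (1 + t ^ 2)⁻¹ := by
  have h1 := chi_decay hε ht
  have h2 : (0:ℝ) < 1 + t ^ 2 := by positivity
  rw [← div_eq_mul_inv, le_div_iff₀ h2]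
  have h3 : t * (1 + t ^ 2) ≤ (1 + t) ^ 8 := by
    have h4 : t * (1 + t ^ 2) ≤ (1 + t) ^ 3 := by nlinarith [mul_nonneg ht ht]
    have h5 : (1 + t) ^ 3 ≤ (1 + t) ^ 8 := pow_le_pow_right₀ (by linarith) (by norm_num)
    linarith
  calc chi ε t * t * (1 + t ^ 2) = chi ε t * (t * (1 + t ^ 2)) := by ring
    _ ≤ chi ε t * (1 + t) ^ 8 := by gcongr; exact chi_nonneg _ _
    _ ≤ _ := h1

lemma chi_int {ε : ℝ} (hε : 0 < ε) : IntegrableOn (fun t => chi ε t * t) (Ioi 0) := by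
  have h1 : IntegrableOn (fun t : ℝ => (1 + 1 / ε) ^ 8 * (1 + t ^ 2)⁻¹) (Ioi 0) :=
    (integrable_inv_one_add_sq.const_mul _).integrableOn
  refine Integrable.mono' h1 ?_ ?_
  · exact ((chi_cont ε).mul continuous_id).aestronglyMeasurable
  · filter_upwards [ae_restrict_mem measurableSet_Ioi] with t ht
    have ht' : 0 ≤ t := le_of_lt ht
    rw [Real.norm_of_nonneg (mul_nonneg (chi_nonneg _ _) ht')]
    exact chi_dom hε ht'

lemma chi_int' {ε : ℝ} (hε : 0 < ε) {g : ℝ → ℝ} (hg : Continuous g) {B : ℝ} (hB : ∀ t, |g t| ≤ B) :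
    IntegrableOn (fun t => g t * (chi ε t * t)) (Ioi 0) := by
  have := (chi_int hε).bdd_mul (f := g) (c := B) hg.aestronglyMeasurable (Eventually.of_forall fun t => by simpa using hB t)
  exact this

end Pool.Agent.Helper514.Cheb
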