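import Pool.Agent.Helper514.Cheb.Lower
import Pool.Agent.Helper514.Cheb.SincL

set_option autoImplicit false

open MeasureTheory Set Filter Topology

namespace Pool.Agent.Helper514.Cheb

lemma Dir4_int {p k : ℕ} (hp : 0 < p) {b : ℝ} (hb : 0 < b) (hk : b * p ≤ 2 * (k : ℝ) + 1) :
    ∫ s in (0:ℝ)..(Real.pi * p), Dir p k s ^ 4 * ww p s ≤ (1 + Real.pi / b) ^ 4 := by
  apply int_le_of_decay (by positivity) (((Dir_cont p k).pow 4).mul (ww_continuous p)) (by positivity)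
  intro t h0 h1
  have h2 := Dir_pow_le hp hb hk h0 h1 4
  have h3 := ww_le p h0
  have h4 : Dir p k t ^ 4 = |Dir p k t| ^ 4 := by rw [← abs_pow]; exact (abs_of_nonneg (by positivity)).symm
  show Dir p k t ^ 4 * ww p t ≤ _
  rw [h4]
  have h5 := ww_nonneg p t
  have h6 : (0:ℝ) < (1 + t) ^ 2 := by positivity
  rw [mul_one_div, le_div_iff₀ h6]
  have h7 : t * (1 + t) ^ 2 ≤ (1 + t) ^ 4 := by
    have : t * (1 + t) ^ 2 ≤ (1 + t) * (1 + t) ^ 2 := by gcongr; linarith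
    have h8 : (1 + t) * (1 + t) ^ 2 = (1 + t) ^ 3 := by ring
    have h9 : (1 + t) ^ 3 ≤ (1 + t) ^ 4 := pow_le_pow_right₀ (by linarith) (by norm_num)
    linarith
  calc |Dir p k t| ^ 4 * ww p t * (1 + t) ^ 2 ≤ |Dir p k t| ^ 4 * t * (1 + t) ^ 2 := by gcongr
    _ = |Dir p k t| ^ 4 * (t * (1 + t) ^ 2) := by ring
    _ ≤ |Dir p k t| ^ 4 * (1 + t) ^ 4 := by gcongr
    _ ≤ _ := h2

/-- counting nodes near the end point -/
lemma node_count {p N : ℕ} (hp : 0 < p) {t : ℕ → ℝ} (ht0 : ∀ i, 0 ≤ t i ∧ t i ≤ Real.pi * p)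
    (hmono : ∀ i j, i ≤ j → j < N → t i ≤ t j) {κ : ℝ} (hκ : 0 < κ)
    (hex : ∀ H : ℝ → ℝ, PC p p H → ∑ i ∈ Finset.range N, H (t i) = κ * ∫ s in (0:ℝ)..(Real.pi * p), H s * ww p s)
    (i : ℕ) (hi : i < N) : (i:ℝ) + 1 ≤ 2 * κ * (1 + 4 * Real.pi) ^ 4 * (1 + t i) ^ 4 := by
  have hpr : (0:ℝ) < p := by exact_mod_cast hp
  obtain ⟨x, hx⟩ : ∃ x : ℝ, x = t i := ⟨_, rfl⟩
  have hx0 : 0 ≤ x := by rw [hx]; exact (ht0 i).1
  rw [← hx]
  obtain ⟨k, hk⟩ : ∃ k : ℕ, k = ⌊(p:ℝ) / (4 * (1 + x))⌋₊ := ⟨_, rfl⟩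
  have hk1 : (k:ℝ) ≤ (p:ℝ) / (4 * (1 + x)) := by rw [hk]; exact Nat.floor_le (by positivity)
  have hk2 : (p:ℝ) / (4 * (1 + x)) < k + 1 := by rw [hk]; exact Nat.lt_floor_add_one _
  have hk0 : (0:ℝ) ≤ k := by positivity
  have hb : (1 / (4 * (1 + x))) * p ≤ 2 * (k:ℝ) + 1 := by
    have : (1 / (4 * (1 + x))) * p = (p:ℝ) / (4 * (1 + x)) := by ring
    rw [this]; linarith
  have h4k : 4 * k ≤ p := by
    have h1 : (p:ℝ) / (4 * (1 + x)) ≤ p / 4 := by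
      apply div_le_div_of_nonneg_left hpr.le (by norm_num) (by linarith)
    have : 4 * (k:ℝ) ≤ p := by linarith
    exact_mod_cast this
  have e := hex _ (((Dir_pc p k).pow 4).mono h4k)
  have b1 : κ * ∫ s in (0:ℝ)..(Real.pi * p), Dir p k s ^ 4 * ww p s ≤ κ * (1 + Real.pi / (1 / (4 * (1 + x)))) ^ 4 := by
    have := Dir4_int hp (by positivity : (0:ℝ) < 1 / (4 * (1 + x))) hb
    gcongr
  have b2 : (1 + Real.pi / (1 / (4 * (1 + x)))) ^ 4 ≤ (1 + 4 * Real.pi) ^ 4 * (1 + x) ^ 4 := by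
    rw [← mul_pow]
    apply pow_le_pow_left₀ (by positivity)
    have : Real.pi / (1 / (4 * (1 + x))) = 4 * Real.pi * (1 + x) := by field_simp
    rw [this]; nlinarith
  have b3 : ((i:ℝ) + 1) * (1 / 2) ≤ ∑ j ∈ Finset.range N, Dir p k (t j) ^ 4 := by
    calc ((i:ℝ) + 1) * (1 / 2) = ∑ j ∈ Finset.range (i + 1), (1 / 2 : ℝ) := by simp
      _ ≤ ∑ j ∈ Finset.range (i + 1), Dir p k (t j) ^ 4 := by
          refine Finset.sum_le_sum fun j hj => ?_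
          have hj' : j ≤ i := by rw [Finset.mem_range] at hj; omega
          have h1 : t j ≤ x := by rw [hx]; exact hmono j i hj' hi
          have h2 := (ht0 j).1
          have h3 : (k:ℝ) * (t j / p) ≤ 1 / 4 := by
            calc (k:ℝ) * (t j / p) ≤ ((p:ℝ) / (4 * (1 + x))) * (x / p) := by gcongr
              _ = (x / (1 + x)) / 4 := by field_simp
              _ ≤ 1 / 4 := by
                gcongr
                rw [div_le_one (by linarith)]; linarith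
          have h4 : 0 ≤ (k:ℝ) * (t j / p) := by positivity
          have h5 := Dir_ge p k (t j)
          have h6 : 31 / 32 ≤ Dir p k (t j) := by nlinarith
          have h7 : (31 / 32 : ℝ) ^ 4 ≤ Dir p k (t j) ^ 4 := pow_le_pow_left₀ (by norm_num) h6 4
          have h8 : (1 / 2 : ℝ) ≤ (31 / 32) ^ 4 := by norm_num
          linarith
      _ ≤ ∑ j ∈ Finset.range N, Dir p k (t j) ^ 4 := by
          apply Finset.sum_le_sum_of_subset_of_nonneg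
          · intro j hj; rw [Finset.mem_range] at hj ⊢; omega
          · intro j _ _; positivity
  have b4 : κ * (1 + Real.pi / (1 / (4 * (1 + x)))) ^ 4 ≤ κ * ((1 + 4 * Real.pi) ^ 4 * (1 + x) ^ 4) := by gcongr
  have : ((i:ℝ) + 1) * (1 / 2) ≤ κ * ((1 + 4 * Real.pi) ^ 4 * (1 + x) ^ 4) := by
    rw [e] at b3
    linarith
  linarith

lemma ww_sinc (p : ℕ) (hp : 0 < p) (t : ℝ) : ww p t = |t| * |Real.sinc (t / p)| := by
  have hpr : (0:ℝ) < p := by exact_mod_cast hp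
  unfold ww
  rw [← mul_sinc, abs_mul, abs_div, abs_of_pos hpr]
  field_simp

lemma Dir_sinc (p k : ℕ) (hp : 0 < p) (t : ℝ) :
    Dir p k t * Real.sinc (t / p / 2) = Real.sinc ((2 * k + 1) * (t / p / 2)) := by
  by_cases h : t = 0
  · rw [h]; simp [Dir_zero]
  · have hpr : (p:ℝ) ≠ 0 := by exact_mod_cast hp.ne'
    have h1 := Dir_sin p k t
    have h2 := mul_sinc (t / p / 2)
    have h3 := mul_sinc ((2 * k + 1) * (t / p / 2))
    have h4 : ((2 * k + 1) * (t / p / 2) : ℝ) ≠ 0 := by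
      have : (2 * (k:ℝ) + 1) ≠ 0 := by positivity
      positivity
    apply mul_left_cancel₀ h4
    rw [h3, ← h1, ← h2]; ring

/-- continuous convergence of the kernels -/
lemma kern_tendsto {P : ℕ → ℕ} (hP : Tendsto P atTop atTop) (hP0 : ∀ n, 0 < P n) {ε : ℝ} (hε : 0 < ε) {u : ℕ → ℝ} {y : ℝ}
    (hu : Tendsto u atTop (𝓝 y)) :
    Tendsto (fun n => Dir (P n) ⌊ε * P n⌋₊ (u n)) atTop (𝓝 (Real.sinc (ε * y))) := by
  have hPr : Tendsto (fun n => (P n : ℝ)) atTop atTop := tendsto_natCast_atTop_atTop.comp hP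
  have hinv : Tendsto (fun n => ((P n : ℝ))⁻¹) atTop (𝓝 0) := tendsto_inv_atTop_zero.comp hPr
  have hk : Tendsto (fun n => ((⌊ε * P n⌋₊ : ℕ) : ℝ) / P n) atTop (𝓝 ε) := by
    have := (tendsto_nat_floor_mul_div_atTop (R := ℝ) hε.le).comp hPr
    exact this
  have ha : Tendsto (fun n => (2 * ((⌊ε * P n⌋₊ : ℕ) : ℝ) + 1) * (u n / P n / 2)) atTop (𝓝 (ε * y)) := by
    have h1 : Tendsto (fun n => (((⌊ε * P n⌋₊ : ℕ) : ℝ) / P n) * u n + (u n * ((P n : ℝ))⁻¹) / 2) atTop (𝓝 (ε * y + (y * 0) / 2)) :=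
      (hk.mul hu).add ((hu.mul hinv).div_const 2)
    have h2 : ε * y + (y * 0) / 2 = ε * y := by ring
    rw [h2] at h1
    refine h1.congr fun n => ?_
    have : (P n : ℝ) ≠ 0 := by exact_mod_cast (hP0 n).ne'
    field_simp
    try ring
  have hb : Tendsto (fun n => u n / P n / 2) atTop (𝓝 0) := by
    have h1 : Tendsto (fun n => (u n * ((P n : ℝ))⁻¹) / 2) atTop (𝓝 ((y * 0) / 2)) := (hu.mul hinv).div_const 2
    simpa [div_eq_mul_inv] using h1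
  have hsa := (Real.continuous_sinc.tendsto (ε * y)).comp ha
  have hsb := (Real.continuous_sinc.tendsto 0).comp hb
  rw [Real.sinc_zero] at hsb
  have hq := hsa.div hsb one_ne_zero
  rw [div_one] at hq
  refine hq.congr' ?_
  have hne : ∀ᶠ n in atTop, (Real.sinc ∘ fun n => u n / P n / 2) n ≠ 0 := hsb.eventually_ne one_ne_zero
  filter_upwards [hne] with n hn
  simp only [Pi.div_apply]
  rw [div_eq_iff hn]
  exact (Dir_sinc (P n) ⌊ε * P n⌋₊ (hP0 n) (u n)).symm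

lemma cosk_tendsto {P : ℕ → ℕ} (hP : Tendsto P atTop atTop) (hP0 : ∀ n, 0 < P n) {ω : ℝ} (hω : 0 ≤ ω) {u : ℕ → ℝ} {y : ℝ}
    (hu : Tendsto u atTop (𝓝 y)) :
    Tendsto (fun n => Real.cos ((⌊ω * P n⌋₊ : ℕ) * (u n / P n))) atTop (𝓝 (Real.cos (ω * y))) := by
  have hPr : Tendsto (fun n => (P n : ℝ)) atTop atTop := tendsto_natCast_atTop_atTop.comp hP
  have hk : Tendsto (fun n => ((⌊ω * P n⌋₊ : ℕ) : ℝ) / P n) atTop (𝓝 ω) :=
    (tendsto_nat_floor_mul_div_atTop (R := ℝ) hω).comp hPr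
  have h1 := (Real.continuous_cos.tendsto _).comp (hk.mul hu)
  refine h1.congr fun n => ?_
  simp only [Function.comp]
  congr 1
  have : (P n : ℝ) ≠ 0 := by exact_mod_cast (hP0 n).ne'
  field_simp

lemma ww_tendsto {P : ℕ → ℕ} (hP : Tendsto P atTop atTop) (hP0 : ∀ n, 0 < P n) (t : ℝ) (ht : 0 ≤ t) :
    Tendsto (fun n => ww (P n) t) atTop (𝓝 t) := by
  have hPr : Tendsto (fun n => (P n : ℝ)) atTop atTop := tendsto_natCast_atTop_atTop.comp hP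
  have hinv : Tendsto (fun n => ((P n : ℝ))⁻¹) atTop (𝓝 0) := tendsto_inv_atTop_zero.comp hPr
  have hb : Tendsto (fun n => t / P n) atTop (𝓝 0) := by
    have := hinv.const_mul t
    simpa [div_eq_mul_inv] using this
  have h1 := ((Real.continuous_sinc.tendsto 0).comp hb).abs.const_mul |t|
  rw [Real.sinc_zero, abs_one, mul_one, abs_of_nonneg ht] at h1
  refine h1.congr fun n => ?_
  rw [ww_sinc (P n) (hP0 n), abs_of_nonneg ht]; rfl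

noncomputable def HH (p : ℕ) (ω ε t : ℝ) : ℝ := Real.cos ((⌊ω * p⌋₊ : ℕ) * (t / p)) * Dir p ⌊ε * p⌋₊ t ^ 8

lemma HH_pc {p : ℕ} {ω ε : ℝ} (hω : 0 ≤ ω) (hε : 0 < ε) (h : ω + 8 * ε ≤ 1) : PC p p (HH p ω ε) := by
  have h1 : PC p (⌊ω * p⌋₊ + 8 * ⌊ε * p⌋₊) (HH p ω ε) :=
    (PC.cos (p := p) ⌊ω * p⌋₊ le_rfl).mul ((Dir_pc p ⌊ε * p⌋₊).pow 8)
  apply h1.mono
  have hp0 : (0:ℝ) ≤ p := by positivity
  have h2 : ((⌊ω * p⌋₊ : ℕ) : ℝ) ≤ ω * p := Nat.floor_le (by positivity)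
  have h3 : ((⌊ε * p⌋₊ : ℕ) : ℝ) ≤ ε * p := Nat.floor_le (by positivity)
  have h4 : ((⌊ω * p⌋₊ + 8 * ⌊ε * p⌋₊ : ℕ) : ℝ) ≤ p := by
    push_cast
    nlinarith
  exact_mod_cast h4

lemma HH_cont (p : ℕ) (ω ε : ℝ) : Continuous (HH p ω ε) := by
  unfold HH
  have := Dir_cont p ⌊ε * p⌋₊
  fun_prop

lemma HH_bound {p : ℕ} (hp : 0 < p) {ω ε : ℝ} (hε : 0 < ε) {t : ℝ} (h0 : 0 ≤ t) (h1 : t ≤ Real.pi * p) :
    |HH p ω ε t| * (1 + t) ^ 8 ≤ (1 + Real.pi / ε) ^ 8 := by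
  have hk : ε * p ≤ 2 * ((⌊ε * p⌋₊ : ℕ):ℝ) + 1 := by
    have h2 := Nat.lt_floor_add_one (ε * (p:ℝ))
    have h3 : (0:ℝ) ≤ ((⌊ε * p⌋₊ : ℕ):ℝ) := by positivity
    linarith
  have h2 := Dir_pow_le hp hε hk h0 h1 8
  unfold HH
  rw [abs_mul, abs_pow]
  have h3 := Real.abs_cos_le_one ((⌊ω * p⌋₊ : ℕ) * (t / p))
  calc _ ≤ 1 * |Dir p ⌊ε * p⌋₊ t| ^ 8 * (1 + t) ^ 8 := by gcongr
    _ = |Dir p ⌊ε * p⌋₊ t| ^ 8 * (1 + t) ^ 8 := by ring
    _ ≤ _ := h2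

lemma HH_tendsto {P : ℕ → ℕ} (hP : Tendsto P atTop atTop) (hP0 : ∀ n, 0 < P n) {ω ε : ℝ} (hω : 0 ≤ ω) (hε : 0 < ε)
    {u : ℕ → ℝ} {y : ℝ} (hu : Tendsto u atTop (𝓝 y)) :
    Tendsto (fun n => HH (P n) ω ε (u n)) atTop (𝓝 (Real.cos (ω * y) * chi ε y)) := by
  unfold HH chi
  exact (cosk_tendsto hP hP0 hω hu).mul ((kern_tendsto hP hP0 hε hu).pow 8)

end Pool.Agent.Helper514.Cheb
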