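import Pool.Agent.Helper514.Cheb.Extract

set_option autoImplicit false

open MeasureTheory Set Filter Topology

namespace Pool.Agent.Helper514.Cheb

/-- the limit of the integrals -/
lemma int_tendsto {P : ℕ → ℕ} (hP : Tendsto P atTop atTop) (hP0 : ∀ n, 0 < P n) {ω ε : ℝ} (hω : 0 ≤ ω) (hε : 0 < ε) :
    Tendsto (fun n => ∫ s in (0:ℝ)..(Real.pi * P n), HH (P n) ω ε s * ww (P n) s) atTop
      (𝓝 (∫ t in Ioi (0:ℝ), Real.cos (ω * t) * chi ε t * t)) := by
  have hPr : Tendsto (fun n => (P n : ℝ)) atTop atTop := tendsto_natCast_atTop_atTop.comp hP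
  obtain ⟨A, hA⟩ : ∃ A : ℝ, A = (1 + Real.pi / ε) ^ 8 := ⟨_, rfl⟩
  have hA0 : 0 < A := by rw [hA]; have := Real.pi_pos; positivity
  have e : ∀ n, ∫ s in (0:ℝ)..(Real.pi * P n), HH (P n) ω ε s * ww (P n) s =
      ∫ s in Ioi (0:ℝ), (Ioc (0:ℝ) (Real.pi * P n)).indicator (fun s => HH (P n) ω ε s * ww (P n) s) s := by
    intro n
    rw [intervalIntegral.integral_of_le (by positivity), setIntegral_indicator measurableSet_Ioc]
    congr 2
    ext s; simp only [mem_inter_iff, mem_Ioi, mem_Ioc]; tauto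
  simp_rw [e]
  apply MeasureTheory.tendsto_integral_of_dominated_convergence (fun t => A * (1 + t ^ 2)⁻¹)
  · intro n
    apply AEStronglyMeasurable.indicator _ measurableSet_Ioc
    exact ((HH_cont _ _ _).mul (ww_continuous _)).aestronglyMeasurable
  · exact (integrable_inv_one_add_sq.const_mul _).integrableOn
  · intro n
    filter_upwards [ae_restrict_mem measurableSet_Ioi] with t ht
    have ht' : 0 ≤ t := le_of_lt ht
    by_cases h : t ∈ Ioc (0:ℝ) (Real.pi * P n)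
    · rw [indicator_of_mem h, norm_mul, Real.norm_eq_abs, Real.norm_eq_abs, abs_of_nonneg (ww_nonneg _ _)]
      have h1 := HH_bound (ω := ω) (hP0 n) hε ht' h.2
      rw [← hA] at h1
      have h2 := ww_le (P n) ht'
      have h3 : (0:ℝ) < 1 + t ^ 2 := by positivity
      rw [← div_eq_mul_inv, le_div_iff₀ h3]
      have h4 : t * (1 + t ^ 2) ≤ (1 + t) ^ 8 := by
        have h4 : t * (1 + t ^ 2) ≤ (1 + t) ^ 3 := by nlinarith [mul_nonneg ht' ht']
        have h5 : (1 + t) ^ 3 ≤ (1 + t) ^ 8 := pow_le_pow_right₀ (by linarith) (by norm_num)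
        linarith
      calc |HH (P n) ω ε t| * ww (P n) t * (1 + t ^ 2) ≤ |HH (P n) ω ε t| * t * (1 + t ^ 2) := by gcongr
        _ = |HH (P n) ω ε t| * (t * (1 + t ^ 2)) := by ring
        _ ≤ |HH (P n) ω ε t| * (1 + t) ^ 8 := by gcongr
        _ ≤ A := h1
    · rw [indicator_of_notMem h, norm_zero]; positivity
  · filter_upwards [ae_restrict_mem measurableSet_Ioi] with t ht
    have ht' : 0 ≤ t := le_of_lt ht
    have h1 := (HH_tendsto hP hP0 hω hε (tendsto_const_nhds (x := t))).mul (ww_tendsto hP hP0 t ht')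
    refine h1.congr' ?_
    have h2 : ∀ᶠ n in atTop, t ≤ (P n : ℝ) := hPr.eventually_ge_atTop t
    filter_upwards [h2] with n hn
    rw [indicator_of_mem]
    refine ⟨ht, ?_⟩
    have := Real.pi_gt_three
    have h3 : (0:ℝ) ≤ P n := by positivity
    nlinarith

theorem extract (κμ : ℝ) (P N : ℕ → ℕ) (hP : Tendsto P atTop atTop) (hP0 : ∀ n, 0 < P n)
    (hN : ∀ n, NS (P n) (N n))
    (hlim : Tendsto (fun n => (N n : ℝ) / (2 * (P n : ℝ) ^ 2)) atTop (𝓝 κμ)) :
    ∃ (v τ : ℕ → ℝ) (C : ℝ), 0 < C ∧ (∀ i, v i = 0 ∨ v i = 1) ∧ (∀ i, 0 ≤ τ i) ∧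
      (∀ i : ℕ, v i * ((i:ℝ) + 1) ≤ C * (1 + τ i) ^ 4) ∧
      ∀ ω ε : ℝ, 0 ≤ ω → 0 < ε → ω + 8 * ε ≤ 1 →
        ∑' i, v i * (Real.cos (ω * τ i) * chi ε (τ i)) = κμ * ∫ t in Ioi (0:ℝ), Real.cos (ω * t) * chi ε t * t := by
  -- bound for κ_n
  obtain ⟨K, hK⟩ : ∃ K : ℝ, ∀ n, (N n : ℝ) / (2 * (P n : ℝ) ^ 2) ≤ K := by
    obtain ⟨K, hK⟩ := hlim.bddAbove_range
    exact ⟨K, fun n => hK (mem_range_self n)⟩
  choose t ht0 htm hex using fun n => NS_exact (hP0 n) (hN n)
  have hκn : ∀ n, 0 < (N n : ℝ) / (2 * (P n : ℝ) ^ 2) := by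
    intro n
    have h1 : (0:ℝ) < N n := by exact_mod_cast (hN n).1
    have h2 : (0:ℝ) < P n := by exact_mod_cast hP0 n
    positivity
  have hK0 : 0 < K := (hκn 0).trans_le (hK 0)
  obtain ⟨C, hC⟩ : ∃ C : ℝ, C = 2 * K * (1 + 4 * Real.pi) ^ 4 := ⟨_, rfl⟩
  have hC0 : 0 < C := by rw [hC]; have := Real.pi_pos; positivity
  have hcount : ∀ n i, i < N n → (i:ℝ) + 1 ≤ C * (1 + t n i) ^ 4 := by
    intro n i hi
    have h1 := node_count (hP0 n) (ht0 n) (htm n) (hκn n) (hex n) i hi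
    have h2 : 2 * ((N n : ℝ) / (2 * (P n : ℝ) ^ 2)) * (1 + 4 * Real.pi) ^ 4 * (1 + t n i) ^ 4 ≤ C * (1 + t n i) ^ 4 := by
      rw [hC]
      have := hK n
      have h3 := (ht0 n i).1
      have := Real.pi_pos
      gcongr
    linarith
  -- compactification
  obtain ⟨s, hs⟩ : ∃ s : ℕ → ℕ → ℝ, s = fun n i => if i < N n then 1 / (1 + t n i) else 0 := ⟨_, rfl⟩
  have hs01 : ∀ n i, 0 ≤ s n i ∧ s n i ≤ 1 := by
    intro n i
    rw [hs]
    show 0 ≤ (if i < N n then 1 / (1 + t n i) else 0) ∧ (if i < N n then 1 / (1 + t n i) else 0) ≤ 1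
    have h3 := (ht0 n i).1
    split_ifs
    · constructor
      · positivity
      · rw [div_le_one (by linarith)]; linarith
    · exact ⟨le_rfl, zero_le_one⟩
  have hs4 : ∀ n i, s n i ^ 4 * ((i:ℝ) + 1) ≤ C := by
    intro n i
    rw [hs]
    show (if i < N n then 1 / (1 + t n i) else 0) ^ 4 * ((i:ℝ) + 1) ≤ C
    have h3 := (ht0 n i).1
    split_ifs with h
    · have h1 := hcount n i h
      rw [div_pow, one_pow, one_div_mul_eq_div, div_le_iff₀ (by positivity)]
      exact h1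
    · rw [zero_pow (by norm_num), zero_mul]; exact hC0.le
  obtain ⟨S, hSmem, ψ, hψ, hS⟩ := (isCompact_univ_pi (fun _ : ℕ => isCompact_Icc (a := (0:ℝ)) (b := 1))).tendsto_subseq
    (x := s) (fun n i _ => ⟨(hs01 n i).1, (hs01 n i).2⟩)
  rw [tendsto_pi_nhds] at hS
  have hS' : ∀ i, Tendsto (fun n => s (ψ n) i) atTop (𝓝 (S i)) := fun i => hS i
  have hS01 : ∀ i, 0 ≤ S i ∧ S i ≤ 1 := fun i => hSmem i (mem_univ i)
  have hS4 : ∀ i : ℕ, S i ^ 4 * ((i:ℝ) + 1) ≤ C := by
    intro i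
    exact le_of_tendsto (((hS' i).pow 4).mul_const _) (Eventually.of_forall fun n => hs4 (ψ n) i)
  -- the data
  obtain ⟨v, hv⟩ : ∃ v : ℕ → ℝ, v = fun i => if S i = 0 then 0 else 1 := ⟨_, rfl⟩
  obtain ⟨τ, hτ⟩ : ∃ τ : ℕ → ℝ, τ = fun i => if S i = 0 then 0 else 1 / S i - 1 := ⟨_, rfl⟩
  have hv0 : ∀ i, S i = 0 → v i = 0 := by intro i h; rw [hv]; simp [h]
  have hv1 : ∀ i, S i ≠ 0 → v i = 1 := by intro i h; rw [hv]; simp [h]
  have hτ1 : ∀ i, S i ≠ 0 → τ i = 1 / S i - 1 := by intro i h; rw [hτ]; simp [h]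
  refine ⟨v, τ, C, hC0, ?_, ?_, ?_, ?_⟩
  · intro i
    by_cases h : S i = 0
    · left; exact hv0 i h
    · right; exact hv1 i h
  · intro i
    by_cases h : S i = 0
    · rw [hτ]; simp [h]
    · rw [hτ1 i h]
      have h1 : 0 < S i := lt_of_le_of_ne (hS01 i).1 (Ne.symm h)
      have h2 : 1 ≤ 1 / S i := by rw [le_div_iff₀ h1]; linarith [(hS01 i).2]
      linarith
  · intro i
    by_cases h : S i = 0
    · rw [hv0 i h, zero_mul]
      have : 0 ≤ (1 + τ i) ^ 4 := by positivity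
      positivity
    · rw [hv1 i h, hτ1 i h, one_mul]
      have h1 : 0 < S i := lt_of_le_of_ne (hS01 i).1 (Ne.symm h)
      have h2 : (1 + (1 / S i - 1)) ^ 4 = 1 / S i ^ 4 := by
        rw [show 1 + (1 / S i - 1) = 1 / S i by ring, div_pow, one_pow]
      rw [h2, mul_one_div, le_div_iff₀ (by positivity)]
      have := hS4 i
      linarith
  · intro ω ε hω hε hωε
    obtain ⟨Q, hQ⟩ : ∃ Q : ℕ → ℕ, Q = fun n => P (ψ n) := ⟨_, rfl⟩
    have hQt : Tendsto Q atTop atTop := by rw [hQ]; exact hP.comp hψ.tendsto_atTop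
    have hQ0 : ∀ n, 0 < Q n := by intro n; rw [hQ]; exact hP0 _
    obtain ⟨A, hA⟩ : ∃ A : ℝ, A = (1 + Real.pi / ε) ^ 8 := ⟨_, rfl⟩
    have hA0 : 0 < A := by rw [hA]; have := Real.pi_pos; positivity
    obtain ⟨f, hf⟩ : ∃ f : ℕ → ℕ → ℝ, f = fun n i => if i < N (ψ n) then HH (Q n) ω ε (t (ψ n) i) else 0 := ⟨_, rfl⟩
    have hfb : ∀ n i, |f n i| ≤ A * s (ψ n) i ^ 8 := by
      intro n i
      rw [hf, hs]
      show |if i < N (ψ n) then HH (Q n) ω ε (t (ψ n) i) else 0| ≤ A * (if i < N (ψ n) then 1 / (1 + t (ψ n) i) else 0) ^ 8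
      split_ifs with h
      · have h1 := ht0 (ψ n) i
        have h2 : |HH (Q n) ω ε (t (ψ n) i)| * (1 + t (ψ n) i) ^ 8 ≤ A := by
          rw [hA]; apply HH_bound (hQ0 n) hε h1.1
          rw [hQ]; exact h1.2
        have h3 : 0 < (1 + t (ψ n) i) ^ 8 := by have := h1.1; positivity
        rw [div_pow, one_pow, mul_one_div, le_div_iff₀ h3]
        exact h2
      · simp
    have hsum1 : ∀ n, ∑' i, f n i = (N (ψ n) : ℝ) / (2 * (Q n : ℝ) ^ 2) *
        ∫ x in (0:ℝ)..(Real.pi * Q n), HH (Q n) ω ε x * ww (Q n) x := by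
      intro n
      have h1 := hex (ψ n) (HH (Q n) ω ε) (by
        have := HH_pc (p := Q n) hω hε hωε
        rw [hQ] at this ⊢
        exact this)
      rw [tsum_eq_sum (s := Finset.range (N (ψ n)))]
      · rw [hQ] at h1 ⊢
        rw [← h1]
        refine Finset.sum_congr rfl fun i hi => ?_
        rw [hf]
        show (if i < N (ψ n) then HH (Q n) ω ε (t (ψ n) i) else 0) = _
        rw [if_pos (Finset.mem_range.mp hi), hQ]
      · intro i hi
        rw [hf]
        show (if i < N (ψ n) then HH (Q n) ω ε (t (ψ n) i) else 0) = _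
        rw [if_neg (fun h => hi (Finset.mem_range.mpr h))]
    have hlim1 : Tendsto (fun n => ∑' i, f n i) atTop
        (𝓝 (κμ * ∫ t in Ioi (0:ℝ), Real.cos (ω * t) * chi ε t * t)) := by
      simp_rw [hsum1]
      have h1 : Tendsto (fun n => (N (ψ n) : ℝ) / (2 * (Q n : ℝ) ^ 2)) atTop (𝓝 κμ) := by
        rw [hQ]; exact hlim.comp hψ.tendsto_atTop
      exact h1.mul (int_tendsto hQt hQ0 hω hε)
    have hpt : ∀ i, Tendsto (fun n => f n i) atTop (𝓝 (v i * (Real.cos (ω * τ i) * chi ε (τ i)))) := by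
      intro i
      by_cases h : S i = 0
      · rw [hv0 i h, zero_mul]
        have h1 : Tendsto (fun n => A * s (ψ n) i ^ 8) atTop (𝓝 (A * 0 ^ 8)) := by
          have := (hS' i)
          rw [h] at this
          exact (this.pow 8).const_mul A
        have h2 : A * (0:ℝ) ^ 8 = 0 := by simp
        rw [h2] at h1
        exact squeeze_zero_norm (fun n => by rw [Real.norm_eq_abs]; exact hfb n i) h1
      · rw [hv1 i h, one_mul, hτ1 i h]
        have h1 : 0 < S i := lt_of_le_of_ne (hS01 i).1 (Ne.symm h)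
        have h2 : Tendsto (fun n => 1 / s (ψ n) i - 1) atTop (𝓝 (1 / S i - 1)) :=
          (tendsto_const_nhds.div (hS' i) h).sub_const 1
        have h3 := HH_tendsto hQt hQ0 hω hε h2
        refine h3.congr' ?_
        have h4 : ∀ᶠ n in atTop, 0 < s (ψ n) i := (tendsto_order.1 (hS' i)).1 0 h1
        filter_upwards [h4] with n hn
        have h5 : i < N (ψ n) := by
          by_contra hcon
          have : s (ψ n) i = 0 := by rw [hs]; show (if i < N (ψ n) then 1 / (1 + t (ψ n) i) else 0) = 0; rw [if_neg hcon]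
          linarith
        have h6 : s (ψ n) i = 1 / (1 + t (ψ n) i) := by
          rw [hs]; show (if i < N (ψ n) then 1 / (1 + t (ψ n) i) else 0) = _; rw [if_pos h5]
        have h7 : 1 / s (ψ n) i - 1 = t (ψ n) i := by
          rw [h6]
          have := (ht0 (ψ n) i).1
          have h8 : (1 + t (ψ n) i) ≠ 0 := by positivity
          field_simp
          ring
        rw [h7, hf]
        show _ = (if i < N (ψ n) then HH (Q n) ω ε (t (ψ n) i) else 0)
        rw [if_pos h5]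
    have hsumm : Summable (fun i : ℕ => A * (C / ((i:ℝ) + 1)) ^ 2) := by
      have h1 : Summable (fun i : ℕ => 1 / ((i:ℝ) + 1) ^ 2) := by
        have h2 := (summable_nat_add_iff (f := fun n : ℕ => 1 / (n:ℝ) ^ 2) 1).mpr
          (Real.summable_one_div_nat_pow.mpr (by norm_num))
        refine h2.congr fun i => ?_
        push_cast; rfl
      refine (h1.mul_left (A * C ^ 2)).congr fun i => ?_
      rw [div_pow]; ring
    have hlim2 : Tendsto (fun n => ∑' i, f n i) atTop (𝓝 (∑' i, v i * (Real.cos (ω * τ i) * chi ε (τ i)))) := by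
      apply tendsto_tsum_of_dominated_convergence hsumm hpt
      refine Eventually.of_forall fun n i => ?_
      rw [Real.norm_eq_abs]
      refine (hfb n i).trans ?_
      have h1 := hs4 (ψ n) i
      have h2 : s (ψ n) i ^ 4 ≤ C / ((i:ℝ) + 1) := by rw [le_div_iff₀ (by positivity)]; exact h1
      have h3 : s (ψ n) i ^ 8 = (s (ψ n) i ^ 4) ^ 2 := by ring
      rw [h3]
      have h4 : 0 ≤ s (ψ n) i ^ 4 := by positivity
      gcongr
    exact tendsto_nhds_unique hlim2 hlim1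

end Pool.Agent.Helper514.Cheb
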