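import Pool.Agent.Helper514.Cheb.Base4

set_option autoImplicit false

open MeasureTheory Set Filter Topology

namespace Pool.Agent.Helper514.Cheb

/-- least number of nodes -/
noncomputable def nn (p : ℕ) : ℕ := sInf {N : ℕ | NS p N}

lemma nn_facts : ∃ c C : ℝ, 0 < c ∧ 0 < C ∧ ∃ p₀ : ℕ, ∀ p : ℕ, p₀ ≤ p → 0 < p ∧ NS p (nn p) ∧
    c * (p:ℝ) ^ 2 ≤ nn p ∧ (nn p : ℝ) ≤ C * (p:ℝ) ^ 2 := by
  obtain ⟨C, hC, p₀, hU⟩ := upper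
  obtain ⟨c, hc, p₁, hL⟩ := lower
  refine ⟨c, C, hc, hC, max (max p₀ p₁) 1, fun p hp => ?_⟩
  have h0 : p₀ ≤ p := ((le_max_left _ _).trans (le_max_left _ _)).trans hp
  have h1 : p₁ ≤ p := ((le_max_right _ _).trans (le_max_left _ _)).trans hp
  have h2 : 0 < p := (le_max_right (max p₀ p₁) 1).trans hp
  obtain ⟨N, hN, hN2⟩ := hU p h0
  have hmem : NS p (nn p) := Nat.sInf_mem (s := {N : ℕ | NS p N}) ⟨N, hN⟩
  refine ⟨h2, hmem, hL p h1 _ hmem, ?_⟩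
  have h3 : nn p ≤ N := Nat.sInf_le hN
  have h4 : (nn p : ℝ) ≤ N := by exact_mod_cast h3
  exact h4.trans hN2

theorem step {φ : ℕ → ℕ} (hφ : Tendsto φ atTop atTop) {ℓ : ℝ} (hℓ : 0 < ℓ)
    (hlim : Tendsto (fun n => (nn (φ n) : ℝ) / ((φ n : ℕ) : ℝ) ^ 2) atTop (𝓝 ℓ)) {δ : ℝ} (hδ0 : 0 < δ) (hδ1 : δ ≤ 1) :
    ∀ᶠ p : ℕ in atTop, (nn p : ℝ) ≤ (1 + 2 * δ) ^ 2 * ℓ * (p:ℝ) ^ 2 + 2 := by
  obtain ⟨c, C₁, hc, hC₁, p₀, hfacts⟩ := nn_facts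
  obtain ⟨n₀, hn₀⟩ := eventually_atTop.mp (hφ.eventually_ge_atTop p₀)
  have hshift : Tendsto (fun n : ℕ => n + n₀) atTop atTop := tendsto_add_atTop_nat n₀
  have hP : Tendsto (fun n => φ (n + n₀)) atTop atTop := hφ.comp hshift
  have hPf : ∀ n, 0 < φ (n + n₀) ∧ NS (φ (n + n₀)) (nn (φ (n + n₀))) := by
    intro n
    have := hfacts (φ (n + n₀)) (hn₀ (n + n₀) (Nat.le_add_left _ _))
    exact ⟨this.1, this.2.1⟩
  have hlim' : Tendsto (fun n => (nn (φ (n + n₀)) : ℝ) / (2 * ((φ (n + n₀) : ℕ) : ℝ) ^ 2)) atTop (𝓝 (ℓ / 2)) := by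
    have h1 := (hlim.comp hshift).div_const 2
    refine h1.congr fun n => ?_
    simp only [Function.comp]
    rw [div_div, mul_comm]
  obtain ⟨v, τ, C, hC, hv, hτ, hcnt, hex⟩ := extract (ℓ / 2) (fun n => φ (n + n₀)) (fun n => nn (φ (n + n₀))) hP
    (fun n => (hPf n).1) (fun n => (hPf n).2) hlim'
  have hLim := Lim_scale (by positivity : 0 < ℓ / 2) hC (by linarith : (1:ℝ) ≤ 1 + 2 * δ) hv hτ hcnt hex
  have hκ' := hLim.hκ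
  obtain ⟨Y, hY, η, hη0, hη1, q₀, hMM⟩ := MM δ ((1 + 2 * δ) ^ 2 * (ℓ / 2)) hδ0 hδ1 hκ'
  obtain ⟨q₁, hbase⟩ := base hLim hδ0 hδ1 hY hη0 hη1
  filter_upwards [eventually_ge_atTop q₀, eventually_ge_atTop q₁] with p hp0 hp1
  obtain ⟨M, κ, x, hM, hM0, hκ, hx⟩ := hbase p hp1
  obtain ⟨z, hz⟩ := hMM p hp0 M κ x hx hκ
  have hNS : NS p (2 * M) := NS_of_z hM0 hz
  have h1 : nn p ≤ 2 * M := Nat.sInf_le hNS
  have h2 : (nn p : ℝ) ≤ 2 * M := by exact_mod_cast h1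
  have h3 : (M : ℝ) ≤ (1 + 2 * δ) ^ 2 * (ℓ / 2) * (p:ℝ) ^ 2 + 1 := by
    rw [hM]; exact (Nat.ceil_lt_add_one (by positivity)).le
  linarith

theorem main : ∃ c : ℝ, 0 < c ∧ Tendsto (fun p : ℕ => (nn p : ℝ) / (p : ℝ) ^ 2) atTop (𝓝 c) := by
  obtain ⟨c, C, hc, hC, p₀, hfacts⟩ := nn_facts
  obtain ⟨a, ha⟩ : ∃ a : ℕ → ℝ, a = fun p : ℕ => (nn p : ℝ) / (p : ℝ) ^ 2 := ⟨_, rfl⟩
  have hlow : ∀ᶠ p in atTop, c ≤ a p := by
    filter_upwards [eventually_ge_atTop p₀] with p hp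
    obtain ⟨h1, -, h3, h4⟩ := hfacts p hp
    have hpr : (0:ℝ) < p := by exact_mod_cast h1
    rw [ha]
    show c ≤ (nn p : ℝ) / (p : ℝ) ^ 2
    rw [le_div_iff₀ (by positivity)]; exact h3
  have hup : ∀ᶠ p in atTop, a p ≤ C := by
    filter_upwards [eventually_ge_atTop p₀] with p hp
    obtain ⟨h1, -, h3, h4⟩ := hfacts p hp
    have hpr : (0:ℝ) < p := by exact_mod_cast h1
    rw [ha]
    show (nn p : ℝ) / (p : ℝ) ^ 2 ≤ C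
    rw [div_le_iff₀ (by positivity)]; exact h4
  have hb1 : IsBoundedUnder (· ≥ ·) atTop a := ⟨c, by simpa using hlow⟩
  have hb2 : IsBoundedUnder (· ≤ ·) atTop a := ⟨C, by simpa using hup⟩
  have hcb : IsCoboundedUnder (· ≥ ·) atTop a := hb2.isCoboundedUnder_ge
  obtain ⟨ℓ, hℓdef⟩ : ∃ ℓ : ℝ, ℓ = liminf a atTop := ⟨_, rfl⟩
  have hℓc : c ≤ ℓ := by
    rw [hℓdef]
    exact le_liminf_of_le hcb hlow
  have hℓ0 : 0 < ℓ := by linarith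
  have hlo : ∀ b, b < ℓ → ∀ᶠ p in atTop, b < a p := by
    intro b hb
    rw [hℓdef] at hb
    exact eventually_lt_of_lt_liminf hb hb1
  have hfr : ∀ b, ℓ < b → ∃ᶠ p in atTop, a p < b := by
    intro b hb
    rw [hℓdef] at hb
    exact frequently_lt_of_liminf_lt hcb hb
  -- a subsequence
  have hsub : ∀ n : ℕ, ∃ᶠ k in atTop, |a k - ℓ| < 1 / ((n:ℝ) + 1) := by
    intro n
    have hpos : (0:ℝ) < 1 / ((n:ℝ) + 1) := by positivity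
    have h1 := hfr (ℓ + 1 / ((n:ℝ) + 1)) (by linarith)
    have h2 := hlo (ℓ - 1 / ((n:ℝ) + 1)) (by linarith)
    refine (h1.and_eventually h2).mono fun k hk => ?_
    rw [abs_lt]; constructor <;> linarith [hk.1, hk.2]
  obtain ⟨φ, hφ, hφ2⟩ := extraction_forall_of_frequently hsub
  have hlim : Tendsto (fun n => (nn (φ n) : ℝ) / ((φ n : ℕ) : ℝ) ^ 2) atTop (𝓝 ℓ) := by
    have h1 : Tendsto (fun n => a (φ n)) atTop (𝓝 ℓ) := by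
      rw [tendsto_iff_norm_sub_tendsto_zero]
      refine squeeze_zero (fun n => norm_nonneg _) (fun n => ?_) (tendsto_one_div_add_atTop_nhds_zero_nat (𝕜 := ℝ))
      rw [Real.norm_eq_abs]; exact (hφ2 n).le
    rw [ha] at h1
    exact h1
  refine ⟨ℓ, hℓ0, ?_⟩
  rw [← ha, tendsto_order]
  refine ⟨hlo, fun b hb => ?_⟩
  obtain ⟨ε', hε'⟩ : ∃ e : ℝ, e = b - ℓ := ⟨_, rfl⟩
  have hε0 : 0 < ε' := by linarith
  obtain ⟨δ, hδ⟩ : ∃ d : ℝ, d = min 1 (ε' / (32 * ℓ)) := ⟨_, rfl⟩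
  have hδ0 : 0 < δ := by rw [hδ]; positivity
  have hδ1 : δ ≤ 1 := by rw [hδ]; exact min_le_left _ _
  have hδ2 : δ ≤ ε' / (32 * ℓ) := by rw [hδ]; exact min_le_right _ _
  have hδ3 : (1 + 2 * δ) ^ 2 * ℓ ≤ ℓ + ε' / 4 := by
    have h1 : δ * (32 * ℓ) ≤ ε' := by rwa [le_div_iff₀ (by positivity)] at hδ2
    have h2 : (1 + 2 * δ) ^ 2 ≤ 1 + 8 * δ := by nlinarith
    calc (1 + 2 * δ) ^ 2 * ℓ ≤ (1 + 8 * δ) * ℓ := by gcongr
      _ ≤ _ := by linarith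
  have hcast : Tendsto (fun p : ℕ => (p:ℝ)) atTop atTop := tendsto_natCast_atTop_atTop
  filter_upwards [step hφ.tendsto_atTop hℓ0 hlim hδ0 hδ1, hcast.eventually_ge_atTop 1,
    hcast.eventually_ge_atTop (4 / ε')] with p h1 h2 h3
  have hpr : (0:ℝ) < p := by linarith
  have hpp : (p:ℝ) ≤ (p:ℝ) ^ 2 := by nlinarith
  rw [ha]
  show (nn p : ℝ) / (p : ℝ) ^ 2 < b
  rw [div_lt_iff₀ (by positivity)]
  rw [div_le_iff₀ hε0] at h3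
  have h4 : 4 ≤ ε' * (p:ℝ) ^ 2 := by nlinarith
  have h5 : (1 + 2 * δ) ^ 2 * ℓ * (p:ℝ) ^ 2 ≤ (ℓ + ε' / 4) * (p:ℝ) ^ 2 := by gcongr
  have h6 : b = ℓ + ε' := by linarith
  rw [h6]
  nlinarith

end Pool.Agent.Helper514.Cheb
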