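import Pool.Agent.Helper514.Cheb.Kern

set_option autoImplicit false

open Filter Topology Complex Bornology

namespace Pool.Agent.Helper514.Cheb

lemma log_le_two_sqrt {x : ℝ} (hx : 0 < x) : Real.log x ≤ 2 * Real.sqrt x := by
  have h1 : Real.log x = 2 * Real.log (Real.sqrt x) := by
    rw [Real.log_sqrt hx.le]; ring
  rw [h1]
  have := Real.log_le_sub_one_of_pos (Real.sqrt_pos.2 hx)
  linarith

lemma abs_arg_le {z : ℂ} (hz : 0 < z.re) : |arg z| ≤ |z.im| / z.re := by
  have h1 : |arg z| < Real.pi / 2 := Complex.abs_arg_lt_pi_div_two_iff.2 (Or.inl hz)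
  have h2 : |arg z| ≤ Real.tan |arg z| := Real.le_tan (abs_nonneg _) h1
  have h3 : Real.tan |arg z| = |Real.tan (arg z)| := by
    rcases le_total 0 (arg z) with h | h
    · rw [abs_of_nonneg h, abs_of_nonneg]
      rw [abs_of_nonneg h] at h1 h2
      linarith
    · rw [abs_of_nonpos h, Real.tan_neg, abs_of_nonpos]
      rw [abs_of_nonpos h, Real.tan_neg] at h2
      linarith
  rw [h3, Complex.tan_arg, abs_div, abs_of_pos hz] at h2
  exact h2

lemma norm_add_e_ge {w : ℂ} (hw : 0 ≤ w.re) : Real.exp 1 ≤ ‖w + (Real.exp 1 : ℝ)‖ := by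
  have h1 : (w + (Real.exp 1 : ℝ)).re ≤ ‖w + (Real.exp 1 : ℝ)‖ := Complex.re_le_norm _
  simp only [add_re, ofReal_re] at h1
  linarith

lemma one_le_re_log {w : ℂ} (hw : 0 ≤ w.re) : 1 ≤ (log (w + (Real.exp 1 : ℝ))).re := by
  rw [Complex.log_re]
  rw [Real.le_log_iff_exp_le (lt_of_lt_of_le (Real.exp_pos 1) (norm_add_e_ge hw))]
  exact norm_add_e_ge hw

theorem uniq (σ M ε C : ℝ) (hσ : 0 ≤ σ) (hε : 0 < ε) (F : ℂ → ℂ) (hd : Differentiable ℂ F)
    (hb : ∀ z, ‖F z‖ ≤ M * Real.exp (σ * |z.im|))
    (hdec : ∀ x : ℝ, ‖F x‖ ≤ C * Real.exp (-(ε * |x| / LL |x|))) : ∀ x : ℝ, F x = 0 := by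
  have hM : 0 ≤ M := by
    have := (norm_nonneg _).trans (hb 0)
    simpa using this
  have hC : 0 ≤ C := by
    have := (norm_nonneg _).trans (hdec 0)
    simpa using this
  set c : ℝ := ε / 3 with hc
  have hc0 : 0 < c := by positivity
  set q : ℂ → ℂ := fun w => log (log (w + (Real.exp 1 : ℝ))) with hq
  set h : ℂ → ℂ := fun w => F (I * w) * exp (-(c * w * q w)) with hh
  have hqd : ∀ w : ℂ, 0 ≤ w.re → DifferentiableAt ℂ q w := by
    intro w hw
    have h1 : w + (Real.exp 1 : ℝ) ∈ slitPlane := by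
      left
      simp only [add_re, ofReal_re]
      have := Real.exp_pos 1
      linarith
    have h2 : log (w + (Real.exp 1 : ℝ)) ∈ slitPlane := by
      left
      have := one_le_re_log hw
      linarith
    exact ((differentiableAt_id.add_const _).clog h1).clog h2
  have hqn : ∀ w : ℂ, 0 ≤ w.re → 1 ≤ ‖w‖ → ‖q w‖ ≤ 10 * ‖w‖ ^ (1/2 : ℝ) := by
    intro w hw hw1
    have h1 : 1 ≤ ‖log (w + (Real.exp 1 : ℝ))‖ := (one_le_re_log hw).trans (Complex.re_le_norm _)
    have h2 : ‖log (w + (Real.exp 1 : ℝ))‖ ≤ ‖w‖ + 6 := by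
      refine (Complex.norm_le_abs_re_add_abs_im _).trans ?_
      have h3 : |(log (w + (Real.exp 1 : ℝ))).im| ≤ Real.pi / 2 := by
        rw [Complex.log_im]
        exact (Complex.abs_arg_le_pi_div_two_iff).2 (by
          simp only [add_re, ofReal_re]; have := Real.exp_pos 1; linarith)
      have h4 := one_le_re_log hw
      rw [abs_of_nonneg (by linarith), Complex.log_re]
      have h5 := Real.log_le_sub_one_of_pos (lt_of_lt_of_le (Real.exp_pos 1) (norm_add_e_ge hw))
      have h6 : ‖w + (Real.exp 1 : ℝ)‖ ≤ ‖w‖ + Real.exp 1 := by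
        refine (norm_add_le _ _).trans ?_
        rw [Complex.norm_real, Real.norm_of_nonneg (Real.exp_pos 1).le]
      have h7 := Real.exp_one_lt_d9
      have h8 := Real.pi_lt_d2
      linarith
    have h3 : ‖q w‖ ≤ |Real.log ‖log (w + (Real.exp 1 : ℝ))‖| + Real.pi := by
      refine (Complex.norm_le_abs_re_add_abs_im _).trans ?_
      rw [hq]
      simp only [Complex.log_re, Complex.log_im]
      gcongr
      exact Complex.abs_arg_le_pi _
    rw [abs_of_nonneg (Real.log_nonneg h1)] at h3
    have h4 : Real.log ‖log (w + (Real.exp 1 : ℝ))‖ ≤ 2 * Real.sqrt (7 * ‖w‖) := by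
      refine (Real.log_le_log (by linarith) h2).trans ?_
      refine (Real.log_le_log (by positivity) (by linarith : ‖w‖ + 6 ≤ 7 * ‖w‖)).trans ?_
      exact log_le_two_sqrt (by linarith)
    rw [Real.sqrt_mul (by norm_num)] at h4
    have h5 : Real.sqrt 7 ≤ 3 := by
      rw [Real.sqrt_le_left (by norm_num)]; norm_num
    have h6 : 1 ≤ Real.sqrt ‖w‖ := by
      rw [Real.one_le_sqrt]; exact hw1
    rw [← Real.sqrt_eq_rpow]
    have h8 := Real.pi_lt_d2
    nlinarith
  have key : Set.EqOn h 0 {z : ℂ | 0 ≤ z.re} := by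
    apply PhragmenLindelof.eq_zero_on_right_half_plane_of_superexponential_decay
    · apply DifferentiableOn.diffContOnCl
      intro w hw
      have hw' : 0 ≤ w.re := by
        have : closure {z : ℂ | 0 < z.re} ⊆ {z : ℂ | 0 ≤ z.re} :=
          closure_minimal (fun z (hz : 0 < z.re) => (le_of_lt hz : 0 ≤ z.re)) (isClosed_le continuous_const continuous_re)
        exact this hw
      apply DifferentiableAt.differentiableWithinAt
      have h1 : DifferentiableAt ℂ (fun w => F (I * w)) w :=
        (hd _).comp w (differentiableAt_id.const_mul I)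
      have h2 := hqd w hw'
      have h3 : DifferentiableAt ℂ (fun w => exp (-(c * w * q w))) w :=
        (((differentiableAt_id.const_mul (c : ℂ)).mul h2).neg).cexp
      exact h1.mul h3
    · refine ⟨3/2, by norm_num, σ + 10 * c, ?_⟩
      apply Asymptotics.IsBigO.of_bound M
      have hev : ∀ᶠ z : ℂ in cobounded ℂ ⊓ 𝓟 {z | 0 < z.re}, 1 ≤ ‖z‖ ∧ 0 < z.re := by
        rw [eventually_inf_principal]
        have := (tendsto_norm_cobounded_atTop (E := ℂ)).eventually_ge_atTop 1
        filter_upwards [this] with z hz hz2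
        exact ⟨hz, hz2⟩
      filter_upwards [hev] with w hw
      obtain ⟨hw1, hw2⟩ := hw
      rw [Real.norm_of_nonneg (Real.exp_pos _).le]
      show ‖F (I * w) * exp (-(c * w * q w))‖ ≤ _
      rw [norm_mul, Complex.norm_exp]
      have h1 := hb (I * w)
      have h2 : |(I * w).im| ≤ ‖w‖ := by
        simp only [mul_im, I_re, I_im, zero_mul, one_mul, zero_add]
        exact Complex.abs_re_le_norm w
      have h3 : (-(c * w * q w)).re ≤ c * ‖w‖ * ‖q w‖ := by
        refine (Complex.re_le_norm _).trans ?_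
        rw [norm_neg, norm_mul, norm_mul, Complex.norm_real, Real.norm_of_nonneg hc0.le]
      have h4 := hqn w hw2.le hw1
      have h5 : ‖w‖ * ‖w‖ ^ (1/2 : ℝ) = ‖w‖ ^ (3/2 : ℝ) := by
        have h6 : ‖w‖ * ‖w‖ ^ (1/2 : ℝ) = ‖w‖ ^ (1 : ℝ) * ‖w‖ ^ (1/2 : ℝ) := by rw [Real.rpow_one]
        rw [h6, ← Real.rpow_add (by linarith)]; norm_num
      have h7 : ‖w‖ ≤ ‖w‖ ^ (3/2 : ℝ) := by
        have := Real.rpow_le_rpow_of_exponent_le hw1 (by norm_num : (1:ℝ) ≤ 3/2)
        rwa [Real.rpow_one] at this
      calc ‖F (I * w)‖ * Real.exp (-(c * w * q w)).re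
          ≤ (M * Real.exp (σ * ‖w‖)) * Real.exp (c * ‖w‖ * ‖q w‖) := by
            gcongr
            refine h1.trans ?_
            gcongr
        _ = M * Real.exp (σ * ‖w‖ + c * ‖w‖ * ‖q w‖) := by rw [Real.exp_add]; ring
        _ ≤ M * Real.exp ((σ + 10 * c) * ‖w‖ ^ (3/2 : ℝ)) := by
            gcongr
            have h8 : c * ‖w‖ * ‖q w‖ ≤ 10 * c * ‖w‖ ^ (3/2 : ℝ) := by
              rw [← h5]
              calc c * ‖w‖ * ‖q w‖ ≤ c * ‖w‖ * (10 * ‖w‖ ^ (1/2 : ℝ)) := by gcongr
                _ = _ := by ring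
            nlinarith [mul_le_mul_of_nonneg_left h7 hσ]
    · intro n
      have hlim : Tendsto (fun x : ℝ => c * Real.log (Real.log (x + Real.exp 1)) - σ - n) atTop atTop := by
        have h1 : Tendsto (fun x : ℝ => Real.log (Real.log (x + Real.exp 1))) atTop atTop :=
          Real.tendsto_log_atTop.comp (Real.tendsto_log_atTop.comp (tendsto_atTop_add_const_right _ _ tendsto_id))
        have h2 := h1.const_mul_atTop hc0
        have h3 := tendsto_atTop_add_const_right _ (-(σ + n)) h2
        refine h3.congr fun x => by ring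
      have hbd : ∀ᶠ x : ℝ in atTop, Real.exp x ^ n * ‖h x‖ ≤ M * Real.exp (-x) := by
        filter_upwards [hlim.eventually_ge_atTop 1, eventually_ge_atTop (0:ℝ)] with x hx hx0
        show Real.exp x ^ n * ‖F (I * x) * exp (-(c * x * q x))‖ ≤ _
        have he : q x = ((Real.log (Real.log (x + Real.exp 1)) : ℝ) : ℂ) := by
          have h1 : 1 ≤ Real.log (x + Real.exp 1) := by
            rw [Real.le_log_iff_exp_le (by have := Real.exp_pos 1; linarith)]; linarith
          rw [hq]
          simp only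
          rw [Complex.ofReal_log (by linarith), Complex.ofReal_log (by have := Real.exp_pos 1; linarith)]
          push_cast; rfl
        rw [he, norm_mul, Complex.norm_exp]
        have h1 := hb (I * x)
        have h2 : |(I * (x : ℂ)).im| = x := by
          simp [abs_of_nonneg hx0]
        rw [h2] at h1
        have h3 : (-((c : ℂ) * x * ((Real.log (Real.log (x + Real.exp 1)) : ℝ) : ℂ))).re =
            -(c * x * Real.log (Real.log (x + Real.exp 1))) := by
          have : (-((c : ℂ) * x * ((Real.log (Real.log (x + Real.exp 1)) : ℝ) : ℂ))) =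
            ((-(c * x * Real.log (Real.log (x + Real.exp 1))) : ℝ) : ℂ) := by push_cast; ring
          rw [this, Complex.ofReal_re]
        rw [h3, ← Real.exp_nat_mul]
        calc Real.exp (n * x) * (‖F (I * x)‖ * Real.exp (-(c * x * Real.log (Real.log (x + Real.exp 1)))))
            ≤ Real.exp (n * x) * ((M * Real.exp (σ * x)) * Real.exp (-(c * x * Real.log (Real.log (x + Real.exp 1))))) := by
              gcongr
          _ = M * Real.exp (n * x + σ * x + -(c * x * Real.log (Real.log (x + Real.exp 1)))) := by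
              rw [Real.exp_add, Real.exp_add]; ring
          _ ≤ M * Real.exp (-x) := by
              gcongr
              nlinarith
      refine squeeze_zero' (Eventually.of_forall fun x => by positivity) hbd ?_
      have := (Real.tendsto_exp_neg_atTop_nhds_zero).const_mul M
      simpa using this
    · refine ⟨C, fun x => ?_⟩
      show ‖F (I * (x * I)) * exp (-(c * (x * I) * q (x * I)))‖ ≤ C
      have e1 : I * (x * I) = ((-x : ℝ) : ℂ) := by
        have : I * (x * I) = x * (I * I) := by ring
        rw [this, I_mul_I]; push_cast; ring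
      rw [e1, norm_mul, Complex.norm_exp]
      have h1 := hdec (-x)
      rw [abs_neg] at h1
      have h2 : (-((c : ℂ) * (x * I) * q (x * I))).re = c * x * (q (x * I)).im := by
        simp [mul_re, mul_im]
      rw [h2]
      have hw0 : 0 ≤ ((x : ℂ) * I).re := by simp
      set L := log ((x : ℂ) * I + (Real.exp 1 : ℝ)) with hL
      have hL1 : 1 ≤ L.re := one_le_re_log hw0
      have h3 : (q (x * I)).im = arg L := by rw [hq]; simp only [Complex.log_im, hL]
      have h4 : |arg L| ≤ (Real.pi / 2) / L.re := by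
        refine (abs_arg_le (by linarith)).trans ?_
        gcongr
        rw [hL, Complex.log_im]
        exact (Complex.abs_arg_le_pi_div_two_iff).2 (by
          simp only [add_re, ofReal_re]
          have := Real.exp_pos 1
          linarith)
      have h5 : LL |x| ≤ 1.35 * L.re := by
        have h6 : L.re = Real.log ‖(x : ℂ) * I + (Real.exp 1 : ℝ)‖ := by rw [hL, Complex.log_re]
        have h7 : ‖(x : ℂ) * I + (Real.exp 1 : ℝ)‖ ^ 2 = x ^ 2 + Real.exp 1 ^ 2 := by
          rw [← Complex.normSq_eq_norm_sq, Complex.normSq_apply]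
          have e1 : ((x : ℂ) * I + (Real.exp 1 : ℝ)).re = Real.exp 1 := by
            rw [add_re, ofReal_re, mul_re, I_re, I_im, ofReal_re, ofReal_im]; ring
          have e2 : ((x : ℂ) * I + (Real.exp 1 : ℝ)).im = x := by
            rw [add_im, ofReal_im, mul_im, I_re, I_im, ofReal_re, ofReal_im]; ring
          rw [e1, e2]; ring
        have h8 : (Real.exp 1 + |x|) ^ 2 ≤ 2 * ‖(x : ℂ) * I + (Real.exp 1 : ℝ)‖ ^ 2 := by
          rw [h7, ← sq_abs x]; nlinarith [sq_nonneg (Real.exp 1 - |x|)]
        have hpos : 0 < Real.exp 1 + |x| := by positivity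
        have hpos2 : 0 < ‖(x : ℂ) * I + (Real.exp 1 : ℝ)‖ := lt_of_lt_of_le (Real.exp_pos 1) (norm_add_e_ge hw0)
        have h9 := Real.log_le_log (by positivity) h8
        rw [Real.log_pow, Real.log_mul (by norm_num) (by positivity), Real.log_pow] at h9
        have h10 := Real.log_two_lt_d9
        rw [LL, h6]
        rw [h6] at hL1
        have h11 : (((2 : ℕ) : ℝ)) = 2 := by norm_num
        rw [h11] at h9
        generalize Real.log ‖(x : ℂ) * I + (Real.exp 1 : ℝ)‖ = A at h9 hL1 ⊢
        linarith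
      have hLL := one_le_LL (abs_nonneg x)
      have h6 : c * x * (q (x * I)).im ≤ ε * |x| / LL |x| := by
        rw [h3]
        calc c * x * arg L ≤ c * |x| * |arg L| := by
              have : x * arg L ≤ |x| * |arg L| := by rw [← abs_mul]; exact le_abs_self _
              nlinarith
          _ ≤ c * |x| * ((Real.pi / 2) / L.re) := by gcongr
          _ ≤ ε * |x| / LL |x| := by
              rw [mul_div_assoc', div_le_div_iff₀ (by linarith) (by linarith)]
              have hpi := Real.pi_lt_d2
              have h7 : Real.pi / 2 * LL |x| ≤ 3 * L.re := by nlinarith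
              calc c * |x| * (Real.pi / 2) * LL |x| = (c * |x|) * (Real.pi / 2 * LL |x|) := by ring
                _ ≤ (c * |x|) * (3 * L.re) := by gcongr
                _ = ε * |x| * L.re := by rw [hc]; ring
      calc ‖F ((-x : ℝ) : ℂ)‖ * Real.exp (c * x * (q (x * I)).im)
          ≤ (C * Real.exp (-(ε * |x| / LL |x|))) * Real.exp (ε * |x| / LL |x|) := by
            gcongr
        _ = C := by rw [mul_assoc, ← Real.exp_add]; simp
  intro x
  have h1 := key (show (-(I * x)) ∈ {z : ℂ | 0 ≤ z.re} by simp)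
  simp only [Pi.zero_apply] at h1
  have h2 : F (I * -(I * x)) * exp (-(c * -(I * x) * q (-(I * x)))) = 0 := h1
  have h3 := (mul_eq_zero.1 h2).resolve_right (Complex.exp_ne_zero _)
  have h4 : I * -(I * (x:ℂ)) = x := by
    have : I * -(I * (x:ℂ)) = -(I * I) * x := by ring
    rw [this, I_mul_I]; ring
  rwa [h4] at h3

end Pool.Agent.Helper514.Cheb
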