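import Pool.Agent.Helper514.Cheb.LG2
import Pool.Agent.Helper514.Cheb.Uniq

set_option autoImplicit false

open Filter Topology

namespace Pool.Agent.Helper514.Cheb

noncomputable def WW (ε x : ℝ) : ℝ := ε * x / LL x

lemma LL_mono {x y : ℝ} (hx : 0 ≤ x) (h : x ≤ y) : LL x ≤ LL y := by
  unfold LL
  have := Real.exp_pos 1
  exact Real.log_le_log (by linarith) (by linarith)

lemma WW_nonneg {ε x : ℝ} (hε : 0 ≤ ε) (hx : 0 ≤ x) : 0 ≤ WW ε x := by
  unfold WW; have := one_le_LL hx; positivity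

lemma WW_mono {ε x y : ℝ} (hε : 0 ≤ ε) (hx : 0 ≤ x) (h : x ≤ y) : WW ε x ≤ WW ε y := by
  unfold WW
  have h1 := one_le_LL hx
  have h2 := one_le_LL (hx.trans h)
  rw [div_le_div_iff₀ (by linarith) (by linarith)]
  have he := Real.exp_pos 1
  have h3 : LL y ≤ LL x + (y - x) / (Real.exp 1 + x) := by
    unfold LL
    have h4 := Real.log_le_sub_one_of_pos (x := (Real.exp 1 + y) / (Real.exp 1 + x)) (by
      apply div_pos <;> linarith)
    rw [Real.log_div (by linarith) (by linarith)] at h4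
    have h5 : (Real.exp 1 + y) / (Real.exp 1 + x) - 1 = (y - x) / (Real.exp 1 + x) := by
      field_simp; ring
    linarith
  have h6 : x * ((y - x) / (Real.exp 1 + x)) ≤ y - x := by
    rw [mul_div_assoc', div_le_iff₀ (by linarith)]
    nlinarith
  have h7 : x * LL y ≤ y * LL x := by nlinarith
  calc ε * x * LL y = ε * (x * LL y) := by ring
    _ ≤ ε * (y * LL x) := by gcongr
    _ = _ := by ring

lemma WW_sub_le {ε E E' : ℝ} (hε : 0 ≤ ε) (hE' : 0 ≤ E') (h : E' ≤ E) :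
    WW ε E - WW ε E' ≤ ε * (E - E') / LL E := by
  unfold WW
  have h1 := one_le_LL hE'
  have h3 := LL_mono hE' h
  have h4 : ε * E' / LL E ≤ ε * E' / LL E' := by gcongr
  have h5 : ε * (E - E') / LL E = ε * E / LL E - ε * E' / LL E := by ring
  linarith

noncomputable def om (p : ℕ) (ε s T : ℝ) : ℝ :=
  (1 + |s - T|) ^ 2 * Real.exp (max 0 (WW ε (ed p T) - WW ε (ed p s)))

lemma om_pos (p : ℕ) (ε s T : ℝ) : 0 < om p ε s T := by
  unfold om; have := abs_nonneg (s - T); positivity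

lemma one_le_om (p : ℕ) (ε s T : ℝ) : 1 ≤ om p ε s T := by
  unfold om
  have h1 : 1 ≤ (1 + |s - T|) ^ 2 := one_le_pow₀ (by linarith [abs_nonneg (s - T)])
  have h2 : 1 ≤ Real.exp (max 0 (WW ε (ed p T) - WW ε (ed p s))) := Real.one_le_exp (le_max_left _ _)
  nlinarith

lemma om_self (p : ℕ) (ε T : ℝ) : om p ε T T = 1 := by
  unfold om; simp

lemma sq_le_om (p : ℕ) (ε s T : ℝ) : (1 + |s - T|) ^ 2 ≤ om p ε s T := by
  unfold om
  have h2 : 1 ≤ Real.exp (max 0 (WW ε (ed p T) - WW ε (ed p s))) := Real.one_le_exp (le_max_left _ _)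
  have h1 : 0 ≤ (1 + |s - T|) ^ 2 := by positivity
  nlinarith

lemma om_tri (p : ℕ) (ε s T T₀ : ℝ) : om p ε s T₀ ≤ om p ε s T * om p ε T T₀ := by
  unfold om
  have h1 : (1 + |s - T₀|) ≤ (1 + |s - T|) * (1 + |T - T₀|) := by
    have := abs_sub_le s T T₀
    nlinarith [abs_nonneg (s - T), abs_nonneg (T - T₀)]
  have h2 : max 0 (WW ε (ed p T₀) - WW ε (ed p s)) ≤
      max 0 (WW ε (ed p T) - WW ε (ed p s)) + max 0 (WW ε (ed p T₀) - WW ε (ed p T)) := by
    have a1 := le_max_left 0 (WW ε (ed p T) - WW ε (ed p s))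
    have a2 := le_max_right 0 (WW ε (ed p T) - WW ε (ed p s))
    have a3 := le_max_left 0 (WW ε (ed p T₀) - WW ε (ed p T))
    have a4 := le_max_right 0 (WW ε (ed p T₀) - WW ε (ed p T))
    exact max_le (by linarith) (by linarith)
  calc (1 + |s - T₀|) ^ 2 * Real.exp (max 0 (WW ε (ed p T₀) - WW ε (ed p s)))
      ≤ ((1 + |s - T|) * (1 + |T - T₀|)) ^ 2 * Real.exp (max 0 (WW ε (ed p T) - WW ε (ed p s)) +
        max 0 (WW ε (ed p T₀) - WW ε (ed p T))) := by
        gcongr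
    _ = _ := by rw [Real.exp_add]; ring

lemma ed_nonneg {p : ℕ} {t : ℝ} (h0 : 0 ≤ t) (h1 : t ≤ Real.pi * p) : 0 ≤ ed p t :=
  le_min h0 (by linarith)

lemma ed_lip (p : ℕ) (s t : ℝ) : ed p s ≤ ed p t + |s - t| := by
  unfold ed
  have h1 := le_abs_self (s - t)
  have h2 := neg_abs_le (s - t)
  rcases min_cases t (Real.pi * p - t) with ⟨h3, h4⟩ | ⟨h3, h4⟩ <;> rw [h3]
  · exact (min_le_left _ _).trans (by linarith)
  · exact (min_le_right _ _).trans (by linarith)

lemma om_le_wt {p : ℕ} {ε s T : ℝ} (hε : 0 ≤ ε) (hs0 : 0 ≤ s) (hs1 : s ≤ Real.pi * p) (hT0 : 0 ≤ T)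
    (hT1 : T ≤ Real.pi * p) : om p ε s T ≤ (1 + |s - T|) ^ 2 * wt ε (ed p T) (s - T) := by
  unfold om wt
  have h1 := ed_nonneg hs0 hs1
  have h2 := ed_nonneg hT0 hT1
  have h3 := one_le_LL h2
  gcongr
  apply max_le
  · have : 0 ≤ min |s - T| (ed p T) := le_min (abs_nonneg _) h2
    positivity
  · rcases le_total (ed p s) (ed p T) with h | h
    · refine (WW_sub_le hε h1 h).trans ?_
      have h4 := ed_lip p T s
      rw [abs_sub_comm] at h4
      have h5 : ed p T - ed p s ≤ min |s - T| (ed p T) := le_min (by linarith) (by linarith)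
      gcongr
    · have h4 := WW_mono hε h2 h
      have : 0 ≤ min |s - T| (ed p T) := le_min (abs_nonneg _) h2
      have h5 : 0 ≤ ε * min |s - T| (ed p T) / LL (ed p T) := by positivity
      linarith

lemma wt_mono_abs {ε E u v : ℝ} (hε : 0 ≤ ε) (hE : 0 ≤ E) (h : |u| ≤ |v|) : wt ε E u ≤ wt ε E v := by
  unfold wt
  have h1 := one_le_LL hE
  gcongr

lemma deriv_even_abs {f : ℝ → ℝ} (he : ∀ t, f (-t) = f t) (t : ℝ) : |deriv f (-t)| = |deriv f t| := by
  have h3 : (fun t => f (-t)) = f := funext he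
  have h4 : deriv (fun t => f (-t)) t = -deriv f (-t) := deriv_comp_neg f t
  rw [h3] at h4
  rw [h4, abs_neg]

/-- folding to `[0, π p]` -/
lemma fold_exists {p : ℕ} (hp : 0 < p) (s : ℝ) : ∃ u, 0 ≤ u ∧ u ≤ Real.pi * p ∧
    (∀ T, 0 ≤ T → T ≤ Real.pi * p → |u - T| ≤ |s - T|) ∧ u ≤ |s| ∧
    ∀ g : ℝ → ℝ, Function.Periodic g (2 * Real.pi * p) → (∀ t, g (-t) = g t) → g s = g u := by
  have hpr : (0 : ℝ) < p := by exact_mod_cast hp
  obtain ⟨k, hk⟩ := exists_rep hp 0 s
  rw [sub_zero] at hk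
  set s' := s - k * (2 * Real.pi * p) with hs'
  have hP : 0 < Real.pi * p := by positivity
  have hmain : ∀ T, 0 ≤ T → T ≤ Real.pi * p → |(|s'|) - T| ≤ |s - T| := by
    intro T h0 h1
    have hs : s = s' + k * (2 * Real.pi * p) := by rw [hs']; ring
    have hb := abs_le.1 hk
    have hab := abs_nonneg s'
    rcases lt_trichotomy k 0 with h | h | h
    · have hk1 : (k : ℝ) ≤ -1 := by exact_mod_cast (by omega : k ≤ -1)
      have h3 : s ≤ s' - 2 * Real.pi * p := by rw [hs]; nlinarith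
      have h4 : T - s ≤ |s - T| := by rw [abs_sub_comm]; exact le_abs_self _
      have h5 := le_abs_self s'
      rw [abs_le]; constructor <;> nlinarith
    · rw [h] at hs
      simp only [Int.cast_zero, zero_mul, add_zero] at hs
      rw [hs]
      have h6 : |s'| = s' ∨ |s'| = -s' := abs_choice s'
      rcases h6 with h6 | h6
      · rw [h6]
      · have h7 : s' ≤ 0 := by rw [← abs_eq_neg_self]; exact h6
        rw [h6, abs_of_nonpos (by linarith : s' - T ≤ 0), abs_le]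
        constructor <;> linarith
    · have hk1 : (1 : ℝ) ≤ k := by exact_mod_cast h
      have h3 : s' + 2 * Real.pi * p ≤ s := by rw [hs]; nlinarith
      have h4 : s - T ≤ |s - T| := le_abs_self _
      have h5 := neg_abs_le s'
      rw [abs_le]; constructor <;> nlinarith
  refine ⟨|s'|, abs_nonneg _, hk, hmain, ?_, ?_⟩
  · have := hmain 0 le_rfl hP.le
    simpa using this
  · intro g hg he
    rw [← per_int hg k s]
    rcases abs_choice s' with h | h
    · rw [h]
    · rw [h]; exact (he s').symm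

lemma goodAt_of_local {p : ℕ} (hp : 0 < p) {ε : ℝ} (hε : 0 ≤ ε) {f : ℝ → ℝ} (hf : RTP p p f)
    (he : ∀ t, f (-t) = f t) {T : ℝ} (hT0 : 0 ≤ T) (hT1 : T ≤ Real.pi * p)
    (h : ∀ s, 0 ≤ s → s ≤ Real.pi * p → |deriv f s| ≤ |deriv f T| * om p ε s T) : GoodAt p ε f T := by
  intro s
  obtain ⟨u, hu0, hu1, hu2, -, hu3⟩ := fold_exists hp s
  have h1 : |deriv f s| = |deriv f u| := hu3 (fun t => |deriv f t|)
    (fun t => by simp only; rw [hf.deriv.periodic hp]) (fun t => deriv_even_abs he t)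
  rw [h1]
  refine (h u hu0 hu1).trans ?_
  have h2 := om_le_wt hε hu0 hu1 hT0 hT1
  have h3 := hu2 T hT0 hT1
  have h4 := wt_mono_abs hε (ed_nonneg hT0 hT1) h3
  have h5 := wt_pos ε (ed p T) (u - T)
  calc |deriv f T| * om p ε u T ≤ |deriv f T| * ((1 + |u - T|) ^ 2 * wt ε (ed p T) (u - T)) := by gcongr
    _ ≤ |deriv f T| * ((1 + |s - T|) ^ 2 * wt ε (ed p T) (s - T)) := by gcongr

lemma om_continuous {p : ℕ} {ε : ℝ} (T : ℝ) : ContinuousOn (fun s => om p ε s T) (Set.Icc 0 (Real.pi * p)) := by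
  have h1 : ContinuousOn (fun s => WW ε (ed p s)) (Set.Icc 0 (Real.pi * p)) := by
    unfold WW
    have h2 : Continuous (ed p) := by unfold ed; fun_prop
    have h3 : ContinuousOn (fun s => LL (ed p s)) (Set.Icc 0 (Real.pi * p)) := by
      unfold LL
      apply ContinuousOn.log
      · exact (continuous_const.add h2).continuousOn
      · intro s hs
        have := ed_nonneg hs.1 hs.2
        have := Real.exp_pos 1
        linarith
    apply ContinuousOn.div ((continuous_const.mul h2).continuousOn) h3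
    intro s hs
    have := one_le_LL (ed_nonneg hs.1 hs.2)
    linarith
  unfold om
  apply ContinuousOn.mul
  · exact Continuous.continuousOn (by fun_prop)
  · apply ContinuousOn.rexp
    exact ContinuousOn.sup continuousOn_const (continuousOn_const.sub h1)

theorem maximizer {p : ℕ} (hp : 0 < p) {ε : ℝ} (hε : 0 ≤ ε) {f : ℝ → ℝ} (hf : RTP p p f)
    (he : ∀ t, f (-t) = f t) (T₀ : ℝ) :
    ∃ T, 0 ≤ T ∧ T ≤ Real.pi * p ∧ GoodAt p ε f T ∧
      ∀ s, 0 ≤ s → s ≤ Real.pi * p → |deriv f s| * om p ε T T₀ ≤ |deriv f T| * om p ε s T₀ := by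
  have hpr : (0 : ℝ) < p := by exact_mod_cast hp
  have hP : 0 < Real.pi * p := by positivity
  have hc : ContinuousOn (fun s => |deriv f s| / om p ε s T₀) (Set.Icc 0 (Real.pi * p)) :=
    (hf.deriv.continuous.abs.continuousOn).div (om_continuous T₀) fun s _ => (om_pos _ _ _ _).ne'
  obtain ⟨T, hT, hmax⟩ := isCompact_Icc.exists_isMaxOn (Set.nonempty_Icc.2 hP.le) hc
  have h1 : ∀ s, 0 ≤ s → s ≤ Real.pi * p → |deriv f s| * om p ε T T₀ ≤ |deriv f T| * om p ε s T₀ := by
    intro s h0 h1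
    have h2 := hmax (show s ∈ Set.Icc 0 (Real.pi * p) from ⟨h0, h1⟩)
    simp only [Set.mem_ofPred_eq] at h2
    rwa [div_le_div_iff₀ (om_pos _ _ _ _) (om_pos _ _ _ _)] at h2
  refine ⟨T, hT.1, hT.2, ?_, h1⟩
  apply goodAt_of_local hp hε hf he hT.1 hT.2
  intro s h0 h2
  have h3 := h1 s h0 h2
  have h4 := om_tri p ε s T T₀
  have h5 := om_pos p ε T T₀
  have h6 : |deriv f s| * om p ε T T₀ ≤ (|deriv f T| * om p ε s T) * om p ε T T₀ := by
    refine h3.trans ?_
    calc |deriv f T| * om p ε s T₀ ≤ |deriv f T| * (om p ε s T * om p ε T T₀) := by gcongr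
      _ = _ := by ring
  exact le_of_mul_le_mul_right h6 h5

end Pool.Agent.Helper514.Cheb
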