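import Mathlib

set_option autoImplicit false

open Filter Topology Metric Real MeromorphicOn

namespace Pool.Agent.Helper514.Cheb

lemma circleAverage_abs_im (R : ℝ) (hR : 0 < R) : circleAverage (fun z : ℂ => |z.im|) 0 R = 2 * R / π := by
  rw [circleAverage_def]
  have h1 : ∀ θ : ℝ, |(circleMap 0 R θ).im| = R * |Real.sin θ| := by
    intro θ
    have : (circleMap 0 R θ).im = R * Real.sin θ := by
      simp [circleMap, Complex.exp_ofReal_mul_I_im]
    rw [this, abs_mul, abs_of_pos hR]
  simp only [h1]
  rw [intervalIntegral.integral_const_mul]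
  have h2 : ∫ θ in (0:ℝ)..(2 * π), |Real.sin θ| = 4 := by
    have e1 : ∫ θ in (0:ℝ)..π, |Real.sin θ| = 2 := by
      have : ∫ θ in (0:ℝ)..π, |Real.sin θ| = ∫ θ in (0:ℝ)..π, Real.sin θ := by
        refine intervalIntegral.integral_congr fun θ hθ => ?_
        rw [Set.uIcc_of_le Real.pi_pos.le] at hθ
        exact abs_of_nonneg (Real.sin_nonneg_of_nonneg_of_le_pi hθ.1 hθ.2)
      rw [this, integral_sin]; simp; norm_num
    have e2 : ∫ θ in π..(2 * π), |Real.sin θ| = 2 := by
      have h3 : ∫ θ in (0:ℝ)..π, |Real.sin (θ + π)| = ∫ θ in (0 + π)..(π + π), |Real.sin θ| :=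
        intervalIntegral.integral_comp_add_right (fun θ => |Real.sin θ|) π
      have h4 : ∫ θ in (0:ℝ)..π, |Real.sin (θ + π)| = 2 := by
        simp only [Real.sin_add_pi, abs_neg]; exact e1
      rw [h4] at h3
      rw [show (2 * π) = π + π by ring]
      rw [zero_add] at h3; exact h3.symm
    rw [← intervalIntegral.integral_add_adjacent_intervals (b := π), e1, e2]; norm_num
    · exact (Real.continuous_sin.abs).intervalIntegrable _ _
    · exact (Real.continuous_sin.abs).intervalIntegrable _ _
  rw [h2, smul_eq_mul]
  field_simp; norm_num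

lemma log_factorial_le (m : ℕ) (hm : 1 ≤ m) :
    Real.log (m.factorial) ≤ 1 + Real.log m + m * Real.log m - m := by
  induction m, hm using Nat.le_induction with
  | base => simp
  | succ m hm ih =>
    have hm0 : (0 : ℝ) < m := by exact_mod_cast hm
    rw [Nat.factorial_succ]
    push_cast
    rw [Real.log_mul (by positivity) (by positivity)]
    have h1 : 1 ≤ ((m : ℝ) + 1) * (Real.log (m + 1) - Real.log m) := by
      rw [← Real.log_div (by positivity) (by positivity)]
      have h2 := Real.one_sub_inv_le_log_of_pos (x := ((m : ℝ) + 1) / m) (by positivity)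
      have h3 : 1 - (((m : ℝ) + 1) / m)⁻¹ = 1 / (m + 1) := by field_simp; ring
      rw [h3] at h2
      calc (1 : ℝ) = ((m : ℝ) + 1) * (1 / (m + 1)) := by field_simp
        _ ≤ _ := by gcongr
    nlinarith

lemma sum_log_ge (s r : ℝ) (hr : 0 < r) (hs : r ≤ s) (n : ℕ) :
    (n : ℝ) - 2 * Real.log (n + 1) ≤ ∑ k ∈ Finset.range n, Real.log ((s * n + r) / (s * (k + 1) + r)) := by
  have h1 : ∀ k ∈ Finset.range n, Real.log (n + 1) - Real.log ((k + 1 : ℕ) + 1) ≤
      Real.log ((s * n + r) / (s * (k + 1) + r)) := by
    intro k hk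
    have hk' : ((k : ℝ) + 1) ≤ n := by exact_mod_cast Finset.mem_range.1 hk
    have hk0 : (0 : ℝ) ≤ k := by positivity
    rw [← Real.log_div (by positivity) (by positivity)]
    refine Real.log_le_log (by positivity) ?_
    have hs0 : 0 < s := hr.trans_le hs
    rw [div_le_div_iff₀ (by positivity) (by positivity)]
    push_cast
    nlinarith [mul_nonneg (sub_nonneg.2 hs) (sub_nonneg.2 hk')]
  refine le_trans ?_ (Finset.sum_le_sum h1)
  rw [Finset.sum_sub_distrib, Finset.sum_const, Finset.card_range, nsmul_eq_mul]
  have h2 : ∑ k ∈ Finset.range n, Real.log ((k + 1 : ℕ) + 1) = Real.log ((n + 1).factorial) := by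
    clear h1
    induction n with
    | zero => simp
    | succ n ih =>
      rw [Finset.sum_range_succ, ih, Nat.factorial_succ (n + 1)]
      push_cast
      rw [Real.log_mul (by positivity) (by positivity)]
      ring
  rw [h2]
  have h3 := log_factorial_le (n + 1) (by omega)
  push_cast at h3 ⊢
  nlinarith

lemma divisor_ge_two {G : ℂ → ℂ} (hd : Differentiable ℂ G) (h0 : G 0 ≠ 0) (U : Set ℂ) (y : ℂ) (hy : y ∈ U)
    (h1 : G y = 0) (h2 : deriv G y = 0) : 2 ≤ divisor G U y := by
  have han : AnalyticOnNhd ℂ G U := fun z _ => hd.analyticAt z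
  rw [han.divisor_apply hy]
  have hne : analyticOrderAt G y ≠ ⊤ := by
    intro h
    rw [analyticOrderAt_eq_top] at h
    have h3 : AnalyticOnNhd ℂ G Set.univ := fun z _ => hd.analyticAt z
    have := h3.eqOn_zero_of_preconnected_of_eventuallyEq_zero isPreconnected_univ (Set.mem_univ y) h
    exact h0 (this (Set.mem_univ 0))
  obtain ⟨n, hn⟩ := ENat.ne_top_iff_exists.1 hne
  rw [← hn]
  have h4 := ((hd.analyticAt y).analyticOrderAt_eq_natCast (n := n)).1 hn.symm
  obtain ⟨g, hg, hgy, hfg⟩ := h4
  have hn2 : 2 ≤ n := by
    by_contra hlt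
    have h5 : n = 0 ∨ n = 1 := by omega
    rcases h5 with rfl | rfl
    · have := hfg.self_of_nhds
      simp only [pow_zero, one_smul] at this
      exact hgy (this ▸ h1)
    · have h6 : deriv G y = deriv (fun z => (z - y) ^ 1 • g z) y :=
        Filter.EventuallyEq.deriv_eq (hfg : G =ᶠ[𝓝 y] _)
      rw [h2] at h6
      have h7 : HasDerivAt (fun z => (z - y) ^ 1 • g z) (1 * g y + (y - y) * deriv g y) y := by
        have := ((hasDerivAt_id y).sub_const y).mul hg.differentiableAt.hasDerivAt
        have e : (fun z => (z - y) ^ 1 • g z) = (fun z => (id z - y)) * g := by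
          funext z; simp
        rw [e]; exact this
      rw [h7.deriv] at h6
      simp at h6
      exact hgy h6.symm
  simpa using hn2

/-- A function of type `σ`, bounded on the real axis, cannot have a double zero in every interval of
length `2 r` if `σ r < π`. -/
theorem jensen_contra (σ M₀ r : ℝ) (hσ : 0 ≤ σ) (hr : 0 < r) (hσr : σ * r < π) (G : ℂ → ℂ)
    (hd : Differentiable ℂ G) (hb0 : ∀ z, ‖G z‖ ≤ M₀ * Real.exp (σ * |z.im|)) (h0 : G 0 ≠ 0)
    (hz : ∀ ζ : ℝ, ∃ y : ℝ, |y - ζ| ≤ r ∧ G y = 0 ∧ deriv G y = 0) : False := by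
  set M := max M₀ 1 with hMdef
  have hM1 : 1 ≤ M := le_max_right _ _
  have hM : 0 < M := by linarith
  have hb : ∀ z, ‖G z‖ ≤ M * Real.exp (σ * |z.im|) := fun z => (hb0 z).trans (by
    gcongr; exact le_max_left _ _)
  -- spacing
  obtain ⟨s, hs1, hs2⟩ : ∃ s : ℝ, 2 * r < s ∧ σ * s < 2 * π := by
    refine ⟨2 * r + (π - σ * r) / (σ + 1), ?_, ?_⟩
    · have : 0 < (π - σ * r) / (σ + 1) := div_pos (by linarith) (by linarith)
      linarith
    · have h1 : σ * ((π - σ * r) / (σ + 1)) ≤ π - σ * r := by
        rw [mul_div_assoc', div_le_iff₀ (by linarith)]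
        nlinarith
      have : σ * (2 * r + (π - σ * r) / (σ + 1)) ≤ π + σ * r := by nlinarith
      linarith
  choose y hy1 hy2 hy3 using hz
  have hs0 : 0 < s := by linarith
  have hmain : ∀ n : ℕ, 1 ≤ n → 4 * ((n : ℝ) - 2 * Real.log (n + 1)) ≤
      Real.log M + σ * (2 * (s * n + r) / π) - Real.log ‖G 0‖ := by
    intro n hn
    set R := s * n + r with hR
    have hn0 : (0 : ℝ) < n := by exact_mod_cast hn
    have hRpos : 0 < R := by positivity
    have han : AnalyticOnNhd ℂ G (closedBall 0 |R|) := fun z _ => hd.analyticAt z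
    have hj := han.circleAverage_log_norm hRpos.ne' h0
    -- upper bound of the average
    have hupper : circleAverage (fun z => Real.log ‖G z‖) 0 R ≤ Real.log M + σ * (2 * R / π) := by
      have h1 : circleAverage (fun z => Real.log ‖G z‖) 0 R ≤
          circleAverage (fun z : ℂ => Real.log M + σ * |z.im|) 0 R := by
        apply circleAverage_mono
        · have : MeromorphicOn G (sphere (0:ℂ) |R|) := fun z _ => (hd.analyticAt z).meromorphicAt
          exact this.circleIntegrable_log_norm
        · apply ContinuousOn.circleIntegrable hRpos.le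
          have : Continuous (fun z : ℂ => Real.log M + σ * |z.im|) := by fun_prop
          exact this.continuousOn
        · intro z _
          rcases eq_or_ne (G z) 0 with h2 | h2
          · rw [h2, norm_zero, Real.log_zero]
            have := Real.log_nonneg hM1
            positivity
          · have h3 := Real.log_le_log (norm_pos_iff.2 h2) (hb z)
            rw [Real.log_mul hM.ne' (Real.exp_pos _).ne', Real.log_exp] at h3
            exact h3
      refine h1.trans ?_
      have h2 : circleAverage (fun z : ℂ => Real.log M + σ * |z.im|) 0 R =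
          Real.log M + σ * circleAverage (fun z : ℂ => |z.im|) 0 R := by
        rw [circleAverage_def, circleAverage_def, intervalIntegral.integral_add (by simp)
          (by
            apply Continuous.intervalIntegrable
            have : Continuous fun θ : ℝ => (circleMap (0:ℂ) R θ) := continuous_circleMap 0 R
            fun_prop), intervalIntegral.integral_const_mul, intervalIntegral.integral_const]
        simp only [smul_eq_mul, sub_zero]
        field_simp
      rw [h2, circleAverage_abs_im R hRpos]
    -- lower bound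
    set zz : ℕ × Bool → ℂ := fun kb => ((y (if kb.2 then s * (kb.1 + 1) else -(s * (kb.1 + 1))) : ℝ) : ℂ) with hzz
    have hzt : ∀ k : ℕ, |y (s * (k + 1)) - s * (k + 1)| ≤ r := fun k => hy1 _
    have hzf : ∀ k : ℕ, |y (-(s * (k + 1))) - -(s * (k + 1))| ≤ r := fun k => hy1 _
    have hpos : ∀ k : ℕ, s * (k + 1) - r ≤ y (s * (k + 1)) ∧ y (s * (k + 1)) ≤ s * (k + 1) + r := fun k => by
      have := abs_le.1 (hzt k); constructor <;> linarith [this.1, this.2]
    have hneg : ∀ k : ℕ, -(s * (k + 1)) - r ≤ y (-(s * (k + 1))) ∧ y (-(s * (k + 1))) ≤ -(s * (k + 1)) + r := fun k => by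
      have := abs_le.1 (hzf k); constructor <;> linarith [this.1, this.2]
    have hinj : Function.Injective zz := by
      rintro ⟨k, b⟩ ⟨l, c⟩ h
      simp only [hzz, Complex.ofReal_inj] at h
      have hk0 : (0 : ℝ) ≤ k := by positivity
      have hl0 : (0 : ℝ) ≤ l := by positivity
      have hkl : ∀ k l : ℕ, k < l → y (s * (k + 1)) < y (s * (l + 1)) := by
        intro k l hlt
        have h1 := (hpos k).2
        have h2 := (hpos l).1
        have h3 : (k : ℝ) + 1 ≤ l := by exact_mod_cast hlt
        nlinarith
      have hkl2 : ∀ k l : ℕ, k < l → y (-(s * (l + 1))) < y (-(s * (k + 1))) := by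
        intro k l hlt
        have h1 := (hneg k).1
        have h2 := (hneg l).2
        have h3 : (k : ℝ) + 1 ≤ l := by exact_mod_cast hlt
        nlinarith
      rcases b with _ | _ <;> rcases c with _ | _ <;> simp only [if_true, if_false, Bool.false_eq_true] at h
      · rcases lt_trichotomy k l with h1 | h1 | h1
        · exact absurd h (hkl2 k l h1).ne'
        · rw [h1]
        · exact absurd h (hkl2 l k h1).ne
      · exfalso
        have h1 := (hneg k).2
        have h2 := (hpos l).1
        nlinarith
      · exfalso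
        have h1 := (hneg l).2
        have h2 := (hpos k).1
        nlinarith
      · rcases lt_trichotomy k l with h1 | h1 | h1
        · exact absurd h (hkl k l h1).ne
        · rw [h1]
        · exact absurd h (hkl l k h1).ne'
    set S : Finset (ℕ × Bool) := Finset.range n ×ˢ Finset.univ with hS
    have hznorm : ∀ kb ∈ S, ‖zz kb‖ ≤ s * (kb.1 + 1) + r ∧ 0 < ‖zz kb‖ := by
      rintro ⟨k, b⟩ _
      have hk0 : (0 : ℝ) ≤ k := by positivity
      simp only [hzz, Complex.norm_real, Real.norm_eq_abs]
      rcases b with _ | _ <;> simp only [if_true, if_false, Bool.false_eq_true]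
      · have h1 := hneg k
        rw [abs_le, abs_pos]
        refine ⟨⟨by linarith, by nlinarith⟩, ne_of_lt (by nlinarith)⟩
      · have h1 := hpos k
        rw [abs_le, abs_pos]
        refine ⟨⟨by nlinarith, by linarith⟩, ne_of_gt (by nlinarith)⟩
    have hzmem : ∀ kb ∈ S, zz kb ∈ closedBall (0:ℂ) |R| := by
      intro kb hkb
      rw [mem_closedBall_zero_iff, abs_of_pos hRpos]
      refine (hznorm kb hkb).1.trans ?_
      have : (kb.1 : ℝ) + 1 ≤ n := by
        have := (Finset.mem_product.1 hkb).1
        exact_mod_cast Finset.mem_range.1 this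
      rw [hR]; nlinarith
    have hdiv : ∀ kb ∈ S, (2 : ℝ) ≤ divisor G (closedBall 0 |R|) (zz kb) := by
      rintro ⟨k, b⟩ hkb
      have := divisor_ge_two hd h0 (closedBall 0 |R|) (zz (k, b)) (hzmem _ hkb) (hy2 _) (hy3 _)
      exact_mod_cast this
    have hdnn : ∀ u, (0 : ℝ) ≤ divisor G (closedBall 0 |R|) u := by
      intro u
      have := (AnalyticOnNhd.divisor_nonneg han) u
      exact_mod_cast this
    have hfin := (divisor G (closedBall (0:ℂ) |R|)).finiteSupport (isCompact_closedBall 0 |R|)
    have hlower : 4 * ((n : ℝ) - 2 * Real.log (n + 1)) ≤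
        ∑ᶠ u, divisor G (closedBall 0 |R|) u * Real.log (R * ‖0 - u‖⁻¹) := by
      classical
      have hsub : (Function.support fun u => (divisor G (closedBall 0 |R|) u : ℝ) * Real.log (R * ‖0 - u‖⁻¹)) ⊆
          ((hfin.toFinset ∪ S.image zz : Finset ℂ) : Set ℂ) := by
        intro u hu
        rw [Function.mem_support] at hu
        rw [Finset.coe_union]
        left
        simp only [Set.Finite.coe_toFinset, Function.mem_support]
        intro h; exact hu (by rw [h]; simp)
      rw [finsum_eq_sum_of_support_subset _ hsub]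
      have hlog : ∀ u ∈ closedBall (0:ℂ) |R|, 0 ≤ Real.log (R * ‖0 - u‖⁻¹) := by
        intro u hu
        rw [mem_closedBall_zero_iff, abs_of_pos hRpos] at hu
        rw [zero_sub, norm_neg]
        rcases eq_or_ne u 0 with h | h
        · simp [h]
        · apply Real.log_nonneg
          have := norm_pos_iff.2 h
          rw [← div_eq_mul_inv, le_div_iff₀ this]; linarith
      calc 4 * ((n : ℝ) - 2 * Real.log (n + 1))
          ≤ 4 * ∑ k ∈ Finset.range n, Real.log ((s * n + r) / (s * (k + 1) + r)) := by
            have := sum_log_ge s r hr (by linarith) n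
            linarith
        _ = ∑ kb ∈ S, 2 * Real.log ((s * n + r) / (s * (kb.1 + 1) + r)) := by
            rw [hS, Finset.sum_product]
            simp only [Finset.sum_const, Finset.card_univ, Fintype.card_bool, nsmul_eq_mul]
            rw [Finset.mul_sum]
            refine Finset.sum_congr rfl fun k _ => ?_
            push_cast; ring
        _ ≤ ∑ kb ∈ S, divisor G (closedBall 0 |R|) (zz kb) * Real.log (R * ‖0 - zz kb‖⁻¹) := by
            refine Finset.sum_le_sum fun kb hkb => ?_
            have h1 := hdiv kb hkb
            have h2 := hznorm kb hkb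
            have h3 : Real.log ((s * n + r) / (s * (kb.1 + 1) + r)) ≤ Real.log (R * ‖0 - zz kb‖⁻¹) := by
              rw [zero_sub, norm_neg, ← div_eq_mul_inv]
              apply Real.log_le_log
              · have : (0:ℝ) ≤ kb.1 := by positivity
                positivity
              · have := h2.2
                gcongr
                exact h2.1
            have h4 := hlog _ (hzmem kb hkb)
            have h5 : 0 ≤ Real.log ((s * n + r) / (s * (kb.1 + 1) + r)) := by
              apply Real.log_nonneg
              have h6 : (kb.1 : ℝ) + 1 ≤ n := by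
                have := (Finset.mem_product.1 hkb).1
                exact_mod_cast Finset.mem_range.1 this
              have h7 : (0:ℝ) ≤ kb.1 := by positivity
              rw [le_div_iff₀ (by positivity)]
              nlinarith
            nlinarith
        _ = ∑ u ∈ S.image zz, divisor G (closedBall 0 |R|) u * Real.log (R * ‖0 - u‖⁻¹) := by
            rw [Finset.sum_image hinj.injOn]
        _ ≤ _ := by
            refine Finset.sum_le_sum_of_subset_of_nonneg Finset.subset_union_right ?_
            intro u hu _
            by_cases hub : u ∈ closedBall (0:ℂ) |R|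
            · exact mul_nonneg (hdnn u) (hlog u hub)
            · rw [Function.locallyFinsuppWithin.apply_eq_zero_of_notMem _ hub]
              simp
    rw [hj] at hupper
    linarith
  -- contradiction as n → ∞
  have hlim : Tendsto (fun n : ℕ => (4 - 2 * σ * s / π) * (n : ℝ) - 8 * Real.log (n + 1)) atTop atTop := by
    have hc : 0 < 4 - 2 * σ * s / π := by
      have : 2 * σ * s / π < 4 := by
        rw [div_lt_iff₀ Real.pi_pos]; linarith
      linarith
    have h1 : Tendsto (fun x : ℝ => Real.log (x + 1) / x) atTop (𝓝 0) := by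
      have h2 : Tendsto (fun x : ℝ => Real.log (x + 1) / (x + 1)) atTop (𝓝 0) := by
        have h3 : Tendsto (fun x : ℝ => Real.log x / x) atTop (𝓝 0) := by
          simpa using (Real.isLittleO_log_id_atTop).tendsto_div_nhds_zero
        exact h3.comp (tendsto_atTop_add_const_right _ 1 tendsto_id)
      have h4 : Tendsto (fun x : ℝ => (x + 1) / x) atTop (𝓝 1) := by
        have : Tendsto (fun x : ℝ => 1 + 1 / x) atTop (𝓝 (1 + 0)) :=
          tendsto_const_nhds.add (by
            have h := tendsto_inv_atTop_zero (𝕜 := ℝ)
            refine h.congr fun x => (one_div x).symm)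
        rw [add_zero] at this
        refine this.congr' ?_
        filter_upwards [eventually_gt_atTop (0:ℝ)] with x hx
        field_simp
      have h5 := h2.mul h4
      rw [zero_mul] at h5
      refine h5.congr' ?_
      filter_upwards [eventually_gt_atTop (0:ℝ)] with x hx
      field_simp
    have h2 : Tendsto (fun x : ℝ => x * ((4 - 2 * σ * s / π) - 8 * (Real.log (x + 1) / x))) atTop atTop := by
      have h3 : Tendsto (fun x : ℝ => (4 - 2 * σ * s / π) - 8 * (Real.log (x + 1) / x)) atTop
          (𝓝 ((4 - 2 * σ * s / π) - 8 * 0)) := tendsto_const_nhds.sub (h1.const_mul 8)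
      rw [mul_zero, sub_zero] at h3
      exact Filter.Tendsto.atTop_mul_pos hc (tendsto_id : Tendsto (fun x : ℝ => x) atTop atTop) h3
    have h3 := h2.comp tendsto_natCast_atTop_atTop
    refine h3.congr' ?_
    filter_upwards [eventually_gt_atTop 0] with n hn
    have : (n : ℝ) ≠ 0 := by exact_mod_cast hn.ne'
    simp only [Function.comp_apply]
    field_simp
  obtain ⟨n, hn1, hn2⟩ := ((hlim.eventually_gt_atTop (Real.log M + σ * (2 * r / π) - Real.log ‖G 0‖)).and
    (eventually_ge_atTop 1)).exists
  have h1 := hmain n hn2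
  have h2 : σ * (2 * (s * n + r) / π) = 2 * σ * s / π * n + σ * (2 * r / π) := by ring
  rw [h2] at h1
  linarith

end Pool.Agent.Helper514.Cheb
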