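import Pool.Agent.Helper514.Cheb.TPoly

set_option autoImplicit false

open Filter Topology

namespace Pool.Agent.Helper514.Cheb

/-- normalised Dirichlet kernel -/
noncomputable def Dir (p k : ℕ) (t : ℝ) : ℝ :=
  (1 + 2 * ∑ j ∈ Finset.range k, Real.cos ((j + 1 : ℕ) * (t / p))) / (2 * k + 1)

lemma Dir_rtp (p k : ℕ) : RTP p k (Dir p k) := by
  have h1 : RTP p k (fun t => ∑ j ∈ Finset.range k, Real.cos ((j + 1 : ℕ) * (t / p))) :=
    RTP.sum _ _ fun j hj => RTP.cos (j + 1) (by simpa using hj)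
  have h2 := (((RTP.const (p := p) 1).mono (Nat.zero_le k)).add (h1.const_mul 2)).const_mul (1 / (2 * k + 1) : ℝ)
  have : Dir p k = fun t => (1 / (2 * k + 1) : ℝ) *
      (1 + 2 * ∑ j ∈ Finset.range k, Real.cos ((j + 1 : ℕ) * (t / p))) := by
    funext t; rw [Dir]; ring
  rw [this]; exact h2

lemma Dir_even (p k : ℕ) (t : ℝ) : Dir p k (-t) = Dir p k t := by
  unfold Dir
  congr 3
  refine Finset.sum_congr rfl fun j _ => ?_
  rw [← Real.cos_neg]; congr 1; ring

lemma Dir_zero (p k : ℕ) : Dir p k 0 = 1 := by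
  unfold Dir
  have : (2 * (k : ℝ) + 1) ≠ 0 := by positivity
  simp; field_simp; ring

lemma Dir_abs_le (p k : ℕ) (t : ℝ) : |Dir p k t| ≤ 1 := by
  unfold Dir
  have h0 : (0 : ℝ) < 2 * k + 1 := by positivity
  rw [abs_div, abs_of_pos h0, div_le_one h0]
  have h1 : |∑ j ∈ Finset.range k, Real.cos ((j + 1 : ℕ) * (t / p))| ≤ k := by
    refine (Finset.abs_sum_le_sum_abs _ _).trans ?_
    calc ∑ j ∈ Finset.range k, |Real.cos ((j + 1 : ℕ) * (t / p))| ≤ ∑ j ∈ Finset.range k, (1 : ℝ) :=
          Finset.sum_le_sum fun j _ => Real.abs_cos_le_one _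
      _ = k := by simp
  have h2 := abs_le.1 h1
  rw [abs_le]; constructor <;> linarith [h2.1, h2.2]

lemma Dir_ge (p k : ℕ) (t : ℝ) : 1 - (k * (t / p)) ^ 2 / 2 ≤ Dir p k t := by
  unfold Dir
  have h0 : (0 : ℝ) < 2 * k + 1 := by positivity
  rw [le_div_iff₀ h0]
  have h1 : ∀ j ∈ Finset.range k, 1 - (k * (t / p)) ^ 2 / 2 ≤ Real.cos ((j + 1 : ℕ) * (t / p)) := by
    intro j hj
    have hj' : ((j + 1 : ℕ) : ℝ) ≤ k := by exact_mod_cast (Finset.mem_range.1 hj)
    have h2 := Real.one_sub_sq_div_two_le_cos (x := (j + 1 : ℕ) * (t / p))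
    have h3 : (((j + 1 : ℕ) : ℝ) * (t / p)) ^ 2 ≤ (k * (t / p)) ^ 2 := by
      rw [mul_pow, mul_pow]
      gcongr
    linarith
  have h2 := Finset.sum_le_sum h1
  rw [Finset.sum_const, Finset.card_range, nsmul_eq_mul] at h2
  have h3 : 0 ≤ (k * (t / p)) ^ 2 / 2 := by positivity
  nlinarith

lemma Dir_sin (p k : ℕ) (t : ℝ) :
    (2 * k + 1) * Dir p k t * Real.sin (t / p / 2) = Real.sin ((2 * k + 1) * (t / p / 2)) := by
  unfold Dir
  have h0 : (2 * (k : ℝ) + 1) ≠ 0 := by positivity
  rw [mul_div_cancel₀ _ h0]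
  induction k with
  | zero => simp
  | succ k ih =>
    have h1 := ih (by positivity)
    rw [Finset.sum_range_succ]
    have h2 : 2 * Real.cos ((k + 1 : ℕ) * (t / p)) * Real.sin (t / p / 2) =
        Real.sin ((2 * ((k + 1 : ℕ) : ℝ) + 1) * (t / p / 2)) - Real.sin ((2 * (k : ℝ) + 1) * (t / p / 2)) := by
      rw [Real.sin_sub_sin]
      push_cast
      have e1 : ((2 * ((k : ℝ) + 1) + 1) * (t / p / 2) - (2 * (k : ℝ) + 1) * (t / p / 2)) / 2 = t / p / 2 := by ring
      have e2 : ((2 * ((k : ℝ) + 1) + 1) * (t / p / 2) + (2 * (k : ℝ) + 1) * (t / p / 2)) / 2 = (k + 1) * (t / p) := by ring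
      rw [e1, e2]; ring
    linear_combination h1 + h2

lemma Dir_decay (p k : ℕ) (hp : 0 < p) (t : ℝ) (ht : |t| ≤ Real.pi * p) :
    |Dir p k t| * ((2 * k + 1) * |t|) ≤ Real.pi * p := by
  have hpr : (0 : ℝ) < p := by exact_mod_cast hp
  have hs : |t| / p / Real.pi ≤ |Real.sin (t / p / 2)| := by
    have h1 : |Real.sin (t / p / 2)| = Real.sin (|t| / p / 2) := by
      rcases le_total 0 t with h | h
      · rw [abs_of_nonneg h, abs_of_nonneg]
        refine Real.sin_nonneg_of_nonneg_of_le_pi (by positivity) ?_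
        rw [abs_of_nonneg h] at ht
        rw [div_div, div_le_iff₀ (by positivity)]
        nlinarith [Real.pi_pos]
      · have e : t / p / 2 = -(|t| / p / 2) := by rw [abs_of_nonpos h]; ring
        rw [e, Real.sin_neg, abs_neg, abs_of_nonneg]
        refine Real.sin_nonneg_of_nonneg_of_le_pi (by positivity) ?_
        rw [div_div, div_le_iff₀ (by positivity)]
        nlinarith [Real.pi_pos]
    rw [h1]
    have h2 : |t| / p / 2 ≤ Real.pi / 2 := by
      rw [div_div, div_le_iff₀ (by positivity)]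
      nlinarith [Real.pi_pos]
    have h3 := Real.mul_le_sin (x := |t| / p / 2) (by positivity) h2
    calc |t| / p / Real.pi = 2 / Real.pi * (|t| / p / 2) := by ring
      _ ≤ _ := h3
  have h4 := congrArg abs (Dir_sin p k t)
  rw [abs_mul, abs_mul, abs_of_pos (by positivity : (0:ℝ) < 2 * k + 1)] at h4
  have h5 : |Real.sin ((2 * (k : ℝ) + 1) * (t / p / 2))| ≤ 1 := Real.abs_sin_le_one _
  rw [← h4] at h5
  have h6 : (2 * (k : ℝ) + 1) * |Dir p k t| * (|t| / p / Real.pi) ≤ 1 :=
    (mul_le_mul_of_nonneg_left hs (by positivity)).trans h5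
  have h7 : (2 * (k : ℝ) + 1) * |Dir p k t| * (|t| / p / Real.pi) =
      (|Dir p k t| * ((2 * k + 1) * |t|)) / (Real.pi * p) := by field_simp
  rw [h7, div_le_one (by positivity)] at h6
  exact h6

/-- `log (e + E)` -/
noncomputable def LL (E : ℝ) : ℝ := Real.log (Real.exp 1 + E)

lemma one_le_LL {E : ℝ} (hE : 0 ≤ E) : 1 ≤ LL E := by
  unfold LL
  rw [Real.le_log_iff_exp_le (by have := Real.exp_pos 1; linarith)]
  linarith

/-- exponential weight -/
noncomputable def wt (ε E u : ℝ) : ℝ := Real.exp (ε * min |u| E / LL E)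

lemma prod_ge {ι : Type*} (s : Finset ι) (f y : ι → ℝ) (h0 : ∀ i ∈ s, 0 ≤ f i) (h1 : ∀ i ∈ s, f i ≤ 1)
    (hy : ∀ i ∈ s, 1 - y i ≤ f i) : 1 - ∑ i ∈ s, y i ≤ ∏ i ∈ s, f i := by
  classical
  induction s using Finset.induction_on with
  | empty => simp
  | insert a s ha ih =>
    rw [Finset.sum_insert ha, Finset.prod_insert ha]
    have ih' := ih (fun i hi => h0 i (by simp [hi])) (fun i hi => h1 i (by simp [hi]))
      (fun i hi => hy i (by simp [hi]))
    have ha0 := h0 a (by simp)
    have ha1 := h1 a (by simp)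
    have hay := hy a (by simp)
    have hP0 : 0 ≤ ∏ i ∈ s, f i := Finset.prod_nonneg fun i hi => h0 i (by simp [hi])
    have hP1 : ∏ i ∈ s, f i ≤ 1 := Finset.prod_le_one (fun i hi => h0 i (by simp [hi]))
      (fun i hi => h1 i (by simp [hi]))
    nlinarith

theorem kernel_exists (a b : ℝ) (ha : 0 < a) (ha1 : a ≤ 1) (hb : 0 < b) (p : ℕ) (hp : 0 < p)
    (E : ℝ) (hE : 1 ≤ E) :
    ∃ (K : ℝ → ℝ) (D : ℕ), RTP p D K ∧ (D : ℝ) ≤ (8 * b + 2 * a) * p ∧ (∀ t, 0 ≤ K t) ∧ (∀ t, K t ≤ 1) ∧
      K 0 = 1 ∧ (∀ t, K (-t) = K t) ∧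
      (∀ t, |t| ≤ Real.pi * p → K t * ((1 + |t|) ^ 8 * wt (a / 10) E t) ≤ 4 * (1 + Real.pi / b) ^ 8) ∧
      (∀ t, 1 - (a ^ 2 / (2 * LL E) + 4 * b ^ 2) * t ^ 2 ≤ K t) := by
  have hpr : (0 : ℝ) < p := by exact_mod_cast hp
  have hL1 := one_le_LL (by linarith : (0:ℝ) ≤ E)
  set L := LL E with hL
  set H := 2 * L with hH
  have hHpos : 0 < H := by positivity
  set J := ⌈E⌉₊ with hJ
  set k0 := ⌊b * p⌋₊ with hk0
  set kk : ℕ → ℕ := fun j => ⌊a * p / ((j + 1) * H)⌋₊ with hkk
  have hharm : ∑ j ∈ Finset.range J, (1 / ((j : ℝ) + 1)) ≤ H := by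
    have h1 : ∑ j ∈ Finset.range J, (1 / ((j : ℝ) + 1)) = ((harmonic J : ℚ) : ℝ) := by
      rw [harmonic]; push_cast
      refine Finset.sum_congr rfl fun j _ => by rw [one_div]
    rw [h1]
    have h2 := harmonic_le_one_add_log J
    have h3 : Real.log J ≤ L := by
      rw [hL, LL]
      have hJpos : (0 : ℝ) < J := by
        rw [hJ]; exact_mod_cast Nat.ceil_pos.2 (by linarith)
      refine Real.log_le_log hJpos ?_
      have h4 : (J : ℝ) < E + 1 := Nat.ceil_lt_add_one (by linarith)
      have h5 : (1 : ℝ) ≤ Real.exp 1 := Real.one_le_exp (by norm_num)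
      linarith
    linarith
  have hkkle : ∀ j, ((kk j : ℕ) : ℝ) ≤ a * p / ((j + 1) * H) := fun j => Nat.floor_le (by positivity)
  have hkkge : ∀ j, a * p / ((j + 1) * H) ≤ 2 * ((kk j : ℕ) : ℝ) + 1 := fun j => by
    have h1 := Nat.lt_floor_add_one (a * p / ((j + 1) * H))
    have h2 : (0 : ℝ) ≤ ((kk j : ℕ) : ℝ) := by positivity
    have h3 : ((kk j : ℕ) : ℝ) = (⌊a * p / ((j + 1) * H)⌋₊ : ℝ) := rfl
    linarith
  have hk0le : (k0 : ℝ) ≤ b * p := Nat.floor_le (by positivity)
  have hk0ge : b * p ≤ 2 * (k0 : ℝ) + 1 := by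
    have h1 := Nat.lt_floor_add_one (b * (p : ℝ))
    have h2 : (0 : ℝ) ≤ (k0 : ℝ) := by positivity
    have h3 : (k0 : ℝ) = (⌊b * (p : ℝ)⌋₊ : ℝ) := rfl
    linarith
  set K : ℝ → ℝ := fun t => Dir p k0 t ^ 8 * ∏ j ∈ Finset.range J, Dir p (kk j) t ^ 2 with hK
  set D : ℕ := 8 * k0 + ∑ j ∈ Finset.range J, 2 * kk j with hD
  have hP0 : ∀ t, 0 ≤ ∏ j ∈ Finset.range J, Dir p (kk j) t ^ 2 := fun t =>
    Finset.prod_nonneg fun j _ => by positivity
  have hsq1 : ∀ k t, Dir p k t ^ 2 ≤ 1 := fun k t => by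
    have := Dir_abs_le p k t
    rw [← sq_abs]; nlinarith [abs_nonneg (Dir p k t)]
  have hP1 : ∀ t, ∏ j ∈ Finset.range J, Dir p (kk j) t ^ 2 ≤ 1 := fun t =>
    Finset.prod_le_one (fun j _ => by positivity) fun j _ => hsq1 _ _
  have h80 : ∀ t, 0 ≤ Dir p k0 t ^ 8 := fun t => by positivity
  have h81 : ∀ t, Dir p k0 t ^ 8 ≤ 1 := fun t => by
    have e : Dir p k0 t ^ 8 = (Dir p k0 t ^ 2) ^ 4 := by ring
    rw [e]; exact pow_le_one₀ (by positivity) (hsq1 _ _)
  refine ⟨K, D, ?_, ?_, ?_, ?_, ?_, ?_, ?_, ?_⟩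
  · exact ((Dir_rtp p k0).pow 8).mul (RTP.prod _ _ _ fun j _ => (Dir_rtp p (kk j)).pow 2)
  · rw [hD]; push_cast
    have h1 : ∑ j ∈ Finset.range J, 2 * ((kk j : ℕ) : ℝ) ≤ 2 * a * p := by
      calc ∑ j ∈ Finset.range J, 2 * ((kk j : ℕ) : ℝ)
          ≤ ∑ j ∈ Finset.range J, (2 * a * p / H) * (1 / ((j : ℝ) + 1)) := by
            refine Finset.sum_le_sum fun j _ => ?_
            have := hkkle j
            calc 2 * ((kk j : ℕ) : ℝ) ≤ 2 * (a * p / ((j + 1) * H)) := by linarith
              _ = _ := by field_simp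
        _ = (2 * a * p / H) * ∑ j ∈ Finset.range J, (1 / ((j : ℝ) + 1)) := by rw [Finset.mul_sum]
        _ ≤ (2 * a * p / H) * H := by gcongr
        _ = 2 * a * p := by field_simp
    nlinarith
  · exact fun t => mul_nonneg (h80 t) (hP0 t)
  · exact fun t => mul_le_one₀ (h81 t) (hP0 t) (hP1 t)
  · simp [hK, Dir_zero]
  · intro t; simp [hK, Dir_even]
  · intro t ht
    -- polynomial part
    have hpoly : Dir p k0 t ^ 8 * (1 + |t|) ^ 8 ≤ (1 + Real.pi / b) ^ 8 := by
      have h1 : |Dir p k0 t| * (1 + |t|) ≤ 1 + Real.pi / b := by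
        have h2 := Dir_decay p k0 hp t ht
        have h3 := Dir_abs_le p k0 t
        have h4 : |Dir p k0 t| * ((b * p) * |t|) ≤ Real.pi * p := by
          refine le_trans ?_ h2
          gcongr
        have h5 : |Dir p k0 t| * |t| ≤ Real.pi / b := by
          rw [le_div_iff₀ hb]
          have : (|Dir p k0 t| * |t| * b) * p ≤ Real.pi * p := by nlinarith
          exact le_of_mul_le_mul_right this hpr
        linarith
      calc Dir p k0 t ^ 8 * (1 + |t|) ^ 8 = (|Dir p k0 t| * (1 + |t|)) ^ 8 := by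
            rw [mul_pow]; congr 1
            have : |Dir p k0 t| ^ 8 = (|Dir p k0 t| ^ 2) ^ 4 := by ring
            rw [this, sq_abs]; ring
        _ ≤ _ := by gcongr
    -- exponential part
    have hexp : (∏ j ∈ Finset.range J, Dir p (kk j) t ^ 2) * wt (a / 10) E t ≤ 4 := by
      set n := ⌊a * |t| / (2 * Real.pi * H)⌋₊ with hn
      have hprod : (∏ j ∈ Finset.range J, Dir p (kk j) t ^ 2) ≤ (1 / 4 : ℝ) ^ (min J n) := by
        have h1 : (∏ j ∈ Finset.range J, Dir p (kk j) t ^ 2) ≤
            ∏ j ∈ Finset.range (min J n), Dir p (kk j) t ^ 2 := by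
          rw [← Finset.prod_sdiff (Finset.range_subset_range.2 (min_le_left J n))]
          have h2 : ∏ j ∈ Finset.range J \ Finset.range (min J n), Dir p (kk j) t ^ 2 ≤ 1 :=
            Finset.prod_le_one (fun j _ => by positivity) fun j _ => hsq1 _ _
          exact mul_le_of_le_one_left (Finset.prod_nonneg fun j _ => by positivity) h2
        refine h1.trans ?_
        calc ∏ j ∈ Finset.range (min J n), Dir p (kk j) t ^ 2
            ≤ ∏ j ∈ Finset.range (min J n), (1 / 4 : ℝ) := by
              refine Finset.prod_le_prod (fun j _ => by positivity) fun j hj => ?_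
              have hjn : j + 1 ≤ n := by
                have := Finset.mem_range.1 hj
                have := min_le_right J n
                omega
              have hnr : ((j : ℝ) + 1) ≤ a * |t| / (2 * Real.pi * H) := by
                have h3 : (n : ℝ) ≤ a * |t| / (2 * Real.pi * H) := Nat.floor_le (by positivity)
                have h4 : ((j : ℝ) + 1) ≤ n := by exact_mod_cast hjn
                linarith
              have h5 := Dir_decay p (kk j) hp t ht
              have h6 : |Dir p (kk j) t| * ((a * p / ((j + 1) * H)) * |t|) ≤ Real.pi * p := by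
                refine le_trans ?_ h5
                have := hkkge j
                gcongr
              have h7 : 2 * Real.pi ≤ (a / ((j + 1) * H)) * |t| := by
                rw [div_mul_eq_mul_div, le_div_iff₀ (by positivity)]
                rw [le_div_iff₀ (by positivity)] at hnr
                nlinarith
              have h8 : |Dir p (kk j) t| * (2 * Real.pi) ≤ Real.pi := by
                have h9 : |Dir p (kk j) t| * (2 * Real.pi) ≤ |Dir p (kk j) t| * ((a / ((j + 1) * H)) * |t|) := by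
                  gcongr
                have h10 : |Dir p (kk j) t| * ((a / ((j + 1) * H)) * |t|) * p ≤ Real.pi * p := by
                  calc |Dir p (kk j) t| * ((a / ((j + 1) * H)) * |t|) * p
                      = |Dir p (kk j) t| * ((a * p / ((j + 1) * H)) * |t|) := by ring
                    _ ≤ _ := h6
                have h11 := le_of_mul_le_mul_right h10 hpr
                linarith
              have h12 : |Dir p (kk j) t| ≤ 1 / 2 := by
                have := Real.pi_pos
                nlinarith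
              rw [← sq_abs]
              nlinarith [abs_nonneg (Dir p (kk j) t)]
          _ = (1 / 4 : ℝ) ^ (min J n) := by simp
      have h4exp : ∀ m : ℕ, (1 / 4 : ℝ) ^ m = Real.exp (-(m * Real.log 4)) := by
        intro m
        rw [Real.exp_neg, Real.exp_nat_mul, Real.exp_log (by norm_num)]
        simp
      have hlog4 : (1.386 : ℝ) ≤ Real.log 4 := by
        have : Real.log 4 = 2 * Real.log 2 := by
          rw [show (4:ℝ) = 2 ^ 2 by norm_num, Real.log_pow]; push_cast; ring
        rw [this]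
        have := Real.log_two_gt_d9
        linarith
      have hlog4' : Real.log 4 ≤ 1.4 := by
        have : Real.log 4 = 2 * Real.log 2 := by
          rw [show (4:ℝ) = 2 ^ 2 by norm_num, Real.log_pow]; push_cast; ring
        rw [this]
        have := Real.log_two_lt_d9
        linarith
      have hfin : (1 / 4 : ℝ) ^ (min J n) * wt (a / 10) E t ≤ 4 := by
        rw [h4exp, wt, ← Real.exp_add]
        have h4 : (4 : ℝ) = Real.exp (Real.log 4) := (Real.exp_log (by norm_num)).symm
        nth_rewrite 2 [h4]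
        rw [Real.exp_le_exp]
        rcases le_or_gt J n with h | h
        · rw [min_eq_left h]
          have h1 : E ≤ J := Nat.le_ceil E
          have h2 : a / 10 * min |t| E / LL E ≤ E := by
            rw [← hL, div_le_iff₀ (by positivity)]
            have h3 : min |t| E ≤ E := min_le_right _ _
            have h5 : 0 ≤ min |t| E := le_min (abs_nonneg _) (by linarith)
            nlinarith
          nlinarith
        · rw [min_eq_right h.le]
          have h1 := Nat.lt_floor_add_one (a * |t| / (2 * Real.pi * H))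
          rw [← hn] at h1
          have h2 : a / 10 * min |t| E / LL E ≤ a * |t| / (2 * Real.pi * H) * Real.log 4 := by
            rw [← hL, div_le_iff₀ (by positivity)]
            have h3 : min |t| E ≤ |t| := min_le_left _ _
            have h6 : 1 / 10 ≤ Real.log 4 * L / (2 * Real.pi * H) := by
              rw [le_div_iff₀ (by positivity), hH]
              have := Real.pi_lt_d2
              nlinarith
            calc a / 10 * min |t| E ≤ a / 10 * |t| := by gcongr
              _ = a * |t| * (1 / 10) := by ring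
              _ ≤ a * |t| * (Real.log 4 * L / (2 * Real.pi * H)) := by gcongr
              _ = _ := by ring
          nlinarith
      calc _ ≤ (1 / 4 : ℝ) ^ (min J n) * wt (a / 10) E t := by
            gcongr
            exact (Real.exp_pos _).le
        _ ≤ 4 := hfin
    have hw0 : 0 ≤ wt (a / 10) E t := (Real.exp_pos _).le
    calc K t * ((1 + |t|) ^ 8 * wt (a / 10) E t)
        = (Dir p k0 t ^ 8 * (1 + |t|) ^ 8) * ((∏ j ∈ Finset.range J, Dir p (kk j) t ^ 2) * wt (a / 10) E t) := by
          rw [hK]; ring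
      _ ≤ (1 + Real.pi / b) ^ 8 * 4 := by
          apply mul_le_mul hpoly hexp (mul_nonneg (hP0 t) hw0) (by positivity)
      _ = _ := by ring
  · intro t
    have hA : 1 - 4 * b ^ 2 * t ^ 2 ≤ Dir p k0 t ^ 8 := by
      have h1 := Dir_ge p k0 t
      set x := (k0 * (t / p)) ^ 2 with hx
      have hx0 : 0 ≤ x := by positivity
      have hxb : x ≤ b ^ 2 * t ^ 2 := by
        rw [hx]
        have : ((k0 : ℝ) * (t / p)) ^ 2 = ((k0 : ℝ) / p) ^ 2 * t ^ 2 := by ring
        rw [this]
        have h2 : (k0 : ℝ) / p ≤ b := by rw [div_le_iff₀ hpr]; exact hk0le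
        gcongr
      have h2 : 1 - 4 * x ≤ Dir p k0 t ^ 8 := by
        rcases le_or_gt x 2 with h3 | h3
        · have h4 : 0 ≤ 1 - x / 2 := by linarith
          have h5 : (1 - x / 2) ^ 8 ≤ Dir p k0 t ^ 8 := by gcongr
          have h6 := one_add_mul_le_pow (a := -(x / 2)) (by linarith) 8
          have h7 : (1 + -(x/2)) ^ 8 = (1 - x / 2) ^ 8 := by ring
          rw [h7] at h6
          push_cast at h6
          linarith
        · have := h80 t; linarith
      nlinarith
    have hB : 1 - a ^ 2 / H * t ^ 2 ≤ ∏ j ∈ Finset.range J, Dir p (kk j) t ^ 2 := by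
      have h1 := prod_ge (Finset.range J) (fun j => Dir p (kk j) t ^ 2)
        (fun j => (kk j * (t / p)) ^ 2) (fun j _ => by positivity) (fun j _ => hsq1 _ _) (by
          intro j _
          have h1 := Dir_ge p (kk j) t
          set x := ((kk j : ℝ) * (t / p)) ^ 2 with hx
          have hx0 : 0 ≤ x := by positivity
          rcases le_or_gt x 2 with h3 | h3
          · have h4 : 0 ≤ 1 - x / 2 := by linarith
            have h5 : (1 - x / 2) ^ 2 ≤ Dir p (kk j) t ^ 2 := by gcongr
            show 1 - x ≤ Dir p (kk j) t ^ 2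
            nlinarith
          · have : 0 ≤ Dir p (kk j) t ^ 2 := by positivity
            show 1 - x ≤ Dir p (kk j) t ^ 2
            linarith)
      refine le_trans ?_ h1
      have h2 : ∑ j ∈ Finset.range J, ((kk j : ℝ) * (t / p)) ^ 2 ≤ a ^ 2 / H * t ^ 2 := by
        calc ∑ j ∈ Finset.range J, ((kk j : ℝ) * (t / p)) ^ 2
            ≤ ∑ j ∈ Finset.range J, (a ^ 2 / H ^ 2 * t ^ 2) * (1 / ((j : ℝ) + 1)) := by
              refine Finset.sum_le_sum fun j _ => ?_
              have h3 : (kk j : ℝ) / p ≤ a / ((j + 1) * H) := by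
                rw [div_le_iff₀ hpr]
                have := hkkle j
                calc (kk j : ℝ) ≤ a * p / ((j + 1) * H) := this
                  _ = _ := by ring
              have h4 : ((kk j : ℝ) * (t / p)) ^ 2 = ((kk j : ℝ) / p) ^ 2 * t ^ 2 := by ring
              rw [h4]
              have h5 : ((kk j : ℝ) / p) ^ 2 ≤ (a / ((j + 1) * H)) ^ 2 := by gcongr
              have h6 : (a / (((j : ℝ) + 1) * H)) ^ 2 ≤ a ^ 2 / H ^ 2 * (1 / ((j : ℝ) + 1)) := by
                have h7 : (a / (((j : ℝ) + 1) * H)) ^ 2 = a ^ 2 / H ^ 2 * (1 / ((j : ℝ) + 1)) * (1 / ((j : ℝ) + 1)) := by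
                  field_simp
                rw [h7]
                refine mul_le_of_le_one_right (by positivity) ?_
                rw [div_le_one (by positivity)]
                have : (0 : ℝ) ≤ j := by positivity
                linarith
              calc ((kk j : ℝ) / p) ^ 2 * t ^ 2 ≤ (a ^ 2 / H ^ 2 * (1 / ((j : ℝ) + 1))) * t ^ 2 := by
                    gcongr; exact h5.trans h6
                _ = _ := by ring
          _ = (a ^ 2 / H ^ 2 * t ^ 2) * ∑ j ∈ Finset.range J, (1 / ((j : ℝ) + 1)) := by rw [Finset.mul_sum]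
          _ ≤ (a ^ 2 / H ^ 2 * t ^ 2) * H := by gcongr
          _ = _ := by field_simp
      linarith
    have h1 := h80 t
    have h2 := h81 t
    have h3 := hP0 t
    have h4 := hP1 t
    have h5 : 0 ≤ a ^ 2 / H * t ^ 2 := by positivity
    have h6 : 0 ≤ 4 * b ^ 2 * t ^ 2 := by positivity
    have e : (a ^ 2 / (2 * L) + 4 * b ^ 2) * t ^ 2 = a ^ 2 / H * t ^ 2 + 4 * b ^ 2 * t ^ 2 := by
      rw [hH]; ring
    rw [e]
    show _ ≤ Dir p k0 t ^ 8 * ∏ j ∈ Finset.range J, Dir p (kk j) t ^ 2
    nlinarith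

end Pool.Agent.Helper514.Cheb
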