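import Pool.Agent.Helper514.Cheb.TestF
import Pool.Agent.Helper514.Cheb.Count

set_option autoImplicit false

open Filter Topology MeasureTheory

namespace Pool.Agent.Helper514.Cheb

variable {p M : ℕ} {δ Y η κ : ℝ} {x : ℕ → ℝ}

lemma lower_count (δ κ₀ : ℝ) (hδ0 : 0 < δ) (hδ1 : δ ≤ 1) (hκ₀ : 0 < κ₀) :
    ∃ c₄ > 0, ∃ E₀ : ℝ, ∀ (p M : ℕ) (Y η κ : ℝ) (x : ℕ → ℝ), PConf p M δ Y η κ x → κ₀ ≤ κ →
      ∀ c : ℝ, 0 ≤ c → c ≤ Real.pi * p → E₀ ≤ ed p c →
        c₄ * (κ * ed p c) ≤ ((Finset.range (2 * M)).filter (fun i => |x i - c| < rr δ)).card := by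
  obtain ⟨c₀, hc₀, A, hA, p₀, hH⟩ := test_fun δ hδ0 hδ1
  have hpi := Real.pi_pos
  have hrr : 0 < rr δ := by unfold rr; positivity
  have hCB := one_le_CB2
  refine ⟨c₀ / (Real.pi * A), by positivity, p₀ * Real.pi + rr δ + Real.pi / c₀ * (2 * A + 2 * (CB2 * A) * (1 / κ₀ + 1)), ?_⟩
  intro p M Y η κ x h hκ c hc0 hc1 hE
  have hpr : (0 : ℝ) < p := by exact_mod_cast h.hp
  have hκ0 := h.hκ0
  have hedle : ed p c ≤ Real.pi * p := (min_le_left _ _).trans hc1
  have hbig : 0 ≤ Real.pi / c₀ * (2 * A + 2 * (CB2 * A) * (1 / κ₀ + 1)) := by positivity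
  have hp0 : p₀ ≤ p := by
    have h1 : (p₀ : ℝ) * Real.pi ≤ p * Real.pi := by linarith
    have h2 := le_of_mul_le_mul_right h1 hpi
    exact_mod_cast h2
  have hedr : rr δ ≤ ed p c := by
    have : 0 ≤ (p₀ : ℝ) * Real.pi := by positivity
    linarith
  obtain ⟨H, D, hHr, hD, hHneg, hHb, hHi⟩ := hH p hp0
  have hQ : RTP p D (fun t => H (t + (-c))) := hHr.shift (-c)
  have hb3 : ∀ u, |u| ≤ Real.pi * p → |H (c + u + -c)| ≤ A / (1 + |u|) ^ 3 := by
    intro u hu
    have e : c + u + -c = u := by ring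
    rw [e]
    refine (hHb u hu).trans ?_
    have := abs_nonneg u
    gcongr
    · linarith
    · norm_num
  have h1 := (h.sum_bound hQ hD c A hA.le hb3).1
  -- integral lower bound
  have h2 : c₀ * ww p c - 2 * A ≤ ∫ t in (-(Real.pi * p))..(Real.pi * p), H (t + -c) * ww p t := by
    have hper : Function.Periodic (fun t => H (t + -c) * ww p t) (2 * Real.pi * p) := by
      intro t
      simp only
      rw [ww_periodic h.hp, show t + 2 * Real.pi * p + -c = (t + -c) + 2 * Real.pi * p by ring, hHr.periodic h.hp]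
    have e1 : ∫ t in (-(Real.pi * p))..(Real.pi * p), H (t + -c) * ww p t =
        ∫ t in (c - Real.pi * p)..(c + Real.pi * p), H (t + -c) * ww p t := by
      have := hper.intervalIntegral_add_eq (-(Real.pi * p)) (c - Real.pi * p)
      have e1 : -(Real.pi * p) + 2 * Real.pi * p = Real.pi * p := by ring
      have e2 : c - Real.pi * p + 2 * Real.pi * p = c + Real.pi * p := by ring
      rwa [e1, e2] at this
    have e2 : ∫ t in (c - Real.pi * p)..(c + Real.pi * p), H (t + -c) * ww p t =
        ∫ u in (-(Real.pi * p))..(Real.pi * p), H u * ww p (c + u) := by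
      have h5 := intervalIntegral.integral_comp_add_left (fun t => H (t + -c) * ww p t) c (a := -(Real.pi * p)) (b := Real.pi * p)
      rw [show c + -(Real.pi * p) = c - Real.pi * p by ring] at h5
      rw [← h5]
      congr 1; funext u; rw [show c + u + -c = u by ring]
    rw [e1, e2]
    have hcH := hHr.continuous
    have hcont3 : Continuous fun u : ℝ => 1 / (1 + |u|) ^ 2 := by
      apply Continuous.div continuous_const (by fun_prop)
      intro u; have := abs_nonneg u; positivity
    have hP : 0 ≤ Real.pi * (p : ℝ) := by positivity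
    have h3 : ∫ u in (-(Real.pi * p))..(Real.pi * p), (ww p c * H u - A * (1 / (1 + |u|) ^ 2)) ≤
        ∫ u in (-(Real.pi * p))..(Real.pi * p), H u * ww p (c + u) := by
      apply intervalIntegral.integral_mono_on (by linarith)
      · exact ((continuous_const.mul hcH).sub (continuous_const.mul hcont3)).intervalIntegrable _ _
      · have hw := ww_continuous p
        exact (hcH.mul (hw.comp (continuous_const.add continuous_id))).intervalIntegrable _ _
      · intro u hu
        have hu' : |u| ≤ Real.pi * p := abs_le.2 ⟨hu.1, hu.2⟩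
        have h4 := ww_lip p (c + u) c
        rw [add_sub_cancel_left] at h4
        have h5 := hHb u hu'
        have hu0 := abs_nonneg u
        have h6 : |H u| * |u| ≤ A * (1 / (1 + |u|) ^ 2) := by
          calc |H u| * |u| ≤ (A / (1 + |u|) ^ 4) * (1 + |u|) ^ 2 := by
                gcongr
                nlinarith
            _ = A * (1 / (1 + |u|) ^ 2) := by field_simp
        have h7 : |H u * (ww p (c + u) - ww p c)| ≤ |H u| * |u| := by
          rw [abs_mul]; gcongr
        have h8 := (abs_le.1 (h7.trans h6)).1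
        nlinarith
    have h44 : ∫ u in (-(Real.pi * p))..(Real.pi * p), (ww p c * H u - A * (1 / (1 + |u|) ^ 2)) =
        ww p c * (∫ u in (-(Real.pi * p))..(Real.pi * p), H u) - A * ∫ u in (-(Real.pi * p))..(Real.pi * p), 1 / (1 + |u|) ^ 2 := by
      rw [← intervalIntegral.integral_const_mul, ← intervalIntegral.integral_const_mul]
      exact intervalIntegral.integral_sub ((continuous_const.mul hcH).intervalIntegrable _ _)
        ((continuous_const.mul hcont3).intervalIntegrable _ _)
    rw [h44] at h3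
    have h5 := int_inv_sq (Real.pi * p) hP
    have h6 := ww_nonneg p c
    have h7 : ww p c * c₀ ≤ ww p c * ∫ u in (-(Real.pi * p))..(Real.pi * p), H u := by gcongr
    have h8 : A * ∫ u in (-(Real.pi * p))..(Real.pi * p), 1 / (1 + |u|) ^ 2 ≤ A * 2 := by gcongr
    linarith
  -- upper bound of the sum
  have h3 : ∑ i ∈ Finset.range (2 * M), (H (x i + -c) + H (-x i + -c)) ≤
      A * ((Finset.range (2 * M)).filter (fun i => |x i - c| < rr δ)).card := by
    rw [Finset.card_filter]
    push_cast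
    rw [Finset.mul_sum]
    refine Finset.sum_le_sum fun i _ => ?_
    have hxi := h.mem i
    have hec1 : ed p c ≤ c := min_le_left _ _
    have hec2 : ed p c ≤ Real.pi * p - c := min_le_right _ _
    have hneg : H (-x i + -c) ≤ 0 := by
      rcases le_total (x i + c) (Real.pi * p) with h4 | h4
      · apply hHneg
        · rw [show -x i + -c = -(x i + c) by ring, abs_neg, abs_of_nonneg (by linarith)]; linarith
        · rw [show -x i + -c = -(x i + c) by ring, abs_neg, abs_of_nonneg (by linarith)]; exact h4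
      · rw [← hHr.periodic h.hp]
        apply hHneg
        · rw [abs_of_nonneg (by linarith)]; linarith
        · rw [abs_of_nonneg (by linarith)]; linarith
    have habs : |x i - c| ≤ Real.pi * p := by rw [abs_le]; constructor <;> linarith
    rw [← sub_eq_add_neg]
    split_ifs with h5
    · have h6 := (le_abs_self _).trans (hHb (x i - c) habs)
      have h7 : A / (1 + |x i - c|) ^ 4 ≤ A := by
        apply div_le_self hA.le
        exact one_le_pow₀ (by linarith [abs_nonneg (x i - c)])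
      rw [mul_one]; linarith
    · have h6 := hHneg (x i - c) (not_lt.1 h5) habs
      rw [mul_zero]; linarith
  have h4 := (abs_le.1 h1).1
  have h5 := ed_le_ww h.hp hc0 hc1
  set n := (((Finset.range (2 * M)).filter (fun i => |x i - c| < rr δ)).card : ℝ)
  have h6 : κ * (c₀ * ww p c - 2 * A) - 2 * (CB2 * A) * (1 + κ) ≤ A * n := by
    have : κ * (c₀ * ww p c - 2 * A) ≤ κ * ∫ t in (-(Real.pi * p))..(Real.pi * p), H (t + -c) * ww p t := by gcongr
    linarith
  have h7 : (1 : ℝ) ≤ κ * (1 / κ₀) := by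
    rw [mul_one_div, le_div_iff₀ hκ₀]; linarith
  have h8 : 2 * (CB2 * A) * (1 + κ) ≤ κ * (2 * (CB2 * A) * (1 / κ₀ + 1)) := by
    have : 2 * (CB2 * A) * (1 + κ) ≤ 2 * (CB2 * A) * (κ * (1 / κ₀) + κ) := by gcongr
    linarith
  have h9 : Real.pi / c₀ * (2 * A + 2 * (CB2 * A) * (1 / κ₀ + 1)) ≤ ed p c := by
    have : 0 ≤ (p₀ : ℝ) * Real.pi := by positivity
    linarith
  have h10 : 2 * A + 2 * (CB2 * A) * (1 / κ₀ + 1) ≤ c₀ / Real.pi * ed p c := by
    calc 2 * A + 2 * (CB2 * A) * (1 / κ₀ + 1) = c₀ / Real.pi * (Real.pi / c₀ * (2 * A + 2 * (CB2 * A) * (1 / κ₀ + 1))) := by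
          field_simp
      _ ≤ _ := by gcongr
  have h11 : c₀ * (2 / Real.pi * ed p c) ≤ c₀ * ww p c := by gcongr
  have h12 : κ * (c₀ / Real.pi * ed p c) ≤ A * n := by
    have h13 : κ * (c₀ / Real.pi * ed p c) ≤ κ * (c₀ * ww p c - 2 * A - 2 * (CB2 * A) * (1 / κ₀ + 1)) := by
      gcongr
      have : c₀ * (2 / Real.pi * ed p c) = 2 * (c₀ / Real.pi * ed p c) := by ring
      linarith
    linarith
  calc c₀ / (Real.pi * A) * (κ * ed p c) = (κ * (c₀ / Real.pi * ed p c)) / A := by field_simp
    _ ≤ n := by rw [div_le_iff₀ hA]; linarith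

/-- bounds for derivatives at a good point -/
lemma good_deriv_bounds (hp : 0 < p) {f : ℝ → ℝ} (hf : RTP p p f) {T ε : ℝ} (hε0 : 0 ≤ ε) (hε : ε ≤ 1 / 100)
    (hE : 1 ≤ ed p T) (h1 : |deriv f T| = 1) (hg : GoodAt p ε f T) (t : ℝ) :
    |deriv f t| ≤ (1 + |t - T|) ^ 2 * wt ε (ed p T) (t - T) ∧
    |deriv (deriv f) t| ≤ CB2 * ((1 + |t - T|) ^ 2 * wt ε (ed p T) (t - T)) ∧
    |deriv (deriv (deriv f)) t| ≤ CB2 ^ 2 * ((1 + |t - T|) ^ 2 * wt ε (ed p T) (t - T)) := by
  have hpr : (0 : ℝ) < p := by exact_mod_cast hp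
  have hCB := one_le_CB
  have hCB2 := one_le_CB2
  have ha : ∀ t, |deriv f t| ≤ (1 + |t - T|) ^ 2 * wt ε (ed p T) (t - T) := by
    intro t
    have := hg t
    rwa [h1, one_mul] at this
  have hstep : ∀ (P : ℝ → ℝ) (C : ℝ), 0 ≤ C → RTP p p P →
      (∀ t, |P t| ≤ C * ((1 + |t - T|) ^ 2 * wt ε (ed p T) (t - T))) →
      ∀ t, |deriv P t| ≤ CB2 * (C * ((1 + |t - T|) ^ 2 * wt ε (ed p T) (t - T))) := by
    intro P C hC hP hb t
    have hw := wt_pos ε (ed p T) (t - T)
    have h2 := WB hp hP (E := ed p T) (ε := ε) (u := t) (A := C * ((1 + |t - T|) ^ 2 * wt ε (ed p T) (t - T))) hE hε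
      (by positivity) (by
        intro s
        refine (hb s).trans ?_
        have h3 : wt ε (ed p T) (s - T) ≤ wt ε (ed p T) (s - t) * wt ε (ed p T) (t - T) := by
          have := wt_submul (ε := ε) (E := ed p T) (u := s - t) (v := t - T) hε0 hE
          rwa [show s - t + (t - T) = s - T by ring] at this
        have h4 : (1 + |s - T|) ≤ (1 + |s - t|) * (1 + |t - T|) := by
          have := abs_sub_le s t T
          nlinarith [abs_nonneg (s - t), abs_nonneg (t - T)]
        have h5 : (1 + |s - T|) ^ 2 ≤ (1 + |s - t|) ^ 8 * (1 + |t - T|) ^ 2 := by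
          calc (1 + |s - T|) ^ 2 ≤ ((1 + |s - t|) * (1 + |t - T|)) ^ 2 := by
                have := abs_nonneg (s - T); gcongr
            _ = (1 + |s - t|) ^ 2 * (1 + |t - T|) ^ 2 := by rw [mul_pow]
            _ ≤ _ := by
                have := abs_nonneg (s - t)
                gcongr
                · linarith
                · norm_num
        have hw2 := wt_pos ε (ed p T) (s - T)
        have hw3 := wt_pos ε (ed p T) (s - t)
        calc C * ((1 + |s - T|) ^ 2 * wt ε (ed p T) (s - T))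
            ≤ C * (((1 + |s - t|) ^ 8 * (1 + |t - T|) ^ 2) * (wt ε (ed p T) (s - t) * wt ε (ed p T) (t - T))) := by
              gcongr
          _ = _ := by ring)
    refine h2.trans ?_
    have h3 : Real.exp ((p : ℝ) / p) ≤ Real.exp 2 := by
      rw [div_self hpr.ne', Real.exp_le_exp]; norm_num
    calc CB * (C * ((1 + |t - T|) ^ 2 * wt ε (ed p T) (t - T))) * Real.exp ((p : ℝ) / p)
        ≤ CB * (C * ((1 + |t - T|) ^ 2 * wt ε (ed p T) (t - T))) * Real.exp 2 := by gcongr
      _ = _ := by rw [CB2]; ring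
  have hb := hstep (deriv f) 1 zero_le_one hf.deriv (by intro t; rw [one_mul]; exact ha t)
  have hb' : ∀ t, |deriv (deriv f) t| ≤ CB2 * ((1 + |t - T|) ^ 2 * wt ε (ed p T) (t - T)) := by
    intro t; have := hb t; rwa [one_mul] at this
  have hc := hstep (deriv (deriv f)) CB2 (by linarith) hf.deriv.deriv hb'
  refine ⟨ha t, hb' t, ?_⟩
  refine (hc t).trans (le_of_eq ?_)
  ring

lemma sum_pairs (F : ℕ → ℝ) (M : ℕ) :
    ∑ i ∈ Finset.range (2 * M), F i = ∑ m ∈ Finset.range M, (F (2 * m) + F (2 * m + 1)) := by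
  induction M with
  | zero => simp
  | succ M ih =>
    rw [show 2 * (M + 1) = 2 * M + 1 + 1 by ring, Finset.sum_range_succ, Finset.sum_range_succ,
      Finset.sum_range_succ, ih]
    ring

lemma big_gap (hx : Monotone x) (M : ℕ) (g R T : ℝ) (hg : 0 < g) (hR : 0 ≤ R) :
    (((Finset.range M).filter (fun m => g < x (2 * m + 1) - x (2 * m) ∧
      (|x (2 * m) - T| ≤ R ∨ |x (2 * m + 1) - T| ≤ R))).card : ℝ) * g ≤ 2 * R + 2 * g := by
  set c : ℝ → ℝ := fun t => max (T - R - g) (min t (T + R + g)) with hc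
  have hcm : Monotone c := fun a b hab => max_le_max le_rfl (min_le_min hab le_rfl)
  have hc1 : ∀ t, T - R - g ≤ c t := fun t => le_max_left _ _
  have hc2 : ∀ t, c t ≤ T + R + g := fun t => max_le (by linarith) (min_le_right _ _)
  have htel : ∀ M : ℕ, ∑ m ∈ Finset.range M, (c (x (2 * m + 1)) - c (x (2 * m))) ≤ c (x (2 * M)) - c (x 0) := by
    intro M
    induction M with
    | zero => simp
    | succ M ih =>
      rw [Finset.sum_range_succ]
      have h1 : c (x (2 * M + 1)) ≤ c (x (2 * (M + 1))) := hcm (hx (by omega))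
      linarith
  have h1 : ∑ m ∈ (Finset.range M).filter (fun m => g < x (2 * m + 1) - x (2 * m) ∧
      (|x (2 * m) - T| ≤ R ∨ |x (2 * m + 1) - T| ≤ R)), g ≤
      ∑ m ∈ Finset.range M, (c (x (2 * m + 1)) - c (x (2 * m))) := by
    rw [Finset.sum_filter]
    refine Finset.sum_le_sum fun m _ => ?_
    have hmono : c (x (2 * m)) ≤ c (x (2 * m + 1)) := hcm (hx (by omega))
    split_ifs with h2
    · obtain ⟨h3, h4⟩ := h2
      rcases h4 with h4 | h4
      · have h5 := abs_le.1 h4
        have e1 : c (x (2 * m)) = x (2 * m) := by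
          simp only [hc]
          rw [min_eq_left (by linarith), max_eq_right (by linarith)]
        have e2 : x (2 * m) + g ≤ c (x (2 * m + 1)) := by
          simp only [hc]
          exact le_trans (le_min (by linarith) (by linarith)) (le_max_right _ _)
        linarith
      · have h5 := abs_le.1 h4
        have e1 : c (x (2 * m + 1)) = x (2 * m + 1) := by
          simp only [hc]
          rw [min_eq_left (by linarith), max_eq_right (by linarith)]
        have e2 : c (x (2 * m)) ≤ x (2 * m + 1) - g := by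
          simp only [hc]
          exact max_le (by linarith) ((min_le_left _ _).trans (by linarith))
        linarith
    · linarith
  rw [Finset.sum_const, nsmul_eq_mul] at h1
  have h2 := htel M
  have h3 := hc2 (x (2 * M))
  have h4 := hc1 (x 0)
  linarith

def GainProp (h : ℝ) (f : ℝ → ℝ) (x : ℕ → ℝ) (M : ℕ) (G : ℕ → ℝ) : Prop :=
  ∀ m < M, ∀ S₀ B₃ : ℝ, 0 < S₀ → 0 ≤ B₃ →
    (∀ t, x (2 * m) - 2 ≤ t → t ≤ x (2 * m + 1) + 2 →
      |deriv f t| + |deriv (deriv f) t| ≤ S₀ ∧ |deriv (deriv (deriv f)) t| ≤ B₃) →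
    ∀ y, (y = x (2 * m) ∨ y = x (2 * m + 1)) →
      h ^ 2 * (max 0 (deriv (deriv f) y - B₃ * (x (2 * m + 1) - x (2 * m) + h))) ^ 3 ≤ S₀ ^ 2 * G m ∧
      (max 0 (|deriv f y| - h * S₀)) ^ 2 ≤ 2 * S₀ * G m

end Pool.Agent.Helper514.Cheb
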