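import Mathlib

set_option autoImplicit false

open Filter Topology Metric

namespace Pool.Agent.Helper514.Cheb

/-- normal families: entire functions of bounded type bounded on the real axis -/
theorem NF (σ M : ℝ) (hσ : 0 ≤ σ) (G : ℕ → ℂ → ℂ) (hd : ∀ n, Differentiable ℂ (G n))
    (hb : ∀ n z, ‖G n z‖ ≤ M * Real.exp (σ * |z.im|)) :
    ∃ φ : ℕ → ℕ, StrictMono φ ∧ ∃ g : ℂ → ℂ, Differentiable ℂ g ∧
      (∀ z, ‖g z‖ ≤ M * Real.exp (σ * |z.im|)) ∧
      (∀ (u : ℕ → ℂ) (y : ℂ), Tendsto u atTop (𝓝 y) →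
        Tendsto (fun n => G (φ n) (u n)) atTop (𝓝 (g y)) ∧
        Tendsto (fun n => deriv (G (φ n)) (u n)) atTop (𝓝 (deriv g y))) := by
  have hM : 0 ≤ M := by
    have := (norm_nonneg _).trans (hb 0 0)
    simpa using this
  -- coefficients
  set a : ℕ → ℕ → ℂ := fun n k => ((k.factorial : ℂ))⁻¹ * iteratedDeriv k (G n) 0 with ha
  have hab : ∀ n k, ∀ r : ℝ, 0 < r → ‖a n k‖ ≤ M * Real.exp (σ * r) / r ^ k := by
    intro n k r hr
    have h1 := Complex.norm_iteratedDeriv_le_of_forall_mem_sphere_norm_le (c := (0:ℂ)) k hr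
      ((hd n).diffContOnCl) (C := M * Real.exp (σ * r)) (by
        intro z hz
        refine (hb n z).trans ?_
        have h2 : ‖z‖ = r := by simpa using hz
        have h3 := Complex.abs_im_le_norm z
        rw [h2] at h3
        gcongr)
    show ‖((k.factorial : ℂ))⁻¹ * iteratedDeriv k (G n) 0‖ ≤ _
    rw [norm_mul, norm_inv, Complex.norm_natCast]
    have hk : (0 : ℝ) < k.factorial := by exact_mod_cast Nat.factorial_pos k
    rw [inv_mul_le_iff₀ hk]
    calc _ ≤ _ := h1
      _ = _ := by ring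
  have hseries : ∀ n z, HasSum (fun k => a n k * z ^ k) (G n z) := by
    intro n z
    have h := Complex.hasSum_taylorSeries_of_entire (hd n) 0 z
    have e : (fun k => a n k * z ^ k) =
        (fun k : ℕ => (k.factorial : ℂ)⁻¹ • (z - 0) ^ k • iteratedDeriv k (G n) 0) := by
      funext k
      show ((k.factorial : ℂ))⁻¹ * iteratedDeriv k (G n) 0 * z ^ k = _
      rw [sub_zero, smul_eq_mul, smul_eq_mul]; ring
    rw [e]; exact h
  -- extraction
  obtain ⟨α, -, φ, hφ, hlim⟩ := (isCompact_univ_pi (fun k : ℕ =>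
      isCompact_closedBall (0 : ℂ) (M * Real.exp (σ * 1)))).tendsto_subseq (x := a) (by
        intro n k _
        have := hab n k 1 one_pos
        simpa using this)
  rw [tendsto_pi_nhds] at hlim
  have hαb : ∀ k, ∀ r : ℝ, 0 < r → ‖α k‖ ≤ M * Real.exp (σ * r) / r ^ k := by
    intro k r hr
    exact le_of_tendsto (hlim k).norm (Eventually.of_forall fun n => hab _ _ r hr)
  -- domination
  have hdom : ∀ (R : ℝ), 0 < R → ∀ n k, ‖a n k - α k‖ * R ^ k ≤ 2 * (M * Real.exp (σ * (2 * R))) * (1 / 2) ^ k := by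
    intro R hR n k
    have h1 := hab n k (2 * R) (by positivity)
    have h2 := hαb k (2 * R) (by positivity)
    have h3 : ‖a n k - α k‖ ≤ 2 * (M * Real.exp (σ * (2 * R))) / (2 * R) ^ k := by
      refine (norm_sub_le _ _).trans ?_
      rw [mul_div_assoc]; linarith
    calc ‖a n k - α k‖ * R ^ k ≤ 2 * (M * Real.exp (σ * (2 * R))) / (2 * R) ^ k * R ^ k := by gcongr
      _ = _ := by rw [mul_pow, one_div, inv_pow]; field_simp
  have hsum2 : ∀ R : ℝ, 0 < R → Summable fun k : ℕ => 2 * (M * Real.exp (σ * (2 * R))) * (1 / 2 : ℝ) ^ k :=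
    fun R _ => (summable_geometric_two).mul_left _
  have hαsum : ∀ z : ℂ, Summable fun k => α k * z ^ k := by
    intro z
    set R := ‖z‖ + 1 with hR
    have hR0 : 0 < R := by positivity
    refine Summable.of_norm_bounded (g := fun k : ℕ => (M * Real.exp (σ * (2 * R))) * (1 / 2 : ℝ) ^ k)
      (summable_geometric_two.mul_left _) ?_
    intro k
    have h2 := hαb k (2 * R) (by positivity)
    rw [norm_mul, norm_pow]
    calc ‖α k‖ * ‖z‖ ^ k ≤ M * Real.exp (σ * (2 * R)) / (2 * R) ^ k * R ^ k := by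
          gcongr; linarith
      _ = _ := by rw [mul_pow, one_div, inv_pow]; field_simp
  set g : ℂ → ℂ := fun z => ∑' k, α k * z ^ k with hg
  have hloc : TendstoLocallyUniformly (fun n => G (φ n)) g atTop := by
    rw [Metric.tendstoLocallyUniformly_iff]
    intro ε hε z0
    set R := ‖z0‖ + 1 with hR
    have hR0 : 0 < R := by positivity
    have h1 : Tendsto (fun n => ∑' k, ‖a (φ n) k - α k‖ * R ^ k) atTop (𝓝 (∑' k : ℕ, (0 : ℝ))) := by
      refine tendsto_tsum_of_dominated_convergence (hsum2 R hR0) ?_ ?_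
      · intro k
        have := ((hlim k).sub_const (α k)).norm.mul_const (R ^ k)
        simpa using this
      · refine Eventually.of_forall fun n k => ?_
        rw [Real.norm_of_nonneg (by positivity)]
        exact hdom R hR0 _ _
    rw [tsum_zero] at h1
    refine ⟨ball z0 1, ball_mem_nhds _ one_pos, ?_⟩
    filter_upwards [h1.eventually (gt_mem_nhds hε)] with n hn z hz
    have hz' : ‖z‖ ≤ R := by
      have : ‖z - z0‖ < 1 := by simpa [dist_eq_norm] using hz
      calc ‖z‖ = ‖(z - z0) + z0‖ := by ring_nf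
        _ ≤ ‖z - z0‖ + ‖z0‖ := norm_add_le _ _
        _ ≤ R := by linarith
    have h2 : g z - G (φ n) z = ∑' k, -((a (φ n) k - α k) * z ^ k) := by
      rw [hg, ← (hseries (φ n) z).tsum_eq, ← (hαsum z).tsum_sub (hseries (φ n) z).summable]
      refine tsum_congr fun k => by ring
    rw [dist_eq_norm, h2]
    have h3 : Summable fun k => ‖-((a (φ n) k - α k) * z ^ k)‖ := by
      refine Summable.of_nonneg_of_le (fun k => norm_nonneg _) (fun k => ?_) (hsum2 R hR0)
      rw [norm_neg, norm_mul, norm_pow]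
      refine le_trans ?_ (hdom R hR0 (φ n) k)
      gcongr
    refine (norm_tsum_le_tsum_norm h3).trans_lt (lt_of_le_of_lt ?_ hn)
    refine h3.tsum_le_tsum (fun k => ?_) ?_
    · rw [norm_neg, norm_mul, norm_pow]; gcongr
    · refine Summable.of_nonneg_of_le (fun k => by positivity) (fun k => hdom R hR0 (φ n) k) (hsum2 R hR0)
  have hlocOn : TendstoLocallyUniformlyOn (fun n => G (φ n)) g atTop Set.univ :=
    tendstoLocallyUniformlyOn_univ.2 hloc
  have hgd : Differentiable ℂ g := by
    have := hlocOn.differentiableOn (Eventually.of_forall fun n => (hd _).differentiableOn) isOpen_univ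
    exact fun z => (this z (Set.mem_univ z)).differentiableAt univ_mem
  have hder : TendstoLocallyUniformly (deriv ∘ fun n => G (φ n)) (deriv g) atTop :=
    tendstoLocallyUniformlyOn_univ.1
      (hlocOn.deriv (Eventually.of_forall fun n => (hd _).differentiableOn) isOpen_univ)
  have hmain : ∀ (u : ℕ → ℂ) (y : ℂ), Tendsto u atTop (𝓝 y) →
        Tendsto (fun n => G (φ n) (u n)) atTop (𝓝 (g y)) ∧
        Tendsto (fun n => deriv (G (φ n)) (u n)) atTop (𝓝 (deriv g y)) := by
    intro u y hu
    refine ⟨hloc.tendsto_comp hgd.continuous.continuousAt hu, ?_⟩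
    have h5 : Continuous (deriv g) := by
      have : ContDiff ℂ 1 g := hgd.contDiff
      exact this.continuous_deriv le_rfl
    exact hder.tendsto_comp h5.continuousAt hu
  refine ⟨φ, hφ, g, hgd, ?_, hmain⟩
  intro z
  exact le_of_tendsto (hmain (fun _ => z) z tendsto_const_nhds).1.norm
    (Eventually.of_forall fun n => hb _ z)

end Pool.Agent.Helper514.Cheb
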