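import Pool.Agent.Helper514.Cheb.WB
import Pool.Agent.Helper514.Cheb.NF
import Pool.Agent.Helper514.Cheb.Jens

set_option autoImplicit false

open Filter Topology

namespace Pool.Agent.Helper514.Cheb

noncomputable def ww (p : ℕ) (t : ℝ) : ℝ := p * |Real.sin (t / p)|

noncomputable def ed (p : ℕ) (t : ℝ) : ℝ := min t (Real.pi * p - t)

/-- `T` is a good point for `f` -/
def GoodAt (p : ℕ) (ε : ℝ) (f : ℝ → ℝ) (T : ℝ) : Prop :=
  ∀ s, |deriv f s| ≤ |deriv f T| * ((1 + |s - T|) ^ 2 * wt ε (ed p T) (s - T))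

lemma subseq_tendsto {α : Type*} [TopologicalSpace α] {β : Type*} [TopologicalSpace β] {A : ℕ → α → β} {y : α} {l : β}
    (H : ∀ u : ℕ → α, Tendsto u atTop (𝓝 y) → Tendsto (fun n => A n (u n)) atTop (𝓝 l))
    {ψ : ℕ → ℕ} (hψ : StrictMono ψ) {u : ℕ → α} (hu : Tendsto u atTop (𝓝 y)) :
    Tendsto (fun n => A (ψ n) (u n)) atTop (𝓝 l) := by
  set u' : ℕ → α := Function.extend ψ u (fun _ => y) with hu'
  have h1 : Tendsto u' atTop (𝓝 y) := by
    intro U hU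
    have h2 := hu hU
    rw [mem_map, mem_atTop_sets] at h2 ⊢
    obtain ⟨K, hK⟩ := h2
    refine ⟨ψ K, fun m hm => ?_⟩
    by_cases h3 : ∃ k, ψ k = m
    · obtain ⟨k, rfl⟩ := h3
      have h4 : u' (ψ k) = u k := hψ.injective.extend_apply _ _ _
      show u' (ψ k) ∈ U
      rw [h4]
      exact hK k (hψ.le_iff_le.1 hm)
    · show u' m ∈ U
      rw [hu', Function.extend_apply' _ _ _ h3]
      exact mem_of_mem_nhds hU
  have h2 := (H u' h1).comp hψ.tendsto_atTop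
  refine h2.congr fun n => ?_
  simp only [Function.comp_apply, hu', hψ.injective.extend_apply]

lemma TP.periodic_int {p D : ℕ} {f : ℂ → ℂ} (hp : 0 < p) (hf : TP p D f) (k : ℤ) (t : ℝ) :
    f ((t - k * (2 * Real.pi * p) : ℝ) : ℂ) = f t := by
  have h : Function.Periodic (fun t : ℝ => f t) (2 * Real.pi * p) := by
    intro t
    have := hf.periodic hp t
    push_cast; exact this
  have := h.sub_zsmul_eq (x := t) k
  simpa [zsmul_eq_mul] using this

/-- building the auxiliary function -/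
lemma aux_fun (p : ℕ) (hp : 0 < p) (a b : ℝ) (ha : 0 < a) (ha1 : a ≤ 1) (hb : 0 < b)
    (f : ℝ → ℝ) (hf : RTP p p f) (T E C₀ : ℝ) (hE : 1 ≤ E) (hC₀ : 0 ≤ C₀)
    (hg : ∀ s, |deriv f s| ≤ C₀ * ((1 + |s - T|) ^ 8 * wt (a / 10) E (s - T))) :
    ∃ (G : ℂ → ℂ) (K : ℝ → ℝ), Differentiable ℂ G ∧
      (∀ z, ‖G z‖ ≤ C₀ * (4 * (1 + Real.pi / b) ^ 8) * Real.exp ((1 + 8 * b + 2 * a) * |z.im|)) ∧
      (∀ t : ℝ, G t = ((deriv f (t + T) * K t : ℝ) : ℂ)) ∧ (∀ t, 0 ≤ K t ∧ K t ≤ 1) ∧ K 0 = 1 ∧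
      (∀ t, 1 - (a ^ 2 / (2 * LL E) + 4 * b ^ 2) * t ^ 2 ≤ K t) ∧
      (∀ t : ℝ, ‖deriv G t‖ ≤ |deriv (deriv f) (t + T)| + |deriv f (t + T)| * Real.exp (8 * b + 2 * a)) := by
  obtain ⟨K, D, hK, hD, hK0, hK1, hKz, hKe, hKd, hKq⟩ := kernel_exists a b ha ha1 hb p hp E hE
  have hpr : (0 : ℝ) < p := by exact_mod_cast hp
  obtain ⟨F1, hF1, hF1r⟩ := hf.deriv.shift T
  obtain ⟨Kc, hKc, hKcr⟩ := hK
  have hGT : TP p (p + D) (fun z => F1 z * Kc z) := hF1.mul hKc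
  have hGr : ∀ t : ℝ, (fun z => F1 z * Kc z) (t : ℂ) = ((deriv f (t + T) * K t : ℝ) : ℂ) := by
    intro t
    show F1 t * Kc t = _
    rw [hF1r, hKcr]; push_cast; ring
  have hCnn : 0 ≤ 4 * (1 + Real.pi / b) ^ 8 := by positivity
  have hGb : ∀ t : ℝ, ‖(fun z => F1 z * Kc z) (t : ℂ)‖ ≤ C₀ * (4 * (1 + Real.pi / b) ^ 8) := by
    intro t
    obtain ⟨k, hk⟩ := exists_rep hp 0 t
    have hper := TP.periodic_int hp hGT k t
    have hper2 : (fun z => F1 z * Kc z) (t : ℂ) = (fun z => F1 z * Kc z) ((t - k * (2 * Real.pi * p) : ℝ) : ℂ) := hper.symm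
    rw [hper2, hGr, Complex.norm_real, Real.norm_eq_abs]
    set s := t - k * (2 * Real.pi * p) with hs
    rw [sub_zero] at hk
    rw [abs_mul, abs_of_nonneg (hK0 s)]
    have h1 := hg (s + T)
    rw [add_sub_cancel_right] at h1
    have h2 := hKd s hk
    calc |deriv f (s + T)| * K s ≤ (C₀ * ((1 + |s|) ^ 8 * wt (a / 10) E s)) * K s := by
          gcongr; exact hK0 s
      _ = C₀ * (K s * ((1 + |s|) ^ 8 * wt (a / 10) E s)) := by ring
      _ ≤ _ := by gcongr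
  refine ⟨fun z => F1 z * Kc z, K, hGT.differentiable, ?_, hGr, fun t => ⟨hK0 t, hK1 t⟩, hKz, hKq, ?_⟩
  · intro z
    refine (hGT.bound hp hGb z).trans ?_
    have h3 : ((p + D : ℕ) : ℝ) / p ≤ 1 + 8 * b + 2 * a := by
      rw [div_le_iff₀ hpr]; push_cast; linarith
    gcongr
  · intro t
    have d1 : HasDerivAt (fun z => F1 z * Kc z) (deriv F1 t * Kc t + F1 t * deriv Kc t) (t : ℂ) :=
      (hF1.differentiable t).hasDerivAt.mul (hKc.differentiable t).hasDerivAt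
    rw [d1.deriv]
    have h1 : ‖deriv F1 t‖ = |deriv (deriv f) (t + T)| := by
      obtain ⟨h2, h3⟩ := RTP.hasDerivAt F1 hF1 hF1r t
      rw [h3, Complex.norm_real, Real.norm_eq_abs]
      congr 1
      have h4 : HasDerivAt (fun t => deriv f (t + T)) (deriv (deriv f) (t + T)) t :=
        (hf.deriv.differentiable (t + T)).hasDerivAt.comp_add_const t T
      exact h2.unique h4
    have h2 : ‖Kc t‖ ≤ 1 := by
      rw [hKcr, Complex.norm_real, Real.norm_of_nonneg (hK0 t)]; exact hK1 t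
    have h3 : ‖F1 t‖ = |deriv f (t + T)| := by rw [hF1r, Complex.norm_real, Real.norm_eq_abs]
    have h4 : ‖deriv Kc t‖ ≤ Real.exp (8 * b + 2 * a) := by
      have h5 := hKc.deriv_bound hp (M := 1) (fun x => by
        rw [hKcr, Complex.norm_real, Real.norm_of_nonneg (hK0 x)]; exact hK1 x) t
      refine h5.trans ?_
      rw [one_mul]
      gcongr
      rw [div_le_iff₀ hpr]; linarith
    calc ‖deriv F1 t * Kc t + F1 t * deriv Kc t‖ ≤ ‖deriv F1 t‖ * ‖Kc t‖ + ‖F1 t‖ * ‖deriv Kc t‖ := by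
          refine (norm_add_le _ _).trans ?_
          rw [norm_mul, norm_mul]
      _ ≤ |deriv (deriv f) (t + T)| * 1 + |deriv f (t + T)| * Real.exp (8 * b + 2 * a) := by
          rw [h1, h3]
          gcongr
      _ = _ := by ring

theorem LG2 (r a b ε : ℝ) (hr : 0 < r) (ha : 0 < a) (ha1 : a ≤ 1) (hb : 0 < b)
    (hε : ε ≤ a / 10) (hσ : (1 + 8 * b + 2 * a) * r < Real.pi) :
    ∃ θ > 0, ∃ Z > 0, ∃ E₀ : ℝ, ∀ (p : ℕ), 0 < p → ∀ T : ℝ, E₀ ≤ ed p T → ∀ f : ℝ → ℝ, RTP p p f →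
      |deriv f T| = 1 → GoodAt p ε f T →
      ∃ ζ : ℝ, |ζ| ≤ Z ∧ ∀ x : ℝ, |x - T - ζ| ≤ r → θ < |deriv f x| + |deriv (deriv f) x| := by
  by_contra hcon
  push Not at hcon
  have hseq : ∀ n : ℕ, ∃ (p : ℕ) (T : ℝ) (f : ℝ → ℝ), 0 < p ∧ (n : ℝ) + 1 ≤ ed p T ∧ RTP p p f ∧
      |deriv f T| = 1 ∧ GoodAt p ε f T ∧ ∀ ζ : ℝ, |ζ| ≤ n + 1 → ∃ x : ℝ, |x - T - ζ| ≤ r ∧
        |deriv f x| + |deriv (deriv f) x| ≤ 1 / ((n : ℝ) + 1) := by
    intro n
    obtain ⟨p, hp, T, hT, f, hf, hf1, hg, hx⟩ := hcon (1 / ((n : ℝ) + 1)) (by positivity) ((n : ℝ) + 1)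
      (by positivity) ((n : ℝ) + 1)
    exact ⟨p, T, f, hp, hT, hf, hf1, hg, hx⟩
  choose p T f hp hT hf hf1 hg hx using hseq
  have haux := fun n => aux_fun (p n) (hp n) a b ha ha1 hb (f n) (hf n) (T n) (ed (p n) (T n)) 1
    (by have := hT n; have : (0:ℝ) ≤ n := by positivity
        linarith) zero_le_one (by
      intro s
      refine (hg n s).trans ?_
      rw [hf1 n]
      have hE1 : 1 ≤ ed (p n) (T n) := by
        have := hT n; have : (0:ℝ) ≤ n := by positivity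
        linarith
      have h1 := wt_mono (u := s - T n) hε hE1
      have h2 : (1 + |s - T n|) ^ 2 ≤ (1 + |s - T n|) ^ 8 :=
        pow_le_pow_right₀ (by linarith [abs_nonneg (s - T n)]) (by norm_num)
      have h3 := (wt_pos ε (ed (p n) (T n)) (s - T n)).le
      gcongr)
  choose G K hGd hGb hGr hK01 hK0 hKq hGder using haux
  set M : ℝ := 1 * (4 * (1 + Real.pi / b) ^ 8)
  obtain ⟨φ, hφ, g, hgd, hgb, hconv⟩ := NF (1 + 8 * b + 2 * a) M (by positivity) G hGd hGb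
  have h0 : g 0 ≠ 0 := by
    have h1 := (hconv (fun _ => 0) 0 tendsto_const_nhds).1.norm
    have h2 : ∀ n, ‖G (φ n) 0‖ = 1 := by
      intro n
      have := hGr (φ n) 0
      rw [Complex.ofReal_zero] at this
      rw [this, Complex.norm_real, Real.norm_eq_abs, abs_mul, zero_add, hf1, hK0]; simp
    simp only [h2] at h1
    have h3 := tendsto_nhds_unique h1 tendsto_const_nhds
    intro h4
    rw [h4, norm_zero] at h3
    norm_num at h3
  refine jensen_contra (1 + 8 * b + 2 * a) M r (by positivity) hr hσ g hgd hgb h0 ?_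
  intro ζ
  have hy : ∀ n : ℕ, ∃ y : ℝ, |y - ζ| ≤ r ∧ (|ζ| ≤ n + 1 → ‖G n y‖ ≤ 1 / ((n : ℝ) + 1) ∧
      ‖deriv (G n) y‖ ≤ (1 / ((n : ℝ) + 1)) * (1 + Real.exp (8 * b + 2 * a))) := by
    intro n
    by_cases hζ : |ζ| ≤ n + 1
    · obtain ⟨x, hx1, hx2⟩ := hx n ζ hζ
      refine ⟨x - T n, hx1, fun _ => ⟨?_, ?_⟩⟩
      · rw [hGr, Complex.norm_real, Real.norm_eq_abs, abs_mul, sub_add_cancel, abs_of_nonneg (hK01 n _).1]
        have h3 := (hK01 n (x - T n)).2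
        have h4 := (hK01 n (x - T n)).1
        have h5 := abs_nonneg (deriv (deriv (f n)) x)
        have h6 := abs_nonneg (deriv (f n) x)
        nlinarith
      · refine (hGder n _).trans ?_
        rw [sub_add_cancel]
        have h5 := abs_nonneg (deriv (deriv (f n)) x)
        have h6 := abs_nonneg (deriv (f n) x)
        have h7 := (Real.exp_pos (8 * b + 2 * a)).le
        nlinarith
    · exact ⟨ζ, by simpa using hr.le, fun h => absurd h hζ⟩
  choose y hy1 hy2 using hy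
  -- extract
  obtain ⟨y0, hy0, ψ, hψ, hlim⟩ := (isCompact_Icc (a := ζ - r) (b := ζ + r)).tendsto_subseq
    (x := fun n => y (φ n)) (fun n => by
      have := abs_le.1 (hy1 (φ n))
      constructor <;> linarith [this.1, this.2])
  have hlimC : Tendsto (fun n => ((y (φ (ψ n)) : ℝ) : ℂ)) atTop (𝓝 (y0 : ℂ)) :=
    (Complex.continuous_ofReal.tendsto y0).comp hlim
  have hA := subseq_tendsto (A := fun n => G (φ n)) (y := (y0 : ℂ)) (fun u hu => (hconv u _ hu).1) hψ hlimC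
  have hB := subseq_tendsto (A := fun n => deriv (G (φ n))) (y := (y0 : ℂ)) (fun u hu => (hconv u _ hu).2) hψ hlimC
  have hto : Tendsto (fun n => φ (ψ n)) atTop atTop := hφ.tendsto_atTop.comp hψ.tendsto_atTop
  have hev : ∀ᶠ n in atTop, |ζ| ≤ ((φ (ψ n) : ℕ) : ℝ) + 1 := by
    have h1 := (tendsto_natCast_atTop_atTop (R := ℝ)).comp hto
    filter_upwards [h1.eventually_ge_atTop (|ζ|)] with n hn
    simp only [Function.comp_apply] at hn
    linarith
  have hz0 : Tendsto (fun n => 1 / (((φ (ψ n) : ℕ) : ℝ) + 1)) atTop (𝓝 0) :=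
    (tendsto_one_div_add_atTop_nhds_zero_nat (𝕜 := ℝ)).comp hto
  refine ⟨y0, ?_, ?_, ?_⟩
  · rw [abs_le]; constructor <;> linarith [hy0.1, hy0.2]
  · have h1 : Tendsto (fun n => G (φ (ψ n)) (y (φ (ψ n)))) atTop (𝓝 0) := by
      apply squeeze_zero_norm' _ hz0
      filter_upwards [hev] with n hn
      exact (hy2 _ hn).1
    exact tendsto_nhds_unique hA h1
  · have h1 : Tendsto (fun n => deriv (G (φ (ψ n))) (y (φ (ψ n)))) atTop (𝓝 0) := by
      have h2 := hz0.mul_const (1 + Real.exp (8 * b + 2 * a))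
      rw [zero_mul] at h2
      apply squeeze_zero_norm' _ h2
      filter_upwards [hev] with n hn
      exact (hy2 _ hn).2
    exact tendsto_nhds_unique hB h1

end Pool.Agent.Helper514.Cheb
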