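import Pool.Agent.Helper514.Cheb.LG1

set_option autoImplicit false

open Filter Topology MeasureTheory

namespace Pool.Agent.Helper514.Cheb

lemma le_add_cube {v s : ℝ} (hs : 0 < s) (hv : 0 ≤ v) : v ≤ s + v ^ 3 / s ^ 2 := by
  have h1 : s + v ^ 3 / s ^ 2 = (s ^ 3 + v ^ 3) / s ^ 2 := by field_simp
  rw [h1, le_div_iff₀ (by positivity)]
  rcases le_total v s with h | h
  · nlinarith [mul_nonneg (sub_nonneg.2 h) (sq_nonneg s), pow_nonneg hv 3]
  · have : v * s ^ 2 ≤ v * v ^ 2 := by gcongr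
    have := pow_pos hs 3
    nlinarith

lemma le_add_sq {v s : ℝ} (hs : 0 < s) : v ≤ s + v ^ 2 / s := by
  have h1 : s + v ^ 2 / s = (s ^ 2 + v ^ 2) / s := by field_simp
  rw [h1, le_div_iff₀ hs]
  nlinarith [sq_nonneg (v - s)]

structure Setting (p M : ℕ) (δ Y η κ : ℝ) (x : ℕ → ℝ) (f : ℝ → ℝ) (T : ℝ) (K : ℝ → ℝ) (D : ℕ) (A₁ : ℝ) : Prop where
  hP : PConf p M δ Y η κ x
  hT0 : 0 ≤ T
  hT1 : T ≤ Real.pi * p
  hE : 1 ≤ ed p T
  hf : RTP p p f
  hf1 : |deriv f T| = 1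
  hg : GoodAt p (δ / 400) f T
  hK : RTP p D K
  hD : (D : ℝ) ≤ δ * p
  hK0 : ∀ t, 0 ≤ K t
  hK1 : ∀ t, K t ≤ 1
  hA₁ : 0 < A₁
  hKd : ∀ t, |t| ≤ Real.pi * p → K t * ((1 + |t|) ^ 8 * wt (δ / 400) (ed p T) t) ≤ A₁

variable {p M : ℕ} {δ Y η κ : ℝ} {x : ℕ → ℝ} {f : ℝ → ℝ} {T : ℝ} {K : ℝ → ℝ} {D : ℕ} {A₁ : ℝ}

namespace Setting

lemma db (h : Setting p M δ Y η κ x f T K D A₁) (t : ℝ) :
    |deriv f t| ≤ (1 + |t - T|) ^ 2 * wt (δ / 400) (ed p T) (t - T) ∧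
    |deriv (deriv f) t| ≤ CB2 * ((1 + |t - T|) ^ 2 * wt (δ / 400) (ed p T) (t - T)) ∧
    |deriv (deriv (deriv f)) t| ≤ CB2 ^ 2 * ((1 + |t - T|) ^ 2 * wt (δ / 400) (ed p T) (t - T)) := by
  have h0 := h.hP.hδ0
  have h1 := h.hP.hδ1
  exact good_deriv_bounds h.hP.hp h.hf (by positivity) (by linarith) h.hE h.hf1 h.hg t

lemma Kder (h : Setting p M δ Y η κ x f T K D A₁) (u : ℝ) : |deriv K u| ≤ 3 := by
  have hpr : (0 : ℝ) < p := by exact_mod_cast h.hP.hp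
  have h1 := h.hK.deriv_bound h.hP.hp (M := 1) (fun x => by rw [abs_of_nonneg (h.hK0 x)]; exact h.hK1 x) u
  refine h1.trans ?_
  have h2 : (D : ℝ) / p ≤ 1 := by
    rw [div_le_iff₀ hpr]
    have := h.hD; have := h.hP.hδ1
    nlinarith
  have h3 : Real.exp ((D : ℝ) / p) ≤ Real.exp 1 := by gcongr
  have := Real.exp_one_lt_d9
  linarith

lemma weight (h : Setting p M δ Y η κ x f T K D A₁) (u : ℝ) (hu : |u| ≤ Real.pi * p) :
    ((1 + |u|) ^ 2 * wt (δ / 400) (ed p T) u) * K u ≤ A₁ / (1 + |u|) ^ 6 := by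
  have h1 := h.hKd u hu
  have hu0 := abs_nonneg u
  rw [le_div_iff₀ (by positivity)]
  calc ((1 + |u|) ^ 2 * wt (δ / 400) (ed p T) u) * K u * (1 + |u|) ^ 6
      = K u * ((1 + |u|) ^ 8 * wt (δ / 400) (ed p T) u) := by ring
    _ ≤ _ := h1

lemma Prtp (h : Setting p M δ Y η κ x f T K D A₁) : RTP p (p + D) (fun t => deriv f t * K (t + (-T))) :=
  h.hf.deriv.mul (h.hK.shift (-T))

lemma Pb (h : Setting p M δ Y η κ x f T K D A₁) (u : ℝ) (hu : |u| ≤ Real.pi * p) :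
    |deriv f (T + u) * K (T + u + (-T))| ≤ A₁ / (1 + |u|) ^ 6 := by
  refine le_trans ?_ (h.weight u hu)
  rw [show T + u + -T = u by ring, abs_mul, abs_of_nonneg (h.hK0 u)]
  have h1 := (h.db (T + u)).1
  rw [add_sub_cancel_left] at h1
  have := h.hK0 u
  gcongr

lemma Pderiv (h : Setting p M δ Y η κ x f T K D A₁) (t : ℝ) :
    deriv (fun t => deriv f t * K (t + (-T))) t = deriv (deriv f) t * K (t - T) + deriv f t * deriv K (t - T) := by
  have d1 : HasDerivAt (deriv f) (deriv (deriv f) t) t := (h.hf.deriv.differentiable t).hasDerivAt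
  have d2 : HasDerivAt (fun s => K (s + (-T))) (deriv K (t + (-T))) t :=
    ((h.hK.differentiable (t + (-T))).hasDerivAt).comp_add_const t (-T)
  have d3 := (d1.mul d2).deriv
  rw [← sub_eq_add_neg] at d3
  exact d3

lemma PD (h : Setting p M δ Y η κ x f T K D A₁) : ((p + D : ℕ) : ℝ) ≤ (1 + δ) * p := by
  have := h.hD
  push_cast; linarith

lemma PD2 (h : Setting p M δ Y η κ x f T K D A₁) : ((p + D : ℕ) : ℝ) ≤ 2 * p := by
  have h1 := h.PD
  have h2 := h.hP.hδ1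
  have hpr : (0 : ℝ) < p := by exact_mod_cast h.hP.hp
  nlinarith

lemma ident (h : Setting p M δ Y η κ x f T K D A₁) (hp4 : 4 ≤ p) :
    |∑ i ∈ Finset.range (2 * M), (deriv (deriv f) (x i) * K (x i - T) + deriv f (x i) * deriv K (x i - T))| ≤
      CI * A₁ * (1 + κ) := by
  have h1 := h.hP.ident hp4 h.Prtp h.PD h.hT0 h.hT1 h.hE h.hA₁.le (fun u hu => by
    refine (h.Pb u hu).trans ?_
    have := abs_nonneg u
    have := h.hA₁
    gcongr
    · linarith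
    · norm_num)
  simp only [h.Pderiv] at h1
  exact h1

end Setting

noncomputable def tau (f K : ℝ → ℝ) (T y : ℝ) : ℝ :=
  2 * (max 0 (deriv (deriv f) y) * K (y - T)) + |deriv f y * deriv K (y - T)| + |deriv f y| * K (y - T)

lemma Setting.tau_bound (h : Setting p M δ Y η κ x f T K D A₁) (y : ℝ) (hy0 : 0 ≤ y) (hy1 : y ≤ Real.pi * p) :
    tau f K T y ≤ 5 * CB2 * A₁ / (1 + |y - T|) ^ 6 := by
  have hu : |y - T| ≤ Real.pi * p := by
    have := h.hT0; have := h.hT1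
    rw [abs_le]; constructor <;> linarith
  have h0 := h.weight (y - T) hu
  have hKn := h.hK0 (y - T)
  have hy := h.db y
  have hCB := one_le_CB2
  have hA₁ := h.hA₁
  have h1 : |deriv (deriv f) y| * K (y - T) ≤ CB2 * (A₁ / (1 + |y - T|) ^ 6) := by
    calc |deriv (deriv f) y| * K (y - T) ≤ (CB2 * ((1 + |y - T|) ^ 2 * wt (δ / 400) (ed p T) (y - T))) * K (y - T) := by
          gcongr; exact hy.2.1
      _ = CB2 * (((1 + |y - T|) ^ 2 * wt (δ / 400) (ed p T) (y - T)) * K (y - T)) := by ring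
      _ ≤ _ := by gcongr
  have h2 : |deriv f y| * K (y - T) ≤ A₁ / (1 + |y - T|) ^ 6 := by
    refine le_trans ?_ h0
    gcongr; exact hy.1
  have h3 : |deriv (fun t => deriv f t * K (t + (-T))) y| ≤ CB2 * (A₁ / (1 + |y - T|) ^ 6) := by
    have h4 := decay_deriv h.hP.hp h.Prtp h.PD2 T A₁ hA₁.le 6 (by norm_num) h.Pb (y - T) hu
    rw [show T + (y - T) = y by ring] at h4
    refine h4.trans (le_of_eq ?_)
    rw [CB2]; ring
  have h4 : |deriv f y * deriv K (y - T)| ≤ |deriv (fun t => deriv f t * K (t + (-T))) y| + |deriv (deriv f) y| * K (y - T) := by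
    have e : deriv f y * deriv K (y - T) = deriv (fun t => deriv f t * K (t + (-T))) y - deriv (deriv f) y * K (y - T) := by
      rw [h.Pderiv]; ring
    rw [e]
    refine (abs_sub _ _).trans ?_
    rw [abs_mul, abs_of_nonneg hKn]
  have h5 : max 0 (deriv (deriv f) y) * K (y - T) ≤ |deriv (deriv f) y| * K (y - T) := by
    gcongr
    exact max_le (abs_nonneg _) (le_abs_self _)
  have h6 : 0 ≤ A₁ / (1 + |y - T|) ^ 6 := by have := abs_nonneg (y - T); positivity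
  have h7 : 5 * CB2 * A₁ / (1 + |y - T|) ^ 6 = 5 * CB2 * (A₁ / (1 + |y - T|) ^ 6) := by ring
  rw [h7, tau]
  have h8 : A₁ / (1 + |y - T|) ^ 6 ≤ CB2 * (A₁ / (1 + |y - T|) ^ 6) := by nlinarith
  linarith

lemma Setting.tau_near (h : Setting p M δ Y η κ x f T K D A₁) (y : ℝ) :
    tau f K T y ≤ 2 * max 0 (deriv (deriv f) y) + 4 * |deriv f y| := by
  have hKy1 := h.hK1 (y - T)
  have hKy0 := h.hK0 (y - T)
  rw [tau, abs_mul]
  have h8 := h.Kder (y - T)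
  have h9 : 0 ≤ max 0 (deriv (deriv f) y) := le_max_left _ _
  have h10 := abs_nonneg (deriv f y)
  have h11 : max 0 (deriv (deriv f) y) * K (y - T) ≤ max 0 (deriv (deriv f) y) := by nlinarith
  have h12 : |deriv f y| * |deriv K (y - T)| ≤ |deriv f y| * 3 := by gcongr
  have h13 : |deriv f y| * K (y - T) ≤ |deriv f y| := by nlinarith
  linarith

noncomputable def SS (R : ℝ) : ℝ := (1 + CB2) * ((R + 4) ^ 2 * Real.exp (R + 3))
noncomputable def BB (R : ℝ) : ℝ := CB2 ^ 2 * ((R + 4) ^ 2 * Real.exp (R + 3))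

lemma SS_pos {R : ℝ} (hR : 0 ≤ R) : 0 < SS R := by
  unfold SS; have := one_le_CB2; positivity

lemma BB_pos {R : ℝ} (hR : 0 ≤ R) : 0 < BB R := by
  unfold BB; have := one_le_CB2; positivity

lemma Setting.local_bounds (h : Setting p M δ Y η κ x f T K D A₁) {R : ℝ} (hR : 0 ≤ R) (t : ℝ) (ht : |t - T| ≤ R + 3) :
    |deriv f t| + |deriv (deriv f) t| ≤ SS R ∧ |deriv (deriv (deriv f)) t| ≤ BB R := by
  have h1 := h.db t
  have hCB := one_le_CB2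
  have hδ0 := h.hP.hδ0
  have hδ1 := h.hP.hδ1
  have hE := h.hE
  have h2 : (1 + |t - T|) ^ 2 * wt (δ / 400) (ed p T) (t - T) ≤ (R + 4) ^ 2 * Real.exp (R + 3) := by
    have h3 : wt (δ / 400) (ed p T) (t - T) ≤ Real.exp (R + 3) := by
      unfold wt
      rw [Real.exp_le_exp]
      have h4 := one_le_LL (by linarith : 0 ≤ ed p T)
      rw [div_le_iff₀ (by linarith)]
      have h5 : min |t - T| (ed p T) ≤ R + 3 := (min_le_left _ _).trans ht
      have h6 : 0 ≤ min |t - T| (ed p T) := le_min (abs_nonneg _) (by linarith)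
      have h7 : δ / 400 * min |t - T| (ed p T) ≤ 1 * (R + 3) := by
        apply mul_le_mul (by linarith) h5 h6 (by norm_num)
      nlinarith
    have h4 := abs_nonneg (t - T)
    have hw := (wt_pos (δ / 400) (ed p T) (t - T)).le
    exact mul_le_mul (pow_le_pow_left₀ (by positivity) (by linarith) 2) h3 hw (by positivity)
  constructor
  · calc |deriv f t| + |deriv (deriv f) t| ≤ (1 + CB2) * ((1 + |t - T|) ^ 2 * wt (δ / 400) (ed p T) (t - T)) := by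
          linarith [h1.1, h1.2.1]
      _ ≤ SS R := by rw [SS]; gcongr
  · refine h1.2.2.trans ?_
    rw [BB]; gcongr

/-- node level inequality -/
lemma Setting.node (hS : Setting p M δ Y η κ x f T K D A₁) {R h : ℝ} (hR : 0 ≤ R) (hh0 : 0 < h) (hh1 : h ≤ 1)
    {G : ℕ → ℝ} (hG0 : ∀ m, 0 ≤ G m) (hG : GainProp h f x M G) (m : ℕ) (hm : m < M) (y : ℝ)
    (hy : y = x (2 * m) ∨ y = x (2 * m + 1)) :
    tau f K T y ≤ (5 * CB2 * A₁ / (1 + R) + h * (4 * BB R + 4 * SS R + 6) * (1 + R) ^ 4) * (1 / (1 + |y - T|) ^ 4) +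
        (2 * SS R ^ 2 / h ^ 4 + 8 * SS R / h) * (if |x (2 * m) - T| ≤ R + 1 then G m else 0) +
        5 * CB2 * A₁ * (if h < x (2 * m + 1) - x (2 * m) ∧ (|x (2 * m) - T| ≤ R ∨ |x (2 * m + 1) - T| ≤ R) then 1 else 0) := by
  have hy01 : 0 ≤ y ∧ y ≤ Real.pi * p := by
    rcases hy with rfl | rfl
    · exact hS.hP.mem _
    · exact hS.hP.mem _
  have hSS := SS_pos hR
  have hBB := BB_pos hR
  have hb := hS.tau_bound y hy01.1 hy01.2
  have hCB := one_le_CB2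
  have hA₁ := hS.hA₁
  obtain ⟨A₂, hA₂⟩ : ∃ A₂ : ℝ, A₂ = 5 * CB2 * A₁ := ⟨_, rfl⟩
  have hA₂0 : 0 < A₂ := by rw [hA₂]; positivity
  rw [← hA₂] at hb ⊢
  obtain ⟨CG, hCG⟩ : ∃ CG : ℝ, CG = 2 * SS R ^ 2 / h ^ 4 + 8 * SS R / h := ⟨_, rfl⟩
  have hCG0 : 0 < CG := by rw [hCG]; positivity
  obtain ⟨σ₀, hσ₀⟩ : ∃ σ₀ : ℝ, σ₀ = h * (4 * BB R + 4 * SS R + 6) := ⟨_, rfl⟩
  have hσ₀0 : 0 < σ₀ := by rw [hσ₀]; positivity
  rw [← hCG, ← hσ₀]
  have hyT := abs_nonneg (y - T)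
  have hGm := hG0 m
  have hρy : 0 ≤ 1 / (1 + |y - T|) ^ 4 := by positivity
  have t1 : 0 ≤ (A₂ / (1 + R)) * (1 / (1 + |y - T|) ^ 4) := by positivity
  have t2 : 0 ≤ σ₀ * (1 + R) ^ 4 * (1 / (1 + |y - T|) ^ 4) := by positivity
  have t3 : 0 ≤ CG * (if |x (2 * m) - T| ≤ R + 1 then G m else 0) := by
    split_ifs <;> positivity
  have t4 : 0 ≤ A₂ * (if h < x (2 * m + 1) - x (2 * m) ∧ (|x (2 * m) - T| ≤ R ∨ |x (2 * m + 1) - T| ≤ R) then (1:ℝ) else 0) := by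
    split_ifs <;> positivity
  rcases lt_or_ge R (|y - T|) with hfar | hnear
  · have h1 : A₂ / (1 + |y - T|) ^ 6 ≤ A₂ / (1 + R) * (1 / (1 + |y - T|) ^ 4) := by
      rw [div_mul_div_comm, mul_one]
      gcongr
      calc (1 + R) * (1 + |y - T|) ^ 4 ≤ (1 + |y - T|) ^ 2 * (1 + |y - T|) ^ 4 := by
            gcongr; nlinarith
        _ = _ := by ring
    linarith
  · rcases lt_or_ge h (x (2 * m + 1) - x (2 * m)) with hgap | hgap
    · have hbad : h < x (2 * m + 1) - x (2 * m) ∧ (|x (2 * m) - T| ≤ R ∨ |x (2 * m + 1) - T| ≤ R) := by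
        refine ⟨hgap, ?_⟩
        rcases hy with rfl | rfl
        · exact Or.inl hnear
        · exact Or.inr hnear
      rw [if_pos hbad] at t4 ⊢
      have h1 : A₂ / (1 + |y - T|) ^ 6 ≤ A₂ := by
        apply div_le_self hA₂0.le
        exact one_le_pow₀ (by linarith)
      linarith
    · have hmono : x (2 * m) ≤ x (2 * m + 1) := hS.hP.mono (by omega)
      have hab := abs_le.1 hnear
      have hwin : |x (2 * m) - T| ≤ R + 1 := by
        rw [abs_le]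
        rcases hy with rfl | rfl <;> constructor <;> linarith
      rw [if_pos hwin] at t3 ⊢
      have hgp := hG m hm (SS R) (BB R) hSS hBB.le (by
        intro t ht1 ht2
        apply hS.local_bounds hR
        rw [abs_le]
        rcases hy with rfl | rfl <;> constructor <;> linarith) y hy
      obtain ⟨hg1, hg2⟩ := hgp
      obtain ⟨v, hv⟩ : ∃ v : ℝ, v = max 0 (deriv (deriv f) y - BB R * (x (2 * m + 1) - x (2 * m) + h)) := ⟨_, rfl⟩
      obtain ⟨v', hv'⟩ : ∃ v' : ℝ, v' = max 0 (|deriv f y| - h * SS R) := ⟨_, rfl⟩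
      rw [← hv] at hg1
      rw [← hv'] at hg2
      have hv0 : 0 ≤ v := by rw [hv]; exact le_max_left _ _
      have hv1 : deriv (deriv f) y - BB R * (x (2 * m + 1) - x (2 * m) + h) ≤ v := by rw [hv]; exact le_max_right _ _
      have hv'1 : |deriv f y| - h * SS R ≤ v' := by rw [hv']; exact le_max_right _ _
      have h1 := le_add_cube hh0 hv0
      have h2 := le_add_sq (v := v') hh0
      have h3 : v ^ 3 / h ^ 2 ≤ SS R ^ 2 * G m / h ^ 4 := by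
        rw [div_le_div_iff₀ (by positivity) (by positivity)]
        calc v ^ 3 * h ^ 4 = (h ^ 2 * v ^ 3) * h ^ 2 := by ring
          _ ≤ (SS R ^ 2 * G m) * h ^ 2 := by gcongr
      have h4 : v' ^ 2 / h ≤ 2 * SS R * G m / h := by gcongr
      have h5 : max 0 (deriv (deriv f) y) ≤ 2 * BB R * h + h + SS R ^ 2 * G m / h ^ 4 := by
        have h6 : BB R * (x (2 * m + 1) - x (2 * m) + h) ≤ BB R * (h + h) := by gcongr
        apply max_le
        · positivity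
        · linarith
      have h6 : |deriv f y| ≤ h * SS R + h + 2 * SS R * G m / h := by linarith
      have h7 := hS.tau_near y
      have h8 : σ₀ ≤ σ₀ * (1 + R) ^ 4 * (1 / (1 + |y - T|) ^ 4) := by
        rw [mul_one_div, le_div_iff₀ (by positivity)]
        gcongr
      have h9 : CG * G m = 2 * (SS R ^ 2 * G m / h ^ 4) + 4 * (2 * SS R * G m / h) := by rw [hCG]; ring
      have h10 : σ₀ = 2 * (2 * BB R * h + h) + 4 * (h * SS R + h) := by rw [hσ₀]; ring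
      linarith

lemma Setting.sum_tau (hS : Setting p M δ Y η κ x f T K D A₁) (hp4 : 4 ≤ p) (hκE : 1 ≤ κ * ed p T) {R h : ℝ} (hR : 0 ≤ R)
    (hh0 : 0 < h) (hh1 : h ≤ 1) {G : ℕ → ℝ} (hG0 : ∀ m, 0 ≤ G m) (hG : GainProp h f x M G) :
    ∑ i ∈ Finset.range (2 * M), tau f K T (x i) ≤
      (5 * CB2 * A₁ / (1 + R) + h * (4 * BB R + 4 * SS R + 6) * (1 + R) ^ 4) * (3 * CC * (κ * ed p T)) +
      2 * (2 * SS R ^ 2 / h ^ 4 + 8 * SS R / h) *
        (∑ m ∈ (Finset.range M).filter (fun m => |x (2 * m) - T| ≤ R + 1), G m) +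
      2 * (5 * CB2 * A₁) * (2 * R / h + 2) := by
  have hnode := fun m hm y hy => hS.node hR hh0 hh1 hG0 hG m hm y hy
  have hSS := SS_pos hR
  have hBB := BB_pos hR
  have hCB := one_le_CB2
  have hA₁ := hS.hA₁
  have hκ0 := hS.hP.hκ0
  have hE1 := hS.hE
  have hcount : ∑ i ∈ Finset.range (2 * M), 1 / (1 + |x i - T|) ^ 4 ≤ 3 * CC * (κ * ed p T) := by
    refine (hS.hP.count hp4 T).trans ?_
    have h1 := ww_le_ed hS.hP.hp hS.hT0 hS.hT1
    have h3 : κ * ww p T ≤ κ * ed p T := by gcongr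
    have h4 : κ * 1 ≤ κ * ed p T := by gcongr
    have h2 : κ * (ww p T + 1) + 1 ≤ 3 * (κ * ed p T) := by linarith
    have := CC_pos
    calc CC * (κ * (ww p T + 1) + 1) ≤ CC * (3 * (κ * ed p T)) := by gcongr
      _ = _ := by ring
  obtain ⟨CG, hCG⟩ : ∃ CG : ℝ, CG = 2 * SS R ^ 2 / h ^ 4 + 8 * SS R / h := ⟨_, rfl⟩
  obtain ⟨A₂, hA₂⟩ : ∃ A₂ : ℝ, A₂ = 5 * CB2 * A₁ := ⟨_, rfl⟩
  obtain ⟨α₁, hα₁⟩ : ∃ yy : ℝ, yy = A₂ / (1 + R) + h * (4 * BB R + 4 * SS R + 6) * (1 + R) ^ 4 := ⟨_, rfl⟩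
  have hA₂0 : 0 < A₂ := by rw [hA₂]; positivity
  have hα₁0 : 0 < α₁ := by rw [hα₁]; positivity
  have hCG0 : 0 < CG := by rw [hCG]; positivity
  rw [← hCG, ← hA₂, ← hα₁]
  simp only [← hCG, ← hA₂] at hnode
  simp only [← hα₁] at hnode
  clear hα₁ hCG hA₂
  have hbg := big_gap hS.hP.mono M h R T hh0 hR
  obtain ⟨nb, hnb⟩ : ∃ nb : ℝ, nb = ((Finset.range M).filter (fun m => h < x (2 * m + 1) - x (2 * m) ∧
      (|x (2 * m) - T| ≤ R ∨ |x (2 * m + 1) - T| ≤ R))).card := ⟨_, rfl⟩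
  rw [← hnb] at hbg
  have hnb1 : nb ≤ 2 * R / h + 2 := by
    rw [← sub_le_iff_le_add, le_div_iff₀ hh0]; linarith
  rw [sum_pairs]
  calc ∑ m ∈ Finset.range M, (tau f K T (x (2 * m)) + tau f K T (x (2 * m + 1)))
      ≤ ∑ m ∈ Finset.range M, (α₁ * (1 / (1 + |x (2 * m) - T|) ^ 4 + 1 / (1 + |x (2 * m + 1) - T|) ^ 4) +
        2 * CG * (if |x (2 * m) - T| ≤ R + 1 then G m else 0) +
        2 * A₂ * (if h < x (2 * m + 1) - x (2 * m) ∧ (|x (2 * m) - T| ≤ R ∨ |x (2 * m + 1) - T| ≤ R) then 1 else 0)) := by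
        refine Finset.sum_le_sum fun m hm => ?_
        have h1 := hnode m (Finset.mem_range.1 hm) _ (Or.inl rfl)
        have h2 := hnode m (Finset.mem_range.1 hm) _ (Or.inr rfl)
        linarith
    _ = α₁ * (∑ i ∈ Finset.range (2 * M), 1 / (1 + |x i - T|) ^ 4) +
        2 * CG * (∑ m ∈ (Finset.range M).filter (fun m => |x (2 * m) - T| ≤ R + 1), G m) + 2 * A₂ * nb := by
        rw [Finset.sum_add_distrib, Finset.sum_add_distrib, ← Finset.mul_sum, ← Finset.mul_sum, ← Finset.mul_sum,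
          ← sum_pairs (fun i => 1 / (1 + |x i - T|) ^ 4), Finset.sum_filter, hnb, Finset.card_filter]
        push_cast; rfl
    _ ≤ _ := by gcongr

lemma Setting.comb (hS : Setting p M δ Y η κ x f T K D A₁) (hp4 : 4 ≤ p) :
    ∑ i ∈ Finset.range (2 * M), (|deriv (deriv f) (x i)| + |deriv f (x i)|) * K (x i - T) ≤
      ∑ i ∈ Finset.range (2 * M), tau f K T (x i) + CI * A₁ * (1 + κ) := by
  have hident := hS.ident hp4
  have h1 : ∀ i ∈ Finset.range (2 * M), (|deriv (deriv f) (x i)| + |deriv f (x i)|) * K (x i - T) ≤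
      tau f K T (x i) - (deriv (deriv f) (x i) * K (x i - T) + deriv f (x i) * deriv K (x i - T)) := by
    intro i _
    rw [tau]
    have h2 : |deriv (deriv f) (x i)| = 2 * max 0 (deriv (deriv f) (x i)) - deriv (deriv f) (x i) := by
      rcases le_total 0 (deriv (deriv f) (x i)) with h3 | h3
      · rw [abs_of_nonneg h3, max_eq_right h3]; ring
      · rw [abs_of_nonpos h3, max_eq_left h3]; ring
    rw [h2]
    have h3 := le_abs_self (deriv f (x i) * deriv K (x i - T))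
    linarith
  have h2 := Finset.sum_le_sum h1
  rw [Finset.sum_sub_distrib] at h2
  have h3 := (abs_le.1 hident).1
  linarith

lemma Setting.lower (hS : Setting p M δ Y η κ x f T K D A₁) {Z c₄ θ ζ : ℝ} (hc₄ : 0 < c₄) (hθ : 0 < θ)
    (hKhalf : ∀ u, |u| ≤ Z + rr δ → 1 / 2 ≤ K u)
    (hζ1 : |ζ| ≤ Z) (hζ2 : ∀ x : ℝ, |x - T - ζ| ≤ rr δ → θ < |deriv f x| + |deriv (deriv f) x|)
    (hEZ : 2 * Z ≤ ed p T)
    (hlow : c₄ * (κ * ed p (T + ζ)) ≤ ((Finset.range (2 * M)).filter (fun i => |x i - (T + ζ)| < rr δ)).card) :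
    θ * c₄ / 4 * (κ * ed p T) ≤ ∑ i ∈ Finset.range (2 * M), (|deriv (deriv f) (x i)| + |deriv f (x i)|) * K (x i - T) := by
  have hκ0 := hS.hP.hκ0
  have hedc : ed p T / 2 ≤ ed p (T + ζ) := by
    have h1 := ed_lip p T (T + ζ)
    rw [show T - (T + ζ) = -ζ by ring, abs_neg] at h1
    linarith
  obtain ⟨n, hn⟩ : ∃ n : ℝ, n = (((Finset.range (2 * M)).filter (fun i => |x i - (T + ζ)| < rr δ)).card : ℝ) := ⟨_, rfl⟩
  rw [← hn] at hlow
  have h1 : ∑ i ∈ (Finset.range (2 * M)).filter (fun i => |x i - (T + ζ)| < rr δ), (θ * (1 / 2)) ≤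
      ∑ i ∈ (Finset.range (2 * M)).filter (fun i => |x i - (T + ζ)| < rr δ), (|deriv (deriv f) (x i)| + |deriv f (x i)|) * K (x i - T) := by
    refine Finset.sum_le_sum fun i hi => ?_
    have hi2 := (Finset.mem_filter.1 hi).2
    have h2 := hζ2 (x i) (by rw [show x i - T - ζ = x i - (T + ζ) by ring]; exact hi2.le)
    have h3 : 1 / 2 ≤ K (x i - T) := by
      apply hKhalf
      have h4 : x i - T = (x i - (T + ζ)) + ζ := by ring
      rw [h4]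
      refine (abs_add_le _ _).trans ?_
      linarith
    have h4 : θ ≤ |deriv (deriv f) (x i)| + |deriv f (x i)| := by linarith
    apply mul_le_mul h4 h3 (by norm_num)
    positivity
  rw [Finset.sum_const, nsmul_eq_mul, ← hn] at h1
  have h2 : ∑ i ∈ (Finset.range (2 * M)).filter (fun i => |x i - (T + ζ)| < rr δ), (|deriv (deriv f) (x i)| + |deriv f (x i)|) * K (x i - T) ≤
      ∑ i ∈ Finset.range (2 * M), (|deriv (deriv f) (x i)| + |deriv f (x i)|) * K (x i - T) := by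
    apply Finset.sum_le_sum_of_subset_of_nonneg (Finset.filter_subset _ _)
    intro i _ _
    have := hS.hK0 (x i - T)
    positivity
  refine le_trans ?_ (h1.trans h2)
  have h3 : c₄ * (κ * (ed p T / 2)) ≤ n := by
    refine le_trans ?_ hlow
    gcongr
  calc θ * c₄ / 4 * (κ * ed p T) = (c₄ * (κ * (ed p T / 2))) * (θ * (1 / 2)) := by ring
    _ ≤ n * (θ * (1 / 2)) := by gcongr

theorem LG (δ κ₀ : ℝ) (hδ0 : 0 < δ) (hδ1 : δ ≤ 1) (hκ₀ : 0 < κ₀) :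
    ∃ h, 0 < h ∧ h ≤ 1 ∧ ∃ c > 0, ∃ R : ℝ, 0 ≤ R ∧ ∃ E₀ : ℝ, 1 ≤ E₀ ∧
      ∀ (p M : ℕ) (Y η κ : ℝ) (x : ℕ → ℝ), PConf p M δ Y η κ x → κ₀ ≤ κ →
      ∀ T : ℝ, 0 ≤ T → T ≤ Real.pi * p → E₀ ≤ ed p T → ∀ f : ℝ → ℝ, RTP p p f → |deriv f T| = 1 →
      GoodAt p (δ / 400) f T → ∀ G : ℕ → ℝ, (∀ m, 0 ≤ G m) → GainProp h f x M G →
      c * (κ * ed p T) ≤ ∑ m ∈ (Finset.range M).filter (fun m => |x (2 * m) - T| ≤ R), G m := by
  have hpi := Real.pi_pos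
  have hCB := one_le_CB2
  have hCC := CC_pos
  have hCI := CI_pos
  have hr0 : 0 < rr δ := by rw [rr]; positivity
  obtain ⟨θ, hθ, Z, hZ, E₂, hLG2⟩ := LG2 (rr δ) (δ / 40) (δ / 80) (δ / 400) hr0 (by positivity) (by linarith)
    (by positivity) (by linarith) (by
      rw [rr, mul_div_assoc', div_lt_iff₀ (by positivity)]
      nlinarith)
  obtain ⟨c₄, hc₄, E₃, hlow⟩ := lower_count δ κ₀ hδ0 hδ1 hκ₀
  obtain ⟨b₂, hb₂⟩ : ∃ yy : ℝ, yy = min (δ / 80) (1 / (4 * (Z + rr δ))) := ⟨_, rfl⟩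
  have hb₂0 : 0 < b₂ := by rw [hb₂]; exact lt_min (by positivity) (by positivity)
  have hb₂le : b₂ ≤ δ / 80 := by rw [hb₂]; exact min_le_left _ _
  have hb₂le2 : b₂ ≤ 1 / (4 * (Z + rr δ)) := by rw [hb₂]; exact min_le_right _ _
  clear hb₂
  obtain ⟨A₁, hA₁⟩ : ∃ yy : ℝ, yy = 4 * (1 + Real.pi / b₂) ^ 8 := ⟨_, rfl⟩
  have hA₁0 : 0 < A₁ := by rw [hA₁]; positivity
  obtain ⟨β, hβ⟩ : ∃ yy : ℝ, yy = θ * c₄ / 4 := ⟨_, rfl⟩
  have hβ0 : 0 < β := by rw [hβ]; positivity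
  obtain ⟨R, hR⟩ : ∃ yy : ℝ, yy = 24 * (5 * CB2 * A₁) * CC / β := ⟨_, rfl⟩
  have hR0 : 0 ≤ R := by rw [hR]; positivity
  have hSS := SS_pos hR0
  have hBB := BB_pos hR0
  obtain ⟨h, hh⟩ : ∃ yy : ℝ, yy = min 1 (β / (24 * CC * (1 + R) ^ 4 * (4 * BB R + 4 * SS R + 6))) := ⟨_, rfl⟩
  have hh0 : 0 < h := by rw [hh]; exact lt_min one_pos (by positivity)
  have hh1 : h ≤ 1 := by rw [hh]; exact min_le_left _ _
  have hσ₀b : h * (4 * BB R + 4 * SS R + 6) * (1 + R) ^ 4 * (3 * CC) ≤ β / 8 := by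
    have h1 : h ≤ β / (24 * CC * (1 + R) ^ 4 * (4 * BB R + 4 * SS R + 6)) := by rw [hh]; exact min_le_right _ _
    rw [le_div_iff₀ (by positivity)] at h1
    linarith
  clear hh
  have hRb : 5 * CB2 * A₁ / (1 + R) * (3 * CC) ≤ β / 8 := by
    rw [div_mul_eq_mul_div, div_le_iff₀ (by positivity)]
    have h1 : β * R = 24 * (5 * CB2 * A₁) * CC := by rw [hR]; field_simp
    linarith
  clear hR
  obtain ⟨CG, hCG⟩ : ∃ yy : ℝ, yy = 2 * SS R ^ 2 / h ^ 4 + 8 * SS R / h := ⟨_, rfl⟩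
  have hCG0 : 0 < CG := by rw [hCG]; positivity
  obtain ⟨Q, hQ⟩ : ∃ yy : ℝ, yy = 2 * (5 * CB2 * A₁) * (2 * R / h + 2) := ⟨_, rfl⟩
  have hQ0 : 0 < Q := by rw [hQ]; positivity
  obtain ⟨E₀, hE₀⟩ : ∃ yy : ℝ, yy = 7 + 1 / κ₀ + |E₂| + 2 * |E₃| + 2 * Z + Real.exp (2 * (Z + rr δ) ^ 2) +
    8 / β * (Q / κ₀ + CI * A₁ * (1 / κ₀ + 1)) := ⟨_, rfl⟩
  have hE₀parts : 7 ≤ E₀ ∧ 1 / κ₀ ≤ E₀ ∧ |E₂| ≤ E₀ ∧ 2 * |E₃| ≤ E₀ ∧ 2 * Z ≤ E₀ ∧ Real.exp (2 * (Z + rr δ) ^ 2) ≤ E₀ ∧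
      8 / β * (Q / κ₀ + CI * A₁ * (1 / κ₀ + 1)) ≤ E₀ := by
    have a1 : 0 ≤ 1 / κ₀ := by positivity
    have a2 : 0 ≤ |E₂| := abs_nonneg _
    have a3 : 0 ≤ 2 * |E₃| := by positivity
    have a4 : 0 ≤ 2 * Z := by positivity
    have a5 : 0 ≤ Real.exp (2 * (Z + rr δ) ^ 2) := (Real.exp_pos _).le
    have a6 : 0 ≤ 8 / β * (Q / κ₀ + CI * A₁ * (1 / κ₀ + 1)) := by positivity
    rw [hE₀]
    refine ⟨?_, ?_, ?_, ?_, ?_, ?_, ?_⟩ <;> linarith
  clear hE₀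
  obtain ⟨hE7, hEκ, hEE₂, hEE₃, hEZ, hEexp, hEbig⟩ := hE₀parts
  refine ⟨h, hh0, hh1, β / (4 * CG), by positivity, R + 1, by linarith, E₀, by linarith, ?_⟩
  intro p M Y η κ x hP hκ T hT0 hT1 hET f hf hf1 hg G hG0 hG
  have hp := hP.hp
  have hpr : (0 : ℝ) < p := by exact_mod_cast hp
  have hκ0 := hP.hκ0
  obtain ⟨E, hE⟩ : ∃ E : ℝ, E = ed p T := ⟨_, rfl⟩
  rw [← hE] at hET
  have hE1 : 1 ≤ E := by linarith
  have hp4 : 4 ≤ p := by
    have h1 : E ≤ T := by rw [hE]; exact min_le_left _ _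
    have h2 : E ≤ Real.pi * p - T := by rw [hE]; exact min_le_right _ _
    have h3 : (14 : ℝ) ≤ Real.pi * p := by linarith
    have h4 := Real.pi_lt_d2
    have h5 : (4 : ℝ) < p + 1 := by nlinarith
    have h6 : (4 : ℕ) < p + 1 := by exact_mod_cast h5
    omega
  have hκE : 1 ≤ κ * E := by
    have h1 : 1 / κ₀ ≤ E := by linarith
    rw [div_le_iff₀ hκ₀] at h1
    have h2 : E * κ₀ ≤ E * κ := by gcongr
    linarith
  obtain ⟨K, D, hK, hD, hK0, hK1, hKz, hKe, hKd, hKq⟩ := kernel_exists (δ / 40) b₂ (by positivity) (by linarith) hb₂0 p hp (ed p T) (by rw [← hE]; exact hE1)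
  have hDd : (D : ℝ) ≤ δ * p := by
    refine hD.trans ?_
    have : 8 * b₂ + 2 * (δ / 40) ≤ δ := by linarith
    gcongr
  have hS : Setting p M δ Y η κ x f T K D A₁ :=
    { hP := hP, hT0 := hT0, hT1 := hT1, hE := by rw [← hE]; exact hE1
      hf := hf, hf1 := hf1, hg := hg, hK := hK, hD := hDd, hK0 := hK0, hK1 := hK1, hA₁ := hA₁0
      hKd := by
        intro t ht
        have := hKd t ht
        rw [show δ / 40 / 10 = δ / 400 by ring] at this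
        rw [hA₁]; exact this }
  -- lower bound
  obtain ⟨ζ, hζ1, hζ2⟩ := hLG2 p hp T (by rw [← hE]; linarith [le_abs_self E₂]) f hf hf1 hg
  have hζab := abs_le.1 hζ1
  have hedc : E / 2 ≤ ed p (T + ζ) := by
    have h1 := ed_lip p T (T + ζ)
    rw [show T - (T + ζ) = -ζ by ring, abs_neg, ← hE] at h1
    linarith
  have hc01 : 0 ≤ T + ζ ∧ T + ζ ≤ Real.pi * p := by
    have h1 : ed p (T + ζ) ≤ T + ζ := min_le_left _ _
    have h2 : ed p (T + ζ) ≤ Real.pi * p - (T + ζ) := min_le_right _ _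
    constructor <;> linarith
  have hlowc := hlow p M Y η κ x hP hκ (T + ζ) hc01.1 hc01.2 (by linarith [le_abs_self E₃])
  have hKhalf : ∀ u, |u| ≤ Z + rr δ → 1 / 2 ≤ K u := by
    intro u hu
    refine le_trans ?_ (hKq u)
    rw [← hE]
    have hLL := one_le_LL (by linarith : 0 ≤ E)
    have h1 : u ^ 2 ≤ (Z + rr δ) ^ 2 := by rw [← sq_abs]; have := abs_nonneg u; gcongr
    have h2 : 2 * (Z + rr δ) ^ 2 ≤ LL E := by
      unfold LL
      rw [Real.le_log_iff_exp_le (by have := Real.exp_pos 1; linarith)]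
      have := Real.exp_pos 1
      linarith
    have h3 : (δ / 40) ^ 2 / (2 * LL E) * (Z + rr δ) ^ 2 ≤ 1 / 4 := by
      rw [div_mul_eq_mul_div, div_le_iff₀ (by positivity)]
      have h4 : (δ / 40) ^ 2 ≤ 1 := by
        apply pow_le_one₀ (by positivity); linarith
      have h5 : 0 ≤ (Z + rr δ) ^ 2 := by positivity
      calc (δ / 40) ^ 2 * (Z + rr δ) ^ 2 ≤ 1 * (Z + rr δ) ^ 2 := by gcongr
        _ ≤ 1 / 4 * (2 * LL E) := by linarith
    have h4 : 4 * b₂ ^ 2 * (Z + rr δ) ^ 2 ≤ 1 / 4 := by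
      have h6 : b₂ * (Z + rr δ) ≤ 1 / 4 := by
        calc b₂ * (Z + rr δ) ≤ 1 / (4 * (Z + rr δ)) * (Z + rr δ) := by gcongr
          _ = 1 / 4 := by field_simp
      have h7 : (b₂ * (Z + rr δ)) ^ 2 ≤ (1 / 4) ^ 2 := by gcongr
      calc 4 * b₂ ^ 2 * (Z + rr δ) ^ 2 = 4 * (b₂ * (Z + rr δ)) ^ 2 := by ring
        _ ≤ 4 * (1 / 4) ^ 2 := by gcongr
        _ = 1 / 4 := by norm_num
    have h5 : 0 ≤ (δ / 40) ^ 2 / (2 * LL E) + 4 * b₂ ^ 2 := by positivity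
    have h6 : ((δ / 40) ^ 2 / (2 * LL E) + 4 * b₂ ^ 2) * u ^ 2 ≤ ((δ / 40) ^ 2 / (2 * LL E) + 4 * b₂ ^ 2) * (Z + rr δ) ^ 2 := by
      gcongr
    linarith
  have hlower := hS.lower hc₄ hθ hKhalf hζ1 hζ2 (by rw [← hE]; linarith) hlowc
  have hcomb := hS.comb hp4
  have hsum := hS.sum_tau hp4 (by rw [← hE]; exact hκE) hR0 hh0 hh1 hG0 hG
  rw [← hE, ← hβ] at hlower
  rw [← hE, ← hCG, ← hQ] at hsum
  rw [← hE]
  obtain ⟨W, hW⟩ : ∃ W : ℝ, W = ∑ m ∈ (Finset.range M).filter (fun m => |x (2 * m) - T| ≤ R + 1), G m := ⟨_, rfl⟩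
  rw [← hW] at hsum ⊢
  have h1 : (5 * CB2 * A₁ / (1 + R) + h * (4 * BB R + 4 * SS R + 6) * (1 + R) ^ 4) * (3 * CC * (κ * E)) ≤ β / 4 * (κ * E) := by
    calc (5 * CB2 * A₁ / (1 + R) + h * (4 * BB R + 4 * SS R + 6) * (1 + R) ^ 4) * (3 * CC * (κ * E))
        = (5 * CB2 * A₁ / (1 + R) * (3 * CC) + h * (4 * BB R + 4 * SS R + 6) * (1 + R) ^ 4 * (3 * CC)) * (κ * E) := by ring
      _ ≤ (β / 8 + β / 8) * (κ * E) := by gcongr
      _ = _ := by ring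
  have h2 : Q + CI * A₁ * (1 + κ) ≤ β / 8 * (κ * E) := by
    have h3 : 8 / β * (Q / κ₀ + CI * A₁ * (1 / κ₀ + 1)) ≤ E := by linarith
    have h4 : (1 : ℝ) ≤ κ * (1 / κ₀) := by
      rw [mul_one_div, le_div_iff₀ hκ₀]; linarith
    have h5 : Q ≤ κ * (Q / κ₀) := by
      calc Q ≤ Q * (κ * (1 / κ₀)) := le_mul_of_one_le_right hQ0.le h4
        _ = _ := by ring
    have h6 : CI * A₁ * (1 + κ) ≤ κ * (CI * A₁ * (1 / κ₀ + 1)) := by
      have : CI * A₁ * (1 + κ) ≤ CI * A₁ * (κ * (1 / κ₀) + κ) := by gcongr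
      linarith
    have h7 : β / 8 * (κ * (8 / β * (Q / κ₀ + CI * A₁ * (1 / κ₀ + 1)))) ≤ β / 8 * (κ * E) := by
      gcongr
    have h8 : β / 8 * (κ * (8 / β * (Q / κ₀ + CI * A₁ * (1 / κ₀ + 1)))) =
        κ * (Q / κ₀) + κ * (CI * A₁ * (1 / κ₀ + 1)) := by
      field_simp
    linarith
  have h30 : 0 ≤ β * (κ * E) := by positivity
  have h3 : β / 2 * (κ * E) ≤ 2 * CG * W := by linarith
  rw [div_mul_eq_mul_div, div_le_iff₀ (by positivity)]
  linarith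

end Pool.Agent.Helper514.Cheb
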