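import Pool.Agent.Helper514.Cheb.Poly
import Pool.Agent.Helper514.Cheb.Count

set_option autoImplicit false

open MeasureTheory Set Filter

namespace Pool.Agent.Helper514.Cheb

lemma int_inv_sq0 (a : ℝ) (ha : 0 ≤ a) : ∫ u in (0:ℝ)..a, 1 / (1 + u) ^ 2 ≤ 1 := by
  have h3 : ∫ u in (0:ℝ)..a, 1 / (1 + u) ^ 2 = -(1 + a)⁻¹ - -(1 + 0)⁻¹ := by
    apply intervalIntegral.integral_eq_sub_of_hasDerivAt
    · intro u hu
      rw [Set.uIcc_of_le ha] at hu
      have h4 : (1 + u) ≠ 0 := by have := hu.1; positivity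
      have h5 : HasDerivAt (fun u : ℝ => 1 + u) 1 u := by simpa using (hasDerivAt_id u).const_add 1
      have h6 := (h5.inv h4).neg
      have e : 1 / (1 + u) ^ 2 = -(-1 / (1 + u) ^ 2) := by ring
      rw [e]; exact h6
    · apply ContinuousOn.intervalIntegrable
      intro u hu
      rw [Set.uIcc_of_le ha] at hu
      have h4 : (1 + u) ^ 2 ≠ 0 := by have := hu.1; positivity
      apply ContinuousAt.continuousWithinAt
      fun_prop (disch := assumption)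
  rw [h3]
  have : 0 ≤ (1 + a)⁻¹ := by positivity
  simp; linarith

lemma int_le_of_decay {a : ℝ} (ha : 0 ≤ a) {g : ℝ → ℝ} (hg : Continuous g) {A : ℝ} (hA : 0 ≤ A)
    (h : ∀ t : ℝ, 0 ≤ t → t ≤ a → g t ≤ A * (1 / (1 + t) ^ 2)) : ∫ t in (0:ℝ)..a, g t ≤ A := by
  have hc : ContinuousOn (fun u : ℝ => A * (1 / (1 + u) ^ 2)) (uIcc 0 a) := by
    intro u hu
    rw [Set.uIcc_of_le ha] at hu
    have h4 : (1 + u) ^ 2 ≠ 0 := by have := hu.1; positivity
    apply ContinuousAt.continuousWithinAt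
    fun_prop (disch := assumption)
  calc ∫ t in (0:ℝ)..a, g t ≤ ∫ t in (0:ℝ)..a, A * (1 / (1 + t) ^ 2) := by
        apply intervalIntegral.integral_mono_on ha (hg.intervalIntegrable _ _) hc.intervalIntegrable
        intro t ht; exact h t ht.1 ht.2
    _ = A * ∫ t in (0:ℝ)..a, 1 / (1 + t) ^ 2 := by rw [intervalIntegral.integral_const_mul]
    _ ≤ A * 1 := by gcongr; exact int_inv_sq0 a ha
    _ = A := mul_one A

lemma Dir_cont (p k : ℕ) : Continuous (Dir p k) := (Dir_rtp p k).continuous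

lemma Dir_pow_le {p k : ℕ} (hp : 0 < p) {b : ℝ} (hb : 0 < b) (hk : b * p ≤ 2 * (k : ℝ) + 1) {u : ℝ}
    (hu0 : 0 ≤ u) (hu : u ≤ Real.pi * p) (e : ℕ) : |Dir p k u| ^ e * (1 + u) ^ e ≤ (1 + Real.pi / b) ^ e := by
  have h1 := Dir_decay' hp hb hk (u := u) (by rwa [abs_of_nonneg hu0])
  rw [abs_of_nonneg hu0] at h1
  rw [← mul_pow]
  exact pow_le_pow_left₀ (by positivity) h1 e

lemma ww_le (p : ℕ) {t : ℝ} (h0 : 0 ≤ t) : ww p t ≤ t := by
  have h1 := ww_lip p t 0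
  rw [ww_zero, sub_zero, sub_zero, abs_of_nonneg (ww_nonneg p t), abs_of_nonneg h0] at h1
  exact h1

lemma Dir6_int {p k : ℕ} (hp : 0 < p) {b : ℝ} (hb : 0 < b) (hk : b * p ≤ 2 * (k : ℝ) + 1) :
    ∫ s in (0:ℝ)..(Real.pi * p), Dir p k s ^ 6 * ww p s ≤ (1 + Real.pi / b) ^ 6 := by
  apply int_le_of_decay (by positivity) (((Dir_cont p k).pow 6).mul (ww_continuous p)) (by positivity)
  intro t h0 h1
  have h2 := Dir_pow_le hp hb hk h0 h1 6
  have h3 := ww_le p h0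
  have h4 : Dir p k t ^ 6 = |Dir p k t| ^ 6 := by rw [← abs_pow]; exact (abs_of_nonneg (by positivity)).symm
  show Dir p k t ^ 6 * ww p t ≤ _
  rw [h4]
  have h5 := ww_nonneg p t
  have h6 : (0:ℝ) < (1 + t) ^ 2 := by positivity
  rw [mul_one_div, le_div_iff₀ h6]
  have h7 : t * (1 + t) ^ 2 ≤ (1 + t) ^ 6 := by
    have : t * (1 + t) ^ 2 ≤ (1 + t) * (1 + t) ^ 2 := by gcongr; linarith
    have h8 : (1 + t) * (1 + t) ^ 2 = (1 + t) ^ 3 := by ring
    have h9 : (1 + t) ^ 3 ≤ (1 + t) ^ 6 := pow_le_pow_right₀ (by linarith) (by norm_num)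
    linarith
  calc |Dir p k t| ^ 6 * ww p t * (1 + t) ^ 2 ≤ |Dir p k t| ^ 6 * t * (1 + t) ^ 2 := by gcongr
    _ = |Dir p k t| ^ 6 * (t * (1 + t) ^ 2) := by ring
    _ ≤ |Dir p k t| ^ 6 * (1 + t) ^ 6 := by gcongr
    _ ≤ _ := h2

lemma H1_int {p k : ℕ} (hp : 0 < p) {b : ℝ} (hb : 0 < b) (hk : b * p ≤ 2 * (k : ℝ) + 1) :
    ∫ s in (0:ℝ)..(Real.pi * p), ((p:ℝ) ^ 2 * ((1 - Real.cos (s / p)) * Dir p k s ^ 6)) * ww p s ≤ (1 + Real.pi / b) ^ 6 := by
  have hpr : (0:ℝ) < p := by exact_mod_cast hp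
  have hc1 := Dir_cont p k
  have hc2 := ww_continuous p
  apply int_le_of_decay (by positivity) (by fun_prop) (by positivity)
  intro t h0 h1
  have h2 := Dir_pow_le hp hb hk h0 h1 6
  have h3 := ww_le p h0
  have h4 : Dir p k t ^ 6 = |Dir p k t| ^ 6 := by rw [← abs_pow]; exact (abs_of_nonneg (by positivity)).symm
  rw [h4]
  have h5 := ww_nonneg p t
  have h6 : (0:ℝ) < (1 + t) ^ 2 := by positivity
  have h10 : (p:ℝ) ^ 2 * (1 - Real.cos (t / p)) ≤ t ^ 2 := by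
    have := Real.one_sub_sq_div_two_le_cos (x := t / p)
    have h11 : (p:ℝ) ^ 2 * ((t / p) ^ 2 / 2) = t ^ 2 / 2 := by field_simp
    have h12 : (p:ℝ) ^ 2 * (1 - Real.cos (t / p)) ≤ (p:ℝ) ^ 2 * ((t / p) ^ 2 / 2) := by gcongr; linarith
    nlinarith [sq_nonneg t]
  have h13 : 0 ≤ 1 - Real.cos (t / p) := by linarith [Real.cos_le_one (t / p)]
  rw [mul_one_div, le_div_iff₀ h6]
  have h7 : t ^ 3 * (1 + t) ^ 2 ≤ (1 + t) ^ 6 := by
    have h8 : t ^ 3 ≤ (1 + t) ^ 3 := by gcongr; linarith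
    have h9 : (1 + t) ^ 5 ≤ (1 + t) ^ 6 := pow_le_pow_right₀ (by linarith) (by norm_num)
    calc t ^ 3 * (1 + t) ^ 2 ≤ (1 + t) ^ 3 * (1 + t) ^ 2 := by gcongr
      _ = (1 + t) ^ 5 := by ring
      _ ≤ _ := h9
  calc (p:ℝ) ^ 2 * ((1 - Real.cos (t / p)) * |Dir p k t| ^ 6) * ww p t * (1 + t) ^ 2
      = ((p:ℝ) ^ 2 * (1 - Real.cos (t / p))) * (|Dir p k t| ^ 6 * (ww p t * (1 + t) ^ 2)) := by ring
    _ ≤ t ^ 2 * (|Dir p k t| ^ 6 * (t * (1 + t) ^ 2)) := by gcongr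
    _ = |Dir p k t| ^ 6 * (t ^ 3 * (1 + t) ^ 2) := by ring
    _ ≤ |Dir p k t| ^ 6 * (1 + t) ^ 6 := by gcongr
    _ ≤ _ := h2

lemma Dir6_low {p k : ℕ} {t : ℝ} (h : ((k:ℝ) * (t / p)) ^ 2 ≤ 1 / 12) : 1 / 2 ≤ Dir p k t ^ 6 := by
  have h1 := Dir_ge p k t
  have h2 : 23 / 24 ≤ Dir p k t := by linarith
  have h3 : (23 / 24 : ℝ) ^ 6 ≤ Dir p k t ^ 6 := by gcongr
  have h4 : (1 / 2 : ℝ) ≤ (23 / 24) ^ 6 := by norm_num
  linarith

theorem lower : ∃ c : ℝ, 0 < c ∧ ∃ p₁ : ℕ, ∀ p : ℕ, p₁ ≤ p → ∀ N : ℕ, NS p N → c * (p : ℝ) ^ 2 ≤ N := by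
  obtain ⟨A, hA⟩ : ∃ A : ℝ, A = (1 + Real.pi / (1 / 8)) ^ 6 := ⟨_, rfl⟩
  have hA0 : 0 < A := by rw [hA]; positivity
  obtain ⟨B, hB⟩ : ∃ B : ℝ, B = 2 * Real.pi * A := ⟨_, rfl⟩
  have hB0 : 0 < B := by rw [hB]; positivity
  obtain ⟨q, hq⟩ : ∃ q : ℕ, 8 + 6 * Real.pi ^ 2 * B ≤ q := exists_nat_ge _
  have hq8 : (8:ℝ) ≤ q := by
    have : 0 ≤ 6 * Real.pi ^ 2 * B := by positivity
    linarith
  have hq0 : 0 < q := by
    have : (0:ℝ) < q := by linarith
    exact_mod_cast this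
  have hq2 : 6 * Real.pi ^ 2 * B ≤ (q:ℝ) ^ 2 := by nlinarith
  obtain ⟨A₂, hA₂⟩ : ∃ A : ℝ, A = (1 + Real.pi / (1 / (q:ℝ))) ^ 6 := ⟨_, rfl⟩
  have hA₂0 : 0 < A₂ := by rw [hA₂]; positivity
  refine ⟨1 / A₂, by positivity, 1, fun p hp N hN => ?_⟩
  have hp0 : 0 < p := hp
  have hpr : (1:ℝ) ≤ p := by exact_mod_cast hp
  have hpi := Real.pi_gt_three
  obtain ⟨t, ht0, -, hex⟩ := NS_exact hp0 hN
  have hNr : (0:ℝ) < N := by exact_mod_cast hN.1
  obtain ⟨κ, hκ⟩ : ∃ κ : ℝ, κ = (N : ℝ) / (2 * (p : ℝ) ^ 2) := ⟨_, rfl⟩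
  have hκ0 : 0 < κ := by rw [hκ]; positivity
  rw [← hκ] at hex
  -- first kernel
  obtain ⟨k, hk⟩ : ∃ k : ℕ, k = p / 8 := ⟨_, rfl⟩
  have hk1 : (1/8 : ℝ) * p ≤ 2 * (k:ℝ) + 1 := by
    have : p ≤ 16 * k + 8 := by omega
    have h2 : (p:ℝ) ≤ 16 * k + 8 := by exact_mod_cast this
    linarith
  have hk8 : (k:ℝ) ≤ p / 8 := by
    have : 8 * k ≤ p := by omega
    have h2 : 8 * (k:ℝ) ≤ p := by exact_mod_cast this
    linarith
  have hP1 : PC p p (fun s => (p:ℝ) ^ 2 * ((1 - Real.cos (s / p)) * Dir p k s ^ 6)) := by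
    have := (PC.one_sub_cos (p := p)).mul ((Dir_pc p k).pow 6)
    exact (this.mono (by omega)).const_mul _
  have hP2 : PC p p (fun s => Dir p k s ^ 6) := ((Dir_pc p k).pow 6).mono (by omega)
  have e1 := hex _ hP1
  have e2 := hex _ hP2
  have b1 : ∑ i ∈ Finset.range N, (p:ℝ) ^ 2 * ((1 - Real.cos (t i / p)) * Dir p k (t i) ^ 6) ≤ κ * A := by
    rw [e1, hA]
    have := H1_int hp0 (by norm_num : (0:ℝ) < 1 / 8) hk1
    gcongr
  have b2 : κ * (1 / (2 * Real.pi)) ≤ ∑ i ∈ Finset.range N, Dir p k (t i) ^ 6 := by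
    rw [e2]
    have h1 : 1 / (2 * Real.pi) ≤ ∫ s in (0:ℝ)..(Real.pi * p), Dir p k s ^ 6 * ww p s := by
      have hL1 : (1:ℝ) ≤ Real.pi * p := by nlinarith
      have h2 : ∫ s in (0:ℝ)..1, Dir p k s ^ 6 * ww p s ≤ ∫ s in (0:ℝ)..(Real.pi * p), Dir p k s ^ 6 * ww p s := by
        apply intervalIntegral.integral_mono_interval le_rfl zero_le_one hL1
        · refine Eventually.of_forall fun s => ?_
          have := ww_nonneg p s
          show (0:ℝ) ≤ _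
          positivity
        · exact (((Dir_cont p k).pow 6).mul (ww_continuous p)).intervalIntegrable _ _
      have h3 : ∫ s in (0:ℝ)..1, (1 / Real.pi) * s ≤ ∫ s in (0:ℝ)..1, Dir p k s ^ 6 * ww p s := by
        apply intervalIntegral.integral_mono_on zero_le_one
        · exact (by fun_prop : Continuous fun s : ℝ => (1 / Real.pi) * s).intervalIntegrable _ _
        · exact (((Dir_cont p k).pow 6).mul (ww_continuous p)).intervalIntegrable _ _
        · intro s hs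
          have h4 := ed_le_ww hp0 hs.1 (hs.2.trans hL1)
          have h5 : ed p s = s := by
            unfold ed; apply min_eq_left
            nlinarith [hs.2]
          rw [h5] at h4
          have h6 : 1 / 2 ≤ Dir p k s ^ 6 := by
            apply Dir6_low
            have h7 : (k:ℝ) * (s / p) ≤ 1 / 8 := by
              rw [mul_div_assoc', div_le_iff₀ (by linarith)]
              nlinarith [hs.1, hs.2]
            have h8 : 0 ≤ (k:ℝ) * (s / p) := by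
              have := hs.1
              positivity
            nlinarith
          have h9 : 0 ≤ 2 / Real.pi * s := by
            have := hs.1
            positivity
          calc (1 / Real.pi) * s = (1 / 2) * (2 / Real.pi * s) := by ring
            _ ≤ Dir p k s ^ 6 * ww p s := by gcongr
      have h4 : ∫ s in (0:ℝ)..1, (1 / Real.pi) * s = 1 / (2 * Real.pi) := by
        rw [intervalIntegral.integral_const_mul, integral_id]
        field_simp
        norm_num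
      linarith
    gcongr
  have hnode : ∃ i ∈ Finset.range N, (p:ℝ) ^ 2 * (1 - Real.cos (t i / p)) ≤ B := by
    by_contra hcon
    push Not at hcon
    have h1 : B * ∑ i ∈ Finset.range N, Dir p k (t i) ^ 6 ≤
        ∑ i ∈ Finset.range N, (p:ℝ) ^ 2 * ((1 - Real.cos (t i / p)) * Dir p k (t i) ^ 6) := by
      rw [Finset.mul_sum]
      refine Finset.sum_le_sum fun i hi => ?_
      have := (hcon i hi).le
      calc B * Dir p k (t i) ^ 6 ≤ ((p:ℝ) ^ 2 * (1 - Real.cos (t i / p))) * Dir p k (t i) ^ 6 := by gcongr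
        _ = _ := by ring
    have h2 : B * (κ * (1 / (2 * Real.pi))) = κ * A := by rw [hB]; field_simp
    have h3 : B * (κ * (1 / (2 * Real.pi))) ≤ B * ∑ i ∈ Finset.range N, Dir p k (t i) ^ 6 := by gcongr
    -- all equal: strictness
    have h4 : ∃ i ∈ Finset.range N, Dir p k (t i) ^ 6 ≠ 0 := by
      by_contra hc
      push Not at hc
      have : ∑ i ∈ Finset.range N, Dir p k (t i) ^ 6 = 0 := Finset.sum_eq_zero hc
      rw [this] at b2
      have : 0 < κ * (1 / (2 * Real.pi)) := by positivity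
      linarith
    obtain ⟨i, hi, hne⟩ := h4
    have h5 : B * ∑ i ∈ Finset.range N, Dir p k (t i) ^ 6 <
        ∑ i ∈ Finset.range N, (p:ℝ) ^ 2 * ((1 - Real.cos (t i / p)) * Dir p k (t i) ^ 6) := by
      rw [Finset.mul_sum]
      refine Finset.sum_lt_sum (fun i hi => ?_) ⟨i, hi, ?_⟩
      · have := (hcon i hi).le
        calc B * Dir p k (t i) ^ 6 ≤ ((p:ℝ) ^ 2 * (1 - Real.cos (t i / p))) * Dir p k (t i) ^ 6 := by gcongr
          _ = _ := by ring
      · have := hcon i hi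
        have h6 : 0 < Dir p k (t i) ^ 6 := lt_of_le_of_ne (by positivity) (Ne.symm hne)
        calc B * Dir p k (t i) ^ 6 < ((p:ℝ) ^ 2 * (1 - Real.cos (t i / p))) * Dir p k (t i) ^ 6 := by gcongr
          _ = _ := by ring
    linarith
  obtain ⟨i, hi, hiB⟩ := hnode
  have hti := ht0 i
  have hcos : (t i) ^ 2 ≤ Real.pi ^ 2 * B / 2 := by
    have h1 : |t i / p| ≤ Real.pi := by
      rw [abs_of_nonneg (div_nonneg hti.1 (by linarith)), div_le_iff₀ (by linarith)]; exact hti.2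
    have h2 := Real.cos_le_one_sub_mul_cos_sq h1
    have h3 : (p:ℝ) ^ 2 * (2 / Real.pi ^ 2 * (t i / p) ^ 2) ≤ B := by
      refine le_trans ?_ hiB
      gcongr; linarith
    have h4 : (p:ℝ) ^ 2 * (2 / Real.pi ^ 2 * (t i / p) ^ 2) = 2 * (t i) ^ 2 / Real.pi ^ 2 := by field_simp
    rw [h4, div_le_iff₀ (by positivity)] at h3
    linarith
  -- second kernel
  obtain ⟨k', hk'⟩ : ∃ k : ℕ, k = p / q := ⟨_, rfl⟩
  have hq8' : 8 ≤ q := by exact_mod_cast hq8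
  have hkq : q * k' ≤ p := by rw [hk']; exact Nat.mul_div_le p q
  have hk'1 : (1 / (q:ℝ)) * p ≤ 2 * (k':ℝ) + 1 := by
    have h1 : p < q * (k' + 1) := by rw [hk']; exact Nat.lt_mul_div_succ p hq0
    have h2 : (p:ℝ) ≤ q * (k' + 1) := by exact_mod_cast h1.le
    have h3 : (1 / (q:ℝ)) * p ≤ (1 / (q:ℝ)) * (q * (k' + 1)) := by gcongr
    have h4 : (1 / (q:ℝ)) * (q * (k' + 1)) = k' + 1 := by field_simp
    have h5 : (0:ℝ) ≤ k' := by positivity
    linarith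
  have h8k : 8 * k' ≤ p := (Nat.mul_le_mul_right k' hq8').trans hkq
  have hP3 : PC p p (fun s => Dir p k' s ^ 6) := ((Dir_pc p k').pow 6).mono (by omega)
  have e3 := hex _ hP3
  have b3 : ∑ i ∈ Finset.range N, Dir p k' (t i) ^ 6 ≤ κ * A₂ := by
    rw [e3, hA₂]
    have := Dir6_int hp0 (by positivity : (0:ℝ) < 1 / (q:ℝ)) hk'1
    gcongr
  have b4 : 1 / 2 ≤ ∑ i ∈ Finset.range N, Dir p k' (t i) ^ 6 := by
    have h1 : 1 / 2 ≤ Dir p k' (t i) ^ 6 := by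
      apply Dir6_low
      have h2 : ((k':ℝ) * (t i / p)) ^ 2 = ((k':ℝ) / p) ^ 2 * (t i) ^ 2 := by field_simp
      have h3 : (k':ℝ) / p ≤ 1 / q := by
        rw [div_le_div_iff₀ (by linarith) (by linarith), one_mul, mul_comm]
        exact_mod_cast hkq
      rw [h2]
      calc ((k':ℝ) / p) ^ 2 * (t i) ^ 2 ≤ (1 / q) ^ 2 * (Real.pi ^ 2 * B / 2) := by gcongr
        _ ≤ 1 / 12 := by
          rw [div_pow, one_pow, one_div_mul_eq_div, div_le_iff₀ (by positivity)]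
          linarith
    exact h1.trans (Finset.single_le_sum (f := fun i => Dir p k' (t i) ^ 6) (fun i _ => by positivity) hi)
  have h5 : 1 / 2 ≤ κ * A₂ := b4.trans b3
  rw [hκ] at h5
  have h6 : (N : ℝ) / (2 * (p : ℝ) ^ 2) * A₂ = (N * A₂) / (2 * (p:ℝ) ^ 2) := by ring
  rw [h6, le_div_iff₀ (by positivity)] at h5
  rw [div_mul_eq_mul_div, div_le_iff₀ hA₂0]
  linarith

end Pool.Agent.Helper514.Cheb
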