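import Pool.Agent.Helper514.Cheb.LG1

set_option autoImplicit false

open Filter Topology MeasureTheory

namespace Pool.Agent.Helper514.Cheb

lemma min_at_zero {φ φ' : ℝ → ℝ} {L : ℝ} (hd : ∀ r, HasDerivAt φ (φ' r) r)
    (h1 : ∀ r, 0 ≤ r → r ≤ L → 0 ≤ φ' r) (h2 : ∀ r, -L ≤ r → r ≤ 0 → φ' r ≤ 0) (s : ℝ) (hs : |s| ≤ L) :
    φ 0 ≤ φ s := by
  have hab := abs_le.1 hs
  have hc : Continuous φ := continuous_iff_continuousAt.2 fun r => (hd r).continuousAt
  rcases le_total 0 s with h | h
  · have hm : MonotoneOn φ (Set.Icc 0 L) := by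
      apply monotoneOn_of_deriv_nonneg (convex_Icc 0 L) hc.continuousOn
      · exact fun r _ => (hd r).differentiableAt.differentiableWithinAt
      · intro r hr
        rw [interior_Icc] at hr
        rw [(hd r).deriv]
        exact h1 r hr.1.le hr.2.le
    exact hm ⟨le_rfl, by linarith⟩ ⟨h, hab.2⟩ h
  · have hm : AntitoneOn φ (Set.Icc (-L) 0) := by
      apply antitoneOn_of_deriv_nonpos (convex_Icc (-L) 0) hc.continuousOn
      · exact fun r _ => (hd r).differentiableAt.differentiableWithinAt
      · intro r hr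
        rw [interior_Icc] at hr
        rw [(hd r).deriv]
        exact h2 r hr.1.le hr.2.le
    exact hm ⟨hab.1, h⟩ ⟨by linarith, le_rfl⟩ h

/-- lower Lipschitz bound -/
lemma mvt_ge {g g' : ℝ → ℝ} (hd : ∀ r, HasDerivAt g (g' r) r) {a b m : ℝ} (hab : a ≤ b)
    (h : ∀ r, a ≤ r → r ≤ b → m ≤ g' r) : m * (b - a) ≤ g b - g a := by
  have hc : Continuous g := continuous_iff_continuousAt.2 fun r => (hd r).continuousAt
  have := Convex.mul_sub_le_image_sub_of_le_deriv (convex_Icc a b) hc.continuousOn
    (fun r _ => (hd r).differentiableAt.differentiableWithinAt) (C := m) (by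
      intro r hr
      rw [interior_Icc] at hr
      rw [(hd r).deriv]
      exact h r hr.1.le hr.2.le) a ⟨le_rfl, hab⟩ b ⟨hab, le_rfl⟩ hab
  exact this

lemma mvt_abs {g g' : ℝ → ℝ} (hd : ∀ r, HasDerivAt g (g' r) r) {a b C : ℝ}
    (h : ∀ r, min a b ≤ r → r ≤ max a b → |g' r| ≤ C) : |g b - g a| ≤ C * |b - a| := by
  have := Convex.norm_image_sub_le_of_norm_hasDerivWithin_le (f := g) (f' := g') (C := C)
    (s := Set.uIcc a b) (x := a) (y := b)
    (fun r _ => (hd r).hasDerivWithinAt) (fun r hr => by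
      rw [Real.norm_eq_abs]
      exact h r hr.1 hr.2) (convex_uIcc a b) Set.left_mem_uIcc Set.right_mem_uIcc
  simpa [Real.norm_eq_abs] using this

/-- the gradient step -/
lemma grad_step {f f' f'' : ℝ → ℝ} (h1 : ∀ r, HasDerivAt f (f' r) r) (h2 : ∀ r, HasDerivAt f' (f'' r) r)
    {y S : ℝ} (hS : 0 < S) (hf1 : |f' y| ≤ S) (hf2 : ∀ t, |t - y| ≤ 1 → |f'' t| ≤ S) :
    f y + f' y ^ 2 / (2 * S) ≤ f (y + f' y / S) := by
  set s := f' y / S with hs
  have hs1 : |s| ≤ 1 := by rw [hs, abs_div, abs_of_pos hS, div_le_one hS]; exact hf1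
  have hlip : ∀ r, |r| ≤ 1 → |f' (y + r) - f' y| ≤ S * |r| := by
    intro r hr
    have := mvt_abs h2 (a := y) (b := y + r) (C := S) (by
      intro t ht1 ht2
      apply hf2
      have hab := abs_le.1 hr
      rcases le_total 0 r with h | h
      · rw [min_eq_left (by linarith)] at ht1
        rw [max_eq_right (by linarith)] at ht2
        rw [abs_le]; constructor <;> linarith
      · rw [min_eq_right (by linarith)] at ht1
        rw [max_eq_left (by linarith)] at ht2
        rw [abs_le]; constructor <;> linarith)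
    rwa [add_sub_cancel_left] at this
  have hd : ∀ r, HasDerivAt (fun r => f (y + r) - f' y * r + S / 2 * r ^ 2) (f' (y + r) - f' y + S * r) r := by
    intro r
    have e1 : HasDerivAt (fun r => f (y + r)) (f' (y + r)) r := (h1 (y + r)).comp_const_add y r
    have e2 : HasDerivAt (fun r : ℝ => f' y * r) (f' y) r := by
      simpa using (hasDerivAt_id r).const_mul (f' y)
    have e3 : HasDerivAt (fun r : ℝ => S / 2 * r ^ 2) (S * r) r := by
      have := (hasDerivAt_pow 2 r).const_mul (S / 2)
      refine this.congr_deriv ?_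
      push_cast; ring
    exact (e1.sub e2).add e3
  have h3 := min_at_zero hd (L := 1) (by
    intro r h0 h1
    have := (abs_le.1 (hlip r (abs_le.2 ⟨by linarith, h1⟩))).1
    rw [abs_of_nonneg h0] at this; linarith) (by
    intro r h0 h1
    have := (abs_le.1 (hlip r (abs_le.2 ⟨h0, by linarith⟩))).2
    rw [abs_of_nonpos h1] at this; linarith) s hs1
  simp only [add_zero, mul_zero] at h3
  have e4 : f' y * s - S / 2 * s ^ 2 = f' y ^ 2 / (2 * S) := by rw [hs]; field_simp; ring
  norm_num at h3
  linarith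

/-- moving a pair apart -/
lemma apart {f f' f'' : ℝ → ℝ} (h1 : ∀ r, HasDerivAt f (f' r) r) (h2 : ∀ r, HasDerivAt f' (f'' r) r)
    {a b m h v : ℝ} (hab : a ≤ b) (hm : 0 ≤ m) (hf2 : ∀ t, a - h ≤ t → t ≤ b + h → m ≤ f'' t)
    (hv0 : 0 ≤ v) (hvh : v ≤ h) :
    f a + f b + m * v ^ 2 ≤ f (a - v) + f (b + v) := by
  have hd : ∀ r, HasDerivAt (fun r => f (a - r) + f (b + r) - m * r ^ 2) (-f' (a - r) + f' (b + r) - 2 * m * r) r := by
    intro r
    have e1 : HasDerivAt (fun r => f (a - r)) (-f' (a - r)) r := by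
      simpa using (h1 (a - r)).comp_const_sub a r
    have e2 : HasDerivAt (fun r => f (b + r)) (f' (b + r)) r := (h1 (b + r)).comp_const_add b r
    have e3 : HasDerivAt (fun r : ℝ => m * r ^ 2) (2 * m * r) r := by
      have := (hasDerivAt_pow 2 r).const_mul m
      refine this.congr_deriv ?_
      push_cast; ring
    exact (e1.add e2).sub e3
  have h3 := mvt_ge hd hv0 (m := 0) (by
    intro r hr0 hr1
    have h4 := mvt_ge h2 (a := a - r) (b := b + r) (m := m) (by linarith) (fun t ht1 ht2 =>
      hf2 t (by linarith) (by linarith))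
    nlinarith [mul_nonneg hm (sub_nonneg.2 hab)])
  simp only [sub_zero, add_zero, zero_mul] at h3
  norm_num at h3
  linarith

/-- gain of a pair move -/
theorem pair_gain {f f' f'' f''' : ℝ → ℝ} (h1 : ∀ r, HasDerivAt f (f' r) r) (h2 : ∀ r, HasDerivAt f' (f'' r) r)
    (h3 : ∀ r, HasDerivAt f'' (f''' r) r)
    {a b m h S : ℝ} (hab : a ≤ b) (hh0 : 0 < h) (hh1 : h ≤ 1) (hS : 0 < S)
    (hSb : ∀ t, a - 2 ≤ t → t ≤ b + 2 → |f' t| + |f'' t| ≤ S)
    (hSle : ∀ S₀, (∀ t, a - 2 ≤ t → t ≤ b + 2 → |f' t| + |f'' t| ≤ S₀) → S ≤ S₀)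
    (hm1 : ∀ t, a - h ≤ t → t ≤ b + h → m ≤ f'' t)
    (hm2 : ∀ m₀, (∀ t, a - h ≤ t → t ≤ b + h → m₀ ≤ f'' t) → m₀ ≤ m) :
    ∃ G, 0 ≤ G ∧ f a + f b + G ≤
        f (a - h * max 0 m / S + f' (a - h * max 0 m / S) / S) + f (b + h * max 0 m / S + f' (b + h * max 0 m / S) / S) ∧
      ∀ S₀ B₃ : ℝ, 0 < S₀ → 0 ≤ B₃ → (∀ t, a - 2 ≤ t → t ≤ b + 2 → |f' t| + |f'' t| ≤ S₀ ∧ |f''' t| ≤ B₃) →
        ∀ y, (y = a ∨ y = b) → h ^ 2 * (max 0 (f'' y - B₃ * (b - a + h))) ^ 3 ≤ S₀ ^ 2 * G ∧
          (max 0 (|f' y| - h * S₀)) ^ 2 ≤ 2 * S₀ * G := by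
  set mp := max 0 m with hmp
  have hmp0 : 0 ≤ mp := le_max_left _ _
  set v := h * mp / S with hv
  have hv0 : 0 ≤ v := by positivity
  have hmpS : mp ≤ S := by
    apply max_le hS.le
    have h4 := hm1 a (by linarith) (by linarith)
    have h5 := hSb a (by linarith) (by linarith)
    have h6 := le_abs_self (f'' a)
    have h7 := abs_nonneg (f' a)
    linarith
  have hvh : v ≤ h := by
    rw [hv, div_le_iff₀ hS]
    gcongr
  set G := h ^ 2 * mp ^ 3 / S ^ 2 + (f' (a - v) ^ 2 / (2 * S) + f' (b + v) ^ 2 / (2 * S)) with hG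
  have hG1 : 0 ≤ h ^ 2 * mp ^ 3 / S ^ 2 := by positivity
  have hG2 : 0 ≤ f' (a - v) ^ 2 / (2 * S) := by positivity
  have hG3 : 0 ≤ f' (b + v) ^ 2 / (2 * S) := by positivity
  refine ⟨G, by rw [hG]; positivity, ?_, ?_⟩
  · have hstep1 : f a + f b + mp * v ^ 2 ≤ f (a - v) + f (b + v) := by
      rcases le_total 0 m with h0 | h0
      · rw [hmp, max_eq_right h0]
        exact apart h1 h2 hab h0 hm1 hv0 hvh
      · have e : mp = 0 := by rw [hmp, max_eq_left h0]
        have e2 : v = 0 := by rw [hv, e]; simp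
        rw [e, e2]; simp
    have hstep2 := grad_step h1 h2 (y := a - v) hS (by
      have := hSb (a - v) (by linarith) (by linarith)
      have := abs_nonneg (f'' (a - v))
      linarith) (by
      intro t ht
      have hab' := abs_le.1 ht
      have := hSb t (by linarith) (by linarith)
      have := abs_nonneg (f' t)
      linarith)
    have hstep3 := grad_step h1 h2 (y := b + v) hS (by
      have := hSb (b + v) (by linarith) (by linarith)
      have := abs_nonneg (f'' (b + v))
      linarith) (by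
      intro t ht
      have hab' := abs_le.1 ht
      have := hSb t (by linarith) (by linarith)
      have := abs_nonneg (f' t)
      linarith)
    have e : mp * v ^ 2 = h ^ 2 * mp ^ 3 / S ^ 2 := by rw [hv]; field_simp
    rw [hG]
    linarith
  · intro S₀ B₃ hS₀ hB₃ hb y hy
    have hSS₀ : S ≤ S₀ := hSle S₀ fun t ht1 ht2 => (hb t ht1 ht2).1
    have hG0 : 0 ≤ G := by rw [hG]; positivity
    constructor
    · have hml : f'' y - B₃ * (b - a + h) ≤ m := by
        apply hm2
        intro t ht1 ht2
        have h4 := mvt_abs h3 (a := y) (b := t) (C := B₃) (by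
          intro r hr1 hr2
          apply (hb r _ _).2
          · refine le_trans ?_ hr1
            apply le_min
            · rcases hy with rfl | rfl <;> linarith
            · linarith
          · refine le_trans hr2 ?_
            apply max_le
            · rcases hy with rfl | rfl <;> linarith
            · linarith)
        have h5 : |t - y| ≤ b - a + h := by
          rw [abs_le]
          rcases hy with rfl | rfl <;> constructor <;> linarith
        have h6 : B₃ * |t - y| ≤ B₃ * (b - a + h) := by gcongr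
        have h7 := (abs_le.1 h4).1
        linarith
      have h4 : max 0 (f'' y - B₃ * (b - a + h)) ≤ mp := max_le_max le_rfl hml
      calc h ^ 2 * (max 0 (f'' y - B₃ * (b - a + h))) ^ 3 ≤ h ^ 2 * mp ^ 3 := by
            have := le_max_left 0 (f'' y - B₃ * (b - a + h))
            gcongr
        _ = S ^ 2 * (h ^ 2 * mp ^ 3 / S ^ 2) := by field_simp
        _ ≤ S₀ ^ 2 * G := by
            gcongr
            rw [hG]; linarith
    · have hkey : ∀ w, |w - y| ≤ v → (∀ r, min w y ≤ r → r ≤ max w y → a - 2 ≤ r ∧ r ≤ b + 2) →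
          f' w ^ 2 / (2 * S) ≤ G → (max 0 (|f' y| - h * S₀)) ^ 2 ≤ 2 * S₀ * G := by
        intro w hw hr hwG
        have h4 := mvt_abs h2 (a := w) (b := y) (C := S) (by
          intro r hr1 hr2
          have h5 := hr r hr1 hr2
          have h6 := hSb r h5.1 h5.2
          have := abs_nonneg (f' r)
          linarith)
        have h5 : |f' y| ≤ |f' w| + S * v := by
          have h6 : |f' y| ≤ |f' w| + |f' y - f' w| := by
            have := abs_add_le (f' w) (f' y - f' w)
            rwa [add_sub_cancel] at this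
          have h7 : S * |y - w| ≤ S * v := by rw [abs_sub_comm]; gcongr
          linarith
        have h6 : S * v ≤ h * S₀ := by
          calc S * v ≤ S₀ * h := by gcongr
            _ = _ := by ring
        have h7 : max 0 (|f' y| - h * S₀) ≤ |f' w| := max_le (abs_nonneg _) (by linarith)
        have h8 : (max 0 (|f' y| - h * S₀)) ^ 2 ≤ f' w ^ 2 := by
          rw [← sq_abs (f' w)]
          have := le_max_left 0 (|f' y| - h * S₀)
          gcongr
        refine h8.trans ?_
        rw [div_le_iff₀ (by positivity)] at hwG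
        calc f' w ^ 2 ≤ G * (2 * S) := hwG
          _ ≤ G * (2 * S₀) := by gcongr
          _ = _ := by ring
      rcases hy with rfl | rfl
      · apply hkey (y - v)
        · rw [show y - v - y = -v by ring, abs_neg, abs_of_nonneg hv0]
        · intro r hr1 hr2
          rw [min_eq_left (by linarith)] at hr1
          rw [max_eq_right (by linarith)] at hr2
          constructor <;> linarith
        · rw [hG]; linarith
      · apply hkey (y + v)
        · rw [show y + v - y = v by ring, abs_of_nonneg hv0]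
        · intro r hr1 hr2
          rw [min_eq_right (by linarith)] at hr1
          rw [max_eq_left (by linarith)] at hr2
          constructor <;> linarith
        · rw [hG]; linarith

end Pool.Agent.Helper514.Cheb
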