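import Pool.Agent.Helper514.Cheb.Dom
import Pool.Agent.Helper514.Cheb.Moves
import Pool.Agent.Helper514.Cheb.BrouwerEq

set_option autoImplicit false

open Filter Topology MeasureTheory Metric

namespace Pool.Agent.Helper514.Cheb

/-- Brouwer: zero of a vector field pointing outwards -/
theorem zero_of_pos (d : ℕ) (Φ : EuclideanSpace ℝ (Fin d) → EuclideanSpace ℝ (Fin d))
    (hΦ : ContinuousOn Φ (closedBall 0 1)) (hpos : ∀ a, ‖a‖ = 1 → 0 < inner ℝ a (Φ a)) :
    ∃ a, ‖a‖ ≤ 1 ∧ Φ a = 0 := by
  set π : EuclideanSpace ℝ (Fin d) → EuclideanSpace ℝ (Fin d) := fun x => (max 1 ‖x‖)⁻¹ • x with hπ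
  have hm : ∀ x : EuclideanSpace ℝ (Fin d), 0 < max 1 ‖x‖ := fun x => lt_max_of_lt_left one_pos
  have hπc : Continuous π := by
    have h1 : Continuous fun x : EuclideanSpace ℝ (Fin d) => (max 1 ‖x‖)⁻¹ :=
      (continuous_const.max continuous_norm).inv₀ fun x => (hm x).ne'
    exact h1.smul continuous_id'
  have hπn : ∀ x, ‖π x‖ ≤ 1 := by
    intro x
    rw [hπ]; simp only
    rw [norm_smul, norm_inv, Real.norm_of_nonneg (hm x).le, inv_mul_le_iff₀ (hm x), mul_one]
    exact le_max_right _ _
  have hΦπ : Continuous fun x => Φ (π x) :=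
    hΦ.comp_continuous hπc fun x => mem_closedBall_zero_iff.2 (hπn x)
  set s : EuclideanSpace ℝ (Fin d) → ℝ := fun x => max 0 (min 1 (‖x‖ - 1)) with hs
  have hsc : Continuous s := by rw [hs]; fun_prop
  have hFc : Continuous fun x => (1 - s x) • Φ (π x) + s x • x :=
    ((continuous_const.sub hsc).smul hΦπ).add (hsc.smul continuous_id')
  obtain ⟨x, hx⟩ := BrouwerEq.exists_zero d (fun x => (1 - s x) • Φ (π x) + s x • x) hFc 2 (by norm_num) (by
    intro x hx
    have : s x = 1 := by
      rw [hs]; simp only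
      rw [min_eq_left (by linarith)]; norm_num
    rw [this]; simp)
  rcases le_or_gt ‖x‖ 1 with h1 | h1
  · have h2 : s x = 0 := by
      rw [hs]; simp only
      rw [min_eq_right (by linarith), max_eq_left (by linarith)]
    have h3 : π x = x := by
      rw [hπ]; simp only
      rw [max_eq_left h1]; simp
    rw [h2, h3] at hx
    simp only [sub_zero, one_smul, zero_smul, add_zero] at hx
    exact ⟨x, h1, hx⟩
  · exfalso
    have h3 : π x = ‖x‖⁻¹ • x := by
      rw [hπ]; simp only
      rw [max_eq_right h1.le]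
    have hx0 : 0 < ‖x‖ := by linarith
    have h4 : ‖π x‖ = 1 := by
      rw [h3, norm_smul, norm_inv, norm_norm, inv_mul_cancel₀ hx0.ne']
    have h5 := hpos _ h4
    have h6 : inner ℝ (π x) ((1 - s x) • Φ (π x) + s x • x) = 0 := by rw [hx, inner_zero_right]
    rw [inner_add_right, inner_smul_right, inner_smul_right] at h6
    have h7 : inner ℝ (π x) x = ‖x‖ := by
      rw [h3, real_inner_smul_left, real_inner_self_eq_norm_sq]; field_simp
    rw [h7] at h6
    have h8 : 0 ≤ s x := le_max_left _ _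
    have h9 : s x ≤ 1 := max_le (by norm_num) (min_le_left _ _)
    have h10 : 0 < s x := by
      apply lt_max_of_lt_right
      apply lt_min one_pos; linarith
    have h11 : 0 ≤ (1 - s x) * inner ℝ (π x) (Φ (π x)) := mul_nonneg (by linarith) h5.le
    have h12 : 0 < s x * ‖x‖ := by positivity
    linarith

noncomputable def mu (k : ℕ) : ℝ := (1 / 2) * ∫ x in (-1:ℝ)..1, x ^ k

noncomputable def ph (p k : ℕ) (t : ℝ) : ℝ := Real.cos (t / p) ^ (k + 1) - mu (k + 1)

lemma ph_rtp (p k : ℕ) (hk : k + 1 ≤ p) : RTP p p (ph p k) := by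
  have h1 := (RTP.cos (p := p) (D := 1) 1 le_rfl).pow (k + 1)
  have h2 : RTP p p (fun t => Real.cos ((1 : ℕ) * (t / p)) ^ (k + 1)) := h1.mono (by omega)
  have h3 := h2.sub ((RTP.const (p := p) (mu (k + 1))).mono (Nat.zero_le p))
  have e : ph p k = fun t => Real.cos ((1 : ℕ) * (t / p)) ^ (k + 1) - mu (k + 1) := by
    funext t; simp [ph]
  rw [e]; exact h3

lemma ph_even (p k : ℕ) (t : ℝ) : ph p k (-t) = ph p k t := by
  unfold ph; rw [neg_div, Real.cos_neg]

lemma int_cos_ww (p : ℕ) (hp : 0 < p) (k : ℕ) :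
    ∫ t in (-(Real.pi * p))..(Real.pi * p), Real.cos (t / p) ^ k * ww p t = 2 * (p : ℝ) ^ 2 * ∫ x in (-1:ℝ)..1, x ^ k := by
  have hpr : (0 : ℝ) < p := by exact_mod_cast hp
  have hpi := Real.pi_pos
  have hP : 0 ≤ Real.pi * (p : ℝ) := by positivity
  have hcont : Continuous fun t : ℝ => Real.cos (t / p) ^ k * ww p t := by
    have := ww_continuous p; fun_prop
  have hhalf : ∫ t in (0:ℝ)..(Real.pi * p), Real.cos (t / p) ^ k * ww p t = (p : ℝ) ^ 2 * ∫ x in (-1:ℝ)..1, x ^ k := by
    have e1 : ∫ t in (0:ℝ)..(Real.pi * p), Real.cos (t / p) ^ k * ww p t =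
        ∫ t in (0:ℝ)..(Real.pi * p), Real.cos (t / p) ^ k * (p * Real.sin (t / p)) := by
      refine intervalIntegral.integral_congr fun t ht => ?_
      rw [Set.uIcc_of_le hP] at ht
      have hs : 0 ≤ Real.sin (t / p) := by
        apply Real.sin_nonneg_of_nonneg_of_le_pi (div_nonneg ht.1 hpr.le)
        rw [div_le_iff₀ hpr]; exact ht.2
      show _ = Real.cos (t / p) ^ k * (p * Real.sin (t / p))
      rw [ww, abs_of_nonneg hs]
    rw [e1]
    have hd : ∀ t : ℝ, HasDerivAt (fun t : ℝ => -((p : ℝ) ^ 2 / (k + 1)) * Real.cos (t / p) ^ (k + 1))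
        (Real.cos (t / p) ^ k * (p * Real.sin (t / p))) t := by
      intro t
      have a1 : HasDerivAt (fun t : ℝ => t / p) (1 / p) t := (hasDerivAt_id t).div_const _
      have a2 := ((a1.cos).pow (k + 1)).const_mul (-((p : ℝ) ^ 2 / (k + 1)))
      refine a2.congr_deriv ?_
      push_cast
      have : ((k : ℝ) + 1) ≠ 0 := by positivity
      field_simp
    rw [intervalIntegral.integral_eq_sub_of_hasDerivAt (fun t _ => hd t) (by
      apply Continuous.intervalIntegrable; fun_prop), integral_pow]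
    have e2 : Real.pi * (p : ℝ) / p = Real.pi := by field_simp
    rw [e2, zero_div, Real.cos_pi, Real.cos_zero]
    have : ((k : ℝ) + 1) ≠ 0 := by positivity
    field_simp; ring
  have hhalf2 : ∫ t in (-(Real.pi * p))..0, Real.cos (t / p) ^ k * ww p t =
      ∫ t in (0:ℝ)..(Real.pi * p), Real.cos (t / p) ^ k * ww p t := by
    have h3 := intervalIntegral.integral_comp_neg (fun t : ℝ => Real.cos (t / p) ^ k * ww p t) (a := 0) (b := Real.pi * p)
    rw [neg_zero] at h3
    rw [← h3]
    congr 1; funext t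
    unfold ww
    rw [neg_div, Real.cos_neg, Real.sin_neg, abs_neg]
  rw [← intervalIntegral.integral_add_adjacent_intervals (b := 0) (hcont.intervalIntegrable _ _)
    (hcont.intervalIntegrable _ _), hhalf2, hhalf]
  ring

lemma int_ph (p : ℕ) (hp : 0 < p) (k : ℕ) :
    ∫ t in (-(Real.pi * p))..(Real.pi * p), ph p k t * ww p t = 0 := by
  have h1 := int_cos_ww p hp (k + 1)
  have h2 := int_cos_ww p hp 0
  have hw := ww_continuous p
  unfold ph
  have e : ∀ t, (Real.cos (t / p) ^ (k + 1) - mu (k + 1)) * ww p t =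
      Real.cos (t / p) ^ (k + 1) * ww p t - mu (k + 1) * (Real.cos (t / p) ^ 0 * ww p t) := by
    intro t; ring
  simp only [e]
  rw [intervalIntegral.integral_sub (by apply Continuous.intervalIntegrable; fun_prop)
    (by apply Continuous.intervalIntegrable; fun_prop), intervalIntegral.integral_const_mul, h1, h2, mu]
  simp only [pow_zero, intervalIntegral.integral_const, smul_eq_mul]
  ring

/-- nondegeneracy -/
lemma nondeg (p : ℕ) (hp : 0 < p) (a : Fin p → ℝ) (ha : a ≠ 0) (c : ℝ) :
    ∃ t, |t - c| ≤ 1 ∧ deriv (fun t => ∑ k, a k * ph p k t) t ≠ 0 := by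
  by_contra hcon
  push Not at hcon
  have hpr : (0 : ℝ) < p := by exact_mod_cast hp
  set f : ℝ → ℝ := fun t => ∑ k, a k * ph p k t with hf
  have hfd : ContDiff ℝ ⊤ f := by
    rw [hf]; unfold ph; fun_prop
  have hfω : ContDiff ℝ (⊤ : WithTop ℕ∞) f := hfd
  have han : AnalyticOnNhd ℝ f Set.univ := ContDiff.analyticOnNhd hfω
  have hconst : ∀ t ∈ Metric.ball c 1, f t = f c := by
    intro t ht
    have hd : Differentiable ℝ f := hfd.differentiable (by simp)
    have := (convex_ball c 1).is_const_of_fderivWithin_eq_zero (𝕜 := ℝ) (f := f) hd.differentiableOn (by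
      intro x hx
      rw [fderivWithin_of_isOpen isOpen_ball hx]
      have h1 := hcon x (by
        have := mem_ball.1 hx
        rw [Real.dist_eq] at this; exact this.le)
      ext
      simp [h1]) ht (mem_ball_self one_pos)
    exact this
  have hall : ∀ t, f t = f c := by
    have h1 : AnalyticOnNhd ℝ (fun _ : ℝ => f c) Set.univ := analyticOnNhd_const
    have h2 := han.eqOn_of_preconnected_of_eventuallyEq h1 isPreconnected_univ (Set.mem_univ c) (by
      filter_upwards [Metric.ball_mem_nhds c one_pos] with t ht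
      exact hconst t ht)
    exact fun t => h2 (Set.mem_univ t)
  set P : Polynomial ℝ := ∑ k : Fin p, Polynomial.C (a k) * Polynomial.X ^ ((k : ℕ) + 1) with hP
  set K : ℝ := f c + ∑ k : Fin p, a k * mu ((k : ℕ) + 1) with hK
  have hPx : ∀ x ∈ Set.Icc (-1 : ℝ) 1, P.eval x = (Polynomial.C K).eval x := by
    intro x hx
    have h1 := hall (p * Real.arccos x)
    have e1 : (p : ℝ) * Real.arccos x / p = Real.arccos x := by field_simp
    rw [hf] at h1
    simp only [ph, e1, Real.cos_arccos hx.1 hx.2] at h1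
    simp only [mul_sub, Finset.sum_sub_distrib] at h1
    rw [hP, Polynomial.eval_finsetSum, Polynomial.eval_C, hK]
    simp only [Polynomial.eval_mul, Polynomial.eval_C, Polynomial.eval_pow, Polynomial.eval_X]
    have h2 : f c = ∑ k : Fin p, a k * ph p k c := rfl
    rw [h2]
    simp only [ph, mul_sub, Finset.sum_sub_distrib]
    linarith
  have hPK : P = Polynomial.C K := by
    apply Polynomial.eq_of_infinite_eval_eq
    apply Set.Infinite.mono (s := Set.Icc (-1:ℝ) 1) (fun x hx => hPx x hx)
    exact Set.Icc_infinite (by norm_num)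
  apply ha
  funext k
  have h1 := congrArg (fun Q => Polynomial.coeff Q ((k : ℕ) + 1)) hPK
  simp only [hP, Polynomial.finsetSum_coeff, Polynomial.coeff_C_mul, Polynomial.coeff_X_pow,
    Polynomial.coeff_C_succ] at h1
  rw [Finset.sum_eq_single k] at h1
  · simpa using h1
  · intro j _ hj
    have : (k : ℕ) + 1 ≠ (j : ℕ) + 1 := by
      intro h; exact hj (Fin.ext (by omega))
    rw [if_neg this, mul_zero]
  · intro h; exact absurd (Finset.mem_univ k) h

end Pool.Agent.Helper514.Cheb
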