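import Pool.Agent.Helper514.Cheb.MM
import Pool.Agent.Helper514.Cheb.ConfOf

set_option autoImplicit false

open MeasureTheory Set Filter

namespace Pool.Agent.Helper514.Cheb

/-- `N` nodes suffice in degree `p` -/
def NS (p N : ℕ) : Prop := 0 < N ∧ ∃ x : Fin N → ℝ,
              (∀ i, x i ∈ Set.Icc (-1 : ℝ) 1) ∧
              ∀ f : Polynomial ℝ, f.natDegree ≤ p →
                (1 / (N : ℝ)) * ∑ i, f.eval (x i) =
                  (1 / 2 : ℝ) * intervalIntegral (fun t => f.eval t) (-1) 1 MeasureTheory.volume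

lemma NS_of_moments {p N : ℕ} (hN : 0 < N) (y : ℕ → ℝ) (hy : ∀ i, |y i| ≤ 1)
    (hm : ∀ k : ℕ, 1 ≤ k → k ≤ p → ∑ i ∈ Finset.range N, y i ^ k = N * mu k) : NS p N := by
  have hNr : (0:ℝ) < N := by exact_mod_cast hN
  refine ⟨hN, fun i => y i, fun i => abs_le.mp (hy i), fun f hf => ?_⟩
  have h0 : ∀ k ∈ Finset.range (p + 1), ∑ i ∈ Finset.range N, y i ^ k = N * mu k := by
    intro k hk
    rw [Finset.mem_range] at hk
    rcases Nat.eq_zero_or_pos k with h | h
    · rw [h]; unfold mu; simp; norm_num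
    · exact hm k h (by omega)
  have h1 : ∑ i : Fin N, f.eval (y i) = ∑ k ∈ Finset.range (p + 1), f.coeff k * (N * mu k) := by
    rw [← Finset.sum_range (fun i => f.eval (y i))]
    calc _ = ∑ i ∈ Finset.range N, ∑ k ∈ Finset.range (p + 1), f.coeff k * y i ^ k := by
          refine Finset.sum_congr rfl fun i _ => ?_
          rw [Polynomial.eval_eq_sum_range' (n := p + 1) (by omega)]
      _ = ∑ k ∈ Finset.range (p + 1), ∑ i ∈ Finset.range N, f.coeff k * y i ^ k := Finset.sum_comm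
      _ = _ := by
          refine Finset.sum_congr rfl fun k hk => ?_
          rw [← Finset.mul_sum, h0 k hk]
  have h2 : ∫ t in (-1:ℝ)..1, f.eval t = ∑ k ∈ Finset.range (p + 1), f.coeff k * (2 * mu k) := by
    have e : (fun t : ℝ => f.eval t) = fun t => ∑ k ∈ Finset.range (p + 1), f.coeff k * t ^ k := by
      funext t; rw [Polynomial.eval_eq_sum_range' (n := p + 1) (by omega)]
    rw [e, intervalIntegral.integral_finsetSum (fun k _ => (by fun_prop : Continuous fun t : ℝ => f.coeff k * t ^ k).intervalIntegrable _ _)]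
    refine Finset.sum_congr rfl fun k _ => ?_
    rw [intervalIntegral.integral_const_mul]
    unfold mu; ring
  rw [h1, h2, Finset.mul_sum, Finset.mul_sum]
  refine Finset.sum_congr rfl fun k _ => ?_
  field_simp

/-- polynomial in `cos (t/p)` -/
def PC (p D : ℕ) (H : ℝ → ℝ) : Prop := ∃ h : Polynomial ℝ, h.natDegree ≤ D ∧ ∀ t, H t = h.eval (Real.cos (t / p))

namespace PC

variable {p D₁ D₂ D : ℕ} {f g : ℝ → ℝ}

lemma mul (hf : PC p D₁ f) (hg : PC p D₂ g) : PC p (D₁ + D₂) (fun t => f t * g t) := by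
  obtain ⟨F, hF, h⟩ := hf
  obtain ⟨G, hG, k⟩ := hg
  refine ⟨F * G, ?_, fun t => by simp [h, k]⟩
  refine (Polynomial.natDegree_mul_le).trans ?_
  omega

lemma mono (hf : PC p D₁ f) (h : D₁ ≤ D₂) : PC p D₂ f := by
  obtain ⟨F, hF, k⟩ := hf
  exact ⟨F, hF.trans h, k⟩

lemma pow (hf : PC p D f) (n : ℕ) : PC p (n * D) (fun t => f t ^ n) := by
  obtain ⟨F, hF, h⟩ := hf
  refine ⟨F ^ n, ?_, fun t => by simp [h]⟩
  refine (Polynomial.natDegree_pow_le).trans ?_
  exact Nat.mul_le_mul_left _ hF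

lemma const_mul (c : ℝ) (hf : PC p D f) : PC p D (fun t => c * f t) := by
  obtain ⟨F, hF, h⟩ := hf
  refine ⟨Polynomial.C c * F, (Polynomial.natDegree_C_mul_le _ _).trans hF, fun t => by simp [h]⟩

lemma const (c : ℝ) : PC p 0 (fun _ => c) := ⟨Polynomial.C c, by simp, fun t => by simp⟩

lemma add (hf : PC p D f) (hg : PC p D g) : PC p D (fun t => f t + g t) := by
  obtain ⟨F, hF, h⟩ := hf
  obtain ⟨G, hG, k⟩ := hg
  refine ⟨F + G, (Polynomial.natDegree_add_le _ _).trans (max_le hF hG), fun t => by simp [h, k]⟩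

lemma sum {ι : Type*} (s : Finset ι) (F : ι → ℝ → ℝ) (h : ∀ i ∈ s, PC p D (F i)) :
    PC p D (fun t => ∑ i ∈ s, F i t) := by
  classical
  induction s using Finset.induction_on with
  | empty => simpa using (const (p := p) 0).mono (Nat.zero_le D)
  | insert a s ha ih =>
    simp only [Finset.sum_insert ha]
    exact (h a (by simp)).add (ih fun i hi => h i (by simp [hi]))

lemma cos (j : ℕ) (hj : j ≤ D) : PC p D (fun t => Real.cos (j * (t / p))) := by
  refine ⟨Polynomial.Chebyshev.T ℝ j, ?_, fun t => ?_⟩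
  · rw [Polynomial.Chebyshev.natDegree_T]; simpa using hj
  · rw [Polynomial.Chebyshev.T_real_cos]; simp

lemma one_sub_cos : PC p 1 (fun t => 1 - Real.cos (t / p)) := by
  refine ⟨1 - Polynomial.X, ?_, fun t => by simp⟩
  refine (Polynomial.natDegree_sub_le _ _).trans (max_le (by simp) Polynomial.natDegree_X_le)

end PC

lemma Dir_pc (p k : ℕ) : PC p k (Dir p k) := by
  have h1 : PC p k (fun t => ∑ j ∈ Finset.range k, Real.cos ((j + 1 : ℕ) * (t / p))) :=
    PC.sum _ _ fun j hj => PC.cos (j + 1) (by simpa using hj)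
  have h2 := (((PC.const (p := p) 1).mono (Nat.zero_le k)).add (h1.const_mul 2)).const_mul (1 / (2 * k + 1) : ℝ)
  have : Dir p k = fun t => (1 / (2 * k + 1) : ℝ) *
      (1 + 2 * ∑ j ∈ Finset.range k, Real.cos ((j + 1 : ℕ) * (t / p))) := by
    funext t; rw [Dir]; ring
  rw [this]; exact h2

theorem NS_exact {p N : ℕ} (hp : 0 < p) (h : NS p N) :
    ∃ t : ℕ → ℝ, (∀ i, 0 ≤ t i ∧ t i ≤ Real.pi * p) ∧ (∀ i j, i ≤ j → j < N → t i ≤ t j) ∧
      ∀ H : ℝ → ℝ, PC p p H → ∑ i ∈ Finset.range N, H (t i) =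
        (N : ℝ) / (2 * (p : ℝ) ^ 2) * ∫ s in (0:ℝ)..(Real.pi * p), H s * ww p s := by
  obtain ⟨hN, x, hx, hf⟩ := h
  have hNr : (0:ℝ) < N := by exact_mod_cast hN
  have hpr : (0:ℝ) < p := by exact_mod_cast hp
  have hL : 0 ≤ Real.pi * p := by positivity
  obtain ⟨t', ht'⟩ : ∃ t' : Fin N → ℝ, t' = fun i => p * Real.arccos (x i) := ⟨_, rfl⟩
  have ht0 : ∀ i, 0 ≤ t' i ∧ t' i ≤ Real.pi * p := by
    intro i; rw [ht']
    have h1 := Real.arccos_nonneg (x i)
    have h2 := Real.arccos_le_pi (x i)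
    constructor
    · positivity
    · show (p:ℝ) * Real.arccos (x i) ≤ _
      nlinarith
  have htc : ∀ i, Real.cos (t' i / p) = x i := by
    intro i; rw [ht']
    show Real.cos (p * Real.arccos (x i) / p) = x i
    have : (p:ℝ) * Real.arccos (x i) / p = Real.arccos (x i) := by field_simp
    rw [this, Real.cos_arccos (hx i).1 (hx i).2]
  refine ⟨fun i => if h : i < N then t' (Tuple.sort t' ⟨i, h⟩) else 0, ?_, ?_, ?_⟩
  · intro i
    by_cases h : i < N
    · simp only [h, dif_pos]; exact ht0 _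
    · simp only [h, dif_neg, not_false_eq_true]; exact ⟨le_rfl, hL⟩
  · intro i j hij hj
    have hi : i < N := lt_of_le_of_lt hij hj
    simp only [hi, hj, dif_pos]
    exact Tuple.monotone_sort t' (show (⟨i, hi⟩ : Fin N) ≤ ⟨j, hj⟩ from hij)
  · intro H ⟨F, hF, hH⟩
    have h1 := hf F hF
    have h2 : ∑ i ∈ Finset.range N, H (if h : i < N then t' (Tuple.sort t' ⟨i, h⟩) else 0) = ∑ i, F.eval (x i) := by
      rw [Finset.sum_range]
      have : ∀ i : Fin N, H (if h : (i:ℕ) < N then t' (Tuple.sort t' ⟨i, h⟩) else 0) = F.eval (x (Tuple.sort t' i)) := by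
        intro i
        simp only [i.2, dif_pos, Fin.eta]
        rw [hH, htc]
      rw [Finset.sum_congr rfl fun i _ => this i]
      exact Equiv.sum_comp (Tuple.sort t') (fun i => F.eval (x i))
    have h3 : ∫ s in (0:ℝ)..(Real.pi * p), H s * ww p s = (p:ℝ) ^ 2 * ∫ y in (-1:ℝ)..1, F.eval y := by
      have h4 : ∫ s in (0:ℝ)..(Real.pi * p), ((fun y => F.eval y) ∘ (fun s : ℝ => Real.cos (s / p))) s * (-Real.sin (s / p) * (1 / (p:ℝ))) =
          ∫ y in (Real.cos (0 / p))..(Real.cos (Real.pi * p / p)), F.eval y := by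
        apply intervalIntegral.integral_comp_mul_deriv
        · intro s _
          have h5 : HasDerivAt (fun t : ℝ => t / p) (1 / (p : ℝ)) s := (hasDerivAt_id s).div_const _
          exact h5.cos
        · apply Continuous.continuousOn; fun_prop
        · exact F.continuous
      have h5 : Real.pi * p / p = Real.pi := by field_simp
      rw [h5, zero_div, Real.cos_zero, Real.cos_pi, intervalIntegral.integral_symm (-1) 1] at h4
      have h6 : ∫ s in (0:ℝ)..(Real.pi * p), H s * ww p s =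
          -(p:ℝ) ^ 2 * ∫ s in (0:ℝ)..(Real.pi * p), ((fun y => F.eval y) ∘ (fun s : ℝ => Real.cos (s / p))) s * (-Real.sin (s / p) * (1 / (p:ℝ))) := by
        rw [← intervalIntegral.integral_const_mul]
        apply intervalIntegral.integral_congr
        intro s hs
        rw [uIcc_of_le hL] at hs
        show H s * ww p s = _
        rw [ww_eq hp hs.1 hs.2, hH]
        simp only [Function.comp]
        field_simp
      rw [h6, h4]; ring
    rw [h2, h3]
    have h7 : ∑ i, F.eval (x i) = N * ((1 / (N : ℝ)) * ∑ i, F.eval (x i)) := by field_simp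
    rw [h7, h1]
    field_simp

end Pool.Agent.Helper514.Cheb
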