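import Mathlib

set_option autoImplicit false

open Complex Filter Topology

namespace Pool.Agent.Helper514.Cheb

/-- trigonometric polynomial of degree at most `D` in `t / p` (complex variable) -/
def TP (p D : ℕ) (f : ℂ → ℂ) : Prop :=
  ∃ Q : Polynomial ℂ, Q.natDegree ≤ 2 * D ∧
    ∀ z : ℂ, exp (I * D * (z / p)) * f z = Q.eval (exp (I * (z / p)))

namespace TP

variable {p D D₁ D₂ : ℕ} {f g : ℂ → ℂ}

lemma eq_form (h : TP p D f) : ∃ Q : Polynomial ℂ, Q.natDegree ≤ 2 * D ∧
    ∀ z : ℂ, f z = exp (-(I * D * (z / p))) * Q.eval (exp (I * (z / p))) := by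
  obtain ⟨Q, hQ, h⟩ := h
  refine ⟨Q, hQ, fun z => ?_⟩
  rw [← h z, ← mul_assoc, ← exp_add]; simp

lemma mul (hf : TP p D₁ f) (hg : TP p D₂ g) : TP p (D₁ + D₂) (fun z => f z * g z) := by
  obtain ⟨Q, hQ, h⟩ := hf
  obtain ⟨R, hR, k⟩ := hg
  refine ⟨Q * R, ?_, fun z => ?_⟩
  · refine (Polynomial.natDegree_mul_le).trans ?_
    omega
  · rw [Polynomial.eval_mul, ← h z, ← k z]
    have : exp (I * ((D₁ + D₂ : ℕ) : ℂ) * (z / p)) = exp (I * D₁ * (z / p)) * exp (I * D₂ * (z / p)) := by
      rw [← exp_add]; congr 1; push_cast; ring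
    rw [this]; ring

lemma add (hf : TP p D f) (hg : TP p D g) : TP p D (fun z => f z + g z) := by
  obtain ⟨Q, hQ, h⟩ := hf
  obtain ⟨R, hR, k⟩ := hg
  refine ⟨Q + R, ?_, fun z => ?_⟩
  · exact (Polynomial.natDegree_add_le _ _).trans (max_le hQ hR)
  · rw [Polynomial.eval_add, ← h z, ← k z]; ring

lemma const_mul (c : ℂ) (hf : TP p D f) : TP p D (fun z => c * f z) := by
  obtain ⟨Q, hQ, h⟩ := hf
  refine ⟨Polynomial.C c * Q, ?_, fun z => ?_⟩
  · exact (Polynomial.natDegree_C_mul_le _ _).trans hQ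
  · rw [Polynomial.eval_mul, ← h z, Polynomial.eval_C]; ring

lemma neg (hf : TP p D f) : TP p D (fun z => - f z) := by
  simpa using hf.const_mul (-1)

lemma sub (hf : TP p D f) (hg : TP p D g) : TP p D (fun z => f z - g z) := by
  simpa [sub_eq_add_neg] using hf.add hg.neg

lemma const (c : ℂ) : TP p 0 (fun _ => c) := by
  refine ⟨Polynomial.C c, by simp, fun z => by simp⟩

lemma mono (hf : TP p D₁ f) (h : D₁ ≤ D₂) : TP p D₂ f := by
  obtain ⟨Q, hQ, k⟩ := hf
  obtain ⟨e, rfl⟩ := Nat.exists_eq_add_of_le h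
  refine ⟨Polynomial.X ^ e * Q, ?_, fun z => ?_⟩
  · refine (Polynomial.natDegree_mul_le).trans ?_
    have := Polynomial.natDegree_X_pow_le (R := ℂ) e
    omega
  · rw [Polynomial.eval_mul, ← k z, Polynomial.eval_pow, Polynomial.eval_X, ← exp_nat_mul, ← mul_assoc,
      ← exp_add]
    congr 2; push_cast; ring

lemma pow (hf : TP p D f) (n : ℕ) : TP p (n * D) (fun z => f z ^ n) := by
  induction n with
  | zero => simpa using const (p := p) 1
  | succ n ih =>
    have := ih.mul hf
    have e : (n + 1) * D = n * D + D := by ring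
    rw [e]; simpa [pow_succ] using this

lemma prod {ι : Type*} (s : Finset ι) (d : ι → ℕ) (F : ι → ℂ → ℂ) (h : ∀ i ∈ s, TP p (d i) (F i)) :
    TP p (∑ i ∈ s, d i) (fun z => ∏ i ∈ s, F i z) := by
  classical
  induction s using Finset.induction_on with
  | empty => simpa using const (p := p) 1
  | insert a s ha ih =>
    simp only [Finset.sum_insert ha, Finset.prod_insert ha]
    exact (h a (by simp)).mul (ih fun i hi => h i (by simp [hi]))

lemma sum {ι : Type*} (s : Finset ι) (F : ι → ℂ → ℂ) (h : ∀ i ∈ s, TP p D (F i)) :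
    TP p D (fun z => ∑ i ∈ s, F i z) := by
  classical
  induction s using Finset.induction_on with
  | empty => simpa using (const (p := p) 0).mono (Nat.zero_le D)
  | insert a s ha ih =>
    simp only [Finset.sum_insert ha]
    exact (h a (by simp)).add (ih fun i hi => h i (by simp [hi]))

lemma shift (hf : TP p D f) (c : ℂ) : TP p D (fun z => f (z + c)) := by
  obtain ⟨Q, hQ, h⟩ := hf
  refine ⟨Polynomial.C (exp (-(I * D * (c / p)))) * Q.comp (Polynomial.C (exp (I * (c / p))) * Polynomial.X),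
    ?_, fun z => ?_⟩
  · refine (Polynomial.natDegree_C_mul_le _ _).trans ?_
    refine (Polynomial.natDegree_comp_le).trans ?_
    have : (Polynomial.C (exp (I * (c / p))) * Polynomial.X).natDegree ≤ 1 :=
      (Polynomial.natDegree_C_mul_le _ _).trans Polynomial.natDegree_X_le
    calc Q.natDegree * _ ≤ Q.natDegree * 1 := Nat.mul_le_mul_left _ this
      _ ≤ _ := by omega
  · rw [Polynomial.eval_mul, Polynomial.eval_C, Polynomial.eval_comp, Polynomial.eval_mul,
      Polynomial.eval_C, Polynomial.eval_X, ← exp_add]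
    have e1 : exp (I * (c / p) + I * (z / p)) = exp (I * ((z + c) / p)) := by congr 1; ring
    rw [e1, ← h (z + c), ← mul_assoc, ← exp_add]
    congr 2; ring

lemma reflect (hf : TP p D f) : TP p D (fun z => f (-z)) := by
  obtain ⟨Q, hQ, h⟩ := hf
  refine ⟨Q.reflect (2 * D), ?_, fun z => ?_⟩
  · rw [Polynomial.natDegree_le_iff_coeff_eq_zero]
    intro n hn
    rw [Polynomial.coeff_reflect]
    rw [Polynomial.revAt_eq_self_of_lt hn]
    exact Polynomial.coeff_eq_zero_of_natDegree_lt (by omega)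
  · have hne : exp (I * (z / p)) ≠ 0 := exp_ne_zero _
    have key : Q.eval (exp (I * (z / p)))⁻¹ * (exp (I * (z / p))) ^ (2 * D) =
        (Q.reflect (2 * D)).eval (exp (I * (z / p))) := by
      set w := exp (I * (z / p)) with hw
      have : Invertible w⁻¹ := invertibleOfNonzero (inv_ne_zero hne)
      have := Polynomial.eval₂_reflect_mul_pow (RingHom.id ℂ) w⁻¹ (2 * D) Q hQ
      have hinv : ⅟(w⁻¹) = w := by
        rw [invOf_eq_inv, inv_inv]
      rw [hinv] at this
      simp only [← Polynomial.eval_eq_sum, Polynomial.eval₂_id] at this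
      rw [← this, mul_assoc, ← mul_pow, inv_mul_cancel₀ hne]; simp
    rw [← key]
    have e1 : (exp (I * (z / p)))⁻¹ = exp (I * (-z / p)) := by
      rw [← exp_neg]; congr 1; ring
    rw [e1, ← h (-z), ← exp_nat_mul]
    have : exp (I * D * (z / p)) = exp (I * D * (-z / p)) * exp (((2 * D : ℕ) : ℂ) * (I * (z / p))) := by
      rw [← exp_add]; congr 1; push_cast; ring
    rw [this]; ring

lemma differentiable (hf : TP p D f) : Differentiable ℂ f := by
  obtain ⟨Q, hQ, h⟩ := hf.eq_form
  have : f = fun z => exp (-(I * D * (z / p))) * Q.eval (exp (I * (z / p))) := funext h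
  rw [this]
  have h1 : Differentiable ℂ fun z : ℂ => Q.eval (exp (I * (z / p))) := by
    have := (Q.differentiable).comp (g := fun w => Q.eval w) (f := fun z : ℂ => exp (I * (z / p)))
      (by fun_prop)
    exact this
  fun_prop

lemma deriv (hf : TP p D f) : TP p D (deriv f) := by
  obtain ⟨Q, hQ, h⟩ := hf.eq_form
  refine ⟨Polynomial.C (I / p) * (Polynomial.X * Q.derivative - Polynomial.C (D : ℂ) * Q), ?_, fun z => ?_⟩
  · refine (Polynomial.natDegree_C_mul_le _ _).trans ?_
    refine (Polynomial.natDegree_sub_le _ _).trans (max_le ?_ ?_)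
    · by_cases h0 : Q.natDegree = 0
      · have : Q.derivative = 0 := Polynomial.derivative_of_natDegree_zero h0
        simp [this]
      · refine (Polynomial.natDegree_mul_le).trans ?_
        have h1 := Polynomial.natDegree_derivative_lt h0
        have h2 := Polynomial.natDegree_X_le (R := ℂ)
        omega
    · exact (Polynomial.natDegree_C_mul_le _ _).trans hQ
  · have h2 : HasDerivAt f (exp (-(I * D * (z / p))) * (-(I * D * (1 / p))) * Q.eval (exp (I * (z / p))) +
        exp (-(I * D * (z / p))) * (Q.derivative.eval (exp (I * (z / p))) *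
          (exp (I * (z / p)) * (I * (1 / p))))) z := by
      have hf' : f = fun z => exp (-(I * D * (z / p))) * Q.eval (exp (I * (z / p))) := funext h
      rw [hf']
      have d1 : HasDerivAt (fun z : ℂ => z / p) (1 / p) z := (hasDerivAt_id z).div_const _
      have d2 : HasDerivAt (fun z : ℂ => exp (-(I * D * (z / p))))
          (exp (-(I * D * (z / p))) * (-(I * D * (1 / p)))) z := ((d1.const_mul (I * D)).neg).cexp
      have d3 : HasDerivAt (fun z : ℂ => exp (I * (z / p))) (exp (I * (z / p)) * (I * (1 / p))) z :=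
        (d1.const_mul I).cexp
      have d4 : HasDerivAt (fun z : ℂ => Q.eval (exp (I * (z / p))))
          (Q.derivative.eval (exp (I * (z / p))) * (exp (I * (z / p)) * (I * (1 / p)))) z :=
        (Q.hasDerivAt _).comp z d3
      exact d2.mul d4
    rw [h2.deriv]
    have e : exp (I * D * (z / p)) * exp (-(I * D * (z / p))) = 1 := by
      rw [← exp_add]; simp
    simp only [Polynomial.eval_mul, Polynomial.eval_sub, Polynomial.eval_C, Polynomial.eval_X]
    linear_combination ((-(I * D * (1 / p))) * Q.eval (exp (I * (z / p))) +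
      (Q.derivative.eval (exp (I * (z / p))) * (exp (I * (z / p)) * (I * (1 / p))))) * e

lemma periodic (hp : 0 < p) (hf : TP p D f) (z : ℂ) : f (z + 2 * Real.pi * p) = f z := by
  obtain ⟨Q, hQ, h⟩ := hf.eq_form
  have hp' : (p : ℂ) ≠ 0 := by exact_mod_cast hp.ne'
  rw [h, h z]
  have e1 : exp (-(I * D * ((z + 2 * Real.pi * p) / p))) = exp (-(I * D * (z / p))) := by
    rw [exp_eq_exp_iff_exists_int]
    refine ⟨-(D : ℤ), ?_⟩
    field_simp
    push_cast
    ring
  have e2 : exp (I * ((z + 2 * Real.pi * p) / p)) = exp (I * (z / p)) := by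
    rw [exp_eq_exp_iff_exists_int]
    refine ⟨1, ?_⟩
    field_simp
    push_cast
    ring
  rw [e1, e2]

lemma cos (j : ℕ) (hj : j ≤ D) : TP p D (fun z => Complex.cos (j * (z / p))) := by
  refine TP.mono ?_ hj
  refine ⟨Polynomial.C (1/2) * (Polynomial.X ^ (2 * j) + 1), ?_, fun z => ?_⟩
  · refine (Polynomial.natDegree_C_mul_le _ _).trans ?_
    refine (Polynomial.natDegree_add_le _ _).trans (max_le ?_ (by simp))
    exact Polynomial.natDegree_X_pow_le _
  · simp only [Polynomial.eval_mul, Polynomial.eval_C, Polynomial.eval_add, Polynomial.eval_pow,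
      Polynomial.eval_X, Polynomial.eval_one, ← exp_nat_mul]
    rw [Complex.cos]
    have e1 : exp (I * j * (z / p)) * exp (j * (z / p) * I) = exp (((2 * j : ℕ) : ℂ) * (I * (z / p))) := by
      rw [← exp_add]; congr 1; push_cast; ring
    have e2 : exp (I * j * (z / p)) * exp (-(j * (z / p)) * I) = 1 := by
      rw [← exp_add]
      have : I * j * (z / p) + -(j * (z / p)) * I = 0 := by ring
      rw [this, exp_zero]
    linear_combination (1/2) * e1 + (1/2) * e2

/-- bound off the real axis, upper half plane -/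
lemma bound_upper (hp : 0 < p) (hf : TP p D f) {M : ℝ} (hM : ∀ x : ℝ, ‖f x‖ ≤ M) (z : ℂ) (hz : 0 ≤ z.im) :
    ‖f z‖ ≤ M * Real.exp (D / p * |z.im|) := by
  obtain ⟨Q, hQ, h⟩ := hf
  have hp' : (p : ℂ) ≠ 0 := by exact_mod_cast hp.ne'
  have hpr : (0 : ℝ) < p := by exact_mod_cast hp
  have hdisc : ∀ w : ℂ, ‖w‖ ≤ 1 → ‖Q.eval w‖ ≤ M := by
    intro w hw
    have hb : ∀ w ∈ frontier (Metric.ball (0 : ℂ) 1), ‖(fun w => Q.eval w) w‖ ≤ M := by
      intro w hw
      rw [frontier_ball _ one_ne_zero] at hw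
      have hw1 : ‖w‖ = 1 := by simpa using hw
      have hwe : w = exp (I * (((p * w.arg : ℝ) : ℂ) / p)) := by
        have h1 : ((p * w.arg : ℝ) : ℂ) / p = w.arg := by
          push_cast; field_simp
        rw [h1, mul_comm]
        have := Complex.norm_mul_exp_arg_mul_I w
        rw [hw1] at this
        simpa using this.symm
      show ‖Q.eval w‖ ≤ M
      rw [hwe, ← h, norm_mul]
      have h2 : ‖exp (I * D * (((p * w.arg : ℝ) : ℂ) / p))‖ = 1 := by
        have : I * D * (((p * w.arg : ℝ) : ℂ) / p) = ((D * w.arg : ℝ) : ℂ) * I := by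
          push_cast; field_simp
        rw [this, Complex.norm_exp_ofReal_mul_I]
      rw [h2, one_mul]
      exact hM _
    have hcl : w ∈ closure (Metric.ball (0 : ℂ) 1) := by
      rw [closure_ball _ one_ne_zero]; simpa using hw
    exact Complex.norm_le_of_forall_mem_frontier_norm_le Metric.isBounded_ball
      (Q.differentiable.diffContOnCl) hb hcl
  have hw : ‖exp (I * (z / p))‖ ≤ 1 := by
    rw [Complex.norm_exp]
    have : (I * (z / p)).re = -(z.im / p) := by
      have h1 : (z / (p : ℂ)) = ((z.re / p : ℝ) : ℂ) + ((z.im / p : ℝ) : ℂ) * I := by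
        apply Complex.ext <;> simp
      rw [h1]; simp
    rw [this]
    exact Real.exp_le_one_iff.2 (by have := div_nonneg hz hpr.le; linarith)
  have h1 := hdisc _ hw
  rw [← h z, norm_mul] at h1
  have h2 : ‖exp (I * D * (z / p))‖ = Real.exp (-(D / p * |z.im|)) := by
    rw [Complex.norm_exp]
    congr 1
    have h3 : (z / (p : ℂ)) = ((z.re / p : ℝ) : ℂ) + ((z.im / p : ℝ) : ℂ) * I := by
      apply Complex.ext <;> simp
    rw [h3, abs_of_nonneg hz]; simp; ring
  rw [h2, Real.exp_neg] at h1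
  rw [inv_mul_le_iff₀ (Real.exp_pos _)] at h1
  linarith [h1, mul_comm M (Real.exp (D / p * |z.im|))]

lemma bound (hp : 0 < p) (hf : TP p D f) {M : ℝ} (hM : ∀ x : ℝ, ‖f x‖ ≤ M) (z : ℂ) :
    ‖f z‖ ≤ M * Real.exp (D / p * |z.im|) := by
  rcases le_total 0 z.im with hz | hz
  · exact hf.bound_upper hp hM z hz
  · have := hf.reflect.bound_upper hp (M := M) (fun x => by simpa using hM (-x)) (-z) (by simpa using hz)
    simpa using this

/-- derivative bound -/
lemma deriv_bound (hp : 0 < p) (hf : TP p D f) {M : ℝ} (hM : ∀ x : ℝ, ‖f x‖ ≤ M) (x : ℝ) :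
    ‖_root_.deriv f x‖ ≤ M * Real.exp (D / p) := by
  have hM0 : 0 ≤ M := (norm_nonneg _).trans (hM 0)
  have h := Complex.norm_deriv_le_of_forall_mem_sphere_norm_le (c := (x : ℂ)) (R := 1) (f := f)
    (C := M * Real.exp (D / p)) one_pos hf.differentiable.diffContOnCl (by
      intro z hz
      refine (hf.bound hp hM z).trans ?_
      have : |z.im| ≤ 1 := by
        have h1 : ‖z - x‖ = 1 := by simpa [dist_eq_norm] using hz
        have h2 := Complex.abs_im_le_norm (z - x)
        simpa [h1] using h2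
      gcongr
      calc (D : ℝ) / p * |z.im| ≤ D / p * 1 := by gcongr
        _ = _ := mul_one _)
  simpa using h

end TP

/-- real trigonometric polynomial of degree at most `D` in `t / p` -/
def RTP (p D : ℕ) (f : ℝ → ℝ) : Prop := ∃ F : ℂ → ℂ, TP p D F ∧ ∀ t : ℝ, F t = (f t : ℂ)

namespace RTP

variable {p D D₁ D₂ : ℕ} {f g : ℝ → ℝ}

lemma mul (hf : RTP p D₁ f) (hg : RTP p D₂ g) : RTP p (D₁ + D₂) (fun t => f t * g t) := by
  obtain ⟨F, hF, h⟩ := hf
  obtain ⟨G, hG, k⟩ := hg
  exact ⟨_, hF.mul hG, fun t => by simp [h, k]⟩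

lemma add (hf : RTP p D f) (hg : RTP p D g) : RTP p D (fun t => f t + g t) := by
  obtain ⟨F, hF, h⟩ := hf
  obtain ⟨G, hG, k⟩ := hg
  exact ⟨_, hF.add hG, fun t => by simp [h, k]⟩

lemma sub (hf : RTP p D f) (hg : RTP p D g) : RTP p D (fun t => f t - g t) := by
  obtain ⟨F, hF, h⟩ := hf
  obtain ⟨G, hG, k⟩ := hg
  exact ⟨_, hF.sub hG, fun t => by simp [h, k]⟩

lemma const_mul (c : ℝ) (hf : RTP p D f) : RTP p D (fun t => c * f t) := by
  obtain ⟨F, hF, h⟩ := hf
  exact ⟨_, hF.const_mul c, fun t => by simp [h]⟩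

lemma neg (hf : RTP p D f) : RTP p D (fun t => - f t) := by
  obtain ⟨F, hF, h⟩ := hf
  exact ⟨_, hF.neg, fun t => by simp [h]⟩

lemma const (c : ℝ) : RTP p 0 (fun _ => c) := ⟨_, TP.const c, fun t => rfl⟩

lemma mono (hf : RTP p D₁ f) (h : D₁ ≤ D₂) : RTP p D₂ f := by
  obtain ⟨F, hF, k⟩ := hf
  exact ⟨F, hF.mono h, k⟩

lemma pow (hf : RTP p D f) (n : ℕ) : RTP p (n * D) (fun t => f t ^ n) := by
  obtain ⟨F, hF, h⟩ := hf
  exact ⟨_, hF.pow n, fun t => by simp [h]⟩

lemma prod {ι : Type*} (s : Finset ι) (d : ι → ℕ) (F : ι → ℝ → ℝ) (h : ∀ i ∈ s, RTP p (d i) (F i)) :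
    RTP p (∑ i ∈ s, d i) (fun t => ∏ i ∈ s, F i t) := by
  classical
  induction s using Finset.induction_on with
  | empty => simpa using const (p := p) 1
  | insert a s ha ih =>
    simp only [Finset.sum_insert ha, Finset.prod_insert ha]
    exact (h a (by simp)).mul (ih fun i hi => h i (by simp [hi]))

lemma sum {ι : Type*} (s : Finset ι) (F : ι → ℝ → ℝ) (h : ∀ i ∈ s, RTP p D (F i)) :
    RTP p D (fun t => ∑ i ∈ s, F i t) := by
  classical
  induction s using Finset.induction_on with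
  | empty => simpa using (const (p := p) 0).mono (Nat.zero_le D)
  | insert a s ha ih =>
    simp only [Finset.sum_insert ha]
    exact (h a (by simp)).add (ih fun i hi => h i (by simp [hi]))

lemma shift (hf : RTP p D f) (c : ℝ) : RTP p D (fun t => f (t + c)) := by
  obtain ⟨F, hF, h⟩ := hf
  exact ⟨_, hF.shift c, fun t => by rw [← h]; push_cast; rfl⟩

lemma reflect (hf : RTP p D f) : RTP p D (fun t => f (-t)) := by
  obtain ⟨F, hF, h⟩ := hf
  exact ⟨_, hF.reflect, fun t => by rw [← h]; push_cast; rfl⟩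

lemma cos (j : ℕ) (hj : j ≤ D) : RTP p D (fun t => Real.cos (j * (t / p))) :=
  ⟨_, TP.cos j hj, fun t => by push_cast; rfl⟩

lemma hasDerivAt (F : ℂ → ℂ) (hF : TP p D F) (h : ∀ t : ℝ, F t = (f t : ℂ)) (t : ℝ) :
    HasDerivAt f (_root_.deriv F t).re t ∧ _root_.deriv F t = (((_root_.deriv F t).re : ℝ) : ℂ) := by
  have h1 : HasDerivAt F (_root_.deriv F t) (t : ℂ) := (hF.differentiable _).hasDerivAt
  have h2 : HasDerivAt (fun s : ℝ => F s) (_root_.deriv F t) t := h1.comp_ofReal
  have h3 : (fun s : ℝ => F s) = fun s : ℝ => ((f s : ℝ) : ℂ) := funext h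
  rw [h3] at h2
  have h4 : HasDerivAt (fun s : ℝ => (((f s : ℝ) : ℂ)).re) (_root_.deriv F t).re t := by
    exact Complex.reCLM.hasFDerivAt.comp_hasDerivAt t h2
  have h5 : HasDerivAt (fun s : ℝ => (((f s : ℝ) : ℂ)).im) (_root_.deriv F t).im t := by
    exact Complex.imCLM.hasFDerivAt.comp_hasDerivAt t h2
  simp only [Complex.ofReal_re, Complex.ofReal_im] at h4 h5
  have h6 : (_root_.deriv F t).im = 0 := by
    rw [← h5.deriv]; simp
  exact ⟨h4, Complex.ext (by simp) (by simp [h6])⟩

lemma deriv (hf : RTP p D f) : RTP p D (deriv f) := by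
  obtain ⟨F, hF, h⟩ := hf
  refine ⟨_, hF.deriv, fun t => ?_⟩
  obtain ⟨h1, h2⟩ := hasDerivAt F hF h t
  rw [h1.deriv]; exact h2

lemma differentiable (hf : RTP p D f) : Differentiable ℝ f := by
  obtain ⟨F, hF, h⟩ := hf
  exact fun t => (hasDerivAt F hF h t).1.differentiableAt

lemma continuous (hf : RTP p D f) : Continuous f := hf.differentiable.continuous

lemma periodic (hp : 0 < p) (hf : RTP p D f) (t : ℝ) : f (t + 2 * Real.pi * p) = f t := by
  obtain ⟨F, hF, h⟩ := hf
  have := hF.periodic hp t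
  rw [h t] at this
  have h2 := h (t + 2 * Real.pi * p)
  push_cast at h2
  rw [h2] at this
  exact_mod_cast this

lemma deriv_bound (hp : 0 < p) (hf : RTP p D f) {M : ℝ} (hM : ∀ x : ℝ, |f x| ≤ M) (x : ℝ) :
    |_root_.deriv f x| ≤ M * Real.exp (D / p) := by
  obtain ⟨F, hF, h⟩ := hf
  have h1 := hF.deriv_bound hp (M := M) (fun x => by rw [h]; simpa using hM x) x
  obtain ⟨h2, h3⟩ := hasDerivAt F hF h x
  rw [h2.deriv]
  rw [h3] at h1
  simpa using h1

end RTP

end Pool.Agent.Helper514.Cheb
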