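import Pool.Agent.Helper514.Cheb.Conf

set_option autoImplicit false

open Filter Topology MeasureTheory

namespace Pool.Agent.Helper514.Cheb

/-- the extremal polynomial -/
noncomputable def AA (m : ℕ) (θ : ℝ) : ℝ :=
  1 + 2 * ∑ j ∈ Finset.range (m - 1), Real.cos ((j + 1 : ℕ) * (Real.pi / (2 * m))) * Real.cos ((j + 1 : ℕ) * θ)

lemma AA_ident (m : ℕ) (hm : 1 ≤ m) (θ : ℝ) :
    AA m θ * (Real.cos θ - Real.cos (Real.pi / (2 * m))) = Real.sin (Real.pi / (2 * m)) * Real.cos (m * θ) := by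
  have hmr : (0 : ℝ) < m := by exact_mod_cast hm
  set α := Real.pi / (2 * m) with hα
  have key : ∀ n : ℕ, (1 + 2 * ∑ j ∈ Finset.range n, Real.cos ((j + 1 : ℕ) * α) * Real.cos ((j + 1 : ℕ) * θ)) *
      (Real.cos θ - Real.cos α) = Real.cos ((n + 1 : ℕ) * θ) * Real.cos (n * α) - Real.cos (n * θ) * Real.cos ((n + 1 : ℕ) * α) := by
    intro n
    induction n with
    | zero => simp
    | succ n ih =>
      rw [Finset.sum_range_succ]
      have e1 : 2 * Real.cos ((n + 1 : ℕ) * θ) * Real.cos θ = Real.cos ((n + 1 + 1 : ℕ) * θ) + Real.cos (n * θ) := by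
        have h := Real.cos_add_cos ((n + 1 + 1 : ℕ) * θ) (n * θ)
        rw [h]; push_cast
        have a1 : (((n : ℝ) + 1 + 1) * θ + n * θ) / 2 = (n + 1) * θ := by ring
        have a2 : (((n : ℝ) + 1 + 1) * θ - n * θ) / 2 = θ := by ring
        rw [a1, a2]
      have e2 : 2 * Real.cos ((n + 1 : ℕ) * α) * Real.cos α = Real.cos ((n + 1 + 1 : ℕ) * α) + Real.cos (n * α) := by
        have h := Real.cos_add_cos ((n + 1 + 1 : ℕ) * α) (n * α)
        rw [h]; push_cast
        have a1 : (((n : ℝ) + 1 + 1) * α + n * α) / 2 = (n + 1) * α := by ring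
        have a2 : (((n : ℝ) + 1 + 1) * α - n * α) / 2 = α := by ring
        rw [a1, a2]
      linear_combination ih + Real.cos ((n + 1 : ℕ) * α) * e1 - Real.cos ((n + 1 : ℕ) * θ) * e2
  have h1 := key (m - 1)
  have hm1 : m - 1 + 1 = m := by omega
  rw [hm1] at h1
  unfold AA
  rw [h1]
  have e1 : (m : ℝ) * α = Real.pi / 2 := by rw [hα]; field_simp
  have e2 : ((m - 1 : ℕ) : ℝ) * α = Real.pi / 2 - α := by
    rw [Nat.cast_sub hm]; push_cast; rw [sub_mul, e1, one_mul]
  rw [e1, e2, Real.cos_pi_div_two, Real.cos_pi_div_two_sub]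
  ring

lemma AA_rtp (p m : ℕ) (hm : 1 ≤ m) : RTP p (m - 1) (fun u => AA m (u / p)) := by
  unfold AA
  have h1 : RTP p (m - 1) (fun t : ℝ => ∑ j ∈ Finset.range (m - 1),
      Real.cos ((j + 1 : ℕ) * (Real.pi / (2 * m))) * Real.cos ((j + 1 : ℕ) * (t / p))) :=
    RTP.sum _ _ fun j hj => (RTP.cos (j + 1) (by have := Finset.mem_range.1 hj; omega)).const_mul _
  exact ((RTP.const (p := p) 1).mono (Nat.zero_le _)).add (h1.const_mul 2)

lemma AA_abs (m : ℕ) (hm : 1 ≤ m) (θ : ℝ) : |AA m θ| ≤ 2 * m := by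
  unfold AA
  have h1 : |∑ j ∈ Finset.range (m - 1), Real.cos ((j + 1 : ℕ) * (Real.pi / (2 * m))) * Real.cos ((j + 1 : ℕ) * θ)| ≤ (m - 1 : ℕ) := by
    refine (Finset.abs_sum_le_sum_abs _ _).trans ?_
    calc _ ≤ ∑ j ∈ Finset.range (m - 1), (1 : ℝ) :=
          Finset.sum_le_sum fun j _ => by
            rw [abs_mul]
            exact mul_le_one₀ (Real.abs_cos_le_one _) (abs_nonneg _) (Real.abs_cos_le_one _)
      _ = _ := by simp
  rw [Nat.cast_sub hm, Nat.cast_one] at h1
  have h2 := abs_le.1 h1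
  rw [abs_le]; constructor <;> linarith [h2.1, h2.2]

lemma AA_lower (m : ℕ) (hm : 1 ≤ m) (θ : ℝ) (hθ : |θ| * m ≤ 1) : (m : ℝ) / 2 ≤ AA m θ := by
  have hmr : (0 : ℝ) < m := by exact_mod_cast hm
  unfold AA
  have hpi := Real.pi_pos
  have h1 : ∀ j ∈ Finset.range (m - 1), (1 - ((j : ℝ) + 1) / m) * (1 / 2) ≤
      Real.cos ((j + 1 : ℕ) * (Real.pi / (2 * m))) * Real.cos ((j + 1 : ℕ) * θ) := by
    intro j hj
    have hj' : (j : ℝ) + 1 ≤ m := by
      have := Finset.mem_range.1 hj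
      exact_mod_cast (by omega : j + 1 ≤ m)
    have hj0 : (0 : ℝ) ≤ j := by positivity
    have h2 := Real.one_sub_mul_le_cos (x := (j + 1 : ℕ) * (Real.pi / (2 * m))) (by positivity) (by
      push_cast
      rw [mul_div_assoc', div_le_div_iff₀ (by positivity) (by norm_num)]
      nlinarith)
    have e : 1 - 2 / Real.pi * ((j + 1 : ℕ) * (Real.pi / (2 * m))) = 1 - ((j : ℝ) + 1) / m := by
      push_cast; field_simp
    rw [e] at h2
    have h3 : 1 / 2 ≤ Real.cos ((j + 1 : ℕ) * θ) := by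
      have h4 := Real.one_sub_sq_div_two_le_cos (x := (j + 1 : ℕ) * θ)
      have h5 : |((j + 1 : ℕ) : ℝ) * θ| ≤ 1 := by
        rw [abs_mul, abs_of_nonneg (by positivity)]
        push_cast
        nlinarith [abs_nonneg θ]
      have h6 : (((j + 1 : ℕ) : ℝ) * θ) ^ 2 ≤ 1 := by
        rw [← sq_abs]; exact pow_le_one₀ (abs_nonneg _) h5
      linarith
    have h4 : 0 ≤ 1 - ((j : ℝ) + 1) / m := by
      rw [sub_nonneg, div_le_one hmr]; exact hj'
    exact mul_le_mul h2 h3 (by norm_num) (h4.trans h2)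
  have h2 := Finset.sum_le_sum h1
  have h3 : ∑ j ∈ Finset.range (m - 1), (1 - ((j : ℝ) + 1) / m) * (1 / 2) = ((m : ℝ) - 1) / 4 := by
    have h4 : ∀ n : ℕ, ∑ j ∈ Finset.range n, (1 - ((j : ℝ) + 1) / m) * (1 / 2) = (n - n * (n + 1) / (2 * m)) / 2 := by
      intro n
      induction n with
      | zero => simp
      | succ n ih =>
        rw [Finset.sum_range_succ, ih]; push_cast; field_simp; ring
    rw [h4, Nat.cast_sub hm]; push_cast; field_simp; ring
  rw [h3] at h2
  linarith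

lemma int_cos (p : ℕ) (hp : 0 < p) (l : ℕ) (hl : 1 ≤ l) :
    ∫ u in (-(Real.pi * p))..(Real.pi * p), Real.cos (l * (u / p)) = 0 := by
  have hpr : (0 : ℝ) < p := by exact_mod_cast hp
  have hlr : (0 : ℝ) < l := by exact_mod_cast hl
  have h1 : ∀ u : ℝ, HasDerivAt (fun u : ℝ => (p : ℝ) / l * Real.sin (l * (u / p))) (Real.cos (l * (u / p))) u := by
    intro u
    have e1 : HasDerivAt (fun u : ℝ => (l : ℝ) * (u / p)) ((l : ℝ) * (1 / p)) u :=
      ((hasDerivAt_id u).div_const _).const_mul _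
    have e2 := (e1.sin).const_mul ((p : ℝ) / l)
    have e3 : (p : ℝ) / l * (Real.cos (l * (u / p)) * (l * (1 / p))) = Real.cos (l * (u / p)) := by field_simp
    rw [e3] at e2; exact e2
  rw [intervalIntegral.integral_eq_sub_of_hasDerivAt (fun u _ => h1 u) (by
    apply Continuous.intervalIntegrable; fun_prop)]
  have e1 : (l : ℝ) * (Real.pi * p / p) = l * Real.pi := by field_simp
  have e2 : (l : ℝ) * (-(Real.pi * p) / p) = -(l * Real.pi) := by field_simp
  rw [e1, e2, Real.sin_neg, Real.sin_nat_mul_pi]; simp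

lemma int_cos_cos (p : ℕ) (hp : 0 < p) (j m : ℕ) (hj : j < m) :
    ∫ u in (-(Real.pi * p))..(Real.pi * p), Real.cos (j * (u / p)) * Real.cos (m * (u / p)) = 0 := by
  have h1 : ∀ u : ℝ, Real.cos (j * (u / p)) * Real.cos (m * (u / p)) =
      1 / 2 * Real.cos ((m - j : ℕ) * (u / p)) + 1 / 2 * Real.cos ((m + j : ℕ) * (u / p)) := by
    intro u
    have h2 := Real.cos_add_cos ((m - j : ℕ) * (u / p)) ((m + j : ℕ) * (u / p))
    rw [Nat.cast_sub hj.le] at h2 ⊢
    push_cast at h2 ⊢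
    have e1 : (((m : ℝ) - j) * (u / p) + ((m : ℝ) + j) * (u / p)) / 2 = m * (u / p) := by ring
    have e2 : (((m : ℝ) - j) * (u / p) - ((m : ℝ) + j) * (u / p)) / 2 = -(j * (u / p)) := by ring
    rw [e1, e2, Real.cos_neg] at h2
    linarith
  simp only [h1]
  rw [intervalIntegral.integral_add (by apply Continuous.intervalIntegrable; fun_prop)
    (by apply Continuous.intervalIntegrable; fun_prop), intervalIntegral.integral_const_mul,
    intervalIntegral.integral_const_mul, int_cos p hp _ (by omega), int_cos p hp _ (by omega)]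
  simp

lemma int_AA_cos (p : ℕ) (hp : 0 < p) (m : ℕ) (hm : 1 ≤ m) :
    ∫ u in (-(Real.pi * p))..(Real.pi * p), AA m (u / p) * Real.cos (m * (u / p)) = 0 := by
  have h1 : ∀ u : ℝ, AA m (u / p) * Real.cos (m * (u / p)) = Real.cos (m * (u / p)) +
      ∑ j ∈ Finset.range (m - 1), 2 * Real.cos ((j + 1 : ℕ) * (Real.pi / (2 * m))) *
        (Real.cos ((j + 1 : ℕ) * (u / p)) * Real.cos (m * (u / p))) := by
    intro u
    rw [AA, add_mul, one_mul, mul_assoc, Finset.sum_mul, Finset.mul_sum]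
    congr 1
    refine Finset.sum_congr rfl fun j _ => by ring
  simp only [h1]
  rw [intervalIntegral.integral_add (by apply Continuous.intervalIntegrable; fun_prop)
    (by apply Continuous.intervalIntegrable; fun_prop), int_cos p hp m hm, zero_add,
    intervalIntegral.integral_finsetSum (fun j _ => by apply Continuous.intervalIntegrable; fun_prop)]
  apply Finset.sum_eq_zero
  intro j hj
  rw [intervalIntegral.integral_const_mul, int_cos_cos p hp (j + 1) m (by have := Finset.mem_range.1 hj; omega), mul_zero]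

lemma cos_sub_cos_ge {α β : ℝ} (h0 : 0 ≤ α) (h1 : α ≤ β) (h2 : β ≤ Real.pi / 2) :
    2 / Real.pi ^ 2 * (β ^ 2 - α ^ 2) ≤ Real.cos α - Real.cos β := by
  rw [Real.cos_sub_cos]
  have e : -2 * Real.sin ((α + β) / 2) * Real.sin ((α - β) / 2) = 2 * Real.sin ((α + β) / 2) * Real.sin ((β - α) / 2) := by
    have : (α - β) / 2 = -((β - α) / 2) := by ring
    rw [this, Real.sin_neg]; ring
  rw [e]
  have h3 := Real.mul_le_sin (x := (α + β) / 2) (by linarith) (by linarith)
  have h4 := Real.mul_le_sin (x := (β - α) / 2) (by linarith) (by linarith)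
  have hpi := Real.pi_pos
  have h5 : 0 ≤ 2 / Real.pi * ((α + β) / 2) := by
    have : 0 ≤ (α + β) / 2 := by linarith
    positivity
  have h6 : 0 ≤ 2 / Real.pi * ((β - α) / 2) := by
    have : 0 ≤ (β - α) / 2 := by linarith
    positivity
  calc 2 / Real.pi ^ 2 * (β ^ 2 - α ^ 2) = 2 * (2 / Real.pi * ((α + β) / 2)) * (2 / Real.pi * ((β - α) / 2)) := by
        field_simp; ring
    _ ≤ _ := by gcongr; linarith

/-- lower bound of the integral of the extremal function -/
lemma int_H0 (p : ℕ) (hp : 2 ≤ p) (m : ℕ) (hm : 1 ≤ m) (hmp : m ≤ p) (hmp2 : p ≤ 2 * m) (r : ℝ) (hr : r ≤ Real.pi)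
    (hr1 : Real.pi * p / (2 * m) ≤ r) :
    1 / (2 * Real.pi ^ 2) * (r ^ 2 - (Real.pi * p / (2 * m)) ^ 2) ≤
      ∫ u in (-(Real.pi * p))..(Real.pi * p), AA m (u / p) ^ 2 * (Real.cos (u / p) - Real.cos (r / p)) := by
  have hpr : (0 : ℝ) < p := by exact_mod_cast (by omega : 0 < p)
  have hmr : (0 : ℝ) < m := by exact_mod_cast hm
  have hpi := Real.pi_pos
  set α := Real.pi / (2 * m) with hα
  have hcAA : Continuous fun u : ℝ => AA m (u / p) := by unfold AA; fun_prop
  have h1 : ∀ u : ℝ, AA m (u / p) ^ 2 * (Real.cos (u / p) - Real.cos (r / p)) =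
      Real.sin α * (AA m (u / p) * Real.cos (m * (u / p))) + (Real.cos α - Real.cos (r / p)) * AA m (u / p) ^ 2 := by
    intro u
    have h2 := AA_ident m hm (u / p)
    linear_combination AA m (u / p) * h2
  simp only [h1]
  rw [intervalIntegral.integral_add (by apply Continuous.intervalIntegrable; fun_prop)
    (by apply Continuous.intervalIntegrable; fun_prop), intervalIntegral.integral_const_mul,
    intervalIntegral.integral_const_mul, int_AA_cos p (by omega) m hm, mul_zero, zero_add]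
  have hr0 : 0 ≤ r := le_trans (by positivity) hr1
  have hαr : α ≤ r / p := by
    rw [le_div_iff₀ hpr, hα]
    calc Real.pi / (2 * m) * p = Real.pi * p / (2 * m) := by ring
      _ ≤ r := hr1
  have h2 := cos_sub_cos_ge (by positivity : 0 ≤ α) hαr (by
    rw [div_le_div_iff₀ hpr (by norm_num)]
    have : (2:ℝ) ≤ p := by exact_mod_cast hp
    nlinarith)
  have h3 : (p : ℝ) * m / 2 ≤ ∫ u in (-(Real.pi * p))..(Real.pi * p), AA m (u / p) ^ 2 := by
    have h4 : ∫ u in (-((p : ℝ) / m))..((p : ℝ) / m), AA m (u / p) ^ 2 ≤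
        ∫ u in (-(Real.pi * p))..(Real.pi * p), AA m (u / p) ^ 2 := by
      have h5 : (p : ℝ) / m ≤ Real.pi * p := by
        rw [div_le_iff₀ hmr]
        have : (1:ℝ) ≤ m := by exact_mod_cast hm
        have := Real.pi_gt_three
        nlinarith [mul_pos hpi hpr]
      have h6 : 0 ≤ (p : ℝ) / m := by positivity
      apply intervalIntegral.integral_mono_interval (by linarith) (by linarith) h5
      · exact Eventually.of_forall fun u => by positivity
      · apply Continuous.intervalIntegrable; fun_prop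
    refine le_trans ?_ h4
    have h6 : 0 ≤ (p : ℝ) / m := by positivity
    calc (p : ℝ) * m / 2 = ∫ u in (-((p : ℝ) / m))..((p : ℝ) / m), ((m : ℝ) / 2) ^ 2 := by
          rw [intervalIntegral.integral_const, smul_eq_mul]; field_simp; ring
      _ ≤ _ := by
          apply intervalIntegral.integral_mono_on (by linarith)
          · exact intervalIntegrable_const
          · apply Continuous.intervalIntegrable; fun_prop
          · intro u hu
            have h7 := AA_lower m hm (u / p) (by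
              rw [abs_div, abs_of_pos hpr]
              have : |u| ≤ p / m := abs_le.2 ⟨hu.1, hu.2⟩
              rw [le_div_iff₀ hmr] at this
              rw [div_mul_eq_mul_div, div_le_one hpr]; exact this)
            gcongr
  have h4 : 0 ≤ (r / p) ^ 2 - α ^ 2 := by
    rw [sub_nonneg]; gcongr
  calc 1 / (2 * Real.pi ^ 2) * (r ^ 2 - (Real.pi * p / (2 * m)) ^ 2)
      ≤ (m : ℝ) / p * (1 / Real.pi ^ 2 * (r ^ 2 - (Real.pi * p / (2 * m)) ^ 2)) := by
        have h5 : (1:ℝ) / 2 ≤ m / p := by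
          rw [div_le_div_iff₀ (by norm_num) hpr]
          have : (p : ℝ) ≤ 2 * m := by exact_mod_cast hmp2
          linarith
        have h6 : 0 ≤ r ^ 2 - (Real.pi * p / (2 * m)) ^ 2 := by rw [sub_nonneg]; gcongr
        calc 1 / (2 * Real.pi ^ 2) * (r ^ 2 - (Real.pi * p / (2 * m)) ^ 2)
            = 1 / 2 * (1 / Real.pi ^ 2 * (r ^ 2 - (Real.pi * p / (2 * m)) ^ 2)) := by ring
          _ ≤ _ := by gcongr
    _ = (2 / Real.pi ^ 2 * ((r / p) ^ 2 - α ^ 2)) * (p * m / 2) := by
        rw [hα]; field_simp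
    _ ≤ (Real.cos α - Real.cos (r / p)) * ∫ u in (-(Real.pi * p))..(Real.pi * p), AA m (u / p) ^ 2 := by
        apply mul_le_mul h2 h3 (by positivity)
        exact le_trans (by positivity) h2

noncomputable def rr (δ : ℝ) : ℝ := Real.pi / (1 + δ / 4)

theorem test_fun (δ : ℝ) (hδ0 : 0 < δ) (hδ1 : δ ≤ 1) :
    ∃ c₀ > 0, ∃ A > 0, ∃ p₀ : ℕ, ∀ p : ℕ, p₀ ≤ p → ∃ (H : ℝ → ℝ) (D : ℕ), RTP p D H ∧ (D : ℝ) ≤ (1 + δ) * p ∧
      (∀ u, rr δ ≤ |u| → |u| ≤ Real.pi * p → H u ≤ 0) ∧
      (∀ u, |u| ≤ Real.pi * p → |H u| ≤ A / (1 + |u|) ^ 4) ∧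
      c₀ ≤ ∫ u in (-(Real.pi * p))..(Real.pi * p), H u := by
  have hpi := Real.pi_pos
  set r := rr δ with hr
  have hr0 : 0 < r := by rw [hr, rr]; positivity
  have hrpi : r ≤ Real.pi := by rw [hr, rr]; exact div_le_self hpi.le (by linarith)
  set r1 := Real.pi / (1 + 3 * δ / 8) with hr1
  have hr10 : 0 < r1 := by positivity
  have hr1r : r1 < r := by
    rw [hr1, hr, rr]
    exact div_lt_div_of_pos_left hpi (by positivity) (by linarith)
  set c1 := 1 / (2 * Real.pi ^ 2) * (r ^ 2 - r1 ^ 2) with hc1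
  have hc10 : 0 < c1 := by
    have : r1 ^ 2 < r ^ 2 := by gcongr
    have h2 : 0 < r ^ 2 - r1 ^ 2 := by linarith
    positivity
  set B₀ := 4 * r ^ 2 with hB₀
  set b := min (δ / 24) (min (1 / r) (Real.sqrt (c1 / (24 * r ^ 2 * B₀ * (1 + r) ^ 2)))) with hb
  have hb0 : 0 < b := by
    apply lt_min (by positivity) (lt_min (by positivity) (Real.sqrt_pos.2 (by positivity)))
  have hb1 : b ≤ δ / 24 := min_le_left _ _
  have hb2 : b ≤ 1 / r := (min_le_right _ _).trans (min_le_left _ _)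
  have hb3 : b ^ 2 ≤ c1 / (24 * r ^ 2 * B₀ * (1 + r) ^ 2) := by
    have h1 : b ≤ Real.sqrt (c1 / (24 * r ^ 2 * B₀ * (1 + r) ^ 2)) := (min_le_right _ _).trans (min_le_right _ _)
    calc b ^ 2 ≤ Real.sqrt (c1 / (24 * r ^ 2 * B₀ * (1 + r) ^ 2)) ^ 2 := by gcongr
      _ = _ := Real.sq_sqrt (by positivity)
  refine ⟨c1 / 2, by positivity, 2 * (1 + r ^ 2) * (1 + Real.pi / b) ^ 6, by positivity, ⌈16 / δ⌉₊ + 2, ?_⟩
  intro p hp
  have hp2 : 2 ≤ p := by omega
  have hpr : (0 : ℝ) < p := by exact_mod_cast (by omega : 0 < p)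
  have hp16 : 16 / δ ≤ p := by
    have h1 : 16 / δ ≤ ⌈16 / δ⌉₊ := Nat.le_ceil _
    have h2 : ((⌈16 / δ⌉₊ + 2 : ℕ) : ℝ) ≤ p := by exact_mod_cast hp
    push_cast at h2; linarith
  have hδp : 16 ≤ δ * p := by rw [div_le_iff₀ hδ0] at hp16; linarith
  set m := ⌊(1 + δ / 2) * p / 2⌋₊ with hm
  set k := ⌊b * p⌋₊ with hk
  have hm1 : (m : ℝ) ≤ (1 + δ / 2) * p / 2 := Nat.floor_le (by positivity)
  have hm2 : (1 + δ / 2) * p / 2 < m + 1 := Nat.lt_floor_add_one _
  have hk1 : (k : ℝ) ≤ b * p := Nat.floor_le (by positivity)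
  have hk2 : b * p < k + 1 := Nat.lt_floor_add_one _
  have hm3 : (1 + 3 * δ / 8) * p ≤ 2 * m := by nlinarith
  have hmpos : (0 : ℝ) < m := by nlinarith
  have hm1' : 1 ≤ m := by exact_mod_cast hmpos
  have hmp : m ≤ p := by
    have : (m : ℝ) ≤ p := by nlinarith
    exact_mod_cast this
  have hpm : p ≤ 2 * m := by
    have : (p : ℝ) ≤ 2 * m := by nlinarith
    exact_mod_cast this
  have hpi1 : Real.pi * p / (2 * m) ≤ r1 := by
    rw [hr1, div_le_div_iff₀ (by positivity) (by positivity)]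
    nlinarith
  set H₀ : ℝ → ℝ := fun u => AA m (u / p) ^ 2 * (Real.cos (u / p) - Real.cos (r / p)) with hH₀
  set H : ℝ → ℝ := fun u => H₀ u * Dir p k u ^ 6 with hH
  have hH₀rtp : RTP p (2 * (m - 1) + 1) H₀ := by
    have h1 := (AA_rtp p m hm1').pow 2
    have h2 : RTP p 1 (fun u => Real.cos (u / p) - Real.cos (r / p)) := by
      have h3 := RTP.cos (p := p) (D := 1) 1 le_rfl
      have h4 := h3.sub ((RTP.const (p := p) (Real.cos (r / p))).mono (Nat.zero_le 1))
      simpa using h4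
    exact h1.mul h2
  have hHrtp : RTP p (2 * (m - 1) + 1 + 6 * k) H := hH₀rtp.mul ((Dir_rtp p k).pow 6)
  have hcosdiff : ∀ u : ℝ, |Real.cos (u / p) - Real.cos (r / p)| ≤ (u ^ 2 + r ^ 2) / (2 * p ^ 2) := by
    intro u
    have h1 := Real.one_sub_sq_div_two_le_cos (x := u / p)
    have h2 := Real.one_sub_sq_div_two_le_cos (x := r / p)
    have h3 := Real.cos_le_one (u / p)
    have h4 := Real.cos_le_one (r / p)
    have e : (u ^ 2 + r ^ 2) / (2 * p ^ 2) = (u / p) ^ 2 / 2 + (r / p) ^ 2 / 2 := by field_simp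
    rw [e, abs_le]
    have := sq_nonneg (u / p)
    have := sq_nonneg (r / p)
    constructor <;> linarith
  have hH₀b : ∀ u : ℝ, |H₀ u| ≤ 2 * (u ^ 2 + r ^ 2) := by
    intro u
    rw [hH₀]
    simp only
    rw [abs_mul, abs_pow]
    have h1 := AA_abs m hm1' (u / p)
    have h2 := hcosdiff u
    have h3 : (m : ℝ) ≤ p := by exact_mod_cast hmp
    calc |AA m (u / p)| ^ 2 * |Real.cos (u / p) - Real.cos (r / p)| ≤ (2 * p) ^ 2 * ((u ^ 2 + r ^ 2) / (2 * p ^ 2)) := by
          have : |AA m (u / p)| ≤ 2 * p := h1.trans (by linarith)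
          gcongr
      _ = _ := by field_simp
  have hDir : ∀ u, |u| ≤ Real.pi * p → |Dir p k u| * (1 + |u|) ≤ 1 + Real.pi / b := by
    intro u hu
    have h2 := Dir_decay p k (by omega) u hu
    have h3 := Dir_abs_le p k u
    have h4 : |Dir p k u| * ((b * p) * |u|) ≤ Real.pi * p := by
      refine le_trans ?_ h2
      gcongr
      have : (0:ℝ) ≤ k := by positivity
      linarith
    have h5 : |Dir p k u| * |u| ≤ Real.pi / b := by
      rw [le_div_iff₀ hb0]
      have : (|Dir p k u| * |u| * b) * p ≤ Real.pi * p := by nlinarith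
      exact le_of_mul_le_mul_right this hpr
    linarith
  have hcosr : ∀ u, r ≤ |u| → |u| ≤ Real.pi * p → Real.cos (u / p) - Real.cos (r / p) ≤ 0 := by
    intro u h1 h2
    have h3 : Real.cos (u / p) = Real.cos (|u| / p) := by
      rw [← Real.cos_abs (u / p), abs_div, abs_of_pos hpr]
    rw [h3, sub_nonpos]
    apply Real.cos_le_cos_of_nonneg_of_le_pi (by positivity)
    · rw [div_le_iff₀ hpr]; exact h2
    · gcongr
  have hcosr2 : ∀ u, |u| ≤ r → 0 ≤ Real.cos (u / p) - Real.cos (r / p) := by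
    intro u h1
    have h3 : Real.cos (u / p) = Real.cos (|u| / p) := by
      rw [← Real.cos_abs (u / p), abs_div, abs_of_pos hpr]
    rw [h3, sub_nonneg]
    apply Real.cos_le_cos_of_nonneg_of_le_pi (by positivity)
    · rw [div_le_iff₀ hpr]
      have : (2:ℝ) ≤ p := by exact_mod_cast hp2
      nlinarith
    · gcongr
  have hD6 : ∀ u, 0 ≤ Dir p k u ^ 6 ∧ Dir p k u ^ 6 ≤ 1 := by
    intro u
    constructor
    · positivity
    · have h1 := Dir_abs_le p k u
      have e : Dir p k u ^ 6 = |Dir p k u| ^ 6 := by rw [← abs_pow, abs_of_nonneg (by positivity)]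
      rw [e]; exact pow_le_one₀ (abs_nonneg _) h1
  refine ⟨H, 2 * (m - 1) + 1 + 6 * k, hHrtp, ?_, ?_, ?_, ?_⟩
  · have h1 : ((2 * (m - 1) + 1 + 6 * k : ℕ) : ℝ) ≤ 2 * m + 6 * k := by
      have : 2 * (m - 1) + 1 + 6 * k ≤ 2 * m + 6 * k := by omega
      exact_mod_cast this
    refine h1.trans ?_
    have h2 : b * p ≤ δ / 24 * p := by gcongr
    nlinarith
  · intro u h1 h2
    rw [hH]
    simp only
    have h3 := hcosr u h1 h2
    have h4 : H₀ u ≤ 0 := mul_nonpos_of_nonneg_of_nonpos (by positivity) h3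
    exact mul_nonpos_of_nonpos_of_nonneg h4 (hD6 u).1
  · intro u hu
    rw [hH]
    simp only
    have hu0 := abs_nonneg u
    rw [abs_mul, abs_pow, le_div_iff₀ (by positivity)]
    have h1 := hH₀b u
    have h2 := hDir u hu
    have h3 : 2 * (u ^ 2 + r ^ 2) ≤ 2 * (1 + r ^ 2) * (1 + |u|) ^ 2 := by
      rw [← sq_abs u]
      nlinarith [sq_nonneg r, mul_nonneg (sq_nonneg r) hu0, mul_nonneg (sq_nonneg r) (sq_nonneg (|u|))]
    calc |H₀ u| * |Dir p k u| ^ 6 * (1 + |u|) ^ 4
        ≤ (2 * (1 + r ^ 2) * (1 + |u|) ^ 2) * |Dir p k u| ^ 6 * (1 + |u|) ^ 4 := by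
          gcongr; exact h1.trans h3
      _ = 2 * (1 + r ^ 2) * (|Dir p k u| * (1 + |u|)) ^ 6 := by ring
      _ ≤ _ := by gcongr
  · have h1 := int_H0 p hp2 m hm1' hmp hpm r hrpi (hpi1.trans hr1r.le)
    have h2 : c1 ≤ ∫ u in (-(Real.pi * p))..(Real.pi * p), H₀ u := by
      refine le_trans ?_ h1
      rw [hc1]
      gcongr
    set G := 6 * b ^ 2 * r ^ 2 * B₀ * (1 + r) ^ 2 with hG
    have h3 : ∀ u, |u| ≤ Real.pi * p → H₀ u - G * (1 / (1 + |u|) ^ 2) ≤ H u := by
      intro u hu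
      have hu0 := abs_nonneg u
      have hG0 : 0 ≤ G * (1 / (1 + |u|) ^ 2) := by positivity
      rcases le_total (|u|) r with h | h
      · have h4 := Dir_ge p k u
        set y := ((k : ℝ) * (u / p)) ^ 2 with hy
        have hy0 : 0 ≤ y := by positivity
        have hyb : y ≤ b ^ 2 * r ^ 2 := by
          rw [hy]
          have e : ((k : ℝ) * (u / p)) ^ 2 = ((k : ℝ) / p) ^ 2 * |u| ^ 2 := by rw [sq_abs]; ring
          rw [e]
          have : (k : ℝ) / p ≤ b := by rw [div_le_iff₀ hpr]; exact hk1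
          gcongr
        have hy1 : y ≤ 1 := by
          refine hyb.trans ?_
          have : b * r ≤ 1 := by
            have := mul_le_mul_of_nonneg_right hb2 hr0.le
            rwa [one_div, inv_mul_cancel₀ hr0.ne'] at this
          calc b ^ 2 * r ^ 2 = (b * r) ^ 2 := by ring
            _ ≤ 1 := pow_le_one₀ (by positivity) this
        have h5 : 1 - 3 * y ≤ Dir p k u ^ 6 := by
          have h6 : (1 - y / 2) ^ 6 ≤ Dir p k u ^ 6 := by
            have : 0 ≤ 1 - y / 2 := by linarith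
            gcongr
          have h7 := one_add_mul_le_pow (a := -(y / 2)) (by linarith) 6
          have e7 : (1 + -(y / 2)) ^ 6 = (1 - y / 2) ^ 6 := by ring
          rw [e7] at h7
          push_cast at h7
          linarith
        have h6 : 0 ≤ H₀ u := mul_nonneg (by positivity) (hcosr2 u h)
        have h7 : H₀ u ≤ B₀ := by
          refine (le_abs_self _).trans ((hH₀b u).trans ?_)
          rw [hB₀, ← sq_abs u]
          have : |u| ^ 2 ≤ r ^ 2 := by gcongr
          linarith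
        have h8 : 3 * y * B₀ ≤ G * (1 / (1 + |u|) ^ 2) := by
          rw [mul_one_div, le_div_iff₀ (by positivity), hG]
          have h9 : (1 + |u|) ^ 2 ≤ (1 + r) ^ 2 := by gcongr
          calc 3 * y * B₀ * (1 + |u|) ^ 2 ≤ 3 * (b ^ 2 * r ^ 2) * B₀ * (1 + r) ^ 2 := by gcongr
            _ ≤ 6 * b ^ 2 * r ^ 2 * B₀ * (1 + r) ^ 2 := by
              have : 0 ≤ b ^ 2 * r ^ 2 * B₀ * (1 + r) ^ 2 := by positivity
              nlinarith
        rw [hH]; simp only
        nlinarith
      · have h4 := hcosr u h hu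
        have h5 : H₀ u ≤ 0 := mul_nonpos_of_nonneg_of_nonpos (by positivity) h4
        have h6 := (hD6 u).2
        rw [hH]; simp only
        nlinarith
    have hcont1 : Continuous H₀ := hH₀rtp.continuous
    have hcont2 : Continuous H := hHrtp.continuous
    have hcont3 : Continuous fun u : ℝ => 1 / (1 + |u|) ^ 2 := by
      apply Continuous.div continuous_const (by fun_prop)
      intro u; have := abs_nonneg u; positivity
    have hP : 0 ≤ Real.pi * (p : ℝ) := by positivity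
    have h4 : ∫ u in (-(Real.pi * p))..(Real.pi * p), (H₀ u - G * (1 / (1 + |u|) ^ 2)) ≤
        ∫ u in (-(Real.pi * p))..(Real.pi * p), H u := by
      apply intervalIntegral.integral_mono_on (by linarith)
      · exact (hcont1.sub (continuous_const.mul hcont3)).intervalIntegrable _ _
      · exact hcont2.intervalIntegrable _ _
      · intro u hu
        exact h3 u (abs_le.2 ⟨hu.1, hu.2⟩)
    have h44 : ∫ u in (-(Real.pi * p))..(Real.pi * p), (H₀ u - G * (1 / (1 + |u|) ^ 2)) =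
        (∫ u in (-(Real.pi * p))..(Real.pi * p), H₀ u) - G * ∫ u in (-(Real.pi * p))..(Real.pi * p), 1 / (1 + |u|) ^ 2 := by
      rw [← intervalIntegral.integral_const_mul]
      exact intervalIntegral.integral_sub (hcont1.intervalIntegrable _ _)
        ((continuous_const.mul hcont3).intervalIntegrable _ _)
    rw [h44] at h4
    have h5 := int_inv_sq (Real.pi * p) hP
    have h6 : G * ∫ u in (-(Real.pi * p))..(Real.pi * p), 1 / (1 + |u|) ^ 2 ≤ G * 2 := by
      have : 0 ≤ G := by positivity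
      gcongr
    have h7 : G * 2 ≤ c1 / 2 := by
      rw [hG]
      rw [le_div_iff₀ (by positivity)] at hb3
      linarith
    linarith

end Pool.Agent.Helper514.Cheb
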