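import Pool.Agent.Helper514.Cheb.Kern

set_option autoImplicit false

open Filter Topology

namespace Pool.Agent.Helper514.Cheb

variable {p D : ℕ}

lemma RTP.per (hp : 0 < p) {f : ℝ → ℝ} (hf : RTP p D f) : Function.Periodic f (2 * Real.pi * p) :=
  fun t => hf.periodic hp t

/-- reduction to one period centred at `u` -/
lemma exists_rep (hp : 0 < p) (u s : ℝ) : ∃ (k : ℤ), |s - k * (2 * Real.pi * p) - u| ≤ Real.pi * p := by
  have hpr : (0 : ℝ) < p := by exact_mod_cast hp
  have hP : 0 < 2 * Real.pi * p := by positivity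
  refine ⟨round ((s - u) / (2 * Real.pi * p)), ?_⟩
  have h1 := abs_sub_round ((s - u) / (2 * Real.pi * p))
  have h2 : s - (round ((s - u) / (2 * Real.pi * p)) : ℝ) * (2 * Real.pi * p) - u =
      ((s - u) / (2 * Real.pi * p) - round ((s - u) / (2 * Real.pi * p))) * (2 * Real.pi * p) := by
    field_simp; ring
  rw [h2, abs_mul, abs_of_pos hP]
  nlinarith

lemma per_int {f : ℝ → ℝ} {c : ℝ} (hf : Function.Periodic f c) (k : ℤ) (s : ℝ) : f (s - k * c) = f s := by
  have := hf.sub_zsmul_eq (x := s) k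
  simpa [zsmul_eq_mul] using this

lemma bdd_of_period (hp : 0 < p) {f : ℝ → ℝ} (hf : Function.Periodic f (2 * Real.pi * p)) (u M : ℝ)
    (h : ∀ s, |s - u| ≤ Real.pi * p → |f s| ≤ M) (s : ℝ) : |f s| ≤ M := by
  obtain ⟨k, hk⟩ := exists_rep hp u s
  rw [← per_int hf k s]
  exact h _ hk

lemma deriv_zero_of_even {K : ℝ → ℝ} (hd : Differentiable ℝ K) (he : ∀ t, K (-t) = K t) : deriv K 0 = 0 := by
  have h1 : HasDerivAt K (deriv K 0) 0 := (hd 0).hasDerivAt
  have h2 : HasDerivAt (fun t => K (-t)) (-(deriv K 0)) 0 := by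
    have h3 : HasDerivAt K (deriv K 0) (-0) := by simpa using h1
    have := h3.scomp (0 : ℝ) (hasDerivAt_neg (0 : ℝ))
    simpa [Function.comp_def] using this
  have h3 : (fun t => K (-t)) = K := funext he
  rw [h3] at h2
  have := h1.unique h2
  linarith

lemma wt_mono {ε ε' E u : ℝ} (h : ε ≤ ε') (hE : 1 ≤ E) : wt ε E u ≤ wt ε' E u := by
  unfold wt
  have h1 := one_le_LL (by linarith : (0:ℝ) ≤ E)
  have h2 : 0 ≤ min |u| E := le_min (abs_nonneg _) (by linarith)
  gcongr

lemma wt_pos (ε E u : ℝ) : 0 < wt ε E u := Real.exp_pos _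

lemma one_le_wt {ε E u : ℝ} (hε : 0 ≤ ε) (hE : 1 ≤ E) : 1 ≤ wt ε E u := by
  unfold wt
  have h1 := one_le_LL (by linarith : (0:ℝ) ≤ E)
  have h2 : 0 ≤ min |u| E := le_min (abs_nonneg _) (by linarith)
  exact Real.one_le_exp (by positivity)

lemma wt_submul {ε E u v : ℝ} (hε : 0 ≤ ε) (hE : 1 ≤ E) : wt ε E (u + v) ≤ wt ε E u * wt ε E v := by
  unfold wt
  have h1 := one_le_LL (by linarith : (0:ℝ) ≤ E)
  rw [← Real.exp_add, Real.exp_le_exp, ← add_div, ← mul_add]
  have h2 : min |u + v| E ≤ min |u| E + min |v| E := by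
    have h3 := abs_add_le u v
    rcases min_cases |u| E with ⟨h4, h5⟩ | ⟨h4, h5⟩ <;> rcases min_cases |v| E with ⟨h6, h7⟩ | ⟨h6, h7⟩ <;>
      rw [h4, h6]
    · exact (min_le_left _ _).trans h3
    · exact (min_le_right _ _).trans (by linarith [abs_nonneg u])
    · exact (min_le_right _ _).trans (by linarith [abs_nonneg v])
    · exact (min_le_right _ _).trans (by linarith)
  gcongr

lemma wt_neg (ε E u : ℝ) : wt ε E (-u) = wt ε E u := by unfold wt; rw [abs_neg]

/-- the constant in the weighted Bernstein inequality -/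
noncomputable def CB : ℝ := 4 * (1 + Real.pi / (1/10)) ^ 8 * Real.exp 1

lemma one_le_CB : 1 ≤ CB := by
  unfold CB
  have h1 : (1 : ℝ) ≤ (1 + Real.pi / (1/10)) ^ 8 := one_le_pow₀ (by have := Real.pi_pos; linarith [div_pos this (by norm_num : (0:ℝ) < 1/10)])
  have h2 : (1 : ℝ) ≤ Real.exp 1 := Real.one_le_exp (by norm_num)
  nlinarith

theorem WB (hp : 0 < p) {P : ℝ → ℝ} (hP : RTP p D P) {E ε u A : ℝ} (hE : 1 ≤ E) (hε1 : ε ≤ 1 / 100)
    (hA : 0 ≤ A) (h : ∀ s, |P s| ≤ A * ((1 + |s - u|) ^ 8 * wt ε E (s - u))) :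
    |deriv P u| ≤ CB * A * Real.exp (D / p) := by
  obtain ⟨K, D', hK, hD', hK0, hK1, hKz, hKe, hKd, -⟩ :=
    kernel_exists (1/10) (1/10) (by norm_num) (by norm_num) (by norm_num) p hp E hE
  have hpr : (0 : ℝ) < p := by exact_mod_cast hp
  have hQ : RTP p (D + D') (fun s => P s * K (s + (-u))) := hP.mul (hK.shift (-u))
  set M := A * (4 * (1 + Real.pi / (1/10)) ^ 8) with hM
  have hb : ∀ s, |P s * K (s + (-u))| ≤ M := by
    refine bdd_of_period hp (hQ.per hp) u M ?_
    intro s hs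
    have h1 := hKd (s + (-u)) (by simpa [sub_eq_add_neg] using hs)
    rw [abs_mul, abs_of_nonneg (hK0 _)]
    have h2 := h s
    have h3 : wt ε E (s - u) ≤ wt (1/10/10) E (s - u) := wt_mono (by linarith) hE
    calc |P s| * K (s + -u) ≤ (A * ((1 + |s - u|) ^ 8 * wt ε E (s - u))) * K (s + -u) := by
          gcongr; exact hK0 _
      _ ≤ (A * ((1 + |s - u|) ^ 8 * wt (1/10/10) E (s - u))) * K (s + -u) := by
          gcongr; exact hK0 _
      _ = A * (K (s + -u) * ((1 + |s + -u|) ^ 8 * wt (1/10/10) E (s + -u))) := by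
          rw [sub_eq_add_neg]; ring
      _ ≤ _ := by rw [hM]; gcongr
  have h4 := hQ.deriv_bound hp hb u
  have h5 : deriv (fun s => P s * K (s + (-u))) u = deriv P u := by
    have d1 : HasDerivAt P (deriv P u) u := (hP.differentiable u).hasDerivAt
    have d2 : HasDerivAt (fun s => K (s + (-u))) (deriv K 0) u := by
      have h6 : HasDerivAt K (deriv K 0) (u + (-u)) := by
        rw [add_neg_cancel]; exact (hK.differentiable 0).hasDerivAt
      exact h6.comp_add_const u (-u)
    have d3 := (d1.mul d2).deriv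
    rw [deriv_zero_of_even hK.differentiable hKe] at d3
    simp only [add_neg_cancel, hKz, mul_one, mul_zero, add_zero] at d3
    exact d3
  rw [h5] at h4
  refine h4.trans ?_
  have h6 : ((D + D' : ℕ) : ℝ) / p ≤ D / p + 1 := by
    push_cast
    rw [add_div]
    have : (D' : ℝ) / p ≤ 1 := by
      rw [div_le_one hpr]; linarith
    linarith
  calc M * Real.exp (((D + D' : ℕ) : ℝ) / p) ≤ M * Real.exp (D / p + 1) := by
        have : 0 ≤ M := by rw [hM]; positivity
        gcongr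
    _ = _ := by rw [Real.exp_add, hM, CB]; ring

end Pool.Agent.Helper514.Cheb
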